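import Pool.Agent.R537.IP.Sz

/-!
# A projection with dense complement lies in a hypersurface of bounded degree
-/

set_option autoImplicit false

namespace Pool.Agent.R537.IP

open Finset Filter Topology Pool.Agent.H612 Pool.Agent.R537.RN

variable {Θ Z : Type} [Fintype Θ] [Fintype Z]

theorem trN_le (c : ℝ) : trN.ν c ≤ 1 := by
  simp only [trN]
  split_ifs <;> omega

theorem real_ext_φ (p : ℕ) (s : Unit × (Fin p → ℝ)) (P : MvPolynomial (Fin p) ℝ) :
    (Lvl.real.ext p).φ s P = MvPolynomial.eval s.2 P := rfl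

/-- The polynomial for a bounded part. -/
theorem badPoly_R (Λ : MvPolynomial (Z ⊕ Θ) ℝ) (a : ℕ) (ha : 1 + (gm _).ν Λ ≤ 2 ^ 2 ^ a)
    (hnn : ∀ ζ c, 0 ≤ MvPolynomial.eval (Sum.elim ζ c) Λ)
    (hd : Dense {c : Θ → ℝ | ∀ ζ, MvPolynomial.eval (Sum.elim ζ c) Λ ≠ 0}) (R : ℝ)
    {N p : ℕ} (eZ : Z ≃ Fin N) (eΘ : Θ ≃ Fin p) :
    ∃ P : MvPolynomial (Fin p) ℝ, P ≠ 0 ∧ (wm trN p).ν P ≤ 2 ^ 2 ^ Gx N a ∧
      ∀ (y : Z → ℝ) (c : Θ → ℝ), (∀ i, |y i| ≤ 1) →
        MvPolynomial.eval (Sum.elim (fun i => R * y i) c) Λ = 0 →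
        MvPolynomial.eval (fun j => c (eΘ.symm j)) P = 0 := by
  obtain ⟨F, hFdef⟩ : ∃ F : MvPolynomial (Fin N) (MvPolynomial (Fin p) ℝ), F =
      Λ.eval₂ ((MvPolynomial.C : MvPolynomial (Fin p) ℝ →+* _).comp MvPolynomial.C)
        (Sum.elim (fun i => MvPolynomial.C (MvPolynomial.C R) * MvPolynomial.X (eZ i))
          (fun θ => MvPolynomial.C (MvPolynomial.X (eΘ θ)))) := ⟨_, rfl⟩
  have hF : ∀ s, ((Lvl.real.ext p).ext N).φ s F =
      MvPolynomial.eval (Sum.elim (fun i => R * s.2 (eZ i)) (fun θ => s.1.2 (eΘ θ))) Λ := by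
    intro s
    rw [hFdef, MvPolynomial.hom_eval₂]
    have e0 : ∀ (u : Unit) (c : ℝ), Lvl.real.φ u c = c := fun _ _ => rfl
    have e1 : (((Lvl.real.ext p).ext N).φ s).comp
        ((MvPolynomial.C : MvPolynomial (Fin p) ℝ →+* _).comp MvPolynomial.C) =
        RingHom.id ℝ := by
      refine RingHom.ext fun c => ?_
      simp only [RingHom.comp_apply, ext_φ_C, e0, RingHom.id_apply]
    rw [e1]
    have e2 : (fun i => ((Lvl.real.ext p).ext N).φ s
        (Sum.elim (fun i => MvPolynomial.C (MvPolynomial.C R) * MvPolynomial.X (eZ i))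
          (fun θ => MvPolynomial.C (MvPolynomial.X (eΘ θ))) i)) =
        Sum.elim (fun i => R * s.2 (eZ i)) (fun θ => s.1.2 (eΘ θ)) := by
      funext i
      rcases i with i | i
      · simp only [Sum.elim_inl, map_mul, ext_φ_C, ext_φ_X, e0]
      · simp only [Sum.elim_inr, ext_φ_C, real_ext_φ, MvPolynomial.eval_X]
    rw [e2]
    rfl
  have hFν : (wm (wm trN p) N).ν F ≤ (gm _).ν Λ := by
    rw [hFdef]
    refine ν_eval₂ _ _ _ (fun c => ?_) (fun i => ?_) Λ
    · rw [RingHom.comp_apply, wm_C, wm_C]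
      exact trN_le c
    · rcases i with i | i
      · simp only [Sum.elim_inl]
        refine ((wm (wm trN p) N).mul _ _).trans ?_
        rw [wm_C, wm_C]
        calc _ ≤ 1 * 2 := Nat.mul_le_mul (trN_le R) (wm_X _ _)
          _ = 2 := one_mul _
      · simp only [Sum.elim_inr]
        rw [wm_C]
        exact wm_X _ _
  obtain ⟨h, hh⟩ : ∃ h : (Unit × (Fin p → ℝ)) × (Fin N → ℝ) → ℝ,
      ∀ s, h s = -((Lvl.real.ext p).ext N).φ s F := ⟨_, fun s => rfl⟩
  have hc : Continuous h := by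
    have : h = fun s => -((Lvl.real.ext p).ext N).φ s F := funext hh
    rw [this]
    exact (((Lvl.real.ext p).ext N).cont F).neg
  have hP0 : Polynomial.X + Polynomial.C F ≠ 0 := (Polynomial.monic_X_add_C F).ne_zero
  have hB : (wm (wm trN p) N).poly.ν (Polynomial.X + Polynomial.C F) ≤ 2 ^ 2 ^ a :=
    (ν_X_add_C _ F).trans ((Nat.add_le_add_left hFν 1).trans ha)
  obtain ⟨Q, hQ0, hQν, hQ⟩ := (Lvl.real.ext p).step (wm trN p)
    (wm_pos trN trN_pos) (Polynomial.X + Polynomial.C F) hP0 _ hB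
    Nat.one_le_two_pow h hc (fun s => by
      rw [Polynomial.eval₂_add, Polynomial.eval₂_X, Polynomial.eval₂_C, hh]; ring)
  obtain ⟨r, Q', hfac, hc0, hcr⟩ := exists_trailing Q hQ0
  refine ⟨Q'.coeff 0, hc0, ?_, ?_⟩
  · rw [hcr]
    exact ((wm trN p).ν_coeff_le Q r).trans (hQν.trans (bndL_le N a _ (le_refl _)))
  -- the relation after the division
  have hcb := continuous_bmax hc
  have hcl : IsClosed {s | Q'.eval₂ ((Lvl.real.ext p).φ s) (bmax h s) = 0} :=
    isClosed_eq ((Lvl.real.ext p).cont_eval Q' hcb) continuous_const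
  have hden : Dense {s : Unit × (Fin p → ℝ) |
      ∀ ζ, MvPolynomial.eval (Sum.elim ζ (fun θ => s.2 (eΘ θ))) Λ ≠ 0} := by
    obtain ⟨ψ, hψ⟩ : ∃ ψ : (Θ → ℝ) → Unit × (Fin p → ℝ),
        ∀ c, ψ c = ((), fun j => c (eΘ.symm j)) := ⟨_, fun _ => rfl⟩
    have hψc : Continuous ψ := by
      have : ψ = fun c => ((), fun j => c (eΘ.symm j)) := funext hψ
      rw [this]
      fun_prop
    have hψs : Function.Surjective ψ := by
      rintro ⟨u, c⟩
      refine ⟨fun θ => c (eΘ θ), ?_⟩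
      rw [hψ]
      simp
    have h1 := hψs.denseRange.dense_image hψc hd
    refine h1.mono ?_
    rintro _ ⟨c, hcc, rfl⟩
    rw [hψ]
    simpa using hcc
  have hall : ∀ s, Q'.eval₂ ((Lvl.real.ext p).φ s) (bmax h s) = 0 := by
    have h1 : {s : Unit × (Fin p → ℝ) |
      ∀ ζ, MvPolynomial.eval (Sum.elim ζ (fun θ => s.2 (eΘ θ))) Λ ≠ 0} ⊆
        {s | Q'.eval₂ ((Lvl.real.ext p).φ s) (bmax h s) = 0} := by
      intro s hs
      have h2 : bmax h s ≠ 0 := by
        obtain ⟨y, -, hy⟩ := exists_bmax hc s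
        rw [← hy, hh, hF]
        exact neg_ne_zero.2 (hs _)
      have h3 := hQ s
      rw [hfac, Polynomial.eval₂_mul, Polynomial.eval₂_pow, Polynomial.eval₂_X] at h3
      exact (mul_eq_zero.1 h3).resolve_left (pow_ne_zero _ h2)
    intro s
    have h4 : s ∈ closure {s | Q'.eval₂ ((Lvl.real.ext p).φ s) (bmax h s) = 0} :=
      (hden.mono h1) s
    rwa [hcl.closure_eq] at h4
  intro y c hy hΛ
  have h5 := hall ((), fun j => c (eΘ.symm j))
  have h6 : bmax h ((), fun j => c (eΘ.symm j)) = 0 := by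
    refine le_antisymm ?_ ?_
    · obtain ⟨y', -, hy'⟩ := exists_bmax hc ((), fun j => c (eΘ.symm j))
      rw [← hy', hh, hF]
      have := hnn (fun i => R * y' (eZ i)) (fun θ => c (eΘ.symm (eΘ θ)))
      linarith
    · have h7 : (fun j => y (eZ.symm j)) ∈ cube N := fun j => hy _
      have h8 := le_bmax hc ((), fun j => c (eΘ.symm j)) h7
      rw [hh, hF] at h8
      simp only [Equiv.symm_apply_apply] at h8
      rw [hΛ] at h8
      linarith
  rw [h6, Polynomial.eval₂_at_zero, real_ext_φ] at h5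
  exact h5

theorem badPoly (Λ : MvPolynomial (Z ⊕ Θ) ℝ) (a : ℕ) (ha : 1 + (gm _).ν Λ ≤ 2 ^ 2 ^ a)
    (hnn : ∀ ζ c, 0 ≤ MvPolynomial.eval (Sum.elim ζ c) Λ)
    (hd : Dense {c : Θ → ℝ | ∀ ζ, MvPolynomial.eval (Sum.elim ζ c) Λ ≠ 0}) :
    ∃ P : MvPolynomial Θ ℝ, P ≠ 0 ∧
      (∀ d ∈ P.support, ∀ i, d i ≤ 2 ^ Gx (Fintype.card Z) a) ∧
      ∀ ζ c, MvPolynomial.eval (Sum.elim ζ c) Λ = 0 → MvPolynomial.eval c P = 0 := by
  classical
  obtain ⟨p, hp⟩ : ∃ p, p = Fintype.card Θ := ⟨_, rfl⟩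
  obtain ⟨N, hN⟩ : ∃ N, N = Fintype.card Z := ⟨_, rfl⟩
  obtain ⟨D, hD⟩ : ∃ D, D = 2 ^ Gx N a := ⟨_, rfl⟩
  rw [← hN, ← hD]
  have eZ : Z ≃ Fin N := hN ▸ Fintype.equivFin Z
  have eΘ : Θ ≃ Fin p := hp ▸ Fintype.equivFin Θ
  -- the box of exponents
  obtain ⟨Bx, hBx, hBx'⟩ : ∃ Bx : Finset (Fin p →₀ ℕ),
      (∀ d : Fin p →₀ ℕ, d.degree ≤ D → d ∈ Bx) ∧ ∀ d ∈ Bx, ∀ i, d i ≤ D := by
    refine ⟨Finset.Iic (Finsupp.equivFunOnFinite.symm fun _ => D), fun d hd' => ?_,
      fun d hd' i => ?_⟩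
    · rw [Finset.mem_Iic]
      intro i
      simp only [Finsupp.equivFunOnFinite_symm_apply_apply]
      exact (Finsupp.le_degree i d).trans hd'
    · rw [Finset.mem_Iic] at hd'
      simpa using hd' i
  obtain ⟨mk, hmk⟩ : ∃ mk : (Bx → ℝ) → MvPolynomial (Fin p) ℝ,
      ∀ b, mk b = ∑ d : Bx, MvPolynomial.monomial d.1 (b d) := ⟨_, fun _ => rfl⟩
  obtain ⟨V, hV⟩ : ∃ V : ℕ → Submodule ℝ (Bx → ℝ), ∀ R b, b ∈ V R ↔
      ∀ (y : Z → ℝ) (c : Θ → ℝ), (∀ i, |y i| ≤ 1) →
        MvPolynomial.eval (Sum.elim (fun i => (R : ℝ) * y i) c) Λ = 0 →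
        MvPolynomial.eval (fun j => c (eΘ.symm j)) (mk b) = 0 := by
    refine ⟨fun R =>
      { carrier := {b | ∀ (y : Z → ℝ) (c : Θ → ℝ), (∀ i, |y i| ≤ 1) →
          MvPolynomial.eval (Sum.elim (fun i => (R : ℝ) * y i) c) Λ = 0 →
          MvPolynomial.eval (fun j => c (eΘ.symm j)) (mk b) = 0}
        add_mem' := ?_
        zero_mem' := ?_
        smul_mem' := ?_ }, fun R b => Iff.rfl⟩
    · intro b b' hb hb' y c hy hΛ
      have h1 : mk (b + b') = mk b + mk b' := by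
        rw [hmk, hmk, hmk, ← Finset.sum_add_distrib]
        refine Finset.sum_congr rfl fun d _ => ?_
        rw [Pi.add_apply, map_add]
      rw [h1, map_add, hb y c hy hΛ, hb' y c hy hΛ, add_zero]
    · intro y c hy hΛ
      rw [hmk]
      simp
    · intro t b hb y c hy hΛ
      have h1 : mk (t • b) = MvPolynomial.C t * mk b := by
        rw [hmk, hmk, Finset.mul_sum]
        refine Finset.sum_congr rfl fun d _ => ?_
        rw [Pi.smul_apply, smul_eq_mul, MvPolynomial.C_mul_monomial]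
      rw [h1, map_mul, hb y c hy hΛ, mul_zero]
  have hanti : ∀ R R' : ℕ, R ≤ R' → V R' ≤ V R := by
    intro R R' hR b hb
    rw [hV] at hb ⊢
    intro y c hy hΛ
    rcases Nat.eq_zero_or_pos R' with h0 | h0
    · have : R = R' := by omega
      rw [this] at hΛ
      exact hb y c hy hΛ
    · refine hb (fun i => (R : ℝ) / R' * y i) c (fun i => ?_) ?_
      · rw [abs_mul]
        have h1 : |(R : ℝ) / R'| ≤ 1 := by
          rw [abs_of_nonneg (by positivity)]
          rw [div_le_one (by exact_mod_cast h0)]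
          exact_mod_cast hR
        have := hy i
        nlinarith [abs_nonneg (y i), abs_nonneg ((R : ℝ) / R')]
      · have h2 : (fun i => (R' : ℝ) * ((R : ℝ) / R' * y i)) = fun i => (R : ℝ) * y i := by
          funext i
          have : (R' : ℝ) ≠ 0 := by exact_mod_cast h0.ne'
          field_simp
        rw [h2]
        exact hΛ
  have hne : ∀ R : ℕ, ∃ b ∈ V R, mk b ≠ 0 := by
    intro R
    obtain ⟨P, hP0, hPν, hP⟩ := badPoly_R Λ a ha hnn hd R eZ eΘ
    refine ⟨fun d => P.coeff d.1, ?_, ?_⟩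
    all_goals
      have h1 : mk (fun d => P.coeff d.1) = P := by
        rw [hmk]
        rw [Finset.sum_coe_sort Bx (fun d => MvPolynomial.monomial d (P.coeff d))]
        conv_rhs => rw [P.as_sum]
        symm
        refine Finset.sum_subset (fun d hd' => hBx d ?_) (fun d _ hd' => ?_)
        · have h2 := two_pow_le_wν trN trN_pos hd'
          have h3 := (h2.trans hPν)
          have h4 := (Nat.pow_le_pow_iff_right (by norm_num : 1 < 2)).1 h3
          rw [Finsupp.degree_eq_sum, hD]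
          exact h4
        · rw [MvPolynomial.notMem_support_iff.1 hd']
          simp
    · rw [hV]
      intro y c hy hΛ
      rw [h1]
      exact hP y c hy hΛ
    · rw [h1]
      exact hP0
  obtain ⟨R0, hR0⟩ := IsArtinian.monotone_stabilizes (R := ℝ) (M := Bx → ℝ)
    ⟨fun R => OrderDual.toDual (V R), fun R R' h => hanti R R' h⟩
  obtain ⟨b, hb, hb0⟩ := hne R0
  refine ⟨MvPolynomial.rename eΘ.symm (mk b), ?_, ?_, ?_⟩
  · intro h
    apply hb0
    exact (MvPolynomial.rename_injective _ eΘ.symm.injective) (by rw [h, map_zero])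
  · intro d hd' i
    rw [MvPolynomial.support_rename_of_injective eΘ.symm.injective, Finset.mem_image] at hd'
    obtain ⟨d', hd1, rfl⟩ := hd'
    have h1 : Finsupp.mapDomain eΘ.symm d' i = d' (eΘ i) := by
      have := Finsupp.mapDomain_apply eΘ.symm.injective d' (eΘ i)
      rwa [Equiv.symm_apply_apply] at this
    rw [h1]
    refine hBx' d' ?_ _
    rw [hmk] at hd1
    by_contra hcon
    rw [MvPolynomial.mem_support_iff] at hd1
    apply hd1
    rw [MvPolynomial.coeff_sum]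
    refine Finset.sum_eq_zero fun e _ => ?_
    rw [MvPolynomial.coeff_monomial, if_neg]
    rintro rfl
    exact hcon e.2
  · intro ζ c hΛ
    rw [MvPolynomial.eval_rename]
    obtain ⟨R, hR1, hR2⟩ : ∃ R : ℕ, R0 ≤ R ∧ ∀ i, |ζ i| ≤ R := by
      obtain ⟨R, hR⟩ := exists_nat_ge (∑ i, |ζ i|)
      refine ⟨max R0 R, le_max_left _ _, fun i => ?_⟩
      have h1 : |ζ i| ≤ ∑ i, |ζ i| :=
        Finset.single_le_sum (f := fun i => |ζ i|) (fun _ _ => abs_nonneg _) (Finset.mem_univ i)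
      have h2 : (R : ℝ) ≤ ((max R0 R : ℕ) : ℝ) := by exact_mod_cast le_max_right _ _
      linarith
    have hbR : b ∈ V (R + 1) := by
      have h1 := hR0 (R + 1) (by omega)
      have h2 : V R0 = V (R + 1) := h1
      rw [← h2]
      exact hb
    rw [hV] at hbR
    refine hbR (fun i => ζ i / ((R + 1 : ℕ) : ℝ)) c (fun i => ?_) ?_
    · have h1 := hR2 i
      rw [abs_div, abs_of_nonneg (by positivity : (0:ℝ) ≤ ((R + 1 : ℕ) : ℝ))]
      rw [div_le_one (by positivity)]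
      push_cast
      linarith
    · have h2 : (fun i => ((R + 1 : ℕ) : ℝ) * (ζ i / ((R + 1 : ℕ) : ℝ))) = ζ := by
        funext i
        have : ((R + 1 : ℕ) : ℝ) ≠ 0 := by positivity
        field_simp
      rw [h2]
      exact hΛ

end Pool.Agent.R537.IP
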