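import Pool.Agent.R537.IP.Form

/-!
# An isolated point of the base
-/

set_option autoImplicit false

namespace Pool.Agent.NPC.R537IP

open Pool.Agent.NPC Pool.Agent.NPC.ER Pool.Agent.NPC.H612 Pool.Agent.NPC.R537HD
open Pool.Agent.R537.RN (Sent)
open Pool.Agent.R537.IP (Par gv gp gP ep sg Hf Tie k6 iso_exists)

section

variable {p : Sp} {k : ℕ}

/-- The parameters as an array. -/
def cc (c : Par (mm p + 2) (nq p) (nj p) → ℕ) (q j : ℕ) : ℕ :=
  if h : q = nq p ∧ j < mm p + 2 then c (Sum.inl ⟨j, h.2⟩)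
  else if h : q < nq p ∧ j < nj p then c (Sum.inr (⟨q, h.1⟩, ⟨j, h.2⟩)) else 0

/-- The point of the first player. -/
noncomputable def v1 (x : Fin (mm p + 2) → ℝ) (i j l : ℕ) : ℝ :=
  if h : (j = 0 ∧ l = 0) ∧ i < mm p + 2 then x ⟨i, h.2⟩ else 0

theorem v1_main (x : Fin (mm p + 2) → ℝ) (i : Fin (mm p + 2)) : v1 x i 0 0 = x i := by
  rw [v1, dif_pos ⟨⟨rfl, rfl⟩, i.2⟩]

/-- The points of the second player. -/
noncomputable def v3 (w : Fin (k + 1) → Fin (ll p + 1) → ℝ) (i j l : ℕ) : ℝ :=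
  if h : (l = 0 ∧ j < ll p + 1) ∧ i < k + 1 then w ⟨i, h.2⟩ ⟨j, h.1.2⟩ else 0

/-- The multipliers. -/
noncomputable def v7 (la : Fin (k + 1) → ℝ) (i j l : ℕ) : ℝ :=
  if h : (j = 0 ∧ l = 0) ∧ i < k + 1 then la ⟨i, h.2⟩ else 0

/-- The coordinates of the point. -/
noncomputable def VV (c : Par (mm p + 2) (nq p) (nj p) → ℕ) (x : Fin (mm p + 2) → ℝ)
    (w : Fin (k + 1) → Fin (ll p + 1) → ℝ) (la : Fin (k + 1) → ℝ) (f i j l : ℕ) : ℝ :=
  if f = 0 then (1 / 2) ^ (2 ^ l)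
  else if f = 1 then v1 x i j l
  else if f = 2 then (v1 x i 0 0 ^ 2) ^ (2 ^ l - 1)
  else if f = 3 then v3 w i j l
  else if f = 4 then ((2 * v3 w i j 0) ^ 2) ^ (2 ^ l - 1)
  else if f = 5 then ((cc c i j / 2 ^ l % 2 : ℕ) : ℝ)
  else if f = 6 then (if i < k + 1 then 1 else 0)
  else v7 la i j l

variable (c : Par (mm p + 2) (nq p) (nj p) → ℕ) (x : Fin (mm p + 2) → ℝ)
  (w : Fin (k + 1) → Fin (ll p + 1) → ℝ) (la : Fin (k + 1) → ℝ)

theorem VV0 (i j l : ℕ) : VV c x w la 0 i j l = (1 / 2) ^ (2 ^ l) := rfl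
theorem VV1 (i j l : ℕ) : VV c x w la 1 i j l = v1 x i j l := rfl
theorem VV2 (i j l : ℕ) : VV c x w la 2 i j l = (v1 x i 0 0 ^ 2) ^ (2 ^ l - 1) := rfl
theorem VV3 (i j l : ℕ) : VV c x w la 3 i j l = v3 w i j l := rfl
theorem VV4 (i j l : ℕ) : VV c x w la 4 i j l = ((2 * v3 w i j 0) ^ 2) ^ (2 ^ l - 1) := rfl
theorem VV5 (i j l : ℕ) : VV c x w la 5 i j l = ((cc c i j / 2 ^ l % 2 : ℕ) : ℝ) := rfl
theorem VV6 (i j l : ℕ) : VV c x w la 6 i j l = if i < k + 1 then 1 else 0 := rfl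
theorem VV7 (i j l : ℕ) : VV c x w la 7 i j l = v7 la i j l := rfl

theorem sum_bits (n : ℕ) : ∀ m : ℕ, ∑ b : Fin m, 2 ^ (b : ℕ) * (n / 2 ^ (b : ℕ) % 2) = n % 2 ^ m := by
  intro m
  induction m with
  | zero => simp [Nat.mod_one]
  | succ m ih =>
    rw [Fin.sum_univ_castSucc]
    simp only [Fin.val_castSucc, Fin.val_last]
    rw [ih, Nat.mod_pow_succ]

theorem sum_bits' (n m : ℕ) (h : n < 2 ^ m) :
    ∑ b : Fin m, (2:ℝ) ^ (b : ℕ) * ((n / 2 ^ (b : ℕ) % 2 : ℕ) : ℝ) = n := by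
  have h1 := sum_bits n m
  rw [Nat.mod_eq_of_lt h] at h1
  exact_mod_cast h1

variable {c} in
theorem cT_eval (hc : ∀ i, c i ≤ 2 ^ a6 p) {z : ℕ → ℝ}
    (hz : ∀ i j l, i < MM p → j < MM p → l < MM p →
      z (ix (MM p) 5 i j l) = ((cc c i j / 2 ^ l % 2 : ℕ) : ℝ))
    {q j : ℕ} (hq : q < MM p) (hj : j < MM p) : (cT p q j).eval z = cc c q j := by
  have h6 := a6_lt p
  unfold cT
  rw [eval_sumT, List.map_map, sum_map_range]
  have hcc : cc c q j < 2 ^ (a6 p + 1) := by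
    have h1 : 2 ^ a6 p < 2 ^ (a6 p + 1) := Nat.pow_lt_pow_right (by norm_num) (by omega)
    have h0 : 0 < 2 ^ (a6 p + 1) := Nat.two_pow_pos _
    unfold cc
    split_ifs
    · exact lt_of_le_of_lt (hc _) h1
    · exact lt_of_le_of_lt (hc _) h1
    · exact h0
  rw [← sum_bits' _ _ hcc]
  refine Finset.sum_congr rfl fun b _ => ?_
  rw [Function.comp_apply, Tm.eval, eval_p2T, eval_tV, min_eq_left (by omega),
    hz q j b hq hj (by omega)]

variable {c} in
theorem cR_eval (hc : ∀ i, c i ≤ 2 ^ a6 p) {z : ℕ → ℝ}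
    (hz : ∀ i j l, i < MM p → j < MM p → l < MM p →
      z (ix (MM p) 5 i j l) = ((cc c i j / 2 ^ l % 2 : ℕ) : ℝ)) :
    cR p z = fun i => (c i : ℝ) := by
  have h1 := nq_lt p
  have h2 := nj_lt p
  have h3 := mm_lt p
  funext i
  rcases i with j | q
  · change (cT p (nq p) j).eval z = _
    rw [cT_eval hc hz h1 (by omega), cc, dif_pos ⟨rfl, j.2⟩]
  · change (cT p q.1 q.2).eval z = _
    have h4 := q.1.2
    have h5 := q.2.2
    rw [cT_eval hc hz (by omega) (by omega), cc, dif_neg (by omega), dif_pos ⟨h4, h5⟩]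

theorem sum_cut (M k : ℕ) (hk : k + 1 ≤ M) (f : ℕ → ℝ) (hf : ∀ i, k + 1 ≤ i → i < M → f i = 0) :
    ∑ i : Fin M, f i = ∑ i : Fin (k + 1), f i := by
  rw [Fin.sum_univ_eq_sum_range f M, Fin.sum_univ_eq_sum_range f (k + 1)]
  symm
  refine Finset.sum_subset (fun i hi => ?_) fun i hi hi2 => ?_
  · rw [Finset.mem_range] at *; omega
  · rw [Finset.mem_range] at *
    exact hf i (by omega) hi

theorem bit_eq {a b : ℝ} (ha : a ^ 2 = a) (hb : b ^ 2 = b) (h : |a - b| < 1) : a = b := by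
  have ha' : a = 0 ∨ a = 1 := by
    have : a * (a - 1) = 0 := by linear_combination ha
    rcases mul_eq_zero.1 this with h | h
    · exact Or.inl h
    · exact Or.inr (by linarith)
  have hb' : b = 0 ∨ b = 1 := by
    have : b * (b - 1) = 0 := by linear_combination hb
    rcases mul_eq_zero.1 this with h | h
    · exact Or.inl h
    · exact Or.inr (by linarith)
  rcases ha' with ha2 | ha2 <;> rcases hb' with hb2 | hb2 <;> rw [ha2, hb2] at h ⊢ <;> norm_num at h

variable {c x w la} in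
/-- The point belongs to the base. -/
theorem ZP_of_tie (hk : k ≤ mm p + 2) (hc : ∀ i, c i ≤ 2 ^ a6 p) (hx : ∀ i, |x i| < 2)
    (ht : Tie (gp (gP (lc p) (SS p)) (ep (mm p) (ll p) (SS p).length) fun i => (c i : ℝ)) x w la)
    {u : ℕ → ℝ} (hu : ∀ f i j l, f < 8 → i < MM p → j < MM p → l < MM p →
      u (ix (MM p) f i j l) = VV c x w la f i j l) : ZP p u := by
  have hM := MM_pos p
  have hmm := mm_lt p
  have hll := ll_lt p
  have h5 : ∀ i j l, i < MM p → j < MM p → l < MM p →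
      u (ix (MM p) 5 i j l) = ((cc c i j / 2 ^ l % 2 : ℕ) : ℝ) := by
    intro i j l hi hj hl
    rw [hu 5 i j l (by norm_num) hi hj hl, VV5]
  have hcR := cR_eval hc h5
  have hG : GG p u = gp (gP (lc p) (SS p)) (ep (mm p) (ll p) (SS p).length)
      fun i => (c i : ℝ) := by
    unfold GG
    rw [hcR]
  have hxv : xv p u = x := by
    funext i
    unfold xv
    rw [hu 1 i 0 0 (by norm_num) (by omega) hM hM, VV1, v1, dif_pos ⟨⟨rfl, rfl⟩, i.2⟩]
  have hwv : ∀ i (hi : i < k + 1), wv p u i = w ⟨i, hi⟩ := by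
    intro i hi
    funext r
    unfold wv
    rw [hu 3 i r 0 (by norm_num) (by omega) (by omega) hM, VV3, v3, dif_pos ⟨⟨rfl, r.2⟩, hi⟩]
  have h6 : ∀ i, i < MM p → u (ix (MM p) 6 i 0 0) = if i < k + 1 then 1 else 0 := by
    intro i hi
    rw [hu 6 i 0 0 (by norm_num) hi hM hM, VV6]
  have h7 : ∀ i (hi : i < k + 1), u (ix (MM p) 7 i 0 0) = la ⟨i, hi⟩ := by
    intro i hi
    rw [hu 7 i 0 0 (by norm_num) (by omega) hM hM, VV7, v7, dif_pos ⟨⟨rfl, rfl⟩, hi⟩]
  have h7' : ∀ i, k + 1 ≤ i → i < MM p → u (ix (MM p) 7 i 0 0) = 0 := by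
    intro i hi hi2
    rw [hu 7 i 0 0 (by norm_num) (by omega) hM hM, VV7, v7, dif_neg (by omega)]
  refine ⟨⟨?_, ?_, ?_⟩, ?_, ?_, ?_, ?_, ?_, ?_, ?_, ?_, ?_, ?_⟩
  · intro i j l hi hj hl
    rw [hu 0 i j l (by norm_num) hi hj hl, VV0]
  · intro i j l hi hj hl
    rw [hu 2 i j l (by norm_num) hi hj hl, VV2, hu 1 i 0 0 (by norm_num) hi hM hM, VV1]
  · intro i j l hi hj hl
    rw [hu 4 i j l (by norm_num) hi hj hl, VV4, hu 3 i j 0 (by norm_num) hi hj hM, VV3]
  · intro i j l hi hj hl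
    rw [hu 1 i j l (by norm_num) hi hj hl, VV1, v1]
    split_ifs with h
    · have := hx ⟨i, h.2⟩
      rw [abs_lt] at this
      nlinarith
    · rfl
  · intro i j l hi hj hl
    rw [hu 3 i j l (by norm_num) hi hj hl, VV3, v3, h6 i hi]
    split_ifs with h1 h2 h3 h4
    · exact Or.inl rfl
    · exact absurd ⟨h1, h2⟩ h3
    · exact absurd h4.2 h2
    · exact Or.inr rfl
    · exact absurd (by assumption : (l = 0 ∧ j < ll p + 1) ∧ i < k + 1).1 h1
    · rfl
  · intro i j l hi hj hl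
    rw [h5 i j l hi hj hl]
    rcases Nat.mod_two_eq_zero_or_one (cc c i j / 2 ^ l) with h | h <;> rw [h] <;> norm_num
  · intro i j l hi hj hl
    rw [hu 6 i j l (by norm_num) hi hj hl, VV6]
    split_ifs <;> norm_num
  · intro i j l hi hj hl
    rw [hu 7 i j l (by norm_num) hi hj hl, VV7, v7, h6 i hi]
    split_ifs with h1 h2 h3 h4
    · exact Or.inl rfl
    · exact absurd ⟨h1, h2⟩ h3
    · exact absurd h4.2 h2
    · exact Or.inr rfl
    · exact absurd (by assumption : (j = 0 ∧ l = 0) ∧ i < k + 1).1 h1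
    · rfl
  · intro i hi r
    rw [h6 i hi]
    split_ifs with h
    · right
      rw [hG, hxv, hwv i h]
      exact ht.dw _ _
    · left; rfl
  · intro i hi
    rw [h6 i hi]
    split_ifs with h
    · right
      rw [hG, hxv, hwv i h, hwv 0 (by omega)]
      exact ht.val _
    · left; rfl
  · intro j
    rw [← ht.dx j, sum_cut (MM p) k (by omega) (fun i => u (ix (MM p) 7 i 0 0) *
      gv (MvPolynomial.pderiv (Sum.inl j) (GG p u)) (xv p u) (wv p u i))]
    · refine Finset.sum_congr rfl fun i _ => ?_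
      rw [hG, hxv, hwv i i.2, h7 i i.2]
    · intro i hi hi2
      simp only [h7' i hi hi2, zero_mul]
  · rw [← ht.sum, sum_cut (MM p) k (by omega) (fun i => u (ix (MM p) 7 i 0 0))]
    · exact Finset.sum_congr rfl fun i _ => h7 i i.2
    · exact h7'
  · rw [h6 0 hM, if_pos (by omega)]

variable {c x w la} in
/-- The point is isolated in the base. -/
theorem base_iso (hk : k ≤ mm p + 2) (hc : ∀ i, c i ≤ 2 ^ a6 p) {δ : ℝ} (hδ1 : δ ≤ 1)
    (hiso : ∀ (x' : Fin (mm p + 2) → ℝ) (w' : Fin (k + 1) → Fin (ll p + 1) → ℝ)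
      (l' : Fin (k + 1) → ℝ),
      Tie (gp (gP (lc p) (SS p)) (ep (mm p) (ll p) (SS p).length) fun i => (c i : ℝ)) x' w' l' →
      (∀ i, |x' i - x i| < δ) → (∀ i r, |w' i r - w i r| < δ) → (∀ i, |l' i - la i| < δ) →
      x' = x ∧ w' = w ∧ l' = la)
    {z : ℕ → ℝ} (hz : ZP p z) (hclose : ∀ f i j l, f < 8 → i < MM p → j < MM p → l < MM p →
      |z (ix (MM p) f i j l) - VV c x w la f i j l| < δ) :
    ∀ f i j l, f < 8 → i < MM p → j < MM p → l < MM p →
      z (ix (MM p) f i j l) = VV c x w la f i j l := by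
  have hM := MM_pos p
  have hmm := mm_lt p
  have hll := ll_lt p
  have h5 : ∀ i j l, i < MM p → j < MM p → l < MM p →
      z (ix (MM p) 5 i j l) = ((cc c i j / 2 ^ l % 2 : ℕ) : ℝ) := by
    intro i j l hi hj hl
    have h1 := hclose 5 i j l (by norm_num) hi hj hl
    rw [VV5] at h1
    refine bit_eq (hz.hB i j l hi hj hl) ?_ (h1.trans_le hδ1)
    rcases Nat.mod_two_eq_zero_or_one (cc c i j / 2 ^ l) with h | h <;> rw [h] <;> norm_num
  have h6 : ∀ i j l, i < MM p → j < MM p → l < MM p →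
      z (ix (MM p) 6 i j l) = if i < k + 1 then 1 else 0 := by
    intro i j l hi hj hl
    have h1 := hclose 6 i j l (by norm_num) hi hj hl
    rw [VV6] at h1
    refine bit_eq (hz.hA i j l hi hj hl) ?_ (h1.trans_le hδ1)
    split_ifs <;> norm_num
  have h7' : ∀ i, k + 1 ≤ i → i < MM p → z (ix (MM p) 7 i 0 0) = 0 := by
    intro i hi hi2
    have h1 := hz.hL i 0 0 hi2 hM hM
    rw [if_pos ⟨rfl, rfl⟩, h6 i 0 0 hi2 hM hM, if_neg (by omega)] at h1
    rcases h1 with h1 | h1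
    · norm_num at h1
    · exact h1
  have hcR := cR_eval hc h5
  have hG : GG p z = gp (gP (lc p) (SS p)) (ep (mm p) (ll p) (SS p).length)
      fun i => (c i : ℝ) := by
    unfold GG
    rw [hcR]
  have ha : ∀ i, i < k + 1 → z (ix (MM p) 6 i 0 0) = 1 := by
    intro i hi
    rw [h6 i 0 0 (by omega) hM hM, if_pos hi]
  have htie : Tie (gp (gP (lc p) (SS p)) (ep (mm p) (ll p) (SS p).length) fun i => (c i : ℝ))
      (xv p z) (fun i : Fin (k + 1) => wv p z i) (fun i => z (ix (MM p) 7 i 0 0)) := by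
    rw [← hG]
    refine ⟨?_, ?_, ?_, ?_⟩
    · intro i r
      refine (hz.hdw i (by omega) r).resolve_left ?_
      rw [ha i i.2]; norm_num
    · intro i
      refine (hz.hval i (by omega)).resolve_left ?_
      rw [ha i i.2]; norm_num
    · intro j
      rw [← hz.hdx j, sum_cut (MM p) k (by omega) (fun i => z (ix (MM p) 7 i 0 0) *
        gv (MvPolynomial.pderiv (Sum.inl j) (GG p z)) (xv p z) (wv p z i))]
      intro i hi hi2
      simp only [h7' i hi hi2, zero_mul]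
    · rw [← hz.hsum, sum_cut (MM p) k (by omega) (fun i => z (ix (MM p) 7 i 0 0))]
      exact h7'
  obtain ⟨e1, e2, e3⟩ := hiso _ _ _ htie (fun i => by
      have h1 := hclose 1 i 0 0 (by norm_num) (by omega) hM hM
      rw [VV1, v1, dif_pos ⟨⟨rfl, rfl⟩, i.2⟩] at h1
      exact h1) (fun i r => by
      have h1 := hclose 3 i r 0 (by norm_num) (by omega) (by omega) hM
      rw [VV3, v3, dif_pos ⟨⟨rfl, r.2⟩, i.2⟩] at h1
      exact h1) (fun i => by
      have h1 := hclose 7 i 0 0 (by norm_num) (by omega) hM hM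
      rw [VV7, v7, dif_pos ⟨⟨rfl, rfl⟩, i.2⟩] at h1
      exact h1)
  have f1 : ∀ i j l, i < MM p → j < MM p → l < MM p → z (ix (MM p) 1 i j l) = v1 x i j l := by
    intro i j l hi hj hl
    have h1 := hz.hX i j l hi hj hl
    unfold v1
    split_ifs at h1 ⊢ with h
    · obtain ⟨⟨rfl, rfl⟩, h3⟩ := h
      exact congrFun e1 ⟨i, h3⟩
    · exact h1
  have f3 : ∀ i j l, i < MM p → j < MM p → l < MM p → z (ix (MM p) 3 i j l) = v3 w i j l := by
    intro i j l hi hj hl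
    have h1 := hz.hW i j l hi hj hl
    unfold v3
    by_cases h : l = 0 ∧ j < ll p + 1
    · rw [if_pos h] at h1
      by_cases h2 : i < k + 1
      · rw [dif_pos ⟨h, h2⟩]
        obtain ⟨rfl, h3⟩ := h
        exact congrFun (congrFun e2 ⟨i, h2⟩) ⟨j, h3⟩
      · rw [dif_neg (fun h3 => h2 h3.2)]
        rw [h6 i 0 0 hi hM hM, if_neg h2] at h1
        rcases h1 with h1 | h1
        · norm_num at h1
        · exact h1
    · rw [if_neg h] at h1
      rw [dif_neg (fun h3 => h h3.1)]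
      exact h1
  have f7 : ∀ i j l, i < MM p → j < MM p → l < MM p → z (ix (MM p) 7 i j l) = v7 la i j l := by
    intro i j l hi hj hl
    have h1 := hz.hL i j l hi hj hl
    unfold v7
    by_cases h : j = 0 ∧ l = 0
    · rw [if_pos h] at h1
      by_cases h2 : i < k + 1
      · rw [dif_pos ⟨h, h2⟩]
        obtain ⟨rfl, rfl⟩ := h
        exact congrFun e3 ⟨i, h2⟩
      · rw [dif_neg (fun h3 => h2 h3.2)]
        obtain ⟨rfl, rfl⟩ := h
        exact h7' i (by omega) hi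
    · rw [if_neg h] at h1
      rw [dif_neg (fun h3 => h h3.1)]
      exact h1
  intro f i j l hf hi hj hl
  interval_cases f
  · rw [hz.env.hS i j l hi hj hl, VV0]
  · rw [VV1]; exact f1 i j l hi hj hl
  · rw [hz.env.hCX i j l hi hj hl, VV2, f1 i 0 0 hi hM hM]
  · rw [VV3]; exact f3 i j l hi hj hl
  · rw [hz.env.hCW i j l hi hj hl, VV4, f3 i j 0 hi hj hM]
  · rw [VV5]; exact h5 i j l hi hj hl
  · rw [VV6]; exact h6 i j l hi hj hl
  · rw [VV7]; exact f7 i j l hi hj hl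

end

variable (p : Sp)

/-- **The base has an isolated point without violations**, if the sentence fails. -/
theorem base_exists (h : ¬ Sent (lc p) (SS p)) :
    ∃ V : ℕ → ℕ → ℕ → ℕ → ℝ, ∃ δ > 0,
      (∀ u : ℕ → ℝ, (∀ f i j l, f < 8 → i < MM p → j < MM p → l < MM p →
        u (ix (MM p) f i j l) = V f i j l) → ZP p u ∧
        ∀ w : Fin (ll p + 1) → ℝ, (∀ r, |w r| ≤ 1 / 2) →
          0 < Hf (lc p) (SS p) (1 / 2) (sg (mm p) (ll p) (SS p).length) (xv p u) w) ∧
      ∀ z : ℕ → ℝ, ZP p z → (∀ f i j l, f < 8 → i < MM p → j < MM p → l < MM p →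
        |z (ix (MM p) f i j l) - V f i j l| < δ) →
        ∀ f i j l, f < 8 → i < MM p → j < MM p → l < MM p →
          z (ix (MM p) f i j l) = V f i j l := by
  obtain ⟨c, hc, x, hx, hpos, k, hk, w, la, ht, δ, hδ, hiso⟩ := iso_exists (lc p) (SS p) h
  refine ⟨VV c x w la, min δ 1, lt_min hδ one_pos, fun u hu => ⟨ZP_of_tie hk hc hx ht hu, ?_⟩, ?_⟩
  · have hM := MM_pos p
    have hmm := mm_lt p
    have hxv : xv p u = x := by
      funext i
      unfold xv
      rw [hu 1 i 0 0 (by norm_num) (by omega) hM hM]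
      exact v1_main x i
    rw [hxv]
    exact hpos
  · intro z hz hclose
    exact base_iso hk hc (min_le_right _ _) (fun x' w' l' ht' h1 h2 h3 =>
      hiso x' w' l' ht' (fun i => (h1 i).trans_le (min_le_left _ _))
        (fun i r => (h2 i r).trans_le (min_le_left _ _))
        fun i => (h3 i).trans_le (min_le_left _ _)) hz hclose

end Pool.Agent.NPC.R537IP
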