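import Pool.Agent.R537.IP.Game

/-!
# The main analytic theorem
-/

set_option autoImplicit false

namespace Pool.Agent.R537.IP

open Finset Filter Topology Pool.Agent.H612 Pool.Agent.R537.RN Pool.Agent.NPC

variable {mm ll : ℕ} (loc : ℕ → Fin 0 ⊕ (Fin mm ⊕ Fin ll)) (S : List ER.Con)

theorem kA_arith (V U a b K5 : ℕ) (h1 : V ≤ 64 * U) (h2 : a ≤ U) (h3 : b ≤ U) (h4 : K5 ≤ U)
    (h5 : 1 ≤ U) : V + (a + K5 * 2) + 1 + (b + K5 * 2) + 1 ≤ 256 * U := by omega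

theorem gpoly_ν (σ : ℝ) : (gm _).ν (gpoly loc S σ (2 ^ k5 mm ll S.length)) ≤
    2 ^ 2 ^ kA mm ll S.length := by
  obtain ⟨s, hs⟩ : ∃ s, s = S.length := ⟨_, rfl⟩
  obtain ⟨K5, hK5⟩ : ∃ K5, K5 = 2 ^ k5 mm ll s := ⟨_, rfl⟩
  have hC : ∀ c : ℝ, (gm (Fin (mm + 2) ⊕ Fin (ll + 1))).ν (MvPolynomial.C c) ≤ 1 :=
    fun c => gm_C c
  have h2 : (gm (Fin (mm + 2) ⊕ Fin (ll + 1))).ν 2 ≤ 1 := by
    have : (2 : MvPolynomial (Fin (mm + 2) ⊕ Fin (ll + 1)) ℝ) = MvPolynomial.C 2 := by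
      rw [map_ofNat]
    rw [this]
    exact hC 2
  have hX : ∀ i, (gm (Fin (mm + 2) ⊕ Fin (ll + 1))).ν (MvPolynomial.X i) ≤ 2 := fun i => gm_X i
  have hhx : ∀ i, (gm (Fin (mm + 2) ⊕ Fin (ll + 1))).ν
      (MvPolynomial.C (1 / 2) * MvPolynomial.X i) ≤ 2 := fun i =>
    ((gm _).mul _ _).trans ((Nat.mul_le_mul (hC _) (hX i)).trans (by norm_num))
  have h2x : ∀ i, (gm (Fin (mm + 2) ⊕ Fin (ll + 1))).ν (2 * MvPolynomial.X i) ≤ 2 := fun i =>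
    ((gm _).mul _ _).trans ((Nat.mul_le_mul h2 (hX i)).trans (by norm_num))
  have hH : (gm _).ν (Hf loc S (MvPolynomial.C (1 / 2)) (MvPolynomial.C σ)
      (fun i : Fin (mm + 2) => (MvPolynomial.X (Sum.inl i) :
        MvPolynomial (Fin (mm + 2) ⊕ Fin (ll + 1)) ℝ))
      (fun r => MvPolynomial.X (Sum.inr r))) ≤
      188743680 * s + 65536 * 4 ^ 2 ^ kap ll s + 32 * 4 ^ 2 ^ kap' mm ll s := by
    unfold Hf
    rw [hs]
    apply Phi_ν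
    · exact (hC _).trans (by norm_num)
    · exact ν_pow _ _ 2 2 (hhx _)
    · exact hhx _
    · exact ν_pow _ _ 2 2 (h2x _)
    · exact ν_pow _ _ 4 _ (ν_pow _ _ 2 2 (h2x _))
    · exact ν_pow _ _ 4 _ (ν_pow _ _ 2 2 (hhx _))
    · intro j; exact j.elim0
    · intro j; exact hhx _
    · intro j; exact h2x _
  have hb1 : (gm (Fin (mm + 2) ⊕ Fin (ll + 1))).ν (∑ i : Fin (mm + 2),
      (MvPolynomial.C (1 / 2) * MvPolynomial.X (Sum.inl i) ^ 2) ^ K5) ≤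
      2 ^ (mm + 2 + K5 * 2) := by
    refine (ν_sum_le _ _ _ (2 ^ (K5 * 2)) fun i _ => ?_).trans ?_
    · rw [mul_comm K5 2, pow_mul]
      refine ν_pow _ _ _ _ ?_
      refine ((gm _).mul _ _).trans ?_
      exact (Nat.mul_le_mul (hC _) (ν_pow _ _ 2 2 (hX _))).trans (by norm_num)
    · rw [Finset.card_univ, Fintype.card_fin]
      exact b_mul (b_self _) (le_refl _)
  have hb2 : (gm (Fin (mm + 2) ⊕ Fin (ll + 1))).ν (∑ r : Fin (ll + 1),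
      (2 * MvPolynomial.X (Sum.inr r) ^ 2) ^ K5) ≤ 2 ^ (ll + 1 + K5 * 2) := by
    refine (ν_sum_le _ _ _ (2 ^ (K5 * 2)) fun i _ => ?_).trans ?_
    · rw [mul_comm K5 2, pow_mul]
      refine ν_pow _ _ _ _ ?_
      refine ((gm _).mul _ _).trans ?_
      exact (Nat.mul_le_mul h2 (ν_pow _ _ 2 2 (hX _))).trans (by norm_num)
    · rw [Finset.card_univ, Fintype.card_fin]
      exact b_mul (b_self _) (le_refl _)
  have hH' := hH.trans ((Nat.le_add_left _ 1).trans (bound_B s (kap ll s) (kap' mm ll s)))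
  unfold gpoly Gf
  rw [← hs, ← hK5]
  refine (((gm _).add _ _).trans (b_add (((gm _).sub _ _).trans (b_add hH' hb1)) hb2)).trans ?_
  refine Nat.pow_le_pow_right (by norm_num) ?_
  obtain ⟨U, hU⟩ : ∃ U, U = 2 ^ (kap ll s + kap' mm ll s + s + k5 mm ll s + (mm + 2) + (ll + 1)) :=
    ⟨_, rfl⟩
  have e1 : 2 ^ kA mm ll s = 256 * U := by
    unfold kA
    rw [pow_add _ _ 8, hU]; ring
  rw [e1]
  refine kA_arith _ U _ _ _ ?_ ?_ ?_ ?_ ?_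
  · rw [pow_add, hU, mul_comm]
    exact Nat.mul_le_mul_left _ (Nat.pow_le_pow_right (by norm_num) (by omega))
  · rw [hU]; exact (b_self _).trans (Nat.pow_le_pow_right (by norm_num) (by omega))
  · rw [hU]; exact (b_self _).trans (Nat.pow_le_pow_right (by norm_num) (by omega))
  · rw [hK5, hU]; exact Nat.pow_le_pow_right (by norm_num) (by omega)
  · rw [hU]; exact Nat.one_le_two_pow

/-- The polynomial of the game. -/
noncomputable def gP : MvPolynomial (Fin (mm + 2) ⊕ Fin (ll + 1)) ℝ :=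
  gpoly loc S (sg mm ll S.length) (2 ^ k5 mm ll S.length)

theorem gv_gP (x : Fin (mm + 2) → ℝ) (w : Fin (ll + 1) → ℝ) : gv (gP loc S) x w =
    Hf loc S (1 / 2) (sg mm ll S.length) x w - ∑ i, (1 / 2 * x i ^ 2) ^ (2 ^ k5 mm ll S.length) +
      ∑ r, (2 * w r ^ 2) ^ (2 ^ k5 mm ll S.length) := by
  unfold gP
  rw [gv_gpoly]
  rfl

theorem sq_q {a : ℝ} (h : |a| ≤ 1 / 2) : a ^ 2 ≤ 1 / 4 := by
  rw [← sq_abs]; nlinarith [abs_nonneg a]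

theorem sq_o {a : ℝ} (h : |a| ≤ 1) : a ^ 2 ≤ 1 := by
  rw [← sq_abs]; nlinarith [abs_nonneg a]

theorem bar1 (s : ℕ) (x : Fin (mm + 2) → ℝ) (hx : ∀ i, |x i| ≤ 1) :
    ∑ i, (1 / 2 * x i ^ 2) ^ (2 ^ k5 mm ll s) ≤ dl0 mm ll s / 8 := by
  refine bar_small s (mm + 2) (by omega) (fun i => 1 / 2 * x i ^ 2)
    (fun i => mul_nonneg (by norm_num) (sq_nonneg _)) fun i => ?_
  have h1 := sq_o (hx i)
  linarith

theorem bar2 (s : ℕ) (w : Fin (ll + 1) → ℝ) (hw : ∀ i, |w i| ≤ 1 / 2) :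
    ∑ i, (2 * w i ^ 2) ^ (2 ^ k5 mm ll s) ≤ dl0 mm ll s / 8 := by
  refine bar_small s (ll + 1) (by omega) (fun i => 2 * w i ^ 2)
    (fun i => mul_nonneg (by norm_num) (sq_nonneg _)) fun i => ?_
  have h1 := sq_q (hw i)
  linarith

theorem bar_nonneg {N : ℕ} (a : ℝ) (ha : 0 ≤ a) (K : ℕ) (x : Fin N → ℝ) :
    0 ≤ ∑ i, (a * x i ^ 2) ^ K :=
  Finset.sum_nonneg fun _ _ => pow_nonneg (mul_nonneg ha (sq_nonneg _)) _

theorem bar_big {N : ℕ} (a b : ℝ) (ha : 0 ≤ a) (K : ℕ) (x : Fin N → ℝ) (r : Fin N)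
    (hr : a * |x r| ^ 2 = b) : b ^ K ≤ ∑ i, (a * x i ^ 2) ^ K := by
  rw [← hr, sq_abs]
  exact Finset.single_le_sum (f := fun r => (a * x r ^ 2) ^ K)
    (fun _ _ => pow_nonneg (mul_nonneg ha (sq_nonneg _)) _) (Finset.mem_univ r)

theorem bar_zero (K : ℕ) (hK : K ≠ 0) :
    ∑ r : Fin (ll + 1), (2 * (0 : Fin (ll + 1) → ℝ) r ^ 2) ^ K = 0 := by
  refine Finset.sum_eq_zero fun r _ => ?_
  rw [Pi.zero_apply, zero_pow two_ne_zero, mul_zero, zero_pow hK]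

theorem Hf_zero_le (σ : ℝ) (h0 : 0 < σ) (h1 : σ ≤ 1) (x : Fin (mm + 2) → ℝ) (hx : |x 0| ≤ 2) :
    Hf loc S (1 / 2) σ x 0 ≤ 1 := by
  rw [Hf_zero]
  have e1 : σ ^ 5 ≤ 1 := pow_le_one₀ h0.le h1
  have e2 : ((1 / 2 * x 0) ^ 2) ^ (2 ^ kap' mm ll S.length) ≤ 1 := by
    refine pow_le_one₀ (sq_nonneg _) (sq_o ?_)
    rw [abs_mul, abs_of_pos (by norm_num : (0:ℝ) < 1 / 2)]
    linarith
  have e3 : 0 ≤ ((1 / 2 * x 0) ^ 2) ^ (2 ^ kap' mm ll S.length) := by positivity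
  nlinarith

/-- **The main analytic theorem**: if the sentence fails, then there is an isolated solution of a
system of ties with a first block without violations. -/
theorem iso_exists (h : ¬ Sent loc S) :
    ∃ c : Par (mm + 2) (nQ mm ll) (nJ mm) → ℕ, (∀ i, c i ≤ 2 ^ k6 mm ll S.length) ∧
      ∃ x : Fin (mm + 2) → ℝ, (∀ i, |x i| < 2) ∧
      (∀ w : Fin (ll + 1) → ℝ, (∀ r, |w r| ≤ 1 / 2) →
        0 < Hf loc S (1 / 2) (sg mm ll S.length) x w) ∧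
      ∃ k ≤ mm + 2, ∃ (w : Fin (k + 1) → Fin (ll + 1) → ℝ) (l : Fin (k + 1) → ℝ),
        Tie (gp (gP loc S) (ep mm ll S.length) fun i => (c i : ℝ)) x w l ∧
        ∃ δ > 0, ∀ (x' : Fin (mm + 2) → ℝ) (w' : Fin (k + 1) → Fin (ll + 1) → ℝ)
          (l' : Fin (k + 1) → ℝ),
          Tie (gp (gP loc S) (ep mm ll S.length) fun i => (c i : ℝ)) x' w' l' →
          (∀ i, |x' i - x i| < δ) → (∀ i r, |w' i r - w i r| < δ) → (∀ i, |l' i - l i| < δ) →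
          x' = x ∧ w' = w ∧ l' = l := by
  obtain ⟨x0, hx0, hgap⟩ := gap loc S h
  obtain ⟨s, hs⟩ : ∃ s, s = S.length := ⟨_, rfl⟩
  have hsg0 := sg_pos mm ll s
  have hsg1 := sg_le mm ll s
  have hdl := dl0_pos mm ll s
  have hdl1 := dl0_le mm ll s
  have hk := k5_big mm ll s
  obtain ⟨K5, hK5⟩ : ∃ K5, K5 = 2 ^ k5 mm ll s := ⟨_, rfl⟩
  have hgv : ∀ x w, gv (gP loc S) x w = Hf loc S (1 / 2) (sg mm ll s) x w -
      ∑ i, (1 / 2 * x i ^ 2) ^ K5 + ∑ r, (2 * w r ^ 2) ^ K5 := by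
    intro x w
    rw [gv_gP, ← hs, hK5]
  rw [← hs] at hgap ⊢
  have hgap' : ∀ w ∈ cube (ll + 1), dl0 mm ll s ≤ Hf loc S (1 / 2) (sg mm ll s) x0 w := hgap
  have hpen1 : ∀ x : Fin (mm + 2) → ℝ, (∀ i, |x i| ≤ 1) →
      ∑ i, (1 / 2 * x i ^ 2) ^ K5 ≤ dl0 mm ll s / 8 := by
    rw [hK5]
    exact bar1 s
  have hpen2 : ∀ w : Fin (ll + 1) → ℝ, (∀ i, |w i| ≤ 1 / 2) →
      ∑ i, (2 * w i ^ 2) ^ K5 ≤ dl0 mm ll s / 8 := by
    rw [hK5]
    exact bar2 s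
  have hpen1' : ∀ x : Fin (mm + 2) → ℝ, 0 ≤ ∑ i, (1 / 2 * x i ^ 2) ^ K5 :=
    bar_nonneg _ (by norm_num) K5
  have hpen2' : ∀ w : Fin (ll + 1) → ℝ, 0 ≤ ∑ i, (2 * w i ^ 2) ^ K5 :=
    bar_nonneg _ (by norm_num) K5
  have hzero : ∑ r : Fin (ll + 1), (2 * (0 : Fin (ll + 1) → ℝ) r ^ 2) ^ K5 = 0 := by
    refine bar_zero K5 ?_
    rw [hK5]; exact (Nat.two_pow_pos _).ne'
  have hbig : (4:ℝ) ^ (2 ^ kap ll s) * 4 ≤ 2 ^ K5 := by
    have h1 : (4:ℝ) ^ (2 ^ kap ll s) * 4 = 2 ^ (2 * 2 ^ kap ll s + 2) := by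
      rw [pow_add, pow_mul]; norm_num
    rw [h1, hK5]
    exact pow_le_pow_right₀ (by norm_num) hk.2
  have h4 : (1:ℝ) ≤ 4 ^ (2 ^ kap ll s) := one_le_pow₀ (by norm_num)
  have hcub0 : (0 : Fin (ll + 1) → ℝ) ∈ cube (ll + 1) := zero_mem_cube _
  have hL : ∀ c : Par (mm + 2) (nQ mm ll) (nJ mm) → ℕ, (∀ i, c i ≤ 2 ^ k6 mm ll s) →
      ∀ w ∈ cube (ll + 1), dl0 mm ll s / 2 ≤
        gv (gp (gP loc S) (ep mm ll s) fun i => (c i : ℝ)) x0 w := by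
    intro c hc w hw
    rw [gv_gp, hgv]
    have h1 := hgap' w hw
    have h2 := hpen1 x0 hx0
    have h3 := hpen2' w
    have h5 := (abs_le.1 (pert_bound s c hc x0 (fun i => (hx0 i).trans (by norm_num)) w hw)).1
    linarith
  have C1 : ∀ c : Par (mm + 2) (nQ mm ll) (nJ mm) → ℕ, (∀ i, c i ≤ 2 ^ k6 mm ll s) →
      ∀ x : Fin (mm + 2) → ℝ, (∀ i, |x i| ≤ 2) → ∀ w ∈ cube (ll + 1), (∃ r, |w r| = 1) →
      gv (gp (gP loc S) (ep mm ll s) fun i => (c i : ℝ)) x 0 <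
        gv (gp (gP loc S) (ep mm ll s) fun i => (c i : ℝ)) x w := by
    intro c hc x hx w hw hr
    rw [gv_gp, gv_gp, hgv, hgv, hzero]
    have h1 := Hf_lower loc S (sg mm ll s) hsg0 hsg1 x (hx 0) w (hw 0)
    rw [← hs] at h1
    have h5 := (abs_le.1 (pert_bound s c hc x hx w hw)).1
    have h6 := (abs_le.1 (pert_bound s c hc x hx 0 hcub0)).2
    obtain ⟨r, hr⟩ := hr
    have h7 : (2:ℝ) ^ K5 ≤ ∑ r, (2 * w r ^ 2) ^ K5 :=
      bar_big 2 2 (by norm_num) K5 w r (by rw [hr]; norm_num)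
    linarith
  have C2 : ∀ c : Par (mm + 2) (nQ mm ll) (nJ mm) → ℕ, (∀ i, c i ≤ 2 ^ k6 mm ll s) →
      ∀ x : Fin (mm + 2) → ℝ, (∀ i, |x i| ≤ 2) → (∃ i, |x i| = 2) →
      gv (gp (gP loc S) (ep mm ll s) fun i => (c i : ℝ)) x 0 < dl0 mm ll s / 2 := by
    intro c hc x hx hr
    rw [gv_gp, hgv, hzero]
    have h1 : Hf loc S (1 / 2) (sg mm ll s) x 0 ≤ 1 := Hf_zero_le loc S _ hsg0 hsg1 x (hx 0)
    have h6 := (abs_le.1 (pert_bound s c hc x hx 0 hcub0)).2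
    obtain ⟨r, hr⟩ := hr
    have h7 : (2:ℝ) ^ K5 ≤ ∑ i, (1 / 2 * x i ^ 2) ^ K5 :=
      bar_big (1 / 2) 2 (by norm_num) K5 x r (by rw [hr]; norm_num)
    linarith
  obtain ⟨c, hc, x, hx, hxL, k, hkn, w, l, htie, δ, hδ, hiso⟩ := sample (n := mm + 2)
    (m := ll + 1) (Q := nQ mm ll) (J := nJ mm) (T := nT mm ll) (a := kA mm ll s)
    (by unfold nT nJ; omega) (by unfold nT nJ; omega) (by unfold nT nQ; omega)
    (by unfold nT; omega) (by unfold nT; omega) (by omega) (by unfold nJ; omega)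
    (by unfold nQ; exact le_refl _) (gP loc S) (ep mm ll s) (ep_pos mm ll s).ne'
    (by rw [hs]; exact gpoly_ν loc S _) x0 (fun i => (hx0 i).trans (by norm_num))
    (dl0 mm ll s / 2) hL C1 C2
  refine ⟨c, hc, x, hx, fun w' hw' => ?_, k, hkn, w, l, htie, δ, hδ, hiso⟩
  have hw'' : w' ∈ cube (ll + 1) := fun r => (hw' r).trans (by norm_num)
  have h1 := hxL w' hw''
  rw [gv_gp, hgv] at h1
  have h2 := hpen2 w' hw'
  have h3 := hpen1' x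
  have h5 := (abs_le.1 (pert_bound s c hc x (fun i => (hx i).le) w' hw'')).2
  linarith

end Pool.Agent.R537.IP
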