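import Pool.Agent.R537.IP.Dual
import Pool.Agent.R537.IP.Main

/-!
# The instance of the reduction
-/

set_option autoImplicit false

namespace Pool.Agent.NPC.R537IP

open Pool.Agent.NPC Pool.Agent.NPC.ER Pool.Agent.NPC.H612 Pool.Agent.NPC.R537HD
open Pool.Agent.R537.RN (pick qsum cerr Phi kap kap' kap'' Sent)
open Pool.Agent.R537.IP (Par nQ nJ k5 k6 k7 ep sg gp gP gv lv pm lf Hf Gf gpoly aeval_gpoly Tie)

/-- A sentence with two blocks. -/
abbrev Sp : Type := List ℕ × Fm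

section

variable (p : Sp)

/-- The negation, as a sentence with three blocks. -/
def qq : Inp := ([], p.1, Fm.not p.2)
/-- The size of the first block. -/
def mm : ℕ := dm (qq p)
/-- The size of the second block. -/
def ll : ℕ := dl (qq p)
/-- The system of constraints. -/
def SS : List ER.Con := nS (qq p)
/-- The places of the variables. -/
def lc : ℕ → Fin 0 ⊕ (Fin (mm p) ⊕ Fin (ll p)) := loc (qq p)
/-- An exponent. -/
def a1 : ℕ := kap (ll p) (SS p).length
/-- An exponent. -/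
def a2 : ℕ := kap' (mm p) (ll p) (SS p).length
/-- An exponent. -/
def a3 : ℕ := kap'' 0 (mm p) (ll p) (SS p).length
/-- An exponent. -/
def a5 : ℕ := k5 (mm p) (ll p) (SS p).length
/-- An exponent. -/
def a6 : ℕ := k6 (mm p) (ll p) (SS p).length
/-- An exponent. -/
def a7 : ℕ := k7 (mm p) (ll p) (SS p).length
/-- The number of the linear forms. -/
def nq : ℕ := nQ (mm p) (ll p)
/-- The degree of the perturbation. -/
def nj : ℕ := nJ (mm p)
/-- The radix of the numbering of the coordinates. -/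
def MM : ℕ := a1 p + a2 p + a3 p + a5 p + a6 p + a7 p + nq p + nj p + mm p + ll p + 10

/-- The number of a coordinate. -/
def ix (M f i j l : ℕ) : ℕ := ((f * M + i) * M + j) * M + l

/-- A coordinate. -/
def tV (o f i j l : ℕ) : Tm := Tm.var (o + ix (MM p) f i j l)

/-! ### The main form -/

/-- The values of the variables. -/
def dPick (σ r t : DT) (y z : ℕ → DT) (i : ℕ) : DT :=
  if i % 2 = 0 ∧ i / 2 ∈ p.1 then dmul (dmul σ t) (y (p.1.idxOf (i / 2)))
  else dmul (dmul σ r) (z ((vS (qq p)).idxOf i))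

/-- The form of a constraint. -/
def dCerr (w : DT) (V : ℕ → DT) (c : ER.Con) : DT :=
  if c.code.1 = 0 then dmul w (dsub (V c.code.2.1) w)
  else if c.code.1 = 1 then
    dmul w (dsub (dadd (V c.code.2.1) (V c.code.2.2.1)) (V c.code.2.2.2))
  else dsub (dmul (V c.code.2.1) (V c.code.2.2.1)) (dmul w (V c.code.2.2.2))

/-- The main form. -/
def dPhi (σ r γ t tK rK : DT) (y z : ℕ → DT) : DT :=
  dadd (dsub (dmul (dadd (dsq r) (dsq γ)) (dsum ((SS p).map fun c =>
      dsq (dCerr (dmul (dmul σ r) t) (dPick p σ r t y z) c))))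
    (dmul (dmul (dsq (dsq σ)) (dmul (dsq (dsq r)) (dsq r))) tK))
    (dmul (dmul (dsq (dsq σ)) σ) rK)

theorem ev_dPick (v : ℕ → ℝ) (σ r t : DT) (y z : ℕ → DT) (i : ℕ) :
    ev v (dPick p σ r t y z i) = pick (lc p) (fun j : Fin 0 => ev v r * ev v t * j.elim0)
      (fun j => ev v σ * ev v t * ev v (y j)) (fun j => ev v σ * ev v r * ev v (z j)) i := by
  unfold dPick pick lc loc
  have h0 : ¬ (i % 2 = 0 ∧ i / 2 ∈ (qq p).1) := fun h => by
    have := h.2
    simp [qq] at this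
  rw [dif_neg h0]
  by_cases h2 : i % 2 = 0 ∧ i / 2 ∈ p.1
  · have h3 : i % 2 = 0 ∧ i / 2 ∈ (qq p).2.1 := h2
    rw [if_pos h2, dif_pos h3]
    simp only [ev_dmul]
    rfl
  · have h3 : ¬ (i % 2 = 0 ∧ i / 2 ∈ (qq p).2.1) := h2
    rw [if_neg h2, dif_neg h3]
    simp only [ev_dmul]
    rfl

theorem ev_dCerr (v : ℕ → ℝ) (w : DT) (V : ℕ → DT) (c : ER.Con) :
    ev v (dCerr w V c) = cerr (fun i => ev v (V i)) (ev v w) c := by
  cases c <;> simp [dCerr, Con.code, cerr]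

theorem ev_dPhi (v : ℕ → ℝ) (σ r γ t tK rK : DT) (y z : ℕ → DT) :
    ev v (dPhi p σ r γ t tK rK y z) = Phi (lc p) (SS p) (ev v σ) (ev v r) (ev v γ) (ev v t)
      (ev v tK) (ev v rK) (fun j => j.elim0) (fun j => ev v (y j)) (fun j => ev v (z j)) := by
  unfold dPhi Phi
  simp only [ev_dadd, ev_dsub, ev_dmul, ev_dsq, ev_dsum, List.map_map]
  have h : ((SS p).map (ev v ∘ fun c => dsq (dCerr (dmul (dmul σ r) t) (dPick p σ r t y z) c))).sum
      = qsum (pick (lc p) (fun j : Fin 0 => ev v r * ev v t * j.elim0)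
        (fun j => ev v σ * ev v t * ev v (y j)) (fun j => ev v σ * ev v r * ev v (z j)))
        (ev v σ * ev v r * ev v t) (SS p) := by
    unfold qsum
    congr 1
    refine List.map_congr_left fun c _ => ?_
    simp only [Function.comp_apply, ev_dsq, ev_dCerr, ev_dmul]
    congr 2
    funext i
    exact ev_dPick p v σ r t y z i
  rw [h]
  ring

/-! ### The terms of the payoff -/

/-- A variable of the first player. -/
def dX (d j : ℕ) : DT := (tV p 0 1 j 0 0, if j = d then Tm.one else Tm.zero)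
/-- A variable of the second player. -/
def dW (i d r : ℕ) : DT := (tV p 0 3 i r 0, if mm p + 2 + r = d then Tm.one else Tm.zero)
/-- A power of one half. -/
def dS (l : ℕ) : DT := dcon (tV p 0 0 0 0 l)
/-- A coordinate for the powers. -/
def cX (j k : ℕ) : Tm := tV p 0 2 j 0 k
/-- A coordinate for the powers. -/
def cW (i r k : ℕ) : Tm := tV p 0 4 i r k

/-- The main part. -/
def gPhi (i d : ℕ) : DT :=
  dPhi p (dS p (a3 p)) (dsq (dmul (dS p 0) (dX p d 0))) (dmul (dS p 0) (dX p d 1))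
    (dsq (dmul (dcon twoT) (dW p i d 0)))
    (dch (cW p i 0 (a1 p)) (a1 p) (dsq (dmul (dcon twoT) (dW p i d 0))))
    (dmul (dS p (a2 p + 1)) (dch (cX p 0 (a2 p)) (a2 p) (dsq (dX p d 0))))
    (fun j => dmul (dS p 0) (dX p d (j + 2))) (fun j => dmul (dcon twoT) (dW p i d (j + 1)))

/-- The first barrier. -/
def gB1 (d : ℕ) : DT := dsum ((List.range (mm p + 2)).map fun j =>
  dmul (dS p (a5 p)) (dch (cX p j (a5 p)) (a5 p) (dsq (dX p d j))))

/-- The second barrier. -/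
def gB2 (i d : ℕ) : DT := dsum ((List.range (ll p + 1)).map fun r =>
  dmul (dS p (a5 p)) (dch (cW p i r (a5 p)) (a5 p) (dsq (dmul (dcon twoT) (dW p i d r)))))

/-- A parameter. -/
def cT (q j : ℕ) : Tm := sumT ((List.range (a6 p + 1)).map fun b =>
  Tm.mul (p2T (min b (a6 p))) (tV p 0 5 q j b))

/-- A linear form. -/
def dlv (i d q : ℕ) : DT := dsum ((List.range (ll p + 1)).map fun r =>
  dmul (dcon (powT (numT q) (min r (ll p)))) (dW p i d r))

/-- The perturbation. -/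
def gPt (i d : ℕ) : DT := dmul (dS p (a7 p)) (dadd
  (dsum ((List.range (mm p + 2)).map fun j => dmul (dcon (cT p (nq p) j)) (dX p d j)))
  (dsum ((List.range (nq p)).map fun q => dsum ((List.range (nj p)).map fun j =>
    dmul (dcon (cT p q j)) (dpow (dlv p i d q) (min (j + 1) (nj p)))))))

/-- The payoff. -/
def gD (i d : ℕ) : DT := dadd (dadd (dsub (gPhi p i d) (gB1 p d)) (gB2 p i d)) (gPt p i d)

/-- The parameters. -/
noncomputable def cR (v : ℕ → ℝ) : Par (mm p + 2) (nq p) (nj p) → ℝ :=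
  Sum.elim (fun j => (cT p (nq p) j).eval v) (fun q => (cT p q.1 q.2).eval v)

/-- The values of the auxiliary coordinates. -/
structure Env (v : ℕ → ℝ) : Prop where
  hS : ∀ i j l, i < MM p → j < MM p → l < MM p → v (ix (MM p) 0 i j l) = (1 / 2) ^ (2 ^ l)
  hCX : ∀ i j l, i < MM p → j < MM p → l < MM p →
    v (ix (MM p) 2 i j l) = (v (ix (MM p) 1 i 0 0) ^ 2) ^ (2 ^ l - 1)
  hCW : ∀ i j l, i < MM p → j < MM p → l < MM p →
    v (ix (MM p) 4 i j l) = ((2 * v (ix (MM p) 3 i j 0)) ^ 2) ^ (2 ^ l - 1)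

theorem MM_pos : 0 < MM p := by unfold MM; omega
theorem a1_lt : a1 p < MM p := by unfold MM; omega
theorem a2_lt : a2 p + 1 < MM p := by unfold MM; omega
theorem a3_lt : a3 p < MM p := by unfold MM; omega
theorem a5_lt : a5 p < MM p := by unfold MM; omega
theorem a6_lt : a6 p + 1 < MM p := by unfold MM; omega
theorem a7_lt : a7 p < MM p := by unfold MM; omega
theorem nq_lt : nq p < MM p := by unfold MM; omega
theorem nj_lt : nj p < MM p := by unfold MM; omega
theorem mm_lt : mm p + 3 < MM p := by unfold MM; omega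
theorem ll_lt : ll p + 1 < MM p := by unfold MM; omega

theorem sum_map_range {R : Type*} [AddCommMonoid R] (n : ℕ) (f : ℕ → R) :
    ((List.range n).map f).sum = ∑ i : Fin n, f i := by
  induction n with
  | zero => simp
  | succ n ih => rw [List.range_succ, List.map_append, List.sum_append, ih,
      Fin.sum_univ_castSucc]; simp

variable {p}

theorem ev_dS {v : ℕ → ℝ} (h : Env p v) {l : ℕ} (hl : l < MM p) :
    ev v (dS p l) = TrivSqZeroExt.inl ((1 / 2) ^ (2 ^ l)) := by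
  rw [dS, ev_dcon]
  congr 1
  simp only [tV, Tm.eval, zero_add]
  exact h.hS 0 0 l (MM_pos p) (MM_pos p) hl

theorem two_eq : (2 : DualNumber ℝ) = TrivSqZeroExt.inl 2 :=
  (map_ofNat (TrivSqZeroExt.inlHom ℝ ℝ) 2).symm

theorem ev_two (v : ℕ → ℝ) : ev v (dcon twoT) = 2 := by
  rw [ev_dcon, two_eq]
  congr 1
  simp only [twoT, Tm.eval]
  norm_num

theorem ev_cX {v : ℕ → ℝ} (h : Env p v) {j k d : ℕ} (hj : j < MM p) (hk : k < MM p) :
    ev v (dch (cX p j k) k (dsq (dX p d j))) = (ev v (dX p d j) ^ 2) ^ (2 ^ k) := by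
  rw [ev_dch, ev_dsq]
  simp only [cX, tV, Tm.eval, zero_add, dsq, dmul, dX]
  rw [h.hCX j 0 k hj (MM_pos p) hk]
  ring

theorem ev_cW {v : ℕ → ℝ} (h : Env p v) {i r k d : ℕ} (hi : i < MM p) (hr : r < MM p)
    (hk : k < MM p) :
    ev v (dch (cW p i r k) k (dsq (dmul (dcon twoT) (dW p i d r)))) =
      ((2 * ev v (dW p i d r)) ^ 2) ^ (2 ^ k) := by
  rw [ev_dch, ev_dsq, ev_dmul, ev_two]
  simp only [cW, tV, Tm.eval, zero_add, dsq, dmul, dW, dcon, twoT]
  rw [h.hCW i r k hi hr hk]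
  ring

theorem inl_pow' (a : ℝ) (n : ℕ) :
    (TrivSqZeroExt.inl (a ^ n) : DualNumber ℝ) = TrivSqZeroExt.inl a ^ n := by
  rw [TrivSqZeroExt.inl_pow]

theorem ev_gPhi {v : ℕ → ℝ} (h : Env p v) {i : ℕ} (hi : i < MM p) (d : ℕ) :
    ev v (gPhi p i d) = Hf (lc p) (SS p) (TrivSqZeroExt.inl (1 / 2))
      (TrivSqZeroExt.inl (sg (mm p) (ll p) (SS p).length))
      (fun j : Fin (mm p + 2) => ev v (dX p d j)) (fun r : Fin (ll p + 1) => ev v (dW p i d r)) := by
  have hM := MM_pos p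
  have h1 := a1_lt p
  have h2 := a2_lt p
  have h3 := a3_lt p
  unfold gPhi Hf
  rw [ev_dPhi]
  simp only [ev_dsq, ev_dmul, ev_two]
  rw [ev_dS h h3, ev_dS h hM, ev_dS h h2, ev_cW h hi hM h1, ev_cX h hM (by omega : a2 p < MM p)]
  have e0 : ((1:ℝ) / 2) ^ (2 ^ 0) = 1 / 2 := by norm_num
  have e1 : (TrivSqZeroExt.inl (((1:ℝ) / 2) ^ (2 ^ (a2 p + 1))) : DualNumber ℝ) *
      (ev v (dX p d 0) ^ 2) ^ (2 ^ a2 p) =
      ((TrivSqZeroExt.inl (1 / 2) * ev v (dX p d 0)) ^ 2) ^ (2 ^ a2 p) := by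
    rw [pow_succ 2 (a2 p), inl_pow', mul_comm (2 ^ a2 p) 2, pow_mul, ← mul_pow, ← mul_pow]
  rw [e1, e0]
  rfl

theorem ev_gB1 {v : ℕ → ℝ} (h : Env p v) (d : ℕ) :
    ev v (gB1 p d) = ∑ j : Fin (mm p + 2),
      (TrivSqZeroExt.inl (1 / 2) * ev v (dX p d j) ^ 2) ^ (2 ^ a5 p) := by
  unfold gB1
  rw [ev_dsum, List.map_map, sum_map_range]
  refine Finset.sum_congr rfl fun j _ => ?_
  have hj : (j : ℕ) < MM p := by have := j.2; have := mm_lt p; omega
  rw [Function.comp_apply, ev_dmul, ev_dS h (a5_lt p), ev_cX h hj (a5_lt p), inl_pow', ← mul_pow]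

theorem half_mul (A : DualNumber ℝ) :
    TrivSqZeroExt.inl ((1:ℝ) / 2) * (2 * A) ^ 2 = 2 * A ^ 2 := by
  have h2 : (TrivSqZeroExt.inl ((1:ℝ) / 2) : DualNumber ℝ) * 2 = 1 := by
    rw [two_eq, ← TrivSqZeroExt.inl_mul]
    norm_num
  calc TrivSqZeroExt.inl ((1:ℝ) / 2) * (2 * A) ^ 2
      = (TrivSqZeroExt.inl ((1:ℝ) / 2) * 2) * (2 * A ^ 2) := by ring
    _ = _ := by rw [h2, one_mul]

theorem ev_gB2 {v : ℕ → ℝ} (h : Env p v) {i : ℕ} (hi : i < MM p) (d : ℕ) :
    ev v (gB2 p i d) = ∑ r : Fin (ll p + 1), (2 * ev v (dW p i d r) ^ 2) ^ (2 ^ a5 p) := by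
  unfold gB2
  rw [ev_dsum, List.map_map, sum_map_range]
  refine Finset.sum_congr rfl fun r _ => ?_
  have hr : (r : ℕ) < MM p := by have := r.2; have := ll_lt p; omega
  rw [Function.comp_apply, ev_dmul, ev_dS h (a5_lt p), ev_cW h hi hr (a5_lt p), inl_pow',
    ← mul_pow, half_mul]

theorem ev_dlv (v : ℕ → ℝ) (i d q : ℕ) :
    ev v (dlv p i d q) = ∑ r : Fin (ll p + 1),
      TrivSqZeroExt.inl ((q : ℝ) ^ (r : ℕ)) * ev v (dW p i d r) := by
  unfold dlv
  rw [ev_dsum, List.map_map, sum_map_range]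
  refine Finset.sum_congr rfl fun r _ => ?_
  rw [Function.comp_apply, ev_dmul, ev_dcon, eval_powT, eval_numT, min_eq_left (by omega)]

theorem ev_gPt {v : ℕ → ℝ} (h : Env p v) (i d : ℕ) :
    ev v (gPt p i d) = TrivSqZeroExt.inl (ep (mm p) (ll p) (SS p).length) *
      (∑ j : Fin (mm p + 2), TrivSqZeroExt.inl (cR p v (Sum.inl j)) * ev v (dX p d j) +
        ∑ q : Fin (nq p) × Fin (nj p), TrivSqZeroExt.inl (cR p v (Sum.inr q)) *
          (∑ r : Fin (ll p + 1), TrivSqZeroExt.inl (((q.1 : ℕ) : ℝ) ^ (r : ℕ)) *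
            ev v (dW p i d r)) ^ ((q.2 : ℕ) + 1)) := by
  unfold gPt
  rw [ev_dmul, ev_dS h (a7_lt p), ev_dadd, ev_dsum, ev_dsum, List.map_map, List.map_map,
    sum_map_range, sum_map_range, Fintype.sum_prod_type]
  congr 2
  · refine Finset.sum_congr rfl fun j _ => ?_
    rw [Function.comp_apply, ev_dmul, ev_dcon]
    rfl
  · refine Finset.sum_congr rfl fun q _ => ?_
    rw [Function.comp_apply, ev_dsum, List.map_map, sum_map_range]
    refine Finset.sum_congr rfl fun j _ => ?_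
    rw [Function.comp_apply, ev_dmul, ev_dcon, ev_dpow, ev_dlv, min_eq_left (by omega)]
    rfl

/-- **The terms represent the payoff.** -/
theorem ev_gD {v : ℕ → ℝ} (h : Env p v) {i : ℕ} (hi : i < MM p) (d : ℕ) :
    ev v (gD p i d) = (gp (gP (lc p) (SS p)) (ep (mm p) (ll p) (SS p).length) (cR p v)).eval₂
      (TrivSqZeroExt.inlHom ℝ ℝ) (Sum.elim (fun j : Fin (mm p + 2) => ev v (dX p d j))
        (fun r : Fin (ll p + 1) => ev v (dW p i d r))) := by
  have e1 := aeval_gpoly (lc p) (SS p) (TrivSqZeroExt.inlHom ℝ ℝ)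
    (sg (mm p) (ll p) (SS p).length) (2 ^ k5 (mm p) (ll p) (SS p).length)
    (fun j : Fin (mm p + 2) => ev v (dX p d j)) (fun r : Fin (ll p + 1) => ev v (dW p i d r))
  unfold gp gP
  rw [MvPolynomial.eval₂_add, e1, MvPolynomial.eval₂_mul, MvPolynomial.eval₂_C,
    MvPolynomial.eval₂_sum]
  unfold gD Gf
  rw [ev_dadd, ev_dadd, ev_dsub, ev_gPhi h hi, ev_gB1 h, ev_gB2 h hi, ev_gPt h]
  rw [Fintype.sum_sum_type]
  simp only [MvPolynomial.eval₂_mul, MvPolynomial.eval₂_C, pm, Sum.elim_inl, Sum.elim_inr,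
    MvPolynomial.eval₂_X, MvPolynomial.eval₂_pow, lf, MvPolynomial.eval₂_sum,
    TrivSqZeroExt.inlHom_apply]
  rfl

variable (p) in
/-- The point of the first player. -/
def xv (v : ℕ → ℝ) (j : Fin (mm p + 2)) : ℝ := v (ix (MM p) 1 j 0 0)

variable (p) in
/-- The points of the second player. -/
def wv (v : ℕ → ℝ) (i : ℕ) (r : Fin (ll p + 1)) : ℝ := v (ix (MM p) 3 i r 0)

variable (p) in
/-- The perturbed payoff. -/
noncomputable def GG (v : ℕ → ℝ) : MvPolynomial (Fin (mm p + 2) ⊕ Fin (ll p + 1)) ℝ :=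
  gp (gP (lc p) (SS p)) (ep (mm p) (ll p) (SS p).length) (cR p v)

theorem dX_ev (v : ℕ → ℝ) (d : ℕ) (j : Fin (mm p + 2)) : ev v (dX p d j) =
    TrivSqZeroExt.inl (xv p v j) + TrivSqZeroExt.inr (if (j : ℕ) = d then 1 else 0) := by
  unfold ev dX xv
  congr 2
  · simp only [tV, Tm.eval, zero_add]
  · split_ifs <;> rfl

theorem dW_ev (v : ℕ → ℝ) (i d : ℕ) (r : Fin (ll p + 1)) : ev v (dW p i d r) =
    TrivSqZeroExt.inl (wv p v i r) +
      TrivSqZeroExt.inr (if mm p + 2 + (r : ℕ) = d then 1 else 0) := by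
  unfold ev dW wv
  congr 2
  · simp only [tV, Tm.eval, zero_add]
  · split_ifs <;> rfl

theorem ev_gD_x {v : ℕ → ℝ} (h : Env p v) {i : ℕ} (hi : i < MM p) (d : Fin (mm p + 2)) :
    ev v (gD p i d) = TrivSqZeroExt.inl (gv (GG p v) (xv p v) (wv p v i)) +
      TrivSqZeroExt.inr (gv (MvPolynomial.pderiv (Sum.inl d) (GG p v)) (xv p v) (wv p v i)) := by
  rw [ev_gD h hi]
  unfold gv
  rw [← eval₂_dual]
  congr 1
  funext a
  rcases a with j | r
  · rw [Sum.elim_inl, Sum.elim_inl, dX_ev]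
    congr 2
    simp only [Sum.inl.injEq, Fin.ext_iff]
  · rw [Sum.elim_inr, Sum.elim_inr, dW_ev]
    congr 2
    rw [if_neg (by have := d.2; omega), if_neg (by simp)]

theorem ev_gD_w {v : ℕ → ℝ} (h : Env p v) {i : ℕ} (hi : i < MM p) (r : Fin (ll p + 1)) :
    ev v (gD p i (mm p + 2 + r)) = TrivSqZeroExt.inl (gv (GG p v) (xv p v) (wv p v i)) +
      TrivSqZeroExt.inr (gv (MvPolynomial.pderiv (Sum.inr r) (GG p v)) (xv p v) (wv p v i)) := by
  rw [ev_gD h hi]
  unfold gv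
  rw [← eval₂_dual]
  congr 1
  funext a
  rcases a with j | r'
  · rw [Sum.elim_inl, Sum.elim_inl, dX_ev]
    congr 2
    rw [if_neg (by have := j.2; omega), if_neg (by simp)]
  · rw [Sum.elim_inr, Sum.elim_inr, dW_ev]
    congr 2
    simp only [Sum.inr.injEq, Fin.ext_iff, add_right_inj]

theorem gD_val {v : ℕ → ℝ} (h : Env p v) {i : ℕ} (hi : i < MM p) :
    (gD p i 0).1.eval v = gv (GG p v) (xv p v) (wv p v i) := by
  have h1 := congrArg TrivSqZeroExt.fst (ev_gD_x h hi 0)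
  rw [Fin.val_zero, ev_fst] at h1
  rw [h1]
  simp

theorem gD_dx {v : ℕ → ℝ} (h : Env p v) {i : ℕ} (hi : i < MM p) (d : Fin (mm p + 2)) :
    (gD p i d).2.eval v =
      gv (MvPolynomial.pderiv (Sum.inl d) (GG p v)) (xv p v) (wv p v i) := by
  have h1 := congrArg TrivSqZeroExt.snd (ev_gD_x h hi d)
  rw [ev_snd] at h1
  rw [h1]
  simp

theorem gD_dw {v : ℕ → ℝ} (h : Env p v) {i : ℕ} (hi : i < MM p) (r : Fin (ll p + 1)) :
    (gD p i (mm p + 2 + r)).2.eval v =
      gv (MvPolynomial.pderiv (Sum.inr r) (GG p v)) (xv p v) (wv p v i) := by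
  have h1 := congrArg TrivSqZeroExt.snd (ev_gD_w h hi r)
  rw [ev_snd] at h1
  rw [h1]
  simp

end

end Pool.Agent.NPC.R537IP
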