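import Pool.Agent.R537.IP.Base

/-!
# The cones over the sets of the violations
-/

set_option autoImplicit false

namespace Pool.Agent.NPC.R537IP

open Pool.Agent.NPC Pool.Agent.NPC.ER Pool.Agent.NPC.H612 Pool.Agent.NPC.R537HD
open Pool.Agent.R537.RN (pick qsum Phi qsum_scale pick_scale Phi_map kap kap' Sent)
open Pool.Agent.R537.IP (sg Hf)

/-! ### Shift of the variables -/

/-- Shift of the variables of a term. -/
def shT (c : ℕ) : Tm → Tm
  | .var i => Tm.var (c + i)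
  | .zero => Tm.zero
  | .one => Tm.one
  | .add s t => Tm.add (shT c s) (shT c t)
  | .neg t => Tm.neg (shT c t)
  | .mul s t => Tm.mul (shT c s) (shT c t)

/-- Shift of the variables of a formula. -/
def shF (c : ℕ) : Fm → Fm
  | .eq s t => Fm.eq (shT c s) (shT c t)
  | .lt s t => Fm.lt (shT c s) (shT c t)
  | .le s t => Fm.le (shT c s) (shT c t)
  | .not φ => Fm.not (shF c φ)
  | .and φ ψ => Fm.and (shF c φ) (shF c ψ)
  | .or φ ψ => Fm.or (shF c φ) (shF c ψ)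

theorem eval_shT (c : ℕ) (v : ℕ → ℝ) (t : Tm) :
    (shT c t).eval v = t.eval (fun i => v (c + i)) := by
  induction t with
  | var i => rfl
  | zero => rfl
  | one => rfl
  | add s t h1 h2 => simp [shT, Tm.eval, h1, h2]
  | neg s h1 => simp [shT, Tm.eval, h1]
  | mul s t h1 h2 => simp [shT, Tm.eval, h1, h2]

theorem holds_shF (c : ℕ) (v : ℕ → ℝ) (φ : Fm) :
    (shF c φ).Holds v ↔ φ.Holds (fun i => v (c + i)) := by
  induction φ with
  | eq s t => simp [shF, Fm.Holds, eval_shT]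
  | lt s t => simp [shF, Fm.Holds, eval_shT]
  | le s t => simp [shF, Fm.Holds, eval_shT]
  | not φ h1 => simp [shF, Fm.Holds, h1]
  | and φ ψ h1 h2 => simp [shF, Fm.Holds, h1, h2]
  | or φ ψ h1 h2 => simp [shF, Fm.Holds, h1, h2]

/-- Shift of symbols. -/
def tokS (c : ℕ) (t : Tok) : List Tok :=
  if t.code.1 = 0 then [Tok.var (c + t.code.2)] else [t]

theorem toks_shT (c : ℕ) (t : Tm) : (shT c t).toks = t.toks.flatMap (tokS c) := by
  induction t with
  | var i =>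
    have h : tokS c (Tok.var i) = [Tok.var (c + i)] := rfl
    have h2 : (Tm.var i).toks.flatMap (tokS c) = tokS c (Tok.var i) := by
      simp [Tm.toks]
    rw [h2, h]
    rfl
  | zero => rfl
  | one => rfl
  | add s t h1 h2 => simp [shT, Tm.toks, h1, h2, tokS, Tok.code]
  | neg s h1 => simp [shT, Tm.toks, h1, tokS, Tok.code]
  | mul s t h1 h2 => simp [shT, Tm.toks, h1, h2, tokS, Tok.code]

theorem toks_shF (c : ℕ) (φ : Fm) : (shF c φ).toks = φ.toks.flatMap (tokS c) := by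
  induction φ with
  | eq s t => simp [shF, Fm.toks, toks_shT, tokS, Tok.code]
  | lt s t => simp [shF, Fm.toks, toks_shT, tokS, Tok.code]
  | le s t => simp [shF, Fm.toks, toks_shT, tokS, Tok.code]
  | not φ h1 => simp [shF, Fm.toks, h1, tokS, Tok.code]
  | and φ ψ h1 h2 => simp [shF, Fm.toks, h1, h2, tokS, Tok.code]
  | or φ ψ h1 h2 => simp [shF, Fm.toks, h1, h2, tokS, Tok.code]

section

variable (p : Sp)

/-- The number of the coordinates of the cone. -/
def nC : ℕ := 1 + (ll p + 1) + (a1 p + 1)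

/-- The number four. -/
def fourT : Tm := Tm.mul twoT twoT

/-- The homogeneous form of the inequality of a violation. -/
def cPhi : DT :=
  dPhi p (dcon (tV p (nC p) 0 0 0 (a3 p)))
    (dsq (dmul (dcon (tV p (nC p) 0 0 0 0)) (dcon (tV p (nC p) 1 0 0 0))))
    (dmul (dcon (tV p (nC p) 0 0 0 0)) (dcon (tV p (nC p) 1 1 0 0)))
    (dcon (Tm.mul fourT (sqT (Tm.var 1))))
    (dcon (Tm.mul (powT (Tm.var 0) 7) (Tm.var (1 + (ll p + 1) + a1 p))))
    (dcon (Tm.mul (powT (Tm.var 0) 8) (Tm.mul (tV p (nC p) 0 0 0 (a2 p + 1))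
      (Tm.mul (tV p (nC p) 2 0 0 (a2 p)) (sqT (tV p (nC p) 1 0 0 0))))))
    (fun j => dmul (dcon (tV p (nC p) 0 0 0 0)) (dcon (tV p (nC p) 1 (j + 2) 0 0)))
    (fun j => dcon (Tm.mul (Tm.mul twoT (Tm.var 0)) (Tm.var (1 + (j + 1)))))

/-- The formula of the open cone. -/
def fCone : Fm := conj (Fm.lt Tm.zero (Tm.var 0) ::
  ((List.range (ll p + 1)).map (fun r => Fm.le (Tm.mul fourT (sqT (Tm.var (1 + r))))
    (sqT (Tm.var 0))) ++
  (Fm.eq (Tm.mul (Tm.var 0) (Tm.var (1 + (ll p + 1)))) (Tm.mul fourT (sqT (Tm.var 1))) ::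
  ((List.range (a1 p)).map (fun j => Fm.eq (Tm.mul (Tm.var 0) (Tm.var (1 + (ll p + 1) + (j + 1))))
    (sqT (Tm.var (1 + (ll p + 1) + j)))) ++ [Fm.le (cPhi p).1 Tm.zero]))))

/-- The formula of the set. -/
def fI : Fm := Fm.and (shF (nC p) (Zf p)) (Fm.or (zer 0 (nC p)) (fCone p))

/-- The dimension. -/
def dI : ℕ := nC p + 8 * (MM p * MM p * MM p)

/-- The instance. -/
def instI : List Unit × Fm := (List.replicate (dI p) (), fI p)

theorem holds_fCone (v : ℕ → ℝ) : (fCone p).Holds v ↔ 0 < v 0 ∧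
    (∀ r < ll p + 1, 4 * v (1 + r) ^ 2 ≤ v 0 ^ 2) ∧
    v 0 * v (1 + (ll p + 1)) = 4 * v 1 ^ 2 ∧
    (∀ j < a1 p, v 0 * v (1 + (ll p + 1) + (j + 1)) = v (1 + (ll p + 1) + j) ^ 2) ∧
    (cPhi p).1.eval v ≤ 0 := by
  unfold fCone
  generalize hF : (cPhi p).1 = F
  have e4 : fourT.eval v = 4 := by
    simp only [fourT, twoT, Tm.eval]; norm_num
  rw [holds_conj]
  simp only [List.forall_mem_cons, List.forall_mem_append, List.mem_map, List.mem_range,
    forall_exists_index, and_imp, forall_apply_eq_imp_iff₂, Fm.Holds, Tm.eval, eval_sqT, e4,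
    List.not_mem_nil, false_implies, implies_true, and_true]

/-- The directions of the cone. -/
noncomputable def cdir (U : Fin (ll p + 1) → ℝ) (i : ℕ) : ℝ :=
  if i = 0 then 1 else if h : i - 1 < ll p + 1 then U ⟨i - 1, h⟩
  else ((2 * U 0) ^ 2) ^ (2 ^ (i - 1 - (ll p + 1)))

theorem cdir_zero (U : Fin (ll p + 1) → ℝ) : cdir p U 0 = 1 := rfl

theorem cdir_u (U : Fin (ll p + 1) → ℝ) (r : Fin (ll p + 1)) : cdir p U (1 + r) = U r := by
  unfold cdir
  rw [if_neg (by omega), dif_pos (by have := r.2; omega)]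
  congr 1
  ext
  simp

theorem cdir_d (U : Fin (ll p + 1) → ℝ) (j : ℕ) :
    cdir p U (1 + (ll p + 1) + j) = ((2 * U 0) ^ 2) ^ (2 ^ j) := by
  unfold cdir
  rw [if_neg (by omega), dif_neg (by omega)]
  congr 2
  omega

variable {p}

/-- The form is homogeneous. -/
theorem Phi_hom {m l : ℕ} (loc : ℕ → Fin 0 ⊕ (Fin m ⊕ Fin l)) (S : List ER.Con)
    (ρ σ r γ t tK rK : ℝ) (y : Fin m → ℝ) (z : Fin l → ℝ) :
    Phi loc S σ r γ (ρ ^ 2 * t) (ρ ^ 8 * tK) (ρ ^ 8 * rK) (fun j : Fin 0 => j.elim0) y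
      (fun j => ρ ^ 2 * z j) =
      ρ ^ 8 * Phi loc S σ r γ t tK rK (fun j => j.elim0) y z := by
  have h : qsum (pick loc (fun j : Fin 0 => r * (ρ ^ 2 * t) * (j.elim0 : ℝ))
      (fun j => σ * (ρ ^ 2 * t) * y j) (fun j => σ * r * (ρ ^ 2 * z j))) (σ * r * (ρ ^ 2 * t)) S =
      (ρ ^ 2) ^ 4 * qsum (pick loc (fun j : Fin 0 => r * t * (j.elim0 : ℝ))
      (fun j => σ * t * y j) (fun j => σ * r * z j)) (σ * r * t) S := by
    rw [← qsum_scale]
    congr 1
    · funext i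
      rw [pick_scale]
      congr 1
      · funext j; exact j.elim0
      · funext j; ring
      · funext j; ring
    · ring
  unfold Phi
  rw [h]
  ring

/-- The value of the homogeneous form. -/
theorem eval_cPhi (v : ℕ → ℝ) (hu : Env p fun i => v (nC p + i)) (U : Fin (ll p + 1) → ℝ)
    (hU : ∀ r : Fin (ll p + 1), v (1 + r) = v 0 * U r)
    (hD : v (1 + (ll p + 1) + a1 p) = v 0 * ((2 * U 0) ^ 2) ^ (2 ^ a1 p)) :
    (cPhi p).1.eval v = v 0 ^ 8 * Hf (lc p) (SS p) (1 / 2) (sg (mm p) (ll p) (SS p).length)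
      (xv p fun i => v (nC p + i)) U := by
  have hM := MM_pos p
  have h2 := a2_lt p
  have h3 := a3_lt p
  have e2 : twoT.eval v = 2 := by
    simp only [twoT, Tm.eval]; norm_num
  have e4 : fourT.eval v = 4 := by
    simp only [fourT, twoT, Tm.eval]; norm_num
  have s0 : (tV p (nC p) 0 0 0 0).eval v = 1 / 2 := by
    have := hu.hS 0 0 0 hM hM hM
    simp only [tV, Tm.eval]
    rw [this]; norm_num
  have s3 : (tV p (nC p) 0 0 0 (a3 p)).eval v = sg (mm p) (ll p) (SS p).length :=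
    hu.hS 0 0 (a3 p) hM hM h3
  have s2 : (tV p (nC p) 0 0 0 (a2 p + 1)).eval v = (1 / 2) ^ (2 ^ (a2 p + 1)) :=
    hu.hS 0 0 (a2 p + 1) hM hM h2
  have c2 : (tV p (nC p) 2 0 0 (a2 p)).eval v =
      ((xv p fun i => v (nC p + i)) 0 ^ 2) ^ (2 ^ a2 p - 1) :=
    hu.hCX 0 0 (a2 p) hM hM (by omega)
  have x0 : (tV p (nC p) 1 0 0 0).eval v = (xv p fun i => v (nC p + i)) 0 := rfl
  have x1 : (tV p (nC p) 1 1 0 0).eval v = (xv p fun i => v (nC p + i)) 1 := rfl
  obtain ⟨X, hX⟩ : ∃ X, X = xv p fun i => v (nC p + i) := ⟨_, rfl⟩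
  rw [← hX] at c2 x0 x1 ⊢
  have hy : ∀ j : Fin (mm p), (tV p (nC p) 1 ((j : ℕ) + 2) 0 0).eval v = X j.succ.succ := by
    intro j
    rw [hX]
    rfl
  have e1 : (cPhi p).1.eval v = (ev v (cPhi p)).fst := (ev_fst _ _).symm
  rw [e1]
  unfold cPhi
  rw [ev_dPhi]
  have e5 := Phi_map (lc p) (TrivSqZeroExt.fstHom ℝ ℝ ℝ).toRingHom (SS p)
  simp only [AlgHom.toRingHom_eq_coe, RingHom.coe_coe, TrivSqZeroExt.fstHom_apply] at e5
  rw [e5]
  have e6 : (fun j : Fin 0 => TrivSqZeroExt.fst (j.elim0 : DualNumber ℝ)) =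
      fun j : Fin 0 => (j.elim0 : ℝ) := funext fun j => j.elim0
  rw [e6]
  simp only [ev_dcon, ev_dsq, ev_dmul, TrivSqZeroExt.fst_inl, TrivSqZeroExt.fst_mul,
    TrivSqZeroExt.fst_pow, Tm.eval, eval_sqT, eval_powT, e4, s0, s3, s2, x0, x1, c2, e2, hy]
  have hU0 := hU 0
  rw [Fin.val_zero, add_zero] at hU0
  rw [hU0, hD]
  have e7 : (fun j : Fin (ll p) => 2 * v 0 * v (1 + ((j : ℕ) + 1))) =
      fun j : Fin (ll p) => v 0 ^ 2 * (2 * U j.succ) := by
    funext j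
    have := hU j.succ
    rw [Fin.val_succ] at this
    rw [this]
    ring
  rw [e7]
  unfold Hf
  rw [← Phi_hom]
  have g1 : 4 * (v 0 * U 0) ^ 2 = v 0 ^ 2 * (2 * U 0) ^ 2 := by ring
  have g2 : v 0 ^ 7 * (v 0 * ((2 * U 0) ^ 2) ^ (2 ^ a1 p)) =
      v 0 ^ 8 * ((2 * U 0) ^ 2) ^ (2 ^ a1 p) := by ring
  have g3 : ((1:ℝ) / 2) ^ (2 ^ (a2 p + 1)) * ((X 0 ^ 2) ^ (2 ^ a2 p - 1) * X 0 ^ 2) =
      ((1 / 2 * X 0) ^ 2) ^ (2 ^ a2 p) := by
    rw [← pow_succ, Nat.sub_add_cancel Nat.one_le_two_pow, pow_succ 2 (a2 p),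
      mul_comm (2 ^ a2 p) 2, pow_mul (1 / 2 : ℝ), ← mul_pow, ← mul_pow]
  rw [g1, g2, g3]
  rfl

/-- **The points of the open cone.** -/
theorem cone_iff (v : ℕ → ℝ) (hu : Env p fun i => v (nC p + i)) :
    (fCone p).Holds v ↔ 0 < v 0 ∧ ∃ U : Fin (ll p + 1) → ℝ, (∀ r, |U r| ≤ 1 / 2) ∧
      Hf (lc p) (SS p) (1 / 2) (sg (mm p) (ll p) (SS p).length)
        (xv p fun i => v (nC p + i)) U ≤ 0 ∧ ∀ i < nC p, v i = v 0 * cdir p U i := by
  rw [holds_fCone]
  constructor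
  · rintro ⟨h0, h1, h2, h3, h4⟩
    have hne : v 0 ≠ 0 := h0.ne'
    have hU : ∀ r : Fin (ll p + 1), v (1 + r) = v 0 * (v (1 + r) / v 0) := by
      intro r; field_simp
    have hDall : ∀ j ≤ a1 p, v (1 + (ll p + 1) + j) =
        v 0 * ((2 * (v (1 + ((0 : Fin (ll p + 1)) : ℕ)) / v 0)) ^ 2) ^ (2 ^ j) := by
      intro j
      induction j with
      | zero =>
        intro _
        have : v (1 + (ll p + 1) + 0) = 4 * v 1 ^ 2 / v 0 := by
          rw [eq_div_iff hne, ← h2, add_zero]; ring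
        rw [this]
        simp only [Fin.val_zero, add_zero, pow_zero, pow_one]
        field_simp
        ring
      | succ j ih =>
        intro hj
        have h5 := h3 j (by omega)
        rw [ih (by omega)] at h5
        have h6 : v (1 + (ll p + 1) + (j + 1)) =
            (v 0 * ((2 * (v (1 + ((0 : Fin (ll p + 1)) : ℕ)) / v 0)) ^ 2) ^ (2 ^ j)) ^ 2 / v 0 := by
          rw [eq_div_iff hne, ← h5]; ring
        rw [h6, pow_succ 2 j, pow_mul _ (2 ^ j) 2]
        field_simp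
    refine ⟨h0, fun r => v (1 + r) / v 0, fun r => ?_, ?_, fun i hi => ?_⟩
    · rw [abs_div, abs_of_pos h0, div_le_iff₀ h0]
      have h5 := h1 r r.2
      have h6 : (2 * |v (1 + r)|) ^ 2 ≤ v 0 ^ 2 := by
        rw [mul_pow, sq_abs]; linarith
      have h7 := abs_le_of_sq_le_sq' h6 h0.le
      linarith [h7.2]
    · rw [eval_cPhi v hu _ hU (hDall (a1 p) (le_refl _))] at h4
      have h5 : 0 < v 0 ^ 8 := by positivity
      by_contra h6
      push Not at h6
      exact absurd h4 (not_le.2 (mul_pos h5 h6))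
    · rcases Nat.eq_zero_or_pos i with rfl | hi0
      · rw [cdir_zero, mul_one]
      · by_cases h5 : i - 1 < ll p + 1
        · obtain ⟨r, hr⟩ : ∃ r : Fin (ll p + 1), i = 1 + r := ⟨⟨i - 1, h5⟩, by simp; omega⟩
          rw [hr, cdir_u]
          exact hU r
        · obtain ⟨j, hj⟩ : ∃ j, i = 1 + (ll p + 1) + j := ⟨i - 1 - (ll p + 1), by omega⟩
          rw [hj, cdir_d]
          exact hDall j (by unfold nC at hi; omega)
  · rintro ⟨h0, U, hU, hH, hv⟩
    have hlt : ∀ r : Fin (ll p + 1), v (1 + r) = v 0 * U r := by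
      intro r
      rw [hv (1 + r) (by unfold nC; have := r.2; omega), cdir_u]
    have hD : ∀ j ≤ a1 p, v (1 + (ll p + 1) + j) = v 0 * ((2 * U 0) ^ 2) ^ (2 ^ j) := by
      intro j hj
      rw [hv (1 + (ll p + 1) + j) (by unfold nC; omega), cdir_d]
    have hv1 : v 1 = v 0 * U 0 := by
      have := hlt 0
      rwa [Fin.val_zero, add_zero] at this
    refine ⟨h0, ?_, ?_, ?_, ?_⟩
    · intro r hr
      have h1 := hlt ⟨r, hr⟩
      simp only at h1
      have h2 := abs_le.1 (hU ⟨r, hr⟩)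
      rw [h1, mul_pow]
      have h3 : 4 * U ⟨r, hr⟩ ^ 2 ≤ 1 := by nlinarith [h2.1, h2.2]
      have h4 : 0 < v 0 ^ 2 := by positivity
      nlinarith
    · have := hD 0 (by omega)
      rw [add_zero, pow_zero, pow_one] at this
      rw [this, hv1]; ring
    · intro j hj
      rw [hD (j + 1) (by omega), hD j (by omega), pow_succ 2 j, pow_mul _ (2 ^ j) 2]
      ring
    · rw [eval_cPhi v hu U hlt (hD (a1 p) (le_refl _))]
      exact mul_nonpos_of_nonneg_of_nonpos (by positivity) hH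

end

end Pool.Agent.NPC.R537IP
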