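import Pool.Agent.R537.IP.Cone

/-!
# Correctness of the reduction
-/

set_option autoImplicit false

namespace Pool.Agent.NPC.R537IP

open Pool.Agent.NPC Pool.Agent.NPC.ER Pool.Agent.NPC.H612 Pool.Agent.NPC.R537HD
open Pool.Agent.R537.RN (Sent)
open Pool.Agent.R537.IP (sg Hf viol_of_sent)

variable (p : Sp)

theorem ear_iff : EAR p ↔ ¬ Sent (lc p) (SS p) := by
  have h1 : EAE (qq p) ↔ Sent (lc p) (SS p) := eae_iff_sent (qq p)
  rw [← h1]
  unfold EAR EAE
  have e : ∀ x y : ℕ → ℝ, mixv (qq p).1 x y = y := by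
    intro x y
    funext i
    simp [mixv, qq]
  simp only [e]
  constructor
  · rintro ⟨x, hx⟩ ⟨_, h⟩
    obtain ⟨z, hz⟩ := h x
    exact hz (hx z)
  · intro h
    by_contra hcon
    push Not at hcon
    refine h ⟨0, fun y => ?_⟩
    obtain ⟨z, hz⟩ := hcon y
    exact ⟨z, hz⟩

theorem mul_div_step {M x l : ℕ} (hl : l < M) : (x * M + l) / M = x := by
  have hM : 0 < M := by omega
  rw [Nat.mul_comm, Nat.mul_add_div hM, Nat.div_eq_of_lt hl, add_zero]

theorem mul_mod_step {M x l : ℕ} (hl : l < M) : (x * M + l) % M = l := by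
  rw [Nat.mul_comm, Nat.mul_add_mod, Nat.mod_eq_of_lt hl]

theorem ix_lt {M f i j l : ℕ} (hf : f < 8) (hi : i < M) (hj : j < M) (hl : l < M) :
    ix M f i j l < 8 * (M * M * M) := by
  have step : ∀ {x l B : ℕ}, x < B → l < M → x * M + l < B * M := by
    intro x l B hx hl
    calc x * M + l < x * M + M := by omega
      _ = (x + 1) * M := by ring
      _ ≤ B * M := Nat.mul_le_mul_right _ hx
  have h1 := step (step (step hf hi) hj) hl
  unfold ix
  calc _ < _ := h1
    _ = _ := by ring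

theorem dec_ix {M f i j l : ℕ} (hi : i < M) (hj : j < M) (hl : l < M) :
    ix M f i j l / M / M / M = f ∧ ix M f i j l / M / M % M = i ∧ ix M f i j l / M % M = j ∧
      ix M f i j l % M = l := by
  unfold ix
  rw [mul_div_step hl, mul_div_step hj, mul_div_step hi, mul_mod_step hl, mul_mod_step hj,
    mul_mod_step hi]
  exact ⟨rfl, rfl, rfl, rfl⟩

theorem ix_dec {M a : ℕ} (hM : 0 < M) (ha : a < 8 * (M * M * M)) :
    ∃ f i j l, f < 8 ∧ i < M ∧ j < M ∧ l < M ∧ a = ix M f i j l := by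
  refine ⟨a / M / M / M, a / M / M % M, a / M % M, a % M, ?_, Nat.mod_lt _ hM, Nat.mod_lt _ hM,
    Nat.mod_lt _ hM, ?_⟩
  · rw [Nat.div_lt_iff_lt_mul hM, Nat.div_lt_iff_lt_mul hM, Nat.div_lt_iff_lt_mul hM]
    calc a < _ := ha
      _ = _ := by ring
  · unfold ix
    rw [Nat.div_add_mod', Nat.div_add_mod', Nat.div_add_mod']

theorem holds_zer (v : ℕ → ℝ) (k : ℕ) : (zer 0 k).Holds v ↔ ∀ j < k, v j = 0 := by
  unfold zer
  rw [holds_conj]
  simp only [List.mem_map, List.mem_range, forall_exists_index, and_imp,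
    forall_apply_eq_imp_iff₂, Fm.Holds, Tm.eval, zero_add]

theorem mem_semi (x : EuclideanSpace ℝ (Fin (dI p))) : x ∈ semi (dI p) (fI p) ↔
    ZP p (fun i => asg x (nC p + i)) ∧ ((∀ j < nC p, asg x j = 0) ∨ (fCone p).Holds (asg x)) := by
  change (fI p).Holds (asg x) ↔ _
  unfold fI
  simp only [Fm.Holds, holds_shF, Zf_iff, holds_zer]

theorem asg_lt {n : ℕ} (x : EuclideanSpace ℝ (Fin n)) {i : ℕ} (h : i < n) :
    asg x i = x ⟨i, h⟩ := by
  unfold asg
  rw [dif_pos h]

theorem asg_ge {n : ℕ} (x : EuclideanSpace ℝ (Fin n)) {i : ℕ} (h : ¬ i < n) :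
    asg x i = 0 := by
  unfold asg
  rw [dif_neg h]

/-- If the sentence fails, then there is an isolated point. -/
theorem iso_of_not_sent (h : ¬ Sent (lc p) (SS p)) : ∃ x, IsoPt (semi (dI p) (fI p)) x := by
  obtain ⟨V, δ, hδ, hV, hiso⟩ := base_exists p h
  have hM := MM_pos p
  obtain ⟨z0, hz0⟩ : ∃ z0 : EuclideanSpace ℝ (Fin (dI p)), ∀ a, z0 a =
      if (a : ℕ) < nC p then 0 else
        V (((a : ℕ) - nC p) / MM p / MM p / MM p) (((a : ℕ) - nC p) / MM p / MM p % MM p)
          (((a : ℕ) - nC p) / MM p % MM p) (((a : ℕ) - nC p) % MM p) :=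
    ⟨WithLp.toLp 2 fun a => if (a : ℕ) < nC p then 0 else
        V (((a : ℕ) - nC p) / MM p / MM p / MM p) (((a : ℕ) - nC p) / MM p / MM p % MM p)
          (((a : ℕ) - nC p) / MM p % MM p) (((a : ℕ) - nC p) % MM p), fun _ => rfl⟩
  have hbase : ∀ f i j l, f < 8 → i < MM p → j < MM p → l < MM p →
      asg z0 (nC p + ix (MM p) f i j l) = V f i j l := by
    intro f i j l hf hi hj hl
    have h1 := ix_lt hf hi hj hl
    have h2 : nC p + ix (MM p) f i j l < dI p := by unfold dI; omega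
    rw [asg_lt z0 h2, hz0, if_neg (by simp only; omega)]
    simp only [Nat.add_sub_cancel_left]
    obtain ⟨d1, d2, d3, d4⟩ := dec_ix (f := f) hi hj hl
    rw [d1, d2, d3, d4]
  have hcone : ∀ j < nC p, asg z0 j = 0 := by
    intro j hj
    rw [asg_lt z0 (by unfold dI; omega), hz0, if_pos hj]
  refine ⟨z0, ?_, δ, hδ, fun y hy hdist => ?_⟩
  · rw [mem_semi]
    exact ⟨(hV (fun i => asg z0 (nC p + i)) hbase).1, Or.inl hcone⟩
  · rw [mem_semi] at hy
    obtain ⟨hy1, hy2⟩ := hy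
    have hyV : ∀ f i j l, f < 8 → i < MM p → j < MM p → l < MM p →
        asg y (nC p + ix (MM p) f i j l) = V f i j l := by
      refine hiso _ hy1 fun f i j l hf hi hj hl => ?_
      have h1 := ix_lt hf hi hj hl
      have h2 : nC p + ix (MM p) f i j l < dI p := by unfold dI; omega
      rw [← hbase f i j l hf hi hj hl, asg_lt z0 h2, asg_lt y h2]
      rw [dist_eq_norm] at hdist
      refine lt_of_le_of_lt ?_ hdist
      exact PiLp.norm_apply_le (y - z0) ⟨_, h2⟩
    have hnv := (hV (fun i => asg y (nC p + i)) hyV).2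
    have hy3 : ∀ j < nC p, asg y j = 0 := by
      rcases hy2 with hy2 | hy2
      · exact hy2
      · rw [cone_iff _ hy1.env] at hy2
        obtain ⟨-, U, hU, hH, -⟩ := hy2
        exact absurd (hnv U hU) (not_lt.2 hH)
    ext a
    by_cases ha : (a : ℕ) < nC p
    · have h1 := hy3 a ha
      have h2 := hcone a ha
      rw [asg_lt _ a.2] at h1 h2
      rw [h1, h2]
    · obtain ⟨f, i, j, l, hf, hi, hj, hl, e⟩ := ix_dec (a := (a : ℕ) - nC p) hM (by
        have := a.2; unfold dI at this; omega)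
      have e2 : (a : ℕ) = nC p + ix (MM p) f i j l := by omega
      have h1 := hyV f i j l hf hi hj hl
      have h2 := hbase f i j l hf hi hj hl
      rw [← e2, asg_lt _ a.2] at h1 h2
      rw [h1, h2]

/-- If the sentence holds, then there are no isolated points. -/
theorem not_iso_of_sent (h : Sent (lc p) (SS p)) (x : EuclideanSpace ℝ (Fin (dI p)))
    (hx : IsoPt (semi (dI p) (fI p)) x) : False := by
  obtain ⟨hxS, ε, hε, hiso⟩ := hx
  have hM := MM_pos p
  have hmm := mm_lt p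
  rw [mem_semi] at hxS
  obtain ⟨hz, hc⟩ := hxS
  have hn0 : 0 < nC p := by unfold nC; omega
  have hnd : nC p ≤ dI p := by unfold dI; omega
  obtain ⟨s0, hs0, U, hU, hH, hdir⟩ : ∃ s0 : ℝ, 0 ≤ s0 ∧ ∃ U : Fin (ll p + 1) → ℝ,
      (∀ r, |U r| ≤ 1 / 2) ∧ Hf (lc p) (SS p) (1 / 2) (sg (mm p) (ll p) (SS p).length)
        (xv p fun i => asg x (nC p + i)) U ≤ 0 ∧ ∀ i < nC p, asg x i = s0 * cdir p U i := by
    rcases hc with hc | hc
    · obtain ⟨U, hU, hH⟩ := viol_of_sent (lc p) (SS p) h (xv p fun i => asg x (nC p + i))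
        (fun i => by
          have h1 := hz.hX i 0 0 (by omega) hM hM
          rw [if_pos ⟨⟨rfl, rfl⟩, i.2⟩] at h1
          have h2 : (xv p fun i => asg x (nC p + i)) i ^ 2 ≤ 2 ^ 2 := by
            norm_num
            exact h1
          exact abs_le_of_sq_le_sq h2 (by norm_num))
      exact ⟨0, le_refl _, U, hU, hH, fun i hi => by rw [hc i hi, zero_mul]⟩
    · rw [cone_iff _ hz.env] at hc
      obtain ⟨h0, U, hU, hH, hdir⟩ := hc
      exact ⟨asg x 0, h0.le, U, hU, hH, hdir⟩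
  obtain ⟨dv, hdv⟩ : ∃ dv : EuclideanSpace ℝ (Fin (dI p)), ∀ a, dv a =
      if (a : ℕ) < nC p then cdir p U a else 0 :=
    ⟨WithLp.toLp 2 fun a => if (a : ℕ) < nC p then cdir p U a else 0, fun _ => rfl⟩
  obtain ⟨t, ht0, ht⟩ : ∃ t : ℝ, 0 < t ∧ t * ‖dv‖ < ε := by
    have hn := norm_nonneg dv
    refine ⟨ε / (2 * (‖dv‖ + 1)), by positivity, ?_⟩
    rw [div_mul_eq_mul_div, div_lt_iff₀ (by positivity)]
    nlinarith
  obtain ⟨y, hy⟩ : ∃ y, y = x + t • dv := ⟨_, rfl⟩
  have hya : ∀ a, y a = x a + t * dv a := by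
    intro a
    rw [hy]
    simp
  have hysh : (fun i => asg y (nC p + i)) = fun i => asg x (nC p + i) := by
    funext i
    by_cases hi : nC p + i < dI p
    · rw [asg_lt _ hi, asg_lt _ hi, hya, hdv, if_neg (by simp), mul_zero, add_zero]
    · rw [asg_ge _ hi, asg_ge _ hi]
  have hyc : ∀ i < nC p, asg y i = (s0 + t) * cdir p U i := by
    intro i hi
    have h1 := hdir i hi
    rw [asg_lt _ (by omega)] at h1 ⊢
    rw [hya, hdv, if_pos hi, h1]
    ring
  have hy0 : asg y 0 = s0 + t := by rw [hyc 0 hn0, cdir_zero, mul_one]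
  have hyS : y ∈ semi (dI p) (fI p) := by
    rw [mem_semi]
    rw [hysh]
    refine ⟨hz, Or.inr ?_⟩
    rw [cone_iff _ (by rw [hysh]; exact hz.env), hysh]
    refine ⟨by rw [hy0]; linarith, U, hU, hH, fun i hi => ?_⟩
    rw [hyc i hi, hy0]
  have hyx : y = x := by
    refine hiso y hyS ?_
    rw [dist_eq_norm, hy, add_sub_cancel_left, norm_smul, Real.norm_eq_abs, abs_of_pos ht0]
    exact ht
  rw [hyx, hdir 0 hn0, cdir_zero, mul_one] at hy0
  linarith

/-- **Correctness of the reduction.** -/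
theorem correct : EAR p ↔ IsolatedPointExistence (instI p) := by
  unfold IsolatedPointExistence
  change _ ↔ ∃ x, IsoPt (semi (List.replicate (dI p) ()).length (fI p)) x
  rw [List.length_replicate, ear_iff]
  constructor
  · exact iso_of_not_sent p
  · rintro ⟨x, hx⟩ h
    exact not_iso_of_sent p h x hx

end Pool.Agent.NPC.R537IP
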