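import Pool.Agent.R537.HD.Defs

/-!
# The existence of an isolated point
-/

namespace Pool.Agent.NPC.R537IP

open Pool.Agent.NPC.ER Pool.Agent.NPC.R537HD

/-- The point `x` is an isolated point of the set `A`: it belongs to `A`, and some open ball with
the centre `x` meets `A` only in `x`. -/
def IsoPt {n : ℕ} (A : Set (EuclideanSpace ℝ (Fin n))) (x : EuclideanSpace ℝ (Fin n)) : Prop :=
  x ∈ A ∧ ∃ ε > 0, ∀ y ∈ A, dist y x < ε → y = x

/-- The isolated point existence problem: an instance consists of the dimension `n` (written in
unary, as a list of length `n`) and a quantifier-free formula `φ`; the question is whether the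
semialgebraic set of the points of `ℝⁿ` which satisfy `φ` has an isolated point. -/
def IsolatedPointExistence (I : List Unit × Fm) : Prop := ∃ x, IsoPt (semi I.1.length I.2) x

end Pool.Agent.NPC.R537IP
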