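import Pool.Agent.R537.HD.PolyT
import Pool.Agent.R537.IP.Defs
import Mathlib.Algebra.DualNumber

/-!
# Pairs of terms, and dual numbers
-/

set_option autoImplicit false

namespace Pool.Agent.NPC.R537IP

open Pool.Agent.NPC Pool.Agent.NPC.ER Pool.Agent.NPC.H612 Pool.Agent.NPC.R537HD

/-- Pairs of terms: a value and a directional derivative. -/
abbrev DT : Type := Tm × Tm

/-- The value as a dual number. -/
noncomputable def ev (v : ℕ → ℝ) (t : DT) : DualNumber ℝ :=
  TrivSqZeroExt.inl (t.1.eval v) + TrivSqZeroExt.inr (t.2.eval v)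

@[simp] theorem ev_fst (v : ℕ → ℝ) (t : DT) : (ev v t).fst = t.1.eval v := by simp [ev]
@[simp] theorem ev_snd (v : ℕ → ℝ) (t : DT) : (ev v t).snd = t.2.eval v := by simp [ev]

/-- A constant. -/
def dcon (t : Tm) : DT := (t, Tm.zero)
/-- The sum. -/
def dadd (a b : DT) : DT := (Tm.add a.1 b.1, Tm.add a.2 b.2)
/-- The difference. -/
def dsub (a b : DT) : DT := (subT a.1 b.1, subT a.2 b.2)
/-- The product. -/
def dmul (a b : DT) : DT := (Tm.mul a.1 b.1, Tm.add (Tm.mul a.1 b.2) (Tm.mul a.2 b.1))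
/-- The square. -/
def dsq (a : DT) : DT := dmul a a
/-- The sum of a list. -/
def dsum (l : List DT) : DT := (sumT (l.map Prod.fst), sumT (l.map Prod.snd))
/-- A power of a term. -/
def powT (t : Tm) (n : ℕ) : Tm := prodT (List.replicate n t)
/-- A power. -/
def dpow (t : DT) (n : ℕ) : DT := (powT t.1 n, Tm.mul (Tm.mul (numT n) (powT t.1 (n - 1))) t.2)
/-- A power of two. -/
def p2T (k : ℕ) : Tm := natT (List.replicate k false ++ [true])
/-- The power of `a` with the exponent `2 ^ k`, where the value of `C` is the power with the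
exponent `2 ^ k - 1`. -/
def dch (C : Tm) (k : ℕ) (a : DT) : DT := (Tm.mul C a.1, Tm.mul (Tm.mul (p2T k) C) a.2)

theorem dual_ext {a b : DualNumber ℝ} (h1 : a.fst = b.fst) (h2 : a.snd = b.snd) : a = b :=
  TrivSqZeroExt.ext h1 h2

theorem snd_mul' (a b : DualNumber ℝ) : (a * b).snd = a.fst * b.snd + a.snd * b.fst := by
  rw [TrivSqZeroExt.snd_mul]
  simp [mul_comm]

theorem snd_pow' (a : DualNumber ℝ) (n : ℕ) : (a ^ n).snd = n * a.fst ^ (n - 1) * a.snd := by
  rw [TrivSqZeroExt.snd_pow]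
  simp [mul_assoc]

theorem ev_dcon (v : ℕ → ℝ) (t : Tm) : ev v (dcon t) = TrivSqZeroExt.inl (t.eval v) := by
  apply dual_ext <;> simp [dcon, Tm.eval]

@[simp] theorem ev_dadd (v : ℕ → ℝ) (a b : DT) : ev v (dadd a b) = ev v a + ev v b := by
  apply dual_ext <;> simp [dadd, Tm.eval]

@[simp] theorem ev_dsub (v : ℕ → ℝ) (a b : DT) : ev v (dsub a b) = ev v a - ev v b := by
  apply dual_ext <;> simp [dsub]

@[simp] theorem ev_dmul (v : ℕ → ℝ) (a b : DT) : ev v (dmul a b) = ev v a * ev v b := by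
  apply dual_ext
  · simp [dmul, Tm.eval]
  · rw [snd_mul']
    simp [dmul, Tm.eval]

@[simp] theorem ev_dsq (v : ℕ → ℝ) (a : DT) : ev v (dsq a) = ev v a ^ 2 := by
  rw [dsq, ev_dmul, sq]

theorem ev_dsum (v : ℕ → ℝ) (l : List DT) : ev v (dsum l) = (l.map (ev v)).sum := by
  induction l with
  | nil => apply dual_ext <;> simp [dsum, sumT, Tm.eval]
  | cons a l ih =>
    rw [List.map_cons, List.sum_cons, ← ih]
    apply dual_ext <;> simp [dsum, sumT, Tm.eval]

theorem eval_powT (v : ℕ → ℝ) (t : Tm) (n : ℕ) : (powT t n).eval v = t.eval v ^ n := by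
  rw [powT, eval_prodT]
  simp

@[simp] theorem ev_dpow (v : ℕ → ℝ) (t : DT) (n : ℕ) : ev v (dpow t n) = ev v t ^ n := by
  apply dual_ext
  · simp [dpow, eval_powT]
  · rw [snd_pow']
    simp [dpow, Tm.eval, eval_powT]

theorem eval_p2T (v : ℕ → ℝ) (k : ℕ) : (p2T k).eval v = 2 ^ k := by
  rw [p2T, eval_natT]
  induction k with
  | zero => simp [valB]
  | succ k ih =>
    rw [List.replicate_succ, List.cons_append, pow_succ, ← ih]
    simp [valB]
    ring

theorem ev_dch (v : ℕ → ℝ) (C : Tm) (k : ℕ) (a : DT)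
    (h : C.eval v = a.1.eval v ^ (2 ^ k - 1)) : ev v (dch C k a) = ev v a ^ (2 ^ k) := by
  have h1 : 1 ≤ 2 ^ k := Nat.one_le_two_pow
  apply dual_ext
  · rw [TrivSqZeroExt.fst_pow, ev_fst, ev_fst]
    simp only [dch, Tm.eval, h]
    rw [← pow_succ]
    congr 1
    omega
  · rw [snd_pow', ev_fst, ev_snd, ev_snd]
    simp only [dch, Tm.eval, h, eval_p2T]
    push_cast
    ring

/-- Evaluation in the dual numbers. -/
theorem eval₂_dual {τ : Type*} [DecidableEq τ] (P : MvPolynomial τ ℝ) (a : τ → ℝ) (d : τ) :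
    P.eval₂ (TrivSqZeroExt.inlHom ℝ ℝ) (fun i => (TrivSqZeroExt.inl (a i) +
      TrivSqZeroExt.inr (if i = d then 1 else 0) : DualNumber ℝ)) =
      TrivSqZeroExt.inl (MvPolynomial.eval a P) +
        TrivSqZeroExt.inr (MvPolynomial.eval a (MvPolynomial.pderiv d P)) := by
  induction P using MvPolynomial.induction_on with
  | C c => apply dual_ext <;> simp
  | add p q hp hq =>
    rw [MvPolynomial.eval₂_add, hp, hq]
    apply dual_ext <;> simp
  | mul_X p i hp =>
    rw [MvPolynomial.eval₂_mul, hp, MvPolynomial.eval₂_X]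
    apply dual_ext
    · simp only [TrivSqZeroExt.fst_mul, TrivSqZeroExt.fst_add, TrivSqZeroExt.fst_inl,
        TrivSqZeroExt.fst_inr, add_zero, map_mul, MvPolynomial.eval_X]
    · rw [snd_mul']
      simp only [TrivSqZeroExt.fst_add, TrivSqZeroExt.fst_inl, TrivSqZeroExt.fst_inr, add_zero,
        TrivSqZeroExt.snd_add, TrivSqZeroExt.snd_inl, TrivSqZeroExt.snd_inr, zero_add,
        Derivation.leibniz, MvPolynomial.pderiv_X, smul_eq_mul, map_add, map_mul,
        MvPolynomial.eval_X, Pi.single_apply]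
      have h1 : (MvPolynomial.eval a) (if i = d then (1 : MvPolynomial τ ℝ) else 0) =
        if i = d then 1 else 0 := by split_ifs <;> simp
      rw [h1]
      ring

section

variable {α : Type} [TEnc α]

theorem poly_dt {a : α → DT} (ha : Poly a) : Poly (fun x => (a x).1) ∧ Poly (fun x => (a x).2) :=
  ⟨Poly.fst ha, Poly.snd ha⟩

theorem poly_dcon {t : α → Tm} (ht : Poly t) : Poly (fun x => dcon (t x)) :=
  Poly.pair ht (Poly.const _)

theorem poly_dadd {a b : α → DT} (ha : Poly a) (hb : Poly b) :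
    Poly (fun x => dadd (a x) (b x)) :=
  Poly.pair (poly_tadd (Poly.fst ha) (Poly.fst hb)) (poly_tadd (Poly.snd ha) (Poly.snd hb))

theorem poly_dsub {a b : α → DT} (ha : Poly a) (hb : Poly b) :
    Poly (fun x => dsub (a x) (b x)) :=
  Poly.pair (poly_subT (Poly.fst ha) (Poly.fst hb)) (poly_subT (Poly.snd ha) (Poly.snd hb))

theorem poly_dmul {a b : α → DT} (ha : Poly a) (hb : Poly b) :
    Poly (fun x => dmul (a x) (b x)) :=
  Poly.pair (poly_tmul (Poly.fst ha) (Poly.fst hb)) (poly_tadd (poly_tmul (Poly.fst ha)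
    (Poly.snd hb)) (poly_tmul (Poly.snd ha) (Poly.fst hb)))

theorem poly_dsq {a : α → DT} (ha : Poly a) : Poly (fun x => dsq (a x)) := poly_dmul ha ha

theorem poly_dsum {l : α → List DT} (hl : Poly l) : Poly (fun x => dsum (l x)) :=
  Poly.pair (poly_sumT (Poly.map (F := fun _ t => Prod.fst t) hl (Poly.fst (Poly.snd Poly.id))))
    (poly_sumT (Poly.map (F := fun _ t => Prod.snd t) hl (Poly.snd (Poly.snd Poly.id))))

theorem poly_rep {β : Type} [TEnc β] {n : α → ℕ} (hn : UPoly n) {t : α → β} (ht : Poly t) :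
    Poly (fun x => List.replicate (n x) (t x)) := by
  refine (Poly.map (F := fun a _ => t a) hn.range (ht.comp (Poly.fst Poly.id))).congr fun a => ?_
  simp

theorem poly_powT {t : α → Tm} (ht : Poly t) {n : α → ℕ} (hn : UPoly n) :
    Poly (fun x => powT (t x) (n x)) := poly_prodT (poly_rep hn ht)

end

end Pool.Agent.NPC.R537IP
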