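import Pool.Agent.R537.IP.Build

/-!
# The formula of the base
-/

set_option autoImplicit false

namespace Pool.Agent.NPC.R537IP

open Pool.Agent.NPC Pool.Agent.NPC.ER Pool.Agent.NPC.H612 Pool.Agent.NPC.R537HD
open Pool.Agent.R537.IP (gv)

section

variable (p : Sp)

/-- The powers of one half. -/
def fS (i j l : ℕ) : Fm :=
  if l = 0 then Fm.eq (Tm.add (tV p 0 0 i j l) (tV p 0 0 i j l)) Tm.one
  else Fm.eq (tV p 0 0 i j l) (sqT (tV p 0 0 i j (l - 1)))

/-- The point of the first player. -/
def fX (i j l : ℕ) : Fm :=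
  if (j = 0 ∧ l = 0) ∧ i < mm p + 2 then Fm.le (sqT (tV p 0 1 i j l)) (Tm.mul twoT twoT)
  else Fm.eq (tV p 0 1 i j l) Tm.zero

/-- The powers for the first player. -/
def fCX (i j l : ℕ) : Fm :=
  if l = 0 then Fm.eq (tV p 0 2 i j l) Tm.one
  else Fm.eq (tV p 0 2 i j l) (Tm.mul (sqT (tV p 0 2 i j (l - 1))) (sqT (tV p 0 1 i 0 0)))

/-- The points of the second player. -/
def fW (i j l : ℕ) : Fm :=
  if l = 0 ∧ j < ll p + 1 then
    Fm.or (Fm.eq (tV p 0 6 i 0 0) Tm.one) (Fm.eq (tV p 0 3 i j l) Tm.zero)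
  else Fm.eq (tV p 0 3 i j l) Tm.zero

/-- The powers for the second player. -/
def fCW (i j l : ℕ) : Fm :=
  if l = 0 then Fm.eq (tV p 0 4 i j l) Tm.one
  else Fm.eq (tV p 0 4 i j l) (Tm.mul (sqT (tV p 0 4 i j (l - 1)))
    (sqT (Tm.mul twoT (tV p 0 3 i j 0))))

/-- The digits. -/
def fB (i j l : ℕ) : Fm := Fm.eq (sqT (tV p 0 5 i j l)) (tV p 0 5 i j l)

/-- The activities. -/
def fA (i j l : ℕ) : Fm := Fm.eq (sqT (tV p 0 6 i j l)) (tV p 0 6 i j l)

/-- The multipliers. -/
def fL (i j l : ℕ) : Fm :=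
  if j = 0 ∧ l = 0 then
    Fm.or (Fm.eq (tV p 0 6 i 0 0) Tm.one) (Fm.eq (tV p 0 7 i j l) Tm.zero)
  else Fm.eq (tV p 0 7 i j l) Tm.zero

/-- The derivatives with respect to the variables of the second player. -/
def fdw (i j : ℕ) : Fm :=
  if j < ll p + 1 then
    Fm.or (Fm.eq (tV p 0 6 i 0 0) Tm.zero) (Fm.eq (gD p i (mm p + 2 + j)).2 Tm.zero)
  else tt

/-- The values. -/
def fval (i : ℕ) : Fm :=
  Fm.or (Fm.eq (tV p 0 6 i 0 0) Tm.zero) (Fm.eq (gD p i 0).1 (gD p 0 0).1)

/-- The derivatives with respect to the variables of the first player. -/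
def fdx (j : ℕ) : Fm :=
  if j < mm p + 2 then
    Fm.eq (sumT ((List.range (MM p)).map fun i => Tm.mul (tV p 0 7 i 0 0) (gD p i j).2)) Tm.zero
  else tt

/-- The sum of the multipliers. -/
def fsum : Fm :=
  Fm.and (Fm.eq (sumT ((List.range (MM p)).map fun i => tV p 0 7 i 0 0)) Tm.one)
    (Fm.eq (tV p 0 6 0 0 0) Tm.one)

/-- All the conditions. -/
def fAll (i j l : ℕ) : List Fm :=
  [fS p i j l, fX p i j l, fCX p i j l, fW p i j l, fCW p i j l, fB p i j l, fA p i j l,
    fL p i j l, fdw p i j, fval p i, fdx p i, fsum p]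

/-- The formula of the base. -/
def Zf : Fm := conj ((List.range (MM p)).flatMap fun i => (List.range (MM p)).flatMap fun j =>
  (List.range (MM p)).flatMap fun l => fAll p i j l)

theorem holds_Zf (v : ℕ → ℝ) : (Zf p).Holds v ↔
    ∀ i < MM p, ∀ j < MM p, ∀ l < MM p, ∀ φ ∈ fAll p i j l, φ.Holds v := by
  unfold Zf
  rw [holds_conj]
  simp only [List.mem_flatMap, List.mem_range]
  constructor
  · intro h i hi j hj l hl φ hφ
    exact h φ ⟨i, hi, j, hj, l, hl, hφ⟩
  · rintro h φ ⟨i, hi, j, hj, l, hl, hφ⟩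
    exact h i hi j hj l hl φ hφ

/-- The conditions on the coordinates of the base. -/
structure ZP (v : ℕ → ℝ) : Prop where
  env : Env p v
  hX : ∀ i j l, i < MM p → j < MM p → l < MM p →
    if (j = 0 ∧ l = 0) ∧ i < mm p + 2 then v (ix (MM p) 1 i j l) ^ 2 ≤ 4
    else v (ix (MM p) 1 i j l) = 0
  hW : ∀ i j l, i < MM p → j < MM p → l < MM p →
    if l = 0 ∧ j < ll p + 1 then v (ix (MM p) 6 i 0 0) = 1 ∨ v (ix (MM p) 3 i j l) = 0
    else v (ix (MM p) 3 i j l) = 0
  hB : ∀ i j l, i < MM p → j < MM p → l < MM p →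
    v (ix (MM p) 5 i j l) ^ 2 = v (ix (MM p) 5 i j l)
  hA : ∀ i j l, i < MM p → j < MM p → l < MM p →
    v (ix (MM p) 6 i j l) ^ 2 = v (ix (MM p) 6 i j l)
  hL : ∀ i j l, i < MM p → j < MM p → l < MM p →
    if j = 0 ∧ l = 0 then v (ix (MM p) 6 i 0 0) = 1 ∨ v (ix (MM p) 7 i j l) = 0
    else v (ix (MM p) 7 i j l) = 0
  hdw : ∀ i < MM p, ∀ r : Fin (ll p + 1), v (ix (MM p) 6 i 0 0) = 0 ∨
    gv (MvPolynomial.pderiv (Sum.inr r) (GG p v)) (xv p v) (wv p v i) = 0
  hval : ∀ i < MM p, v (ix (MM p) 6 i 0 0) = 0 ∨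
    gv (GG p v) (xv p v) (wv p v i) = gv (GG p v) (xv p v) (wv p v 0)
  hdx : ∀ j : Fin (mm p + 2), ∑ i : Fin (MM p), v (ix (MM p) 7 i 0 0) *
    gv (MvPolynomial.pderiv (Sum.inl j) (GG p v)) (xv p v) (wv p v i) = 0
  hsum : ∑ i : Fin (MM p), v (ix (MM p) 7 i 0 0) = 1
  hA0 : v (ix (MM p) 6 0 0 0) = 1

theorem pow_rec (b : ℝ) (l : ℕ) : b ^ (2 ^ (l + 1) - 1) = (b ^ (2 ^ l - 1)) ^ 2 * b := by
  rw [← pow_mul, ← pow_succ]
  congr 1
  have : 1 ≤ 2 ^ l := Nat.one_le_two_pow
  rw [pow_succ]
  omega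

theorem chain_iff (c : ℕ → ℝ) (b : ℝ) (M : ℕ) :
    (∀ l < M, if l = 0 then c l = 1 else c l = c (l - 1) ^ 2 * b) ↔
      ∀ l < M, c l = b ^ (2 ^ l - 1) := by
  constructor
  · intro h l
    induction l with
    | zero =>
      intro hl
      have := h 0 hl
      simpa using this
    | succ l ih =>
      intro hl
      have h1 := h (l + 1) hl
      rw [if_neg (by omega), Nat.add_sub_cancel, ih (by omega)] at h1
      rw [h1, pow_rec]
  · intro h l hl
    by_cases h0 : l = 0
    · rw [if_pos h0, h0]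
      have := h 0 (by omega)
      simpa using this
    · rw [if_neg h0]
      obtain ⟨k, rfl⟩ := Nat.exists_eq_succ_of_ne_zero h0
      rw [h _ hl, Nat.succ_eq_add_one, Nat.add_sub_cancel, h k (by omega), pow_rec]

theorem half_iff (c : ℕ → ℝ) (M : ℕ) :
    (∀ l < M, if l = 0 then c l + c l = 1 else c l = c (l - 1) ^ 2) ↔
      ∀ l < M, c l = (1 / 2) ^ (2 ^ l) := by
  constructor
  · intro h l
    induction l with
    | zero =>
      intro hl
      have := h 0 hl
      rw [if_pos rfl] at this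
      norm_num
      linarith
    | succ l ih =>
      intro hl
      have h1 := h (l + 1) hl
      rw [if_neg (by omega), Nat.add_sub_cancel, ih (by omega)] at h1
      rw [h1, ← pow_mul, pow_succ 2 l]
  · intro h l hl
    by_cases h0 : l = 0
    · rw [if_pos h0, h0]
      have := h 0 (by omega)
      norm_num at this
      linarith
    · rw [if_neg h0]
      obtain ⟨k, rfl⟩ := Nat.exists_eq_succ_of_ne_zero h0
      rw [h _ hl, Nat.succ_eq_add_one, Nat.add_sub_cancel, h k (by omega), ← pow_mul, pow_succ 2 k]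

theorem eval_tV (v : ℕ → ℝ) (f i j l : ℕ) : (tV p 0 f i j l).eval v = v (ix (MM p) f i j l) := by
  simp only [tV, Tm.eval, zero_add]

theorem holds_ite (v : ℕ → ℝ) (c : Prop) [Decidable c] (φ ψ : Fm) :
    (if c then φ else ψ).Holds v ↔ if c then φ.Holds v else ψ.Holds v := by
  split_ifs <;> rfl

/-- **The meaning of the formula of the base.** -/
theorem Zf_iff (v : ℕ → ℝ) : (Zf p).Holds v ↔ ZP p v := by
  rw [holds_Zf]
  have hM := MM_pos p
  have hmm := mm_lt p
  have hll := ll_lt p
  have e4 : (Tm.mul twoT twoT).eval v = 4 := by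
    simp only [twoT, Tm.eval]; norm_num
  have e2 : twoT.eval v = 2 := by
    simp only [twoT, Tm.eval]; norm_num
  constructor
  · intro h
    have g : ∀ i j l, i < MM p → j < MM p → l < MM p → ∀ φ ∈ fAll p i j l, φ.Holds v :=
      fun i j l hi hj hl => h i hi j hj l hl
    simp only [fAll, List.forall_mem_cons, List.not_mem_nil, false_implies, implies_true,
      and_true] at g
    have henv : Env p v := by
      refine ⟨?_, ?_, ?_⟩
      · intro i j l hi hj hl
        refine (half_iff (fun l => v (ix (MM p) 0 i j l)) (MM p)).1 (fun l hl => ?_) l hl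
        have := (g i j l hi hj hl).1
        rw [fS, holds_ite] at this
        simpa only [Fm.Holds, Tm.eval, eval_tV, eval_sqT] using this
      · intro i j l hi hj hl
        refine (chain_iff (fun l => v (ix (MM p) 2 i j l)) _ (MM p)).1 (fun l hl => ?_) l hl
        have := (g i j l hi hj hl).2.2.1
        rw [fCX, holds_ite] at this
        simpa only [Fm.Holds, Tm.eval, eval_tV, eval_sqT] using this
      · intro i j l hi hj hl
        refine (chain_iff (fun l => v (ix (MM p) 4 i j l)) _ (MM p)).1 (fun l hl => ?_) l hl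
        have := (g i j l hi hj hl).2.2.2.2.1
        rw [fCW, holds_ite] at this
        simpa only [Fm.Holds, Tm.eval, eval_tV, eval_sqT, e2] using this
    refine ⟨henv, ?_, ?_, ?_, ?_, ?_, ?_, ?_, ?_, ?_, ?_⟩
    · intro i j l hi hj hl
      have := (g i j l hi hj hl).2.1
      rw [fX, holds_ite] at this
      simpa only [Fm.Holds, Tm.eval, eval_tV, eval_sqT, e2,
        show (2:ℝ) * 2 = 4 by norm_num] using this
    · intro i j l hi hj hl
      have := (g i j l hi hj hl).2.2.2.1
      rw [fW, holds_ite] at this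
      simpa only [Fm.Holds, Tm.eval, eval_tV] using this
    · intro i j l hi hj hl
      have := (g i j l hi hj hl).2.2.2.2.2.1
      rw [fB] at this
      simpa only [Fm.Holds, Tm.eval, eval_tV, eval_sqT] using this
    · intro i j l hi hj hl
      have := (g i j l hi hj hl).2.2.2.2.2.2.1
      rw [fA] at this
      simpa only [Fm.Holds, Tm.eval, eval_tV, eval_sqT] using this
    · intro i j l hi hj hl
      have := (g i j l hi hj hl).2.2.2.2.2.2.2.1
      rw [fL, holds_ite] at this
      simpa only [Fm.Holds, Tm.eval, eval_tV] using this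
    · intro i hi r
      have := (g i r 0 hi (by have := r.2; omega) hM).2.2.2.2.2.2.2.2.1
      rw [fdw, if_pos r.2] at this
      rw [← gD_dw henv hi r]
      simpa only [Fm.Holds, Tm.eval, eval_tV] using this
    · intro i hi
      have := (g i 0 0 hi hM hM).2.2.2.2.2.2.2.2.2.1
      rw [fval] at this
      rw [← gD_val henv hi, ← gD_val henv hM]
      simpa only [Fm.Holds, Tm.eval, eval_tV] using this
    · intro j
      have := (g j 0 0 (by have := j.2; omega) hM hM).2.2.2.2.2.2.2.2.2.2.1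
      rw [fdx, if_pos j.2] at this
      simp only [Fm.Holds, Tm.eval, eval_sumT, List.map_map, sum_map_range, Function.comp_apply,
        eval_tV] at this
      rw [← this]
      exact Finset.sum_congr rfl fun i _ => by rw [gD_dx henv i.2 j]
    · have := (g 0 0 0 hM hM hM).2.2.2.2.2.2.2.2.2.2.2
      rw [fsum] at this
      simp only [Fm.Holds, Tm.eval, eval_sumT, List.map_map, sum_map_range, Function.comp_apply,
        eval_tV] at this
      exact this.1
    · have := (g 0 0 0 hM hM hM).2.2.2.2.2.2.2.2.2.2.2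
      rw [fsum] at this
      simp only [Fm.Holds, Tm.eval, eval_sumT, List.map_map, sum_map_range, Function.comp_apply,
        eval_tV] at this
      exact this.2
  · intro h i hi j hj l hl
    have henv := h.env
    simp only [fAll, List.forall_mem_cons, List.not_mem_nil, false_implies, implies_true,
      and_true]
    refine ⟨?_, ?_, ?_, ?_, ?_, ?_, ?_, ?_, ?_, ?_, ?_, ?_⟩
    · rw [fS, holds_ite]
      simp only [Fm.Holds, Tm.eval, eval_tV, eval_sqT]
      exact (half_iff (fun l => v (ix (MM p) 0 i j l)) (MM p)).2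
        (fun l hl => henv.hS i j l hi hj hl) l hl
    · rw [fX, holds_ite]
      simp only [Fm.Holds, Tm.eval, eval_tV, eval_sqT, e2, show (2:ℝ) * 2 = 4 by norm_num]
      exact h.hX i j l hi hj hl
    · rw [fCX, holds_ite]
      simp only [Fm.Holds, Tm.eval, eval_tV, eval_sqT]
      exact (chain_iff (fun l => v (ix (MM p) 2 i j l)) _ (MM p)).2
        (fun l hl => henv.hCX i j l hi hj hl) l hl
    · rw [fW, holds_ite]
      simp only [Fm.Holds, Tm.eval, eval_tV]
      exact h.hW i j l hi hj hl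
    · rw [fCW, holds_ite]
      simp only [Fm.Holds, Tm.eval, eval_tV, eval_sqT, e2]
      exact (chain_iff (fun l => v (ix (MM p) 4 i j l)) _ (MM p)).2
        (fun l hl => henv.hCW i j l hi hj hl) l hl
    · rw [fB]
      simp only [Fm.Holds, Tm.eval, eval_tV, eval_sqT]
      exact h.hB i j l hi hj hl
    · rw [fA]
      simp only [Fm.Holds, Tm.eval, eval_tV, eval_sqT]
      exact h.hA i j l hi hj hl
    · rw [fL, holds_ite]
      simp only [Fm.Holds, Tm.eval, eval_tV]
      exact h.hL i j l hi hj hl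
    · unfold fdw
      split_ifs with h1
      · simp only [Fm.Holds, Tm.eval, eval_tV]
        have h2 := gD_dw henv hi ⟨j, h1⟩
        simp only at h2
        rw [h2]
        exact h.hdw i hi ⟨j, h1⟩
      · exact holds_tt v
    · rw [fval]
      simp only [Fm.Holds, Tm.eval, eval_tV]
      rw [gD_val henv hi, gD_val henv hM]
      exact h.hval i hi
    · unfold fdx
      split_ifs with h1
      · simp only [Fm.Holds, Tm.eval, eval_sumT, List.map_map, sum_map_range,
          Function.comp_apply, eval_tV]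
        rw [← h.hdx ⟨i, h1⟩]
        refine Finset.sum_congr rfl fun s _ => ?_
        have h2 := gD_dx henv s.2 ⟨i, h1⟩
        simp only at h2
        rw [h2]
      · exact holds_tt v
    · rw [fsum]
      simp only [Fm.Holds, Tm.eval, eval_sumT, List.map_map, sum_map_range, Function.comp_apply,
        eval_tV]
      exact ⟨h.hsum, h.hA0⟩

end

end Pool.Agent.NPC.R537IP
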