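import Pool.Agent.R537.RN.NFEff

/-!
# The gap of the normal form for sentences `∃ x ∀ w`
-/

set_option autoImplicit false

namespace Pool.Agent.R537.IP

open Finset Filter Topology Pool.Agent.H612 Pool.Agent.R537.RN Pool.Agent.NPC

variable {mm ll : ℕ} (loc : ℕ → Fin 0 ⊕ (Fin mm ⊕ Fin ll)) (S : List ER.Con)

/-- The main function. -/
def Hf {R : Type} [CommRing R] (h σ : R) (x : Fin (mm + 2) → R) (w : Fin (ll + 1) → R) : R :=
  Phi loc S σ ((h * x 0) ^ 2) (h * x 1) ((2 * w 0) ^ 2) (((2 * w 0) ^ 2) ^ (2 ^ kap ll S.length))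
    (((h * x 0) ^ 2) ^ (2 ^ kap' mm ll S.length)) (fun j => j.elim0) (fun j => h * x j.succ.succ)
    (fun j => 2 * w j.succ)

/-- The value of the parameter. -/
noncomputable def sg (mm ll s : ℕ) : ℝ := (1 / 2) ^ (2 ^ kap'' 0 mm ll s)

theorem sg_pos (mm ll s : ℕ) : 0 < sg mm ll s := by unfold sg; positivity

theorem sg_le (mm ll s : ℕ) : sg mm ll s ≤ 1 :=
  pow_le_one₀ (by norm_num) (by norm_num)

/-- If the sentence holds, then there are violations. -/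
theorem viol_of_sent (h : Sent loc S) (x : Fin (mm + 2) → ℝ) (hx : ∀ i, |x i| ≤ 2) :
    ∃ w : Fin (ll + 1) → ℝ, (∀ r, |w r| ≤ 1 / 2) ∧ Hf loc S (1 / 2) (sg mm ll S.length) x w ≤ 0 := by
  obtain ⟨x0, -, hY⟩ := good_of_sent_eff loc S h
  obtain ⟨U, hU, hPhi⟩ := hY (fun i => 1 / 2 * x i) (fun i => by
    rw [abs_mul, abs_of_pos (by norm_num : (0:ℝ) < 1 / 2)]
    have := hx i
    linarith)
  refine ⟨fun r => 1 / 2 * U r, fun r => ?_, ?_⟩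
  · rw [abs_mul, abs_of_pos (by norm_num : (0:ℝ) < 1 / 2)]
    have := hU r
    linarith
  · unfold Hf sg
    have e : ∀ r, 2 * (1 / 2 * U r) = U r := fun r => by ring
    simp only [e]
    have e2 : (fun j : Fin 0 => (j.elim0 : ℝ)) = x0 := funext fun j => j.elim0
    rw [e2]
    exact hPhi

/-- The Łojasiewicz inequality on a bigger cube. -/
theorem L1' {n m l : ℕ} (loc : ℕ → Fin n ⊕ (Fin m ⊕ Fin l)) (x : Fin n → ℝ) (y : Fin m → ℝ)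
    (hno : ¬ ∃ z : Fin l → ℝ, ER.SysHolds (pick loc x y z) S) :
    ∃ c : ℝ, 0 < c ∧ ∀ z : Fin l → ℝ, (∀ j, |z j| ≤ 4) → ∀ t : ℝ, 0 ≤ t → t ≤ 4 →
      c * t ^ (2 ^ kap l S.length) ≤
        qsum (pick loc (fun j => t * x j) (fun j => t * y j) z) t S := by
  obtain ⟨c, hc0, hc⟩ := L1 loc S x y hno
  refine ⟨c * 4 ^ 4 / 4 ^ (2 ^ kap l S.length), by positivity, fun z hz t ht0 ht => ?_⟩
  have h1 := hc (fun j => z j / 4) (fun j => by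
    rw [abs_div, abs_of_pos (by norm_num : (0:ℝ) < 4)]
    have := hz j
    linarith) (t / 4) (by positivity) (by linarith)
  have h2 : qsum (pick loc (fun j => t * x j) (fun j => t * y j) z) t S =
      4 ^ 4 * qsum (pick loc (fun j => t / 4 * x j) (fun j => t / 4 * y j) (fun j => z j / 4))
        (t / 4) S := by
    rw [← qsum_scale]
    congr 1
    · funext i
      rw [pick_scale]
      congr 1
      · funext j; ring
      · funext j; ring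
      · funext j; ring
    · ring
  rw [h2]
  have h3 : c * 4 ^ 4 / 4 ^ (2 ^ kap l S.length) * t ^ (2 ^ kap l S.length) =
      4 ^ 4 * (c * (t / 4) ^ (2 ^ kap l S.length)) := by
    rw [div_pow]; ring
  rw [h3]
  exact mul_le_mul_of_nonneg_left h1 (by norm_num)

/-- If the sentence fails, then there is a point without violations. -/
theorem pos_of_not_sent (h : ¬ Sent loc S) (σ : ℝ) (h0 : 0 < σ) :
    ∃ x ∈ cube (mm + 2), ∀ w ∈ cube (ll + 1), 0 < Hf loc S (1 / 2) σ x w := by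
  have hno : ∃ y : Fin mm → ℝ, ¬ ∃ z : Fin ll → ℝ,
      ER.SysHolds (pick loc (fun j : Fin 0 => (j.elim0 : ℝ)) y z) S := by
    by_contra hcon
    push Not at hcon
    exact h ⟨fun j => j.elim0, hcon⟩
  obtain ⟨y, hy⟩ := hno
  obtain ⟨c, hc0, hc⟩ := L1' S loc (fun j : Fin 0 => (j.elim0 : ℝ)) y hy
  obtain ⟨γ, hγ⟩ : ∃ γ : ℝ, 1 ≤ (1 + γ ^ 2) * c := by
    refine ⟨1 / c + 1, ?_⟩
    have : 0 < 1 / c := by positivity
    have h1 : 1 / c * c = 1 := by field_simp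
    nlinarith
  obtain ⟨r, hr0, hr1, hry, hrγ⟩ : ∃ r : ℝ, 0 < r ∧ r ≤ 1 / 4 ∧ (∀ j, |2 * (r * y j)| ≤ 1) ∧
      |2 * (r * γ)| ≤ 1 := by
    obtain ⟨t, ht0, ht1, hty, htγ⟩ := exists_scale y γ
    refine ⟨t / 4, by positivity, by linarith, fun j => ?_, ?_⟩
    · have h1 : 2 * (t / 4 * y j) = 1 / 2 * (t * y j) := by ring
      rw [h1, abs_mul, abs_of_pos (by norm_num : (0:ℝ) < 1 / 2)]
      have := hty j
      linarith
    · have h1 : 2 * (t / 4 * γ) = 1 / 2 * (t * γ) := by ring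
      rw [h1, abs_mul, abs_of_pos (by norm_num : (0:ℝ) < 1 / 2)]
      linarith
  have hw : (Real.sqrt r) ^ 2 = r := Real.sq_sqrt hr0.le
  refine ⟨Fin.cons (2 * Real.sqrt r) (Fin.cons (2 * (r * γ)) fun j => 2 * (r * y j)), ?_, ?_⟩
  · intro j
    refine Fin.cases ?_ (fun j => ?_) j
    · rw [Fin.cons_zero, abs_of_nonneg (by positivity)]
      have h1 : Real.sqrt r ≤ 1 / 2 := by
        rw [Real.sqrt_le_left (by norm_num)]
        norm_num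
        linarith
      linarith
    · rw [Fin.cons_succ]
      refine Fin.cases ?_ (fun j => ?_) j
      · rw [Fin.cons_zero]; exact hrγ
      · rw [Fin.cons_succ]; exact hry j
  · intro U hU
    unfold Hf
    have e0 : (Fin.cons (2 * Real.sqrt r) (Fin.cons (2 * (r * γ)) fun j => 2 * (r * y j)) :
      Fin (mm + 2) → ℝ) 1 = 2 * (r * γ) := rfl
    have e3 : ∀ j : Fin mm, (Fin.cons (2 * Real.sqrt r) (Fin.cons (2 * (r * γ))
        fun j => 2 * (r * y j)) : Fin (mm + 2) → ℝ) j.succ.succ = 2 * (r * y j) := fun _ => rfl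
    simp only [e0, e3, Fin.cons_zero]
    have f1 : (1 / 2 * (2 * Real.sqrt r)) ^ 2 = r := by
      have f0 : (1 / 2 * (2 * Real.sqrt r)) ^ 2 = Real.sqrt r ^ 2 := by ring
      rw [f0, hw]
    have f2 : 1 / 2 * (2 * (r * γ)) = r * γ := by ring
    have f3 : (fun j : Fin mm => 1 / 2 * (2 * (r * y j))) = fun j => r * y j := by
      funext j; ring
    rw [f1, f2, f3]
    have e2 : (fun j : Fin 0 => (j.elim0 : ℝ)) = fun j => σ * (j.elim0 : ℝ) :=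
      funext fun j => j.elim0
    rw [e2, Phi_scale, Phi_unscale]
    have h4 : 0 < σ ^ 4 := by positivity
    refine mul_pos h4 ?_
    have ht0 : 0 ≤ (2 * U 0) ^ 2 := sq_nonneg _
    have ht1 : (2 * U 0) ^ 2 ≤ 4 := by
      have h5 := hU 0
      have h6 : U 0 ^ 2 ≤ 1 := by
        rw [← sq_abs]
        nlinarith [abs_nonneg (U 0)]
      nlinarith
    have h7 := hc (fun j => 2 * U j.succ) (fun j => by
      rw [abs_mul, abs_of_pos (by norm_num : (0:ℝ) < 2)]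
      have := hU j.succ
      linarith) ((2 * U 0) ^ 2) ht0 ht1
    have e5 : (fun j : Fin 0 => (2 * U 0) ^ 2 * (j.elim0 : ℝ)) = fun j => (j.elim0 : ℝ) :=
      funext fun j => j.elim0
    rw [e5] at h7 ⊢
    set A := qsum (pick loc (fun j : Fin 0 => (j.elim0 : ℝ)) (fun j => (2 * U 0) ^ 2 * y j)
      fun j => 2 * U j.succ) ((2 * U 0) ^ 2) S with hA
    have h8 : ((2 * U 0) ^ 2) ^ (2 ^ kap ll S.length) ≤ (1 + γ ^ 2) * A := by
      have h9 : (1 + γ ^ 2) * (c * ((2 * U 0) ^ 2) ^ (2 ^ kap ll S.length)) ≤ (1 + γ ^ 2) * A :=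
        mul_le_mul_of_nonneg_left h7 (by positivity)
      have h10 : 0 ≤ ((2 * U 0) ^ 2) ^ (2 ^ kap ll S.length) := by positivity
      nlinarith
    have h11 : 0 < σ * r ^ 2 ^ kap' mm ll S.length := by positivity
    have h12 : 0 < r ^ 6 := by positivity
    nlinarith

/-! ### The gap -/

/-- The integral form. -/
def Hi {R : Type} [CommRing R] (a b K1 K2 : ℕ) (x : Fin (mm + 2) → R) (w : Fin (ll + 1) → R) : R :=
  2 ^ a * 4 ^ b * 16 * (x 0 ^ 4 + 4 * x 1 ^ 2) *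
    qsum (pick loc (fun j => j.elim0) (fun j => 4 * w 0 ^ 2 * x j.succ.succ)
      (fun j => x 0 ^ 2 * w j.succ)) (2 * x 0 ^ 2 * w 0 ^ 2) S -
    2 ^ a * 4 ^ b * x 0 ^ 12 * (4 * w 0 ^ 2) ^ K1 + 4096 * (x 0 ^ 2) ^ K2

theorem Hi_map {R R' : Type} [CommRing R] [CommRing R'] (f : R →+* R') (a b K1 K2 : ℕ)
    (x : Fin (mm + 2) → R) (w : Fin (ll + 1) → R) :
    f (Hi loc S a b K1 K2 x w) = Hi loc S a b K1 K2 (fun i => f (x i)) (fun i => f (w i)) := by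
  unfold Hi
  simp only [map_add, map_sub, map_mul, map_pow, qsum_map, pick_map, map_ofNat]
  congr 4
  congr 1
  funext i
  congr 1
  funext j
  exact j.elim0

theorem Hi_eq (a K1 K2 : ℕ) (x : Fin (mm + 2) → ℝ) (w : Fin (ll + 1) → ℝ) :
    Hi loc S a K2 K1 K2 x w = 4096 * 2 ^ (5 * a) * 4 ^ K2 *
      Phi loc S ((1 / 2) ^ a) ((1 / 2 * x 0) ^ 2) (1 / 2 * x 1) ((2 * w 0) ^ 2)
        (((2 * w 0) ^ 2) ^ K1) (((1 / 2 * x 0) ^ 2) ^ K2) (fun j => j.elim0)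
        (fun j => 1 / 2 * x j.succ.succ) (fun j => 2 * w j.succ) := by
  unfold Hi Phi
  obtain ⟨τ, hτ⟩ : ∃ τ : ℝ, τ = (1 / 2) ^ a := ⟨_, rfl⟩
  obtain ⟨A, hA⟩ : ∃ A : ℝ, A = 2 ^ a := ⟨_, rfl⟩
  have hAτ : A * τ = 1 := by
    rw [hA, hτ, ← mul_pow]; norm_num
  rw [← hτ, ← hA]
  have h5 : (2:ℝ) ^ (5 * a) = A ^ 5 := by rw [hA, ← pow_mul, mul_comm]
  rw [h5]
  have hq : qsum (pick loc (fun j => j.elim0) (fun j => 4 * w 0 ^ 2 * x j.succ.succ)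
      (fun j => x 0 ^ 2 * w j.succ)) (2 * x 0 ^ 2 * w 0 ^ 2) S = (2 * A) ^ 4 *
      qsum (pick loc (fun j : Fin 0 => (1 / 2 * x 0) ^ 2 * (2 * w 0) ^ 2 * (j.elim0 : ℝ))
        (fun j => τ * (2 * w 0) ^ 2 * (1 / 2 * x j.succ.succ))
        (fun j => τ * (1 / 2 * x 0) ^ 2 * (2 * w j.succ)))
        (τ * (1 / 2 * x 0) ^ 2 * (2 * w 0) ^ 2) S := by
    rw [← qsum_scale]
    congr 1
    · funext i
      rw [pick_scale]
      congr 1
      · funext j; exact j.elim0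
      · funext j
        linear_combination (-4 * w 0 ^ 2 * x j.succ.succ) * hAτ
      · funext j
        linear_combination (-x 0 ^ 2 * w j.succ) * hAτ
    · linear_combination (-2 * x 0 ^ 2 * w 0 ^ 2) * hAτ
  rw [hq]
  set q := qsum (pick loc (fun j : Fin 0 => (1 / 2 * x 0) ^ 2 * (2 * w 0) ^ 2 * (j.elim0 : ℝ))
        (fun j => τ * (2 * w 0) ^ 2 * (1 / 2 * x j.succ.succ))
        (fun j => τ * (1 / 2 * x 0) ^ 2 * (2 * w j.succ)))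
        (τ * (1 / 2 * x 0) ^ 2 * (2 * w 0) ^ 2) S with hqd
  have hp : (4:ℝ) ^ K2 * ((1 / 2 * x 0) ^ 2) ^ K2 = (x 0 ^ 2) ^ K2 := by
    rw [← mul_pow]; congr 1; ring
  have hp2 : ((4:ℝ) * w 0 ^ 2) ^ K1 = ((2 * w 0) ^ 2) ^ K1 := by congr 1; ring
  rw [hp2, ← hp]
  obtain ⟨Z, hZ⟩ : ∃ Z : ℝ, Z = ((1 / 2 * x 0) ^ 2) ^ K2 := ⟨_, rfl⟩
  obtain ⟨B, hB⟩ : ∃ B : ℝ, B = 4 ^ K2 := ⟨_, rfl⟩
  obtain ⟨V, hV⟩ : ∃ V : ℝ, V = ((2 * w 0) ^ 2) ^ K1 := ⟨_, rfl⟩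
  rw [← hZ, ← hB, ← hV]
  have t4 : A ^ 4 * τ ^ 4 = 1 := by rw [← mul_pow, hAτ, one_pow]
  have t5 : A ^ 5 * τ ^ 5 = 1 := by rw [← mul_pow, hAτ, one_pow]
  linear_combination (A * B * V * x 0 ^ 12) * t4 - (4096 * B * Z) * t5

theorem Hi_ν {R : Type} [CommRing R] (nr : RNorm R) (a b K1 K2 : ℕ) (x : Fin (mm + 2) → R)
    (w : Fin (ll + 1) → R) (hx : ∀ i, nr.ν (x i) ≤ 2) (hw : ∀ i, nr.ν (w i) ≤ 2) :
    nr.ν (Hi loc S a b K1 K2 x w) ≤ 2 ^ (a + 2 * b + 33 + S.length) +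
      2 ^ (a + 2 * b + 12 + 4 * K1) + 2 ^ (12 + 2 * K2) := by
  have hmul : ∀ (a b : R) (p q : ℕ), nr.ν a ≤ p → nr.ν b ≤ q → nr.ν (a * b) ≤ p * q :=
    fun a b p q h1 h2 => (nr.mul _ _).trans (Nat.mul_le_mul h1 h2)
  have hn : ∀ (k : ℕ) [k.AtLeastTwo], nr.ν (OfNat.ofNat k : R) ≤ k := by
    intro k _
    exact nr.natCast k
  have h1 : nr.ν (qsum (pick loc (fun j => j.elim0) (fun j => 4 * w 0 ^ 2 * x j.succ.succ)
      (fun j => x 0 ^ 2 * w j.succ)) (2 * x 0 ^ 2 * w 0 ^ 2) S) ≤ 9 * 32 ^ 4 * S.length := by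
    apply qsum_ν
    · apply pick_ν
      · intro j; exact j.elim0
      · intro j
        exact hmul _ _ _ _ (hmul _ _ 4 4 (hn 4) (ν_pow nr _ 2 2 (hw 0))) (hx _)
      · intro j
        exact (hmul _ _ _ _ (ν_pow nr _ 2 2 (hx 0)) (hw _)).trans (by norm_num)
    · exact hmul _ _ _ _ (hmul _ _ 2 4 (hn 2) (ν_pow nr _ 2 2 (hx 0))) (ν_pow nr _ 2 2 (hw 0))
  have h2 : nr.ν (2 ^ a * 4 ^ b * 16 * (x 0 ^ 4 + 4 * x 1 ^ 2)) ≤
      2 ^ a * 4 ^ b * 16 * (16 + 4 * 4) :=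
    hmul _ _ _ _ (hmul _ _ _ _ (hmul _ _ _ _ (ν_pow nr _ 2 a (hn 2)) (ν_pow nr _ 4 b (hn 4)))
      (hn 16)) ((nr.add _ _).trans (Nat.add_le_add (ν_pow nr _ 2 4 (hx 0))
        (hmul _ _ 4 4 (hn 4) (ν_pow nr _ 2 2 (hx 1)))))
  have h3 : nr.ν (2 ^ a * 4 ^ b * x 0 ^ 12 * (4 * w 0 ^ 2) ^ K1) ≤
      2 ^ a * 4 ^ b * 2 ^ 12 * 16 ^ K1 :=
    hmul _ _ _ _ (hmul _ _ _ _ (hmul _ _ _ _ (ν_pow nr _ 2 a (hn 2)) (ν_pow nr _ 4 b (hn 4)))
      (ν_pow nr _ 2 12 (hx 0))) (ν_pow nr _ 16 K1 (hmul _ _ 4 4 (hn 4)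
        (ν_pow nr _ 2 2 (hw 0))))
  have h4 : nr.ν (4096 * (x 0 ^ 2) ^ K2) ≤ 4096 * 4 ^ K2 :=
    hmul _ _ _ _ (hn 4096) (ν_pow nr _ 4 K2 (ν_pow nr _ 2 2 (hx 0)))
  have h5 := hmul _ _ _ _ h2 h1
  have e4 : ∀ k : ℕ, (4:ℕ) ^ k = 2 ^ (2 * k) := fun k => by rw [pow_mul]; norm_num
  have e16 : ∀ k : ℕ, (16:ℕ) ^ k = 2 ^ (4 * k) := fun k => by rw [pow_mul]; norm_num
  have h6 : S.length ≤ 2 ^ S.length := Nat.lt_two_pow_self.le
  unfold Hi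
  refine ((nr.add _ _).trans (Nat.add_le_add ((nr.sub _ _).trans (Nat.add_le_add h5 h3)) h4)).trans
    ?_
  refine Nat.add_le_add (Nat.add_le_add ?_ (le_of_eq ?_)) (le_of_eq ?_)
  · calc 2 ^ a * 4 ^ b * 16 * (16 + 4 * 4) * (9 * 32 ^ 4 * S.length)
        = 2 ^ a * 2 ^ (2 * b) * (4831838208 * S.length) := by rw [e4]; ring
      _ ≤ 2 ^ a * 2 ^ (2 * b) * (2 ^ 33 * 2 ^ S.length) :=
          Nat.mul_le_mul_left _ (Nat.mul_le_mul (by norm_num) h6)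
      _ = 2 ^ (a + 2 * b + 33 + S.length) := by rw [pow_add, pow_add, pow_add]; ring
  · rw [e4, e16, pow_add, pow_add, pow_add]
  · rw [e4, pow_add]; norm_num

/-- The exponent of the relation. -/
def kB (mm ll s : ℕ) : ℕ :=
  Gx (mm + 2) (Gx (ll + 1) (kap ll s + kap' mm ll s + kap'' 0 mm ll s + s + 7))

/-- The exponent of the gap. -/
def kD (mm ll s : ℕ) : ℕ := kB mm ll s + kap' mm ll s + kap'' 0 mm ll s + 5

theorem bound_Hi (K K' K'' s : ℕ) :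
    1 + (2 ^ (2 ^ K'' + 2 * 2 ^ K' + 33 + s) + 2 ^ (2 ^ K'' + 2 * 2 ^ K' + 12 + 4 * 2 ^ K) +
      2 ^ (12 + 2 * 2 ^ K')) ≤ 2 ^ 2 ^ (K + K' + K'' + s + 7) := by
  obtain ⟨U, hU⟩ : ∃ U, U = 2 ^ (K + K' + K'' + s) := ⟨_, rfl⟩
  have h1 : 2 ^ K ≤ U := by rw [hU]; exact Nat.pow_le_pow_right (by norm_num) (by omega)
  have h2 : 2 ^ K' ≤ U := by rw [hU]; exact Nat.pow_le_pow_right (by norm_num) (by omega)
  have h3 : 2 ^ K'' ≤ U := by rw [hU]; exact Nat.pow_le_pow_right (by norm_num) (by omega)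
  have h4 : s ≤ U := by
    rw [hU]
    exact (Nat.lt_two_pow_self.le).trans (Nat.pow_le_pow_right (by norm_num) (by omega))
  have h5 : 1 ≤ U := by rw [hU]; exact Nat.one_le_two_pow
  have h6 : 2 ^ (K + K' + K'' + s + 7) = 128 * U := by rw [pow_add, hU]; ring
  rw [h6]
  have e1 : 2 ^ (2 ^ K'' + 2 * 2 ^ K' + 33 + s) ≤ 2 ^ (37 * U) :=
    Nat.pow_le_pow_right (by norm_num) (by omega)
  have e2 : 2 ^ (2 ^ K'' + 2 * 2 ^ K' + 12 + 4 * 2 ^ K) ≤ 2 ^ (37 * U) :=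
    Nat.pow_le_pow_right (by norm_num) (by omega)
  have e3 : 2 ^ (12 + 2 * 2 ^ K') ≤ 2 ^ (37 * U) :=
    Nat.pow_le_pow_right (by norm_num) (by omega)
  have e4 : 1 ≤ 2 ^ (37 * U) := Nat.one_le_two_pow
  have e5 : 4 * 2 ^ (37 * U) ≤ 2 ^ (128 * U) := by
    calc 4 * 2 ^ (37 * U) = 2 ^ (37 * U + 2) := by rw [pow_add]; ring
      _ ≤ _ := Nat.pow_le_pow_right (by norm_num) (by omega)
  omega

/-- **The gap.** -/
theorem gap (h : ¬ Sent loc S) :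
    ∃ x ∈ cube (mm + 2), ∀ w ∈ cube (ll + 1),
      (1 / 2 : ℝ) ^ (2 ^ kD mm ll S.length) ≤ Hf loc S (1 / 2) (sg mm ll S.length) x w := by
  obtain ⟨s, hs⟩ : ∃ s, s = S.length := ⟨_, rfl⟩
  obtain ⟨K1, hK1⟩ : ∃ K1, K1 = 2 ^ kap ll s := ⟨_, rfl⟩
  obtain ⟨K2, hK2⟩ : ∃ K2, K2 = 2 ^ kap' mm ll s := ⟨_, rfl⟩
  obtain ⟨a, ha⟩ : ∃ a, a = 2 ^ kap'' 0 mm ll s := ⟨_, rfl⟩
  -- the integral polynomial
  obtain ⟨F, hFdef⟩ : ∃ F : MvPolynomial (Fin (ll + 1)) (MvPolynomial (Fin (mm + 2)) ℤ), F =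
      Hi (R := MvPolynomial (Fin (ll + 1)) (MvPolynomial (Fin (mm + 2)) ℤ)) loc S a K2 K1 K2
        (fun i => MvPolynomial.C (MvPolynomial.X i)) (fun i => MvPolynomial.X i) := ⟨_, rfl⟩
  have hF : ∀ p, ((Lvl.int.ext (mm + 2)).ext (ll + 1)).φ p F =
      Hi loc S a K2 K1 K2 p.1.2 p.2 := by
    intro p
    rw [hFdef, Hi_map]
    simp only [ext_φ_C, ext_φ_X]
  have hFν : (wm (wm RNorm.int (mm + 2)) (ll + 1)).ν F ≤ 2 ^ (a + 2 * K2 + 33 + s) +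
      2 ^ (a + 2 * K2 + 12 + 4 * K1) + 2 ^ (12 + 2 * K2) := by
    rw [hFdef, hs]
    apply Hi_ν
    · intro i; rw [wm_C]; exact wm_X _ _
    · intro i; exact wm_X _ _
  obtain ⟨h0, hh0⟩ : ∃ h0 : (Unit × (Fin (mm + 2) → ℝ)) × (Fin (ll + 1) → ℝ) → ℝ,
      ∀ p, h0 p = -((Lvl.int.ext (mm + 2)).ext (ll + 1)).φ p F := ⟨_, fun _ => rfl⟩
  have hc0 : Continuous h0 := by
    have : h0 = fun s => -((Lvl.int.ext (mm + 2)).ext (ll + 1)).φ s F := funext hh0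
    rw [this]
    exact (((Lvl.int.ext (mm + 2)).ext (ll + 1)).cont F).neg
  have hP0 : Polynomial.X + Polynomial.C F ≠ 0 := (Polynomial.monic_X_add_C F).ne_zero
  have hB : (wm (wm RNorm.int (mm + 2)) (ll + 1)).poly.ν (Polynomial.X + Polynomial.C F) ≤
      2 ^ 2 ^ (kap ll s + kap' mm ll s + kap'' 0 mm ll s + s + 7) := by
    refine (ν_X_add_C _ F).trans ((Nat.add_le_add_left hFν 1).trans ?_)
    rw [ha, hK1, hK2]
    exact bound_Hi _ _ _ _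
  have p1 := wm_pos RNorm.int int_pos (N := mm + 2)
  obtain ⟨Q, hQ0, hQν, hQ⟩ := (Lvl.int.ext (mm + 2)).step (wm RNorm.int (mm + 2)) p1
    (Polynomial.X + Polynomial.C F) hP0 _ hB Nat.one_le_two_pow h0 hc0 (fun s => by
      rw [Polynomial.eval₂_add, Polynomial.eval₂_X, Polynomial.eval₂_C, hh0]; ring)
  have hQν' := (flip_ν (wm RNorm.int (mm + 2)) Q).trans
    (hQν.trans (bndL_le (ll + 1) _ _ (le_refl _)))
  obtain ⟨h1, hh1⟩ : ∃ h1 : Unit × (Fin (mm + 2) → ℝ) → ℝ, ∀ s, h1 s = -bmax h0 s :=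
    ⟨_, fun s => rfl⟩
  have hc1 : Continuous h1 := by
    have : h1 = fun s => -bmax h0 s := funext hh1
    rw [this]
    exact (continuous_bmax hc0).neg
  obtain ⟨Q1, hQ10, hQ1ν, hQ1⟩ := Lvl.int.step RNorm.int int_pos (flip Q) (flip_ne_zero Q hQ0) _
    hQν' Nat.one_le_two_pow h1 hc1 (fun s => by
      rw [flip_eval, hh1, neg_neg]
      exact hQ s)
  have hQ1ν' : RNorm.int.poly.ν Q1 ≤ 2 ^ 2 ^ kB mm ll s :=
    hQ1ν.trans (bndL_le (mm + 2) _ _ (le_refl _))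
  -- the value is positive
  obtain ⟨x, hx, hxb⟩ := exists_bmax hc1 ()
  have hpos : 0 < bmax h1 () := by
    obtain ⟨x', hx', hx2⟩ := pos_of_not_sent loc S h (sg mm ll S.length) (sg_pos _ _ _)
    refine lt_of_lt_of_le ?_ (le_bmax hc1 () hx')
    rw [hh1]
    obtain ⟨w, hw, hwb⟩ := exists_bmax hc0 ((), x')
    rw [← hwb, hh0, hF, neg_neg, Hi_eq, ha, hK1, hK2, hs]
    have h3 := hx2 w hw
    unfold Hf sg at h3
    exact mul_pos (by positivity) h3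
  have hge : 1 ≤ ((2 ^ 2 ^ kB mm ll s : ℕ) : ℝ) * bmax h1 () := by
    rcases le_or_gt (bmax h1 ()) 1 with h3 | h3
    · exact root_bound Q1 hQ10 _ hQ1ν' _ hpos h3 (hQ1 ())
    · have h4 : (1:ℝ) ≤ ((2 ^ 2 ^ kB mm ll s : ℕ) : ℝ) := by exact_mod_cast Nat.one_le_two_pow
      nlinarith
  refine ⟨x, hx, fun w hw => ?_⟩
  have h3 : bmax h1 () ≤ Hi loc S a K2 K1 K2 x w := by
    rw [← hxb, hh1]
    have h4 := le_bmax hc0 ((), x) hw
    rw [hh0, hF] at h4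
    have h5 : Hi loc S a K2 K1 K2 (((), x) : Unit × (Fin (mm + 2) → ℝ)).2 w =
      Hi loc S a K2 K1 K2 x w := rfl
    rw [h5] at h4
    linarith
  rw [Hi_eq] at h3
  have h6 : Hf loc S (1 / 2) (sg mm ll S.length) x w =
      Phi loc S ((1 / 2) ^ a) ((1 / 2 * x 0) ^ 2) (1 / 2 * x 1) ((2 * w 0) ^ 2)
        (((2 * w 0) ^ 2) ^ K1) (((1 / 2 * x 0) ^ 2) ^ K2) (fun j => j.elim0)
        (fun j => 1 / 2 * x j.succ.succ) (fun j => 2 * w j.succ) := by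
    unfold Hf sg
    rw [ha, hK1, hK2, hs]
  rw [← h6] at h3
  obtain ⟨P, hP⟩ : ∃ P : ℝ, P = Hf loc S (1 / 2) (sg mm ll S.length) x w := ⟨_, rfl⟩
  rw [← hP] at h3 ⊢
  have h7 : 1 ≤ (2:ℝ) ^ (2 ^ kB mm ll s + 12 + 5 * a + 2 * K2) * P := by
    have h8 : (2:ℝ) ^ (2 ^ kB mm ll s + 12 + 5 * a + 2 * K2) =
        ((2 ^ 2 ^ kB mm ll s : ℕ) : ℝ) * (4096 * 2 ^ (5 * a) * 4 ^ K2) := by
      rw [pow_add, pow_add, pow_add, pow_mul 2 2 K2]
      push_cast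
      ring
    rw [h8, mul_assoc]
    have h9 : (0:ℝ) ≤ ((2 ^ 2 ^ kB mm ll s : ℕ) : ℝ) := by positivity
    exact hge.trans (mul_le_mul_of_nonneg_left h3 h9)
  have h10 : 2 ^ kB mm ll s + 12 + 5 * a + 2 * K2 ≤ 2 ^ kD mm ll s := by
    rw [ha, hK2]
    obtain ⟨U, hU⟩ : ∃ U, U = 2 ^ (kB mm ll s + kap' mm ll s + kap'' 0 mm ll s) := ⟨_, rfl⟩
    have g1 : 2 ^ kB mm ll s ≤ U := by
      rw [hU]; exact Nat.pow_le_pow_right (by norm_num) (by omega)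
    have g2 : 2 ^ kap' mm ll s ≤ U := by
      rw [hU]; exact Nat.pow_le_pow_right (by norm_num) (by omega)
    have g3 : 2 ^ kap'' 0 mm ll s ≤ U := by
      rw [hU]; exact Nat.pow_le_pow_right (by norm_num) (by omega)
    have g4 : 1 ≤ U := by rw [hU]; exact Nat.one_le_two_pow
    have g5 : 2 ^ kD mm ll s = 32 * U := by
      unfold kD
      rw [pow_add, hU]; ring
    rw [g5]
    omega
  rw [← hs]
  have h11 : (1 / 2 : ℝ) ^ 2 ^ kD mm ll s ≤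
      (1 / 2 : ℝ) ^ (2 ^ kB mm ll s + 12 + 5 * a + 2 * K2) :=
    pow_le_pow_of_le_one (by norm_num) (by norm_num) h10
  refine h11.trans ?_
  rw [one_div, inv_pow, inv_le_iff_one_le_mul₀ (by positivity), mul_comm]
  exact h7

end Pool.Agent.R537.IP
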