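import Pool.Agent.R537.IP.Iso
import Pool.Agent.R537.IP.Gap

/-!
# The game of the reduction
-/

set_option autoImplicit false

namespace Pool.Agent.R537.IP

open Finset Filter Topology Pool.Agent.H612 Pool.Agent.R537.RN Pool.Agent.NPC

variable {mm ll : ℕ} (loc : ℕ → Fin 0 ⊕ (Fin mm ⊕ Fin ll)) (S : List ER.Con)

/-- The payoff. -/
def Gf {R : Type} [CommRing R] (h σ : R) (K : ℕ) (x : Fin (mm + 2) → R) (w : Fin (ll + 1) → R) :
    R :=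
  Hf loc S h σ x w - ∑ i, (h * x i ^ 2) ^ K + ∑ r, (2 * w r ^ 2) ^ K

theorem Hf_map {R R' : Type} [CommRing R] [CommRing R'] (f : R →+* R') (h σ : R)
    (x : Fin (mm + 2) → R) (w : Fin (ll + 1) → R) :
    f (Hf loc S h σ x w) = Hf loc S (f h) (f σ) (fun i => f (x i)) (fun i => f (w i)) := by
  unfold Hf
  rw [Phi_map]
  simp only [map_mul, map_pow, map_ofNat]
  congr 1
  funext j
  exact j.elim0

theorem Gf_map {R R' : Type} [CommRing R] [CommRing R'] (f : R →+* R') (h σ : R) (K : ℕ)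
    (x : Fin (mm + 2) → R) (w : Fin (ll + 1) → R) :
    f (Gf loc S h σ K x w) = Gf loc S (f h) (f σ) K (fun i => f (x i)) (fun i => f (w i)) := by
  unfold Gf
  simp only [map_add, map_sub, map_sum, map_mul, map_pow, map_ofNat, Hf_map]

/-- The payoff as a polynomial. -/
noncomputable def gpoly (σ : ℝ) (K : ℕ) : MvPolynomial (Fin (mm + 2) ⊕ Fin (ll + 1)) ℝ :=
  Gf loc S (MvPolynomial.C (1 / 2)) (MvPolynomial.C σ) K (fun i => MvPolynomial.X (Sum.inl i))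
    (fun r => MvPolynomial.X (Sum.inr r))

/-- Evaluation of the payoff in a ring. -/
theorem aeval_gpoly {R : Type} [CommRing R] (f : ℝ →+* R) (σ : ℝ) (K : ℕ)
    (x : Fin (mm + 2) → R) (w : Fin (ll + 1) → R) :
    (gpoly loc S σ K).eval₂ f (Sum.elim x w) = Gf loc S (f (1 / 2)) (f σ) K x w := by
  have h := Gf_map loc S (MvPolynomial.eval₂Hom f (Sum.elim x w)) (MvPolynomial.C (1 / 2))
    (MvPolynomial.C σ) K (fun i => MvPolynomial.X (Sum.inl i))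
    (fun r => MvPolynomial.X (Sum.inr r))
  simp only [MvPolynomial.coe_eval₂Hom, MvPolynomial.eval₂_C, MvPolynomial.eval₂_X,
    Sum.elim_inl, Sum.elim_inr] at h
  exact h

theorem gv_gpoly (σ : ℝ) (K : ℕ) (x : Fin (mm + 2) → ℝ) (w : Fin (ll + 1) → ℝ) :
    gv (gpoly loc S σ K) x w = Gf loc S (1 / 2) σ K x w :=
  aeval_gpoly loc S (RingHom.id ℝ) σ K x w

/-- The perturbation. -/
noncomputable def pert {n m Q J : ℕ} (c : Par n Q J → ℕ) (x : Fin n → ℝ) (w : Fin m → ℝ) : ℝ :=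
  ∑ j, (c (Sum.inl j) : ℝ) * x j + ∑ p : Fin Q × Fin J, (c (Sum.inr p) : ℝ) *
    lv p.1 w ^ ((p.2 : ℕ) + 1)

theorem gv_gp {n m Q J : ℕ} (g : MvPolynomial (Fin n ⊕ Fin m) ℝ) (ε : ℝ) (c : Par n Q J → ℕ)
    (x : Fin n → ℝ) (w : Fin m → ℝ) :
    gv (gp g ε fun i => (c i : ℝ)) x w = gv g x w + ε * pert c x w := by
  unfold gv gp pert
  simp only [map_add, map_mul, map_sum, MvPolynomial.eval_C, Fintype.sum_sum_type, pm,
    Sum.elim_inl, Sum.elim_inr, MvPolynomial.eval_X, map_pow, eval_lf]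

/-! ### The parameters -/

/-- The number of the linear forms. -/
def nQ (mm ll : ℕ) : ℕ := (ll + 1) + (mm + 3) * (mm + 3) * (ll + 1)
/-- The degree of the perturbation. -/
def nJ (mm : ℕ) : ℕ := 2 * (mm + 2) + 1
/-- A bound for all the sizes. -/
def nT (mm ll : ℕ) : ℕ := nQ mm ll + nJ mm
/-- The exponent of the barriers. -/
def k5 (mm ll s : ℕ) : ℕ := kD mm ll s + kap ll s + (mm + 2) + (ll + 1) + 3
/-- The exponent of the size of the payoff. -/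
def kA (mm ll s : ℕ) : ℕ :=
  kap ll s + kap' mm ll s + s + k5 mm ll s + (mm + 2) + (ll + 1) + 8
/-- The exponent of the parameters. -/
def k6 (mm ll s : ℕ) : ℕ := kE (mm + 2) (ll + 1) (kA mm ll s) (nT mm ll)
/-- The exponent of the size of the perturbation. -/
def k7 (mm ll s : ℕ) : ℕ := kD mm ll s + k6 mm ll s + 3 * nT mm ll + 4

/-- The size of the perturbation. -/
noncomputable def ep (mm ll s : ℕ) : ℝ := (1 / 2) ^ (2 ^ k7 mm ll s)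
/-- The gap. -/
noncomputable def dl0 (mm ll s : ℕ) : ℝ := (1 / 2) ^ (2 ^ kD mm ll s)

theorem dl0_pos (mm ll s : ℕ) : 0 < dl0 mm ll s := by unfold dl0; positivity
theorem dl0_le (mm ll s : ℕ) : dl0 mm ll s ≤ 1 := pow_le_one₀ (by norm_num) (by norm_num)
theorem ep_pos (mm ll s : ℕ) : 0 < ep mm ll s := by unfold ep; positivity

theorem half_bound (X D Y : ℕ) (h : D + Y + 3 ≤ X) (P : ℝ) (h0 : 0 ≤ P) (hP : P ≤ 2 ^ Y) :
    (1 / 2 : ℝ) ^ X * P ≤ (1 / 2) ^ D / 8 := by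
  have e3 : (1 / 2 : ℝ) ^ X ≤ (1 / 2) ^ (D + Y + 3) :=
    pow_le_pow_of_le_one (by norm_num) (by norm_num) h
  have e5 : (1 / 2 : ℝ) ^ Y * 2 ^ Y = 1 := by rw [← mul_pow]; norm_num
  calc (1 / 2 : ℝ) ^ X * P ≤ (1 / 2) ^ (D + Y + 3) * 2 ^ Y :=
        mul_le_mul e3 hP h0 (by positivity)
    _ = (1 / 2 : ℝ) ^ D * ((1 / 2 : ℝ) ^ Y * 2 ^ Y) * (1 / 2) ^ 3 := by
        rw [pow_add, pow_add]; ring
    _ = (1 / 2) ^ D / 8 := by rw [e5]; ring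

theorem k_arith (A B U T E : ℕ) (hT2 : T ≤ U) (hE2 : E ≤ B) (hA1 : 1 ≤ A) (hB1 : 1 ≤ B)
    (hU1 : 1 ≤ U) : A + (E + (T * T * T + T * T + 2 * T + 1)) + 3 ≤ 16 * (A * B * U ^ 3) := by
  have hU3 : 1 ≤ U ^ 3 := Nat.one_le_pow _ _ hU1
  have m1 : T * T * T ≤ U ^ 3 := by
    calc T * T * T ≤ U * U * U := Nat.mul_le_mul (Nat.mul_le_mul hT2 hT2) hT2
      _ = U ^ 3 := by ring
  have m2 : T * T ≤ U ^ 3 := by
    calc T * T ≤ U * U := Nat.mul_le_mul hT2 hT2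
      _ ≤ U * U * U := Nat.le_mul_of_pos_right _ hU1
      _ = U ^ 3 := by ring
  have m3 : T ≤ U ^ 3 := by
    calc T ≤ U := hT2
      _ ≤ U * (U * U) := Nat.le_mul_of_pos_right _ (by positivity)
      _ = U ^ 3 := by ring
  have n1 : A ≤ A * B * U ^ 3 := by
    rw [mul_assoc]; exact Nat.le_mul_of_pos_right _ (by positivity)
  have n2 : B ≤ A * B * U ^ 3 := by
    calc B ≤ B * (A * U ^ 3) := Nat.le_mul_of_pos_right _ (by positivity)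
      _ = _ := by ring
  have n3 : U ^ 3 ≤ A * B * U ^ 3 := Nat.le_mul_of_pos_left _ (by positivity)
  omega

theorem pert_bound (s : ℕ) (c : Par (mm + 2) (nQ mm ll) (nJ mm) → ℕ)
    (hc : ∀ i, c i ≤ 2 ^ k6 mm ll s) (x : Fin (mm + 2) → ℝ) (hx : ∀ i, |x i| ≤ 2)
    (w : Fin (ll + 1) → ℝ) (hw : w ∈ cube (ll + 1)) :
    |ep mm ll s * pert c x w| ≤ dl0 mm ll s / 8 := by
  obtain ⟨T, hT⟩ : ∃ T, T = nT mm ll := ⟨_, rfl⟩
  have hQT : nQ mm ll ≤ T := by rw [hT]; unfold nT; omega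
  have hJT : nJ mm ≤ T := by rw [hT]; unfold nT; omega
  have hnT : mm + 2 ≤ T := by rw [hT]; unfold nT nJ; omega
  have hmT : ll + 1 ≤ T := by rw [hT]; unfold nT nQ; omega
  have hT1 : 1 ≤ T := by omega
  obtain ⟨E, hE⟩ : ∃ E, E = k6 mm ll s := ⟨_, rfl⟩
  have h2T : ∀ a : ℕ, a ≤ T → (a : ℝ) ≤ 2 ^ T := by
    intro a ha
    exact_mod_cast ha.trans (b_self T)
  have hlv : ∀ q : Fin (nQ mm ll), |lv (q : ℕ) w| ≤ 2 ^ (T + T * T) := by
    intro q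
    unfold lv
    refine (Finset.abs_sum_le_sum_abs _ _).trans ?_
    have h1 : ∀ r : Fin (ll + 1), |((q : ℕ) : ℝ) ^ (r : ℕ) * w r| ≤ 2 ^ (T * T) := by
      intro r
      rw [abs_mul, abs_pow, Nat.abs_cast]
      have h3 : ((q : ℕ) : ℝ) ^ (r : ℕ) ≤ (2 ^ T) ^ T := by
        have h4 : ((q : ℕ) : ℝ) ≤ 2 ^ T := h2T _ (by omega)
        calc ((q : ℕ) : ℝ) ^ (r : ℕ) ≤ (2 ^ T) ^ (r : ℕ) :=
              pow_le_pow_left₀ (Nat.cast_nonneg _) h4 _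
          _ ≤ (2 ^ T) ^ T := pow_le_pow_right₀ (one_le_pow₀ (by norm_num)) (by omega)
      rw [← pow_mul] at h3
      have h4 := hw r
      have h5 : (0:ℝ) ≤ ((q : ℕ) : ℝ) ^ (r : ℕ) := by positivity
      calc _ ≤ ((q : ℕ) : ℝ) ^ (r : ℕ) * 1 := mul_le_mul_of_nonneg_left h4 h5
        _ ≤ _ := by rw [mul_one]; exact h3
    refine (Finset.sum_le_card_nsmul _ _ _ fun r _ => h1 r).trans ?_
    rw [Finset.card_univ, Fintype.card_fin, nsmul_eq_mul, pow_add]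
    exact mul_le_mul_of_nonneg_right (h2T _ hmT) (by positivity)
  have hlvp : ∀ p : Fin (nQ mm ll) × Fin (nJ mm), |lv (p.1 : ℕ) w ^ ((p.2 : ℕ) + 1)| ≤
      2 ^ ((T + T * T) * T) := by
    intro p
    rw [abs_pow]
    calc |lv (p.1 : ℕ) w| ^ ((p.2 : ℕ) + 1) ≤ (2 ^ (T + T * T)) ^ ((p.2 : ℕ) + 1) :=
          pow_le_pow_left₀ (abs_nonneg _) (hlv p.1) _
      _ ≤ (2 ^ (T + T * T)) ^ T := pow_le_pow_right₀ (one_le_pow₀ (by norm_num)) (by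
          have := p.2.2; omega)
      _ = _ := (pow_mul _ _ _).symm
  have hcr : ∀ i, ((c i : ℕ) : ℝ) ≤ 2 ^ E := by
    intro i
    rw [hE]
    exact_mod_cast hc i
  have hb : |pert c x w| ≤ 2 ^ (E + (T * T * T + T * T + 2 * T + 1)) := by
    unfold pert
    refine (abs_add_le _ _).trans ?_
    have h1 : |∑ j, (c (Sum.inl j) : ℝ) * x j| ≤ 2 ^ T * (2 ^ E * 2) := by
      refine (Finset.abs_sum_le_sum_abs _ _).trans ?_
      refine (Finset.sum_le_card_nsmul _ _ (2 ^ E * 2) fun j _ => ?_).trans ?_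
      · rw [abs_mul, Nat.abs_cast]
        exact mul_le_mul (hcr _) (hx j) (abs_nonneg _) (by positivity)
      · rw [Finset.card_univ, Fintype.card_fin, nsmul_eq_mul]
        exact mul_le_mul_of_nonneg_right (h2T _ hnT) (by positivity)
    have h2 : |∑ p : Fin (nQ mm ll) × Fin (nJ mm), (c (Sum.inr p) : ℝ) *
        lv p.1 w ^ ((p.2 : ℕ) + 1)| ≤ 2 ^ T * 2 ^ T * (2 ^ E * 2 ^ ((T + T * T) * T)) := by
      refine (Finset.abs_sum_le_sum_abs _ _).trans ?_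
      refine (Finset.sum_le_card_nsmul _ _ (2 ^ E * 2 ^ ((T + T * T) * T)) fun p _ => ?_).trans ?_
      · rw [abs_mul, Nat.abs_cast]
        exact mul_le_mul (hcr _) (hlvp p) (abs_nonneg _) (by positivity)
      · rw [Finset.card_univ, Fintype.card_prod, Fintype.card_fin, Fintype.card_fin,
          nsmul_eq_mul]
        push_cast
        refine mul_le_mul_of_nonneg_right ?_ (by positivity)
        exact mul_le_mul (h2T _ hQT) (h2T _ hJT) (Nat.cast_nonneg _) (by positivity)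
    have h3 : (2:ℝ) ^ T * (2 ^ E * 2) ≤ 2 ^ T * 2 ^ T * (2 ^ E * 2 ^ ((T + T * T) * T)) := by
      have e1 : (2:ℝ) ≤ 2 ^ T * 2 ^ ((T + T * T) * T) := by
        rw [← pow_add]
        calc (2:ℝ) = 2 ^ 1 := by norm_num
          _ ≤ _ := pow_le_pow_right₀ (by norm_num) (by omega)
      calc (2:ℝ) ^ T * (2 ^ E * 2) = (2 ^ T * 2 ^ E) * 2 := by ring
        _ ≤ (2 ^ T * 2 ^ E) * (2 ^ T * 2 ^ ((T + T * T) * T)) :=
            mul_le_mul_of_nonneg_left e1 (by positivity)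
        _ = _ := by ring
    calc _ ≤ 2 ^ T * 2 ^ T * (2 ^ E * 2 ^ ((T + T * T) * T)) +
          2 ^ T * 2 ^ T * (2 ^ E * 2 ^ ((T + T * T) * T)) := add_le_add (h1.trans h3) h2
      _ = 2 ^ (E + (T * T * T + T * T + 2 * T + 1)) := by
          have e2 : E + (T * T * T + T * T + 2 * T + 1) = T + T + (E + (T + T * T) * T) + 1 := by
            ring
          rw [e2, pow_succ, pow_add, pow_add, pow_add]
          ring
  have hk7 : 2 ^ kD mm ll s + (E + (T * T * T + T * T + 2 * T + 1)) + 3 ≤ 2 ^ k7 mm ll s := by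
    obtain ⟨U, hU⟩ : ∃ U, U = 2 ^ T := ⟨_, rfl⟩
    obtain ⟨A, hA⟩ : ∃ A, A = 2 ^ kD mm ll s := ⟨_, rfl⟩
    obtain ⟨B, hB⟩ : ∃ B, B = 2 ^ E := ⟨_, rfl⟩
    have e1 : 2 ^ k7 mm ll s = 16 * (A * B * U ^ 3) := by
      unfold k7
      rw [← hE, ← hT, hA, hB, hU, ← pow_mul, pow_add, pow_add, pow_add]
      rw [show T * 3 = 3 * T by ring]
      ring
    rw [e1, ← hA]
    refine k_arith A B U T E ?_ ?_ ?_ ?_ ?_
    · rw [hU]; exact b_self T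
    · rw [hB]; exact b_self E
    · rw [hA]; exact Nat.one_le_two_pow
    · rw [hB]; exact Nat.one_le_two_pow
    · rw [hU]; exact Nat.one_le_two_pow
  rw [abs_mul, abs_of_pos (ep_pos _ _ _)]
  exact half_bound _ _ _ hk7 _ (abs_nonneg _) hb

theorem k5_big (mm ll s : ℕ) : 2 ^ kD mm ll s + (mm + 2) + (ll + 1) + 3 ≤ 2 ^ k5 mm ll s ∧
    2 * 2 ^ kap ll s + 2 ≤ 2 ^ k5 mm ll s := by
  obtain ⟨U, hU⟩ : ∃ U, U = 2 ^ (kD mm ll s + kap ll s + (mm + 2) + (ll + 1)) := ⟨_, rfl⟩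
  have h1 : 2 ^ k5 mm ll s = 8 * U := by
    unfold k5
    rw [pow_add, hU]; ring
  have h2 : 2 ^ kD mm ll s ≤ U := by rw [hU]; exact Nat.pow_le_pow_right (by norm_num) (by omega)
  have h3 : mm + 2 ≤ U := by
    rw [hU]; exact (b_self _).trans (Nat.pow_le_pow_right (by norm_num) (by omega))
  have h4 : ll + 1 ≤ U := by
    rw [hU]; exact (b_self _).trans (Nat.pow_le_pow_right (by norm_num) (by omega))
  have h5 : 2 ^ kap ll s ≤ U := by rw [hU]; exact Nat.pow_le_pow_right (by norm_num) (by omega)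
  have h6 : 1 ≤ U := by rw [hU]; exact Nat.one_le_two_pow
  rw [h1]
  constructor <;> omega

/-- The barriers are small inside. -/
theorem bar_small (s N : ℕ) (hN : N ≤ (mm + 2) + (ll + 1)) (b : Fin N → ℝ)
    (hb0 : ∀ i, 0 ≤ b i) (hb : ∀ i, b i ≤ 1 / 2) :
    ∑ i, b i ^ (2 ^ k5 mm ll s) ≤ dl0 mm ll s / 8 := by
  have h1 : ∀ i, b i ^ (2 ^ k5 mm ll s) ≤ (1 / 2 : ℝ) ^ (2 ^ k5 mm ll s) :=
    fun i => pow_le_pow_left₀ (hb0 i) (hb i) _
  refine (Finset.sum_le_card_nsmul _ _ _ fun i _ => h1 i).trans ?_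
  rw [Finset.card_univ, Fintype.card_fin, nsmul_eq_mul]
  have h2 := (k5_big mm ll s).1
  have h3 : (1 / 2 : ℝ) ^ (2 ^ k5 mm ll s) ≤ (1 / 2) ^ (2 ^ kD mm ll s + N + 3) :=
    pow_le_pow_of_le_one (by norm_num) (by norm_num) (by omega)
  have h4 : (N : ℝ) ≤ 2 ^ N := by exact_mod_cast b_self N
  unfold dl0
  calc (N : ℝ) * (1 / 2 : ℝ) ^ (2 ^ k5 mm ll s) ≤ 2 ^ N * (1 / 2) ^ (2 ^ kD mm ll s + N + 3) :=
        mul_le_mul h4 h3 (by positivity) (by positivity)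
    _ = (1 / 2) ^ (2 ^ kD mm ll s) / 8 := by
        rw [pow_add, pow_add]
        have e5 : (2:ℝ) ^ N * (1 / 2) ^ N = 1 := by rw [← mul_pow]; norm_num
        calc _ = (1 / 2 : ℝ) ^ 2 ^ kD mm ll s * ((2:ℝ) ^ N * (1 / 2) ^ N) * (1 / 2) ^ 3 := by ring
          _ = _ := by rw [e5]; ring

theorem Hf_zero (σ : ℝ) (x : Fin (mm + 2) → ℝ) : Hf loc S (1 / 2) σ x 0 =
    σ ^ 5 * ((1 / 2 * x 0) ^ 2) ^ (2 ^ kap' mm ll S.length) := by
  unfold Hf Phi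
  have h1 : qsum (pick loc (fun j : Fin 0 => (1 / 2 * x 0) ^ 2 * (2 * (0 : Fin (ll + 1) → ℝ) 0) ^ 2 *
      (j.elim0 : ℝ)) (fun j => σ * (2 * (0 : Fin (ll + 1) → ℝ) 0) ^ 2 * (1 / 2 * x j.succ.succ))
      (fun j => σ * (1 / 2 * x 0) ^ 2 * (2 * (0 : Fin (ll + 1) → ℝ) j.succ)))
      (σ * (1 / 2 * x 0) ^ 2 * (2 * (0 : Fin (ll + 1) → ℝ) 0) ^ 2) S = 0 := by
    have h2 := qsum_scale (0:ℝ) (fun _ => (0:ℝ)) 0 S
    simp only [zero_mul] at h2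
    rw [zero_pow (by norm_num), zero_mul] at h2
    rw [← h2]
    congr 1
    · funext i
      unfold pick
      rcases loc i with j | j | j
      · exact j.elim0
      · simp
      · simp
    · simp
  rw [h1]
  have h3 : ((2 * (0 : Fin (ll + 1) → ℝ) 0) ^ 2) ^ (2 ^ kap ll S.length) = 0 := by
    simp
  rw [h3]
  ring

theorem Hf_lower (σ : ℝ) (h0 : 0 < σ) (h1 : σ ≤ 1) (x : Fin (mm + 2) → ℝ) (hx : |x 0| ≤ 2)
    (w : Fin (ll + 1) → ℝ) (hw : |w 0| ≤ 1) :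
    Hf loc S (1 / 2) σ x 0 - 4 ^ (2 ^ kap ll S.length) ≤ Hf loc S (1 / 2) σ x w := by
  rw [Hf_zero]
  unfold Hf Phi
  have hr0 : 0 ≤ (1 / 2 * x 0) ^ 2 := sq_nonneg _
  have hr1 : (1 / 2 * x 0) ^ 2 ≤ 1 := by
    have : |1 / 2 * x 0| ≤ 1 := by
      rw [abs_mul, abs_of_pos (by norm_num : (0:ℝ) < 1 / 2)]; linarith
    rw [← sq_abs]
    nlinarith [abs_nonneg (1 / 2 * x 0)]
  have ht0 : 0 ≤ (2 * w 0) ^ 2 := sq_nonneg _
  have ht1 : (2 * w 0) ^ 2 ≤ 4 := by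
    have h6 : w 0 ^ 2 ≤ 1 := by
      rw [← sq_abs]
      nlinarith [abs_nonneg (w 0)]
    nlinarith
  have hq := qsum_nonneg (pick loc (fun j : Fin 0 => (1 / 2 * x 0) ^ 2 * (2 * w 0) ^ 2 *
      (j.elim0 : ℝ)) (fun j => σ * (2 * w 0) ^ 2 * (1 / 2 * x j.succ.succ))
      (fun j => σ * (1 / 2 * x 0) ^ 2 * (2 * w j.succ)))
      (σ * (1 / 2 * x 0) ^ 2 * (2 * w 0) ^ 2) S
  have h2 : 0 ≤ ((1 / 2 * x 0) ^ 2) ^ 2 + (1 / 2 * x 1) ^ 2 := by positivity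
  have h3 := mul_nonneg h2 hq
  have h4 : ((2 * w 0) ^ 2) ^ (2 ^ kap ll S.length) ≤ 4 ^ (2 ^ kap ll S.length) :=
    pow_le_pow_left₀ ht0 ht1 _
  have h5 : σ ^ 4 * ((1 / 2 * x 0) ^ 2) ^ 6 ≤ 1 := by
    have e1 : σ ^ 4 ≤ 1 := pow_le_one₀ h0.le h1
    have e2 : ((1 / 2 * x 0) ^ 2) ^ 6 ≤ 1 := pow_le_one₀ hr0 hr1
    have e3 : 0 ≤ ((1 / 2 * x 0) ^ 2) ^ 6 := by positivity
    nlinarith
  have h6 : 0 ≤ ((2 * w 0) ^ 2) ^ (2 ^ kap ll S.length) := by positivity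
  have h7 : σ ^ 4 * ((1 / 2 * x 0) ^ 2) ^ 6 * ((2 * w 0) ^ 2) ^ (2 ^ kap ll S.length) ≤
      4 ^ (2 ^ kap ll S.length) := by
    calc _ ≤ 1 * ((2 * w 0) ^ 2) ^ (2 ^ kap ll S.length) := mul_le_mul_of_nonneg_right h5 h6
      _ ≤ _ := by rw [one_mul]; exact h4
  linarith

end Pool.Agent.R537.IP
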