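import Pool.Agent.R537.IP.LamSz
import Mathlib.Combinatorics.Nullstellensatz

/-!
# A nondegenerate parameter on the grid
-/

set_option autoImplicit false

namespace Pool.Agent.R537.IP

open Finset Filter Topology MeasureTheory Pool.Agent.H612 Pool.Agent.R537.RN

theorem grid {σ : Type} [Fintype σ] (P : MvPolynomial σ ℝ) (hP : P ≠ 0) (D : ℕ)
    (hD : ∀ i, P.degreeOf i ≤ D) :
    ∃ c : σ → ℕ, (∀ i, c i ≤ D) ∧ MvPolynomial.eval (fun i => (c i : ℝ)) P ≠ 0 := by
  classical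
  obtain ⟨t, ht, htd⟩ : ∃ t ∈ P.support, P.totalDegree = t.degree := by
    have h1 : P.support.Nonempty := by
      rw [Finset.nonempty_iff_ne_empty]
      intro h
      exact hP (MvPolynomial.support_eq_empty.1 h)
    obtain ⟨t, ht, ht2⟩ := Finset.exists_mem_eq_sup P.support h1 fun s => s.sum fun _ e => e
    refine ⟨t, ht, ?_⟩
    rw [MvPolynomial.totalDegree, ht2]
    rfl
  obtain ⟨s, hs, hs0⟩ := MvPolynomial.combinatorial_nullstellensatz_exists_eval_nonzero P t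
    (MvPolynomial.mem_support_iff.1 ht) htd
    (fun _ => (Finset.range (D + 1)).image fun x : ℕ => (x : ℝ)) (fun i => by
      rw [Finset.card_image_of_injective _ Nat.cast_injective, Finset.card_range]
      have h1 := hD i
      have h2 := (MvPolynomial.degreeOf_le_iff.1 (le_refl (P.degreeOf i))) t ht
      omega)
  have h1 : ∀ i, ∃ c : ℕ, c ≤ D ∧ (c : ℝ) = s i := by
    intro i
    have h2 := hs i
    rw [Finset.mem_image] at h2
    obtain ⟨c, hc, hc2⟩ := h2
    rw [Finset.mem_range] at hc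
    exact ⟨c, by omega, hc2⟩
  choose c hc1 hc2 using h1
  refine ⟨c, hc1, ?_⟩
  rw [show (fun i => (c i : ℝ)) = s from funext hc2]
  exact hs0

variable {n m Q J T : ℕ}

/-- The exponent of the degree. -/
def kE (n m a T : ℕ) : ℕ :=
  Gx (2 * (n + (n + 1) * m + n) + 1) (a + 5 * T + 8) + (n + 1)

theorem exists_grid (hT : 1 ≤ T) (hn : n + 1 ≤ T) (hm : m ≤ T) (hQ : Q ≤ T)
    (hJ : J ≤ T) (hm0 : 0 < m) (hkJ : 2 * n + 1 ≤ J) (hkQ : m + (n + 1) * (n + 1) * m ≤ Q)
    (g : MvPolynomial (Fin n ⊕ Fin m) ℝ) (ε : ℝ) (hε : ε ≠ 0) {a : ℕ}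
    (hg : (gm _).ν g ≤ 2 ^ 2 ^ a) :
    ∃ c : Par n Q J → ℕ, (∀ i, c i ≤ 2 ^ kE n m a T) ∧
      ∀ k ≤ n, Nondeg k g ε (fun i => (c i : ℝ)) := by
  classical
  have h1 : ∀ k : Fin (n + 1), ∃ P : MvPolynomial (Par n Q J) ℝ, P ≠ 0 ∧
      (∀ i, P.degreeOf i ≤ 2 ^ Gx (2 * (n + (n + 1) * m + n) + 1) (a + 5 * T + 8)) ∧
      ∀ c, MvPolynomial.eval c P ≠ 0 → Nondeg k g ε c := by
    intro k
    have hk : (k : ℕ) ≤ n := by omega
    obtain ⟨P, hP0, hPd, hP⟩ := nondeg_poly (k := k) hT (by omega) hm (by omega) hQ hJ hm0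
      (by omega) (le_trans (Nat.add_le_add_left (Nat.mul_le_mul_right _
        (Nat.mul_le_mul (by omega) (by omega))) _) hkQ) g ε hε hg
    refine ⟨P, hP0, fun i => MvPolynomial.degreeOf_le_iff.2 fun d hd => (hPd d hd i).trans ?_, hP⟩
    refine Nat.pow_le_pow_right (by norm_num) ?_
    unfold Gx
    have hc : Fintype.card (Vx n m k) ≤ 2 * (n + (n + 1) * m + n) + 1 := by
      simp only [Fintype.card_sum, Fintype.card_prod, Fintype.card_fin, Fintype.card_unit]
      have : ((k : ℕ) + 1) * m ≤ (n + 1) * m := Nat.mul_le_mul_right _ (by omega)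
      omega
    exact Nat.mul_le_mul (by omega) (by omega)
  choose P hP0 hPd hP using h1
  obtain ⟨c, hc, hc0⟩ := grid (∏ k, P k) (Finset.prod_ne_zero_iff.2 fun k _ => hP0 k)
    (2 ^ kE n m a T) (fun i => by
      refine (MvPolynomial.degreeOf_prod_le _ _ _).trans ?_
      refine (Finset.sum_le_card_nsmul _ _ _ fun k _ => hPd k i).trans ?_
      rw [Finset.card_univ, Fintype.card_fin, smul_eq_mul]
      unfold kE
      rw [pow_add, mul_comm]
      exact Nat.mul_le_mul_left _ Nat.lt_two_pow_self.le)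
  refine ⟨c, hc, fun k hk => ?_⟩
  refine hP ⟨k, by omega⟩ _ ?_
  rw [map_prod] at hc0
  exact Finset.prod_ne_zero_iff.1 hc0 _ (Finset.mem_univ _)

end Pool.Agent.R537.IP
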