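import Pool.Agent.R537.IP.Tie

/-!
# The selected parameters control the equations
-/

set_option autoImplicit false

namespace Pool.Agent.R537.IP

open Finset Filter Topology Pool.Agent.H612 Pool.Agent.R537.RN

/-- A polynomial with too many roots. -/
theorem poly_roots {p : Polynomial ℝ} {K : ℕ} (hd : p.natDegree < K) (s : Fin K → ℝ)
    (hs : Function.Injective s) (h : ∀ i, p.eval (s i) = 0) : p = 0 := by
  classical
  by_contra hp
  have h1 : (Finset.univ.image s).card ≤ p.roots.toFinset.card := by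
    refine Finset.card_le_card fun x hx => ?_
    rw [Finset.mem_image] at hx
    obtain ⟨i, -, rfl⟩ := hx
    rw [Multiset.mem_toFinset, Polynomial.mem_roots hp]
    exact h i
  rw [Finset.card_image_of_injective _ hs, Finset.card_univ, Fintype.card_fin] at h1
  have h2 := Multiset.toFinset_card_le p.roots
  have h3 := Polynomial.card_roots' p
  omega

/-- A polynomial with too many double roots. -/
theorem poly_double {p : Polynomial ℝ} {K : ℕ} (hd : p.natDegree < 2 * K) (s : Fin K → ℝ)
    (hs : Function.Injective s) (h : ∀ i, p.eval (s i) = 0)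
    (h' : ∀ i, (Polynomial.derivative p).eval (s i) = 0) : p = 0 := by
  classical
  by_contra hp
  have h1 : 2 * K ≤ p.roots.card := by
    have h2 : (2 • (Finset.univ.image s).val) ≤ p.roots := by
      rw [Multiset.le_iff_count]
      intro x
      rw [Multiset.count_nsmul]
      by_cases hx : x ∈ Finset.univ.image s
      · rw [Finset.mem_image] at hx
        obtain ⟨i, hi, rfl⟩ := hx
        have h3 : Multiset.count (s i) (Finset.univ.image s).val ≤ 1 :=
          Multiset.nodup_iff_count_le_one.1 (Finset.univ.image s).nodup _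
        have h4 : 1 < p.rootMultiplicity (s i) :=
          (Polynomial.one_lt_rootMultiplicity_iff_isRoot hp).2 ⟨h i, h' i⟩
        rw [Polynomial.count_roots]
        omega
      · have h3 : Multiset.count x (Finset.univ.image s).val = 0 :=
          Multiset.count_eq_zero.2 hx
        rw [h3]
        simp
    have h3 := Multiset.card_le_card h2
    rw [Multiset.card_nsmul] at h3
    have h4 : (Finset.univ.image s).val.card = K := by
      change (Finset.univ.image s).card = K
      rw [Finset.card_image_of_injective _ hs, Finset.card_univ, Fintype.card_fin]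
    rw [h4] at h3
    exact h3
  have h3 := Polynomial.card_roots' p
  omega

variable {n m k Q J : ℕ}

/-- The value of a linear form. -/
noncomputable def lv (q : ℕ) (w : Fin m → ℝ) : ℝ := ∑ r : Fin m, (q : ℝ) ^ (r : ℕ) * w r

theorem eval_lf (a : Fin n ⊕ Fin m → ℝ) (q : ℕ) :
    MvPolynomial.eval a (lf n m q) = lv q (fun r => a (Sum.inr r)) := by
  simp [lf, lv]

theorem pderiv_lf_inl (j : Fin n) (q : ℕ) :
    MvPolynomial.pderiv (Sum.inl j) (lf n m q) = 0 := by
  classical
  simp [lf, MvPolynomial.pderiv_C_mul, MvPolynomial.pderiv_X]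

theorem pderiv_lf_inr (r : Fin m) (q : ℕ) :
    MvPolynomial.pderiv (Sum.inr r) (lf n m q) = MvPolynomial.C ((q : ℝ) ^ (r : ℕ)) := by
  classical
  simp only [lf, map_sum, MvPolynomial.pderiv_C_mul, MvPolynomial.pderiv_X, Pi.single_apply,
    Sum.inr.injEq, mul_ite, mul_one, mul_zero]
  rw [Finset.sum_eq_single r]
  · simp
  · intro r' _ hr
    rw [if_neg hr]
  · intro h
    exact absurd (Finset.mem_univ r) h

theorem eval_pot_const (z : Zk n m k → ℝ) (a : ℝ) :
    MvPolynomial.eval z (pot k (MvPolynomial.C a : MvPolynomial (Fin n ⊕ Fin m) ℝ)) = a := by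
  unfold pot
  simp only [map_sum, map_mul, MvPolynomial.rename_C, MvPolynomial.eval_C, eval_mu]
  rw [← Finset.sum_mul, muv_sum, one_mul]

/-- The copies of the second block. -/
def wz (z : Zk n m k → ℝ) (i : Fin (k + 1)) (r : Fin m) : ℝ := z (Sum.inr (Sum.inl (i, r)))

theorem eval_lf_cp (z : Zk n m k → ℝ) (i : Fin (k + 1)) (q : ℕ) :
    MvPolynomial.eval (z ∘ cp i) (lf n m q) = lv q (wz z i) := by
  rw [eval_lf]
  rfl

theorem dpm_inl_inl (z : Zk n m k → ℝ) (j j' : Fin n) :
    MvPolynomial.eval z (MvPolynomial.pderiv (Sum.inl j)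
      (pot k (pm m (Sum.inl j' : Par n Q J)))) = if j' = j then 1 else 0 := by
  classical
  rw [pderiv_pot_inl]
  simp only [pm, Sum.elim_inl, MvPolynomial.pderiv_X, Pi.single_apply, Sum.inl.injEq]
  split_ifs with h1
  · have := eval_pot_const (k := k) z 1
    rwa [MvPolynomial.C_1] at this
  · have := eval_pot_const (k := k) z 0
    rwa [MvPolynomial.C_0] at this

theorem dpm_inl_inr (z : Zk n m k → ℝ) (j : Fin n) (p : Fin Q × Fin J) :
    MvPolynomial.eval z (MvPolynomial.pderiv (Sum.inl j)
      (pot k (pm m (Sum.inr p : Par n Q J)))) = 0 := by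
  rw [pderiv_pot_inl]
  simp only [pm, Sum.elim_inr, MvPolynomial.pderiv_pow, pderiv_lf_inl, mul_zero]
  have := eval_pot_const (k := k) z 0
  rwa [MvPolynomial.C_0] at this

theorem dpm_inm_inl (z : Zk n m k → ℝ) (i : Fin (k + 1)) (r : Fin m) (j' : Fin n) :
    MvPolynomial.eval z (MvPolynomial.pderiv (Sum.inr (Sum.inl (i, r)))
      (pot k (pm m (Sum.inl j' : Par n Q J)))) = 0 := by
  classical
  rw [pderiv_pot_inm]
  simp [pm, MvPolynomial.pderiv_X]

theorem dpm_inm_inr (z : Zk n m k → ℝ) (i : Fin (k + 1)) (r : Fin m) (p : Fin Q × Fin J) :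
    MvPolynomial.eval z (MvPolynomial.pderiv (Sum.inr (Sum.inl (i, r)))
      (pot k (pm m (Sum.inr p : Par n Q J)))) =
      muv z i * (((p.2 : ℕ) + 1) * lv p.1 (wz z i) ^ (p.2 : ℕ) * (p.1 : ℝ) ^ (r : ℕ)) := by
  rw [pderiv_pot_inm, map_mul, eval_mu, eval_cp]
  simp only [pm, Sum.elim_inr, MvPolynomial.pderiv_pow, pderiv_lf_inr, map_mul, map_pow,
    eval_lf_cp, Nat.add_sub_cancel, map_natCast, Nat.cast_add, Nat.cast_one, map_add, map_one]

theorem dpm_inr_inl (z : Zk n m k → ℝ) (i : Fin k) (j' : Fin n) :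
    MvPolynomial.eval z (MvPolynomial.pderiv (Sum.inr (Sum.inr i))
      (pot k (pm m (Sum.inl j' : Par n Q J)))) = 0 := by
  rw [pderiv_pot_inr, map_sub, eval_cp, eval_cp]
  simp [pm, cp]

theorem dpm_inr_inr (z : Zk n m k → ℝ) (i : Fin k) (p : Fin Q × Fin J) :
    MvPolynomial.eval z (MvPolynomial.pderiv (Sum.inr (Sum.inr i))
      (pot k (pm m (Sum.inr p : Par n Q J)))) =
      lv p.1 (wz z i.succ) ^ ((p.2 : ℕ) + 1) - lv p.1 (wz z 0) ^ ((p.2 : ℕ) + 1) := by
  rw [pderiv_pot_inr, map_sub, eval_cp, eval_cp]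
  simp only [pm, Sum.elim_inr, map_pow, eval_lf_cp]

/-- The selected parameters. -/
def sel (hm : 0 < m) (hJ : 2 * k + 1 ≤ J) (qv : Fin m → Fin Q) : Zk n m k → Par n Q J
  | Sum.inl j => Sum.inl j
  | Sum.inr (Sum.inl (i, r)) => Sum.inr (qv r, ⟨i, by omega⟩)
  | Sum.inr (Sum.inr i) => Sum.inr (qv ⟨0, hm⟩, ⟨k + 1 + i, by omega⟩)

theorem sel_inj (hm : 0 < m) (hJ : 2 * k + 1 ≤ J) (qv : Fin m → Fin Q)
    (hq : Function.Injective qv) :
    Function.Injective (sel hm hJ qv : Zk n m k → Par n Q J) := by
  rintro (j | ⟨i, r⟩ | i) (j' | ⟨i', r'⟩ | i') h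
  · simp only [sel, Sum.inl.injEq] at h
    rw [h]
  · simp [sel] at h
  · simp [sel] at h
  · simp [sel] at h
  · simp only [sel, Sum.inr.injEq, Prod.mk.injEq, Fin.mk.injEq] at h
    rw [hq h.1, Fin.ext h.2]
  · simp only [sel, Sum.inr.injEq, Prod.mk.injEq, Fin.mk.injEq] at h
    omega
  · simp [sel] at h
  · simp only [sel, Sum.inr.injEq, Prod.mk.injEq, Fin.mk.injEq] at h
    omega
  · simp only [sel, Sum.inr.injEq, Prod.mk.injEq, Fin.mk.injEq] at h
    have : i = i' := Fin.ext (by omega)
    rw [this]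

theorem sumlem (hm : 0 < m) (b : Zk n m k → ℝ) (S : Fin m → ℕ → ℝ) :
    ∑ r, ((∑ i : Fin (k + 1), b (Sum.inr (Sum.inl (i, r))) * S r i) +
      if r = ⟨0, hm⟩ then ∑ i : Fin k, b (Sum.inr (Sum.inr i)) * S r (k + 1 + i) else 0) =
    ∑ i : Fin (k + 1), ∑ r, b (Sum.inr (Sum.inl (i, r))) * S r i +
      ∑ i : Fin k, b (Sum.inr (Sum.inr i)) * S ⟨0, hm⟩ (k + 1 + i) := by
  rw [Finset.sum_add_distrib, Finset.sum_comm]
  congr 1
  simp

/-- The kernel is trivial. -/
theorem kernel_zero (hm : 0 < m) (hJ : 2 * k + 1 ≤ J) (qv : Fin m → Fin Q)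
    (hq : Function.Injective qv) (z : Zk n m k → ℝ) (hμ : ∀ i, muv z i ≠ 0)
    (hsep : ∀ r, Function.Injective fun i => lv (qv r) (wz z i)) (b : Zk n m k → ℝ)
    (hb : ∀ v, ∑ v', b v' * MvPolynomial.eval z
      (MvPolynomial.pderiv v (pot k (pm m (sel hm hJ qv v')))) = 0) : b = 0 := by
  classical
  -- the univariate polynomials
  obtain ⟨p, hp⟩ : ∃ p : Fin m → Polynomial ℝ, ∀ r, p r =
      ∑ i : Fin (k + 1), Polynomial.C (b (Sum.inr (Sum.inl (i, r)))) * Polynomial.X ^ ((i : ℕ) + 1)
      + if r = ⟨0, hm⟩ then ∑ i : Fin k, Polynomial.C (b (Sum.inr (Sum.inr i))) *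
        Polynomial.X ^ (k + 1 + (i : ℕ) + 1) else 0 := ⟨_, fun _ => rfl⟩
  -- first block
  have h1 : ∀ j, b (Sum.inl j) = 0 := by
    intro j
    have h := hb (Sum.inl j)
    rw [Fintype.sum_sum_type, Fintype.sum_sum_type] at h
    simp only [sel, dpm_inl_inl, dpm_inl_inr, mul_ite, mul_one, mul_zero,
      Finset.sum_ite_eq', Finset.mem_univ, if_true, Finset.sum_const_zero, add_zero] at h
    exact h
  -- derivatives
  have h2 : ∀ r i, (Polynomial.derivative (p r)).eval (lv (qv r) (wz z i)) = 0 := by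
    intro r i
    have h3 : (fun r => (Polynomial.derivative (p r)).eval (lv (qv r) (wz z i))) = 0 := by
      refine Matrix.eq_zero_of_forall_pow_sum_mul_pow_eq_zero (f := fun r => ((qv r : ℕ) : ℝ))
        ?_ fun r' => ?_
      · intro r r' h
        have : ((qv r : ℕ) : ℝ) = ((qv r' : ℕ) : ℝ) := h
        exact hq (Fin.ext (by exact_mod_cast this))
      · have h := hb (Sum.inr (Sum.inl (i, r')))
        rw [Fintype.sum_sum_type, Fintype.sum_sum_type, Fintype.sum_prod_type] at h
        simp only [sel, dpm_inm_inl, dpm_inm_inr, mul_zero, Finset.sum_const_zero, zero_add] at h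
        have h5 : ∀ r, (Polynomial.derivative (p r)).eval (lv (qv r) (wz z i)) =
            ∑ i' : Fin (k + 1), b (Sum.inr (Sum.inl (i', r))) *
              ((((i' : ℕ) : ℝ) + 1) * lv (qv r) (wz z i) ^ (i' : ℕ)) +
            if r = ⟨0, hm⟩ then ∑ i' : Fin k, b (Sum.inr (Sum.inr i')) *
              ((((k + 1 + (i' : ℕ) : ℕ) : ℝ) + 1) * lv (qv r) (wz z i) ^ (k + 1 + (i' : ℕ)))
            else 0 := by
          intro r
          rw [hp, map_add, Polynomial.eval_add]
          congr 1
          · rw [map_sum, Polynomial.eval_finsetSum]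
            refine Finset.sum_congr rfl fun i' _ => ?_
            simp [Polynomial.derivative_C_mul, Polynomial.derivative_X_pow]
          · split_ifs with hr
            · rw [map_sum, Polynomial.eval_finsetSum]
              refine Finset.sum_congr rfl fun i' _ => ?_
              simp [Polynomial.derivative_C_mul, Polynomial.derivative_X_pow]
            · simp
        have h4 : muv z i * ∑ r, (Polynomial.derivative (p r)).eval (lv (qv r) (wz z i)) *
            ((qv r : ℕ) : ℝ) ^ (r' : ℕ) = 0 := by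
          rw [← h, ← sumlem hm b fun r e => muv z i * (((e : ℝ) + 1) *
            lv (qv r) (wz z i) ^ e * ((qv r : ℕ) : ℝ) ^ (r' : ℕ)), Finset.mul_sum]
          refine Finset.sum_congr rfl fun r _ => ?_
          rw [h5, add_mul, mul_add]
          congr 1
          · rw [Finset.sum_mul, Finset.mul_sum]
            refine Finset.sum_congr rfl fun i' _ => ?_
            ring
          · split_ifs with hr
            · rw [Finset.sum_mul, Finset.mul_sum]
              refine Finset.sum_congr rfl fun i' _ => ?_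
              ring
            · ring
        exact (mul_eq_zero.1 h4).resolve_left (hμ i)
    exact congrFun h3 r
  -- the polynomials other than the first one
  have h3 : ∀ r : Fin m, r ≠ ⟨0, hm⟩ → p r = 0 := by
    intro r hr
    have hpr : p r = ∑ i : Fin (k + 1), Polynomial.C (b (Sum.inr (Sum.inl (i, r)))) *
        Polynomial.X ^ ((i : ℕ) + 1) := by
      rw [hp, if_neg hr, add_zero]
    have hdeg : (p r).natDegree ≤ k + 1 := by
      rw [hpr]
      refine Polynomial.natDegree_sum_le_of_forall_le _ _ fun i _ => ?_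
      refine (Polynomial.natDegree_C_mul_X_pow_le _ _).trans ?_
      omega
    have hd0 : Polynomial.derivative (p r) = 0 := by
      refine poly_roots (K := k + 1) ?_ (fun i => lv (qv r) (wz z i)) (hsep r) (h2 r)
      exact lt_of_le_of_lt (Polynomial.natDegree_derivative_le _) (by omega)
    have hC := Polynomial.derivative_eq_zero.1 hd0
    rw [Polynomial.natDegree_eq_zero] at hC
    obtain ⟨a, ha⟩ := hC
    have h0 : (p r).eval 0 = 0 := by
      rw [hpr, Polynomial.eval_finsetSum]
      simp
    rw [← ha, Polynomial.eval_C] at h0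
    rw [← ha, h0, Polynomial.C_0]
  have h4 : p ⟨0, hm⟩ = 0 := by
    have hdeg : (p ⟨0, hm⟩).natDegree ≤ 2 * k + 1 := by
      rw [hp, if_pos rfl]
      refine Polynomial.natDegree_add_le_of_degree_le ?_ ?_
      · refine Polynomial.natDegree_sum_le_of_forall_le _ _ fun i _ => ?_
        refine (Polynomial.natDegree_C_mul_X_pow_le _ _).trans ?_
        omega
      · refine Polynomial.natDegree_sum_le_of_forall_le _ _ fun i _ => ?_
        refine (Polynomial.natDegree_C_mul_X_pow_le _ _).trans ?_
        omega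
    obtain ⟨a, ha⟩ : ∃ a, a = (p ⟨0, hm⟩).eval (lv (qv ⟨0, hm⟩) (wz z 0)) := ⟨_, rfl⟩
    have hval : ∀ i, (p ⟨0, hm⟩).eval (lv (qv ⟨0, hm⟩) (wz z i)) = a := by
      intro i
      refine Fin.cases ha.symm (fun i => ?_) i
      have h := hb (Sum.inr (Sum.inr i))
      rw [Fintype.sum_sum_type, Fintype.sum_sum_type, Fintype.sum_prod_type] at h
      simp only [sel, dpm_inr_inl, dpm_inr_inr, mul_zero, Finset.sum_const_zero, zero_add] at h
      have h5 : ∀ (i' : Fin (k + 1)) (r : Fin m), (p r).eval (lv (qv r) (wz z i')) =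
          ∑ i : Fin (k + 1), b (Sum.inr (Sum.inl (i, r))) *
            lv (qv r) (wz z i') ^ ((i : ℕ) + 1) +
          if r = ⟨0, hm⟩ then ∑ i : Fin k, b (Sum.inr (Sum.inr i)) *
            lv (qv r) (wz z i') ^ (k + 1 + (i : ℕ) + 1) else 0 := by
        intro i' r
        rw [hp, Polynomial.eval_add]
        congr 1
        · rw [Polynomial.eval_finsetSum]
          refine Finset.sum_congr rfl fun i _ => ?_
          simp
        · split_ifs with hr
          · rw [Polynomial.eval_finsetSum]
            refine Finset.sum_congr rfl fun i _ => ?_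
            simp
          · simp
      have h6 : ∑ r, ((p r).eval (lv (qv r) (wz z i.succ)) -
          (p r).eval (lv (qv r) (wz z 0))) = 0 := by
        rw [← h, ← sumlem hm b fun r e => lv (qv r) (wz z i.succ) ^ (e + 1) -
            lv (qv r) (wz z 0) ^ (e + 1)]
        refine Finset.sum_congr rfl fun r _ => ?_
        rw [h5, h5]
        simp only [mul_sub, Finset.sum_sub_distrib]
        split_ifs with hr
        · ring
        · ring
      rw [Finset.sum_eq_single (⟨0, hm⟩ : Fin m)] at h6
      · rw [ha]; linarith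
      · intro r _ hr
        rw [h3 r hr]; simp
      · intro h; exact absurd (Finset.mem_univ _) h
    have h7 : p ⟨0, hm⟩ - Polynomial.C a = 0 := by
      refine poly_double (K := k + 1) ?_ (fun i => lv (qv ⟨0, hm⟩) (wz z i)) (hsep _) ?_ ?_
      · refine lt_of_le_of_lt (Polynomial.natDegree_sub_le _ _) ?_
        rw [Polynomial.natDegree_C]
        omega
      · intro i
        rw [Polynomial.eval_sub, hval i, Polynomial.eval_C, sub_self]
      · intro i
        rw [map_sub, Polynomial.derivative_C, sub_zero]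
        exact h2 _ i
    have h8 : p ⟨0, hm⟩ = Polynomial.C a := sub_eq_zero.1 h7
    have h0 : (p ⟨0, hm⟩).eval 0 = 0 := by
      rw [hp, if_pos rfl, Polynomial.eval_add, Polynomial.eval_finsetSum,
        Polynomial.eval_finsetSum]
      simp
    rw [h8, Polynomial.eval_C] at h0
    rw [h8, h0, Polynomial.C_0]
  have h5 : ∀ r, p r = 0 := fun r => by
    by_cases hr : r = ⟨0, hm⟩
    · rw [hr]; exact h4
    · exact h3 r hr
  funext v
  rcases v with j | ⟨i, r⟩ | i
  · exact h1 j
  · have h6 := congrArg (fun q => Polynomial.coeff q ((i : ℕ) + 1)) (h5 r)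
    simp only [hp, Polynomial.coeff_add, Polynomial.finsetSum_coeff, Polynomial.coeff_C_mul,
      Polynomial.coeff_X_pow, Polynomial.coeff_zero, mul_ite, mul_one, mul_zero] at h6
    have e1 : ∑ x : Fin (k + 1), (if (i : ℕ) + 1 = (x : ℕ) + 1 then
        b (Sum.inr (Sum.inl (x, r))) else 0) = b (Sum.inr (Sum.inl (i, r))) := by
      rw [Finset.sum_eq_single i]
      · rw [if_pos rfl]
      · intro x _ hx
        rw [if_neg]
        intro h
        exact hx (Fin.ext (by omega))
      · intro h; exact absurd (Finset.mem_univ _) h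
    have e2 : (if r = ⟨0, hm⟩ then ∑ i : Fin k, Polynomial.C (b (Sum.inr (Sum.inr i))) *
        (Polynomial.X : Polynomial ℝ) ^ (k + 1 + (i : ℕ) + 1) else 0).coeff ((i : ℕ) + 1) = 0 := by
      split_ifs with hr
      · rw [Polynomial.finsetSum_coeff]
        refine Finset.sum_eq_zero fun x _ => ?_
        rw [Polynomial.coeff_C_mul, Polynomial.coeff_X_pow, if_neg (by omega), mul_zero]
      · exact Polynomial.coeff_zero _
    rw [e1, e2, add_zero] at h6
    exact h6
  · have h6 := congrArg (fun q => Polynomial.coeff q (k + 1 + (i : ℕ) + 1)) (h5 ⟨0, hm⟩)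
    simp only [hp, Polynomial.coeff_add, Polynomial.finsetSum_coeff, Polynomial.coeff_C_mul,
      Polynomial.coeff_X_pow, Polynomial.coeff_zero, mul_ite, mul_one, mul_zero, if_true] at h6
    have e1 : ∑ x : Fin (k + 1), (if k + 1 + (i : ℕ) + 1 = (x : ℕ) + 1 then
        b (Sum.inr (Sum.inl (x, ⟨0, hm⟩))) else 0) = 0 := by
      refine Finset.sum_eq_zero fun x _ => ?_
      rw [if_neg (by omega)]
    have e2 : ∑ x : Fin k, (if k + 1 + (i : ℕ) + 1 = k + 1 + (x : ℕ) + 1 then
        b (Sum.inr (Sum.inr x)) else 0) = b (Sum.inr (Sum.inr i)) := by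
      rw [Finset.sum_eq_single i]
      · rw [if_pos rfl]
      · intro x _ hx
        rw [if_neg]
        intro h
        exact hx (Fin.ext (by omega))
      · intro h; exact absurd (Finset.mem_univ _) h
    rw [e1, e2, zero_add] at h6
    exact h6

end Pool.Agent.R537.IP
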