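import Pool.Agent.R537.IP.Herm

/-!
# The optimality conditions of a game
-/

set_option autoImplicit false

namespace Pool.Agent.R537.IP

open Finset Filter Topology Pool.Agent.H612 Pool.Agent.R537.RN

variable {n m : ℕ}

/-- The value. -/
noncomputable def gv (g : MvPolynomial (Fin n ⊕ Fin m) ℝ) (x : Fin n → ℝ) (w : Fin m → ℝ) : ℝ :=
  MvPolynomial.eval (Sum.elim x w) g

theorem continuous_gv (g : MvPolynomial (Fin n ⊕ Fin m) ℝ) :
    Continuous fun p : (Fin n → ℝ) × (Fin m → ℝ) => gv g p.1 p.2 := by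
  have h1 : Continuous fun p : (Fin n → ℝ) × (Fin m → ℝ) =>
      (Sum.elim p.1 p.2 : Fin n ⊕ Fin m → ℝ) := by
    refine continuous_pi fun i => ?_
    rcases i with i | i <;> simp only [Sum.elim_inl, Sum.elim_inr] <;> fun_prop
  exact (continuous_evalz g).comp h1

theorem continuous_gv_right (g : MvPolynomial (Fin n ⊕ Fin m) ℝ) (x : Fin n → ℝ) :
    Continuous fun w : Fin m → ℝ => gv g x w :=
  (continuous_gv g).comp (continuous_const.prodMk continuous_id)

theorem gv_tendsto {ι : Type*} {l : Filter ι} (g : MvPolynomial (Fin n ⊕ Fin m) ℝ)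
    {xs : ι → Fin n → ℝ} {ws : ι → Fin m → ℝ} {x : Fin n → ℝ} {w : Fin m → ℝ}
    (h1 : Tendsto xs l (𝓝 x)) (h2 : Tendsto ws l (𝓝 w)) :
    Tendsto (fun i => gv g (xs i) (ws i)) l (𝓝 (gv g x w)) := by
  obtain ⟨G, hG⟩ : ∃ G : (Fin n → ℝ) × (Fin m → ℝ) → ℝ, ∀ a b, G (a, b) = gv g a b :=
    ⟨fun p => gv g p.1 p.2, fun _ _ => rfl⟩
  have hGc : Continuous G := by
    have h3 : G = fun p => gv g p.1 p.2 := funext fun p => hG p.1 p.2
    rw [h3]
    exact continuous_gv g
  have h4 := (hGc.tendsto (x, w)).comp (h1.prodMk_nhds h2)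
  simp only [hG, Function.comp_def] at h4
  exact h4

theorem hasDerivAt_gv_x (g : MvPolynomial (Fin n ⊕ Fin m) ℝ) (x v : Fin n → ℝ)
    (w : Fin m → ℝ) (t : ℝ) :
    HasDerivAt (fun t : ℝ => gv g (fun j => x j + t * v j) w)
      (∑ j, gv (MvPolynomial.pderiv (Sum.inl j) g) (fun j => x j + t * v j) w * v j) t := by
  have h := hasDerivAt_eval_line g (Sum.elim x w) (Sum.elim v (fun _ => 0)) t
  have e : ∀ t : ℝ, (fun i => (Sum.elim x w : Fin n ⊕ Fin m → ℝ) i +
      t * (Sum.elim v (fun _ => 0) : Fin n ⊕ Fin m → ℝ) i) =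
      Sum.elim (fun j => x j + t * v j) w := by
    intro t
    funext i
    rcases i with i | i
    · rfl
    · simp
  simp only [e, Fintype.sum_sum_type, Sum.elim_inl, Sum.elim_inr, mul_zero,
    Finset.sum_const_zero, add_zero] at h
  exact h

theorem hasDerivAt_gv_w (g : MvPolynomial (Fin n ⊕ Fin m) ℝ) (x : Fin n → ℝ)
    (w v : Fin m → ℝ) (t : ℝ) :
    HasDerivAt (fun t : ℝ => gv g x (fun j => w j + t * v j))
      (∑ j, gv (MvPolynomial.pderiv (Sum.inr j) g) x (fun j => w j + t * v j) * v j) t := by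
  have h := hasDerivAt_eval_line g (Sum.elim x w) (Sum.elim (fun _ => 0) v) t
  have e : ∀ t : ℝ, (fun i => (Sum.elim x w : Fin n ⊕ Fin m → ℝ) i +
      t * (Sum.elim (fun _ => 0) v : Fin n ⊕ Fin m → ℝ) i) =
      Sum.elim x (fun j => w j + t * v j) := by
    intro t
    funext i
    rcases i with i | i
    · simp
    · rfl
  simp only [e, Fintype.sum_sum_type, Sum.elim_inl, Sum.elim_inr, mul_zero,
    Finset.sum_const_zero, zero_add] at h
  exact h

/-- The convex hull of a compact set is compact. -/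
theorem compact_hull {K : Set (Fin n → ℝ)} (hK : IsCompact K) : IsCompact (convexHull ℝ K) := by
  classical
  rcases K.eq_empty_or_nonempty with h | ⟨k0, hk0⟩
  · rw [h, convexHull_empty]
    exact isCompact_empty
  obtain ⟨f, hf⟩ : ∃ f : (Fin (n + 1) → ℝ) × (Fin (n + 1) → Fin n → ℝ) → Fin n → ℝ,
      ∀ p, f p = ∑ i, p.1 i • p.2 i := ⟨_, fun _ => rfl⟩
  have hfc : Continuous f := by
    have : f = fun p => ∑ i, p.1 i • p.2 i := funext hf
    rw [this]
    refine continuous_finsetSum _ fun i _ => ?_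
    exact ((continuous_apply i).comp continuous_fst).smul ((continuous_apply i).comp continuous_snd)
  have hcomp : IsCompact (f '' (stdSimplex ℝ (Fin (n + 1)) ×ˢ Set.univ.pi fun _ => K)) :=
    ((isCompact_stdSimplex ℝ (Fin (n + 1))).prod (isCompact_univ_pi fun _ => hK)).image hfc
  have heq : convexHull ℝ K =
      f '' (stdSimplex ℝ (Fin (n + 1)) ×ˢ Set.univ.pi fun _ => K) := by
    apply Set.Subset.antisymm
    · intro x hx
      obtain ⟨ι, hι, z, c, hz, haff, hc0, hc1, hcz⟩ := eq_pos_convex_span_of_mem_convexHull hx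
      have hcard : Fintype.card ι ≤ n + 1 := by
        have h1 := haff.card_le_finrank_succ
        refine h1.trans ?_
        refine Nat.add_le_add_right ?_ 1
        refine (Submodule.finrank_le _).trans ?_
        simp
      obtain ⟨j⟩ : Nonempty (ι ↪ Fin (n + 1)) := by
        apply Function.Embedding.nonempty_of_card_le
        simpa using hcard
      refine ⟨(fun i' => ∑ i, if j i = i' then c i else 0,
        Function.extend j z fun _ => k0), ⟨⟨fun i' => ?_, ?_⟩, ?_⟩, ?_⟩
      · refine Finset.sum_nonneg fun i _ => ?_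
        split_ifs
        · exact (hc0 i).le
        · exact le_refl _
      · change ∑ i', ∑ i, (if j i = i' then c i else 0) = 1
        rw [Finset.sum_comm, ← hc1]
        refine Finset.sum_congr rfl fun i _ => ?_
        simp
      · intro i' _
        by_cases h : ∃ i, j i = i'
        · obtain ⟨i, rfl⟩ := h
          change Function.extend j z (fun _ => k0) (j i) ∈ K
          rw [j.injective.extend_apply]
          exact hz ⟨i, rfl⟩
        · change Function.extend j z (fun _ => k0) i' ∈ K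
          rw [Function.extend_apply' _ _ _ h]
          exact hk0
      · rw [hf, ← hcz]
        change ∑ i', (∑ i, if j i = i' then c i else 0) • Function.extend j z (fun _ => k0) i' = _
        simp only [Finset.sum_smul, ite_smul, zero_smul]
        rw [Finset.sum_comm]
        refine Finset.sum_congr rfl fun i _ => ?_
        rw [Finset.sum_ite_eq, if_pos (Finset.mem_univ _), j.injective.extend_apply]
    · rintro _ ⟨⟨c, z⟩, ⟨⟨hc0, hc1⟩, hz⟩, rfl⟩
      rw [hf]
      exact (convex_convexHull ℝ K).sum_mem (fun i _ => hc0 i) hc1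
        fun i _ => subset_convexHull ℝ K (hz i (Set.mem_univ i))
  rw [heq]
  exact hcomp

/-- The system of the ties. -/
structure Tie {k : ℕ} (g : MvPolynomial (Fin n ⊕ Fin m) ℝ) (x : Fin n → ℝ)
    (w : Fin (k + 1) → Fin m → ℝ) (l : Fin (k + 1) → ℝ) : Prop where
  dw : ∀ i r, gv (MvPolynomial.pderiv (Sum.inr r) g) x (w i) = 0
  val : ∀ i, gv g x (w i) = gv g x (w 0)
  dx : ∀ j, ∑ i, l i * gv (MvPolynomial.pderiv (Sum.inl j) g) x (w i) = 0
  sum : ∑ i, l i = 1

theorem kkt (g : MvPolynomial (Fin n ⊕ Fin m) ℝ) (x0 : Fin n → ℝ) (hx0 : ∀ i, |x0 i| ≤ 2) (L : ℝ)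
    (hL : ∀ w ∈ cube m, L ≤ gv g x0 w)
    (C1 : ∀ x : Fin n → ℝ, (∀ i, |x i| ≤ 2) → ∀ w ∈ cube m, (∃ r, |w r| = 1) →
      gv g x 0 < gv g x w)
    (C2 : ∀ x : Fin n → ℝ, (∀ i, |x i| ≤ 2) → (∃ i, |x i| = 2) → gv g x 0 < L) :
    ∃ x : Fin n → ℝ, (∀ i, |x i| < 2) ∧ (∀ w ∈ cube m, L ≤ gv g x w) ∧
      ∃ k ≤ n, ∃ (w : Fin (k + 1) → Fin m → ℝ) (l : Fin (k + 1) → ℝ),
        Function.Injective w ∧ (∀ i, 0 < l i) ∧ Tie g x w l := by
  classical
  -- the minimum over the second block
  obtain ⟨h, hh⟩ : ∃ h : (Fin n → ℝ) × (Fin m → ℝ) → ℝ, ∀ s, h s = -gv g s.1 s.2 :=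
    ⟨_, fun _ => rfl⟩
  have hhc : Continuous h := by
    have : h = fun s => -gv g s.1 s.2 := funext hh
    rw [this]
    exact (continuous_gv g).neg
  obtain ⟨F, hF⟩ : ∃ F : (Fin n → ℝ) → ℝ, ∀ x, F x = -bmax h x := ⟨_, fun _ => rfl⟩
  have hFc : Continuous F := by
    have : F = fun x => -bmax h x := funext hF
    rw [this]
    exact (continuous_bmax hhc).neg
  have hFle : ∀ x, ∀ w ∈ cube m, F x ≤ gv g x w := by
    intro x w hw
    have h1 := le_bmax hhc x hw
    rw [hh] at h1
    rw [hF]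
    linarith
  have hFex : ∀ x, ∃ w ∈ cube m, gv g x w = F x := by
    intro x
    obtain ⟨w, hw, h1⟩ := exists_bmax hhc x
    refine ⟨w, hw, ?_⟩
    rw [hF, ← h1, hh, neg_neg]
  -- the maximum over the first block
  have hXc : IsCompact {x : Fin n → ℝ | ∀ i, |x i| ≤ 2} := by
    have h1 : {x : Fin n → ℝ | ∀ i, |x i| ≤ 2} =
        Set.Icc (fun _ => (-2 : ℝ)) (fun _ => 2) := by
      ext x
      simp only [Set.mem_ofPred_eq, Set.mem_Icc, Pi.le_def, abs_le]
      exact forall_and
    rw [h1]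
    exact isCompact_Icc
  obtain ⟨x, hx, hxm⟩ := hXc.exists_isMaxOn ⟨x0, hx0⟩ hFc.continuousOn
  have hxm' : ∀ y : Fin n → ℝ, (∀ i, |y i| ≤ 2) → F y ≤ F x := fun y hy => hxm hy
  have hFL : L ≤ F x := by
    obtain ⟨w, hw, h1⟩ := hFex x0
    have h2 := hL w hw
    rw [h1] at h2
    exact h2.trans (hxm' x0 hx0)
  have hxo : ∀ i, |x i| < 2 := by
    intro i
    refine lt_of_le_of_ne (hx i) fun h1 => ?_
    have h2 := C2 x hx ⟨i, h1⟩
    have h3 := hFle x 0 (zero_mem_cube m)
    linarith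
  refine ⟨x, hxo, fun w hw => hFL.trans (hFle x w hw), ?_⟩
  -- the minimisers
  obtain ⟨M, hM⟩ : ∃ M : Set (Fin m → ℝ), M = cube m ∩ {w | gv g x w ≤ F x} := ⟨_, rfl⟩
  have hgx : Continuous fun w => gv g x w := continuous_gv_right g x
  have hMc : IsCompact M := by
    rw [hM]
    exact (isCompact_cube m).inter_right (isClosed_le hgx continuous_const)
  have hMo : ∀ w ∈ M, ∀ r, |w r| < 1 := by
    intro w hw r
    rw [hM] at hw
    refine lt_of_le_of_ne (hw.1 r) fun h1 => ?_
    have h2 := C1 x hx w hw.1 ⟨r, h1⟩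
    have h3 := hFle x 0 (zero_mem_cube m)
    have h4 : gv g x w ≤ F x := hw.2
    linarith
  have hMd : ∀ w ∈ M, ∀ r, gv (MvPolynomial.pderiv (Sum.inr r) g) x w = 0 := by
    intro w hw r
    have h1 := hasDerivAt_gv_w g x w (Pi.single r 1) 0
    have h2 : IsLocalMin (fun t : ℝ => gv g x (fun j => w j + t * (Pi.single r 1 : Fin m → ℝ) j))
        0 := by
      have h3 : ∀ᶠ t in 𝓝 (0:ℝ), ∀ j, |w j + t * (Pi.single r 1 : Fin m → ℝ) j| < 1 := by
        rw [Filter.eventually_all]
        intro j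
        have h4 : ContinuousAt (fun t : ℝ => |w j + t * (Pi.single r 1 : Fin m → ℝ) j|) 0 := by
          fun_prop
        refine h4.eventually_lt_const ?_
        change |w j + (0:ℝ) * (Pi.single r 1 : Fin m → ℝ) j| < 1
        rw [zero_mul, add_zero]
        exact hMo w hw j
      filter_upwards [h3] with t ht
      have h5 : (fun j => w j + (0:ℝ) * (Pi.single r 1 : Fin m → ℝ) j) = w := by
        funext j; ring
      rw [h5]
      rw [hM] at hw
      have h6 : gv g x w ≤ F x := hw.2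
      exact h6.trans (hFle x _ fun j => (ht j).le)
    have h3 := h2.hasDerivAt_eq_zero h1
    have h5 : (fun j => w j + (0:ℝ) * (Pi.single r 1 : Fin m → ℝ) j) = w := by
      funext j; ring
    rw [h5, Finset.sum_eq_single r] at h3
    · simpa using h3
    · intro j _ hj
      rw [Pi.single_eq_of_ne hj, mul_zero]
    · intro h; exact absurd (Finset.mem_univ _) h
  -- the gradients
  obtain ⟨D, hD⟩ : ∃ D : (Fin m → ℝ) → Fin n → ℝ, ∀ w j, D w j =
      gv (MvPolynomial.pderiv (Sum.inl j) g) x w := ⟨fun w j => _, fun _ _ => rfl⟩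
  have hDc : Continuous D := by
    refine continuous_pi fun j => ?_
    simp only [hD]
    exact continuous_gv_right _ x
  have hK : IsCompact (convexHull ℝ (D '' M)) := compact_hull (hMc.image hDc)
  have h0 : (0 : Fin n → ℝ) ∈ convexHull ℝ (D '' M) := by
    by_contra hcon
    obtain ⟨f, u, hf0, hfu⟩ := geometric_hahn_banach_point_closed (convex_convexHull ℝ _)
      hK.isClosed hcon
    rw [map_zero] at hf0
    obtain ⟨v, hv⟩ : ∃ v : Fin n → ℝ, ∀ j, v j = f (Pi.single j 1) := ⟨_, fun _ => rfl⟩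
    have hfv : ∀ d : Fin n → ℝ, f d = ∑ j, d j * v j := by
      intro d
      conv_lhs => rw [← Finset.univ_sum_single d]
      rw [map_sum]
      refine Finset.sum_congr rfl fun j _ => ?_
      rw [hv, ← smul_eq_mul, ← map_smul]
      congr 1
      funext i
      by_cases hi : i = j
      · subst hi; simp
      · simp [Pi.single_eq_of_ne hi]
    -- small steps stay in the box
    obtain ⟨τ, hτ0, hτ⟩ : ∃ τ : ℝ, 0 < τ ∧ ∀ t, 0 ≤ t → t ≤ τ → ∀ i, |x i + t * v i| ≤ 2 := by
      have h3 : ∀ᶠ t in 𝓝 (0:ℝ), ∀ i, |x i + t * v i| < 2 := by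
        rw [Filter.eventually_all]
        intro j
        have h4 : ContinuousAt (fun t : ℝ => |x j + t * v j|) 0 := by
          fun_prop
        refine h4.eventually_lt_const ?_
        change |x j + (0:ℝ) * v j| < 2
        rw [zero_mul, add_zero]
        exact hxo j
      obtain ⟨δ, hδ, hball⟩ := Metric.eventually_nhds_iff.1 h3
      refine ⟨δ / 2, by positivity, fun t h4 h5 i => (hball ?_ i).le⟩
      rw [Real.dist_eq, sub_zero, abs_of_nonneg h4]
      linarith
    obtain ⟨ψ, hψ⟩ : ∃ ψ : ℝ → (Fin m → ℝ) → ℝ, ∀ t w, ψ t w =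
        ∑ j, gv (MvPolynomial.pderiv (Sum.inl j) g) (fun j => x j + t * v j) w * v j :=
      ⟨_, fun _ _ => rfl⟩
    have hstep : ∀ t : ℝ, 0 < t → t ≤ τ → ∃ w ∈ cube m, ∃ ξ, 0 < ξ ∧ ξ < t ∧
        gv g (fun j => x j + t * v j) w ≤ F x ∧ ψ ξ w ≤ 0 := by
      intro t ht0 ht
      obtain ⟨w, hw, hwF⟩ := hFex (fun j => x j + t * v j)
      have h1 : gv g (fun j => x j + t * v j) w ≤ F x := by
        rw [hwF]
        exact hxm' _ (hτ t ht0.le ht)
      obtain ⟨ξ, hξ, hξd⟩ := exists_hasDerivAt_eq_slope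
        (fun t : ℝ => gv g (fun j => x j + t * v j) w) (fun t => ψ t w) ht0
        (fun s _ => (hasDerivAt_gv_x g x v w s).continuousAt.continuousWithinAt)
        (fun s _ => by rw [hψ]; exact hasDerivAt_gv_x g x v w s)
      refine ⟨w, hw, ξ, hξ.1, hξ.2, h1, ?_⟩
      rw [hξd]
      refine div_nonpos_of_nonpos_of_nonneg ?_ (by linarith)
      have h5 : (fun j => x j + (0:ℝ) * v j) = x := by funext j; ring
      rw [h5]
      have h6 := hFle x w hw
      linarith
    have hseq : ∀ N : ℕ, ∃ w ∈ cube m, ∃ ξ, 0 < ξ ∧ ξ < τ / (N + 1) ∧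
        gv g (fun j => x j + τ / (N + 1) * v j) w ≤ F x ∧ ψ ξ w ≤ 0 := by
      intro N
      refine hstep _ (by positivity) ?_
      rw [div_le_iff₀ (by positivity)]
      nlinarith [(Nat.cast_nonneg N : (0:ℝ) ≤ N)]
    choose ws hws ξs hξ0 hξ1 hwF hwψ using hseq
    obtain ⟨w1, hw1, ρ, hρ, hlim⟩ := (isCompact_cube m).tendsto_subseq hws
    have ht0 : Tendsto (fun N : ℕ => τ / ((N : ℝ) + 1)) atTop (𝓝 0) := by
      have h1 := (tendsto_one_div_add_atTop_nhds_zero_nat (𝕜 := ℝ)).const_mul τ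
      rw [mul_zero] at h1
      refine h1.congr fun N => ?_
      rw [mul_one_div]
    have hξl : Tendsto ξs atTop (𝓝 0) :=
      tendsto_of_tendsto_of_tendsto_of_le_of_le tendsto_const_nhds ht0
        (fun N => (hξ0 N).le) (fun N => (hξ1 N).le)
    have e0 : (fun j => x j + (0:ℝ) * v j) = x := by funext j; ring
    have hline : ∀ {us : ℕ → ℝ}, Tendsto us atTop (𝓝 0) →
        Tendsto (fun N => (fun j => x j + us N * v j : Fin n → ℝ)) atTop (𝓝 x) := by
      intro us hus
      refine tendsto_pi_nhds.2 fun j => ?_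
      have h1 := (hus.mul_const (v j)).const_add (x j)
      rw [zero_mul, add_zero] at h1
      exact h1
    have hρt := hρ.tendsto_atTop
    have hτl : Tendsto (fun N => τ / ((ρ N : ℝ) + 1)) atTop (𝓝 0) := ht0.comp hρt
    have hξl' : Tendsto (fun N => ξs (ρ N)) atTop (𝓝 0) := hξl.comp hρt
    have hlim' : Tendsto (fun N => ws (ρ N)) atTop (𝓝 w1) := hlim
    have hA : gv g x w1 ≤ F x :=
      le_of_tendsto (gv_tendsto g (hline hτl) hlim') (Eventually.of_forall fun N => hwF (ρ N))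
    have hB : ψ 0 w1 ≤ 0 := by
      rw [hψ, e0]
      have h1 : Tendsto (fun N => ∑ j, gv (MvPolynomial.pderiv (Sum.inl j) g)
          (fun j => x j + ξs (ρ N) * v j) (ws (ρ N)) * v j) atTop
          (𝓝 (∑ j, gv (MvPolynomial.pderiv (Sum.inl j) g) x w1 * v j)) :=
        tendsto_finsetSum _ fun j _ => (gv_tendsto _ (hline hξl') hlim').mul_const (v j)
      refine le_of_tendsto h1 (Eventually.of_forall fun N => ?_)
      have h2 := hwψ (ρ N)
      rw [hψ] at h2
      exact h2
    have hmem : w1 ∈ M := by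
      rw [hM]
      exact ⟨hw1, hA⟩
    have h1 := hfu (D w1) (subset_convexHull ℝ _ ⟨w1, hmem, rfl⟩)
    rw [hfv] at h1
    rw [hψ, e0] at hB
    simp only [hD] at h1
    linarith
  -- Carathéodory
  obtain ⟨ι, hι, z, c, hz, haff, hc0, hc1, hcz⟩ := eq_pos_convex_span_of_mem_convexHull h0
  have hcard : Fintype.card ι ≤ n + 1 := by
    have h1 := haff.card_le_finrank_succ
    refine h1.trans ?_
    refine Nat.add_le_add_right ?_ 1
    refine (Submodule.finrank_le _).trans ?_
    simp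
  have hpos : 0 < Fintype.card ι := by
    rw [Fintype.card_pos_iff]
    by_contra hne
    rw [not_nonempty_iff] at hne
    rw [Finset.univ_eq_empty, Finset.sum_empty] at hc1
    exact zero_ne_one hc1
  obtain ⟨k, hk⟩ : ∃ k, Fintype.card ι = k + 1 := ⟨Fintype.card ι - 1, by omega⟩
  have e : ι ≃ Fin (k + 1) := hk ▸ Fintype.equivFin ι
  have hzw : ∀ i, ∃ w ∈ M, D w = z i := fun i => hz ⟨i, rfl⟩
  choose wz' hwM hwz using hzw
  refine ⟨k, by omega, fun i => wz' (e.symm i), fun i => c (e.symm i), ?_, fun i => hc0 _, ?_⟩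
  · intro i i' h1
    apply e.symm.injective
    apply haff.injective
    rw [← hwz, ← hwz]
    simp only at h1
    rw [h1]
  · have hval : ∀ w ∈ M, gv g x w = F x := by
      intro w hw
      rw [hM] at hw
      have h4 : gv g x w ≤ F x := hw.2
      exact le_antisymm h4 (hFle x w hw.1)
    refine ⟨fun i r => hMd _ (hwM _) r, fun i => ?_, fun j => ?_, ?_⟩
    · rw [hval _ (hwM _), hval _ (hwM _)]
    · have h1 := congrFun hcz j
      rw [Finset.sum_apply] at h1
      simp only [Pi.smul_apply, smul_eq_mul, Pi.zero_apply] at h1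
      rw [← h1]
      rw [← Equiv.sum_comp e.symm]
      refine Finset.sum_congr rfl fun i _ => ?_
      rw [← hwz, hD]
    · rw [← hc1]
      exact Equiv.sum_comp e.symm c

end Pool.Agent.R537.IP
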