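import Pool.Agent.R537.IP.Grid
import Pool.Agent.R537.IP.KKT

/-!
# An isolated solution of the system of the ties
-/

set_option autoImplicit false

namespace Pool.Agent.R537.IP

open Finset Filter Topology MeasureTheory Pool.Agent.H612 Pool.Agent.R537.RN

variable {n m k : ℕ}

theorem pt_cp (x : Fin n → ℝ) (w : Fin (k + 1) → Fin m → ℝ) (l : Fin k → ℝ) (i : Fin (k + 1)) :
    pt x w l ∘ cp i = Sum.elim x (w i) := by
  funext a
  rcases a with a | a <;> rfl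

theorem muv_pt (x : Fin n → ℝ) (w : Fin (k + 1) → Fin m → ℝ) (l : Fin (k + 1) → ℝ)
    (hl : ∑ i, l i = 1) (i : Fin (k + 1)) : muv (pt x w fun j => l j.succ) i = l i := by
  unfold muv
  refine Fin.cases ?_ (fun j => ?_) i
  · rw [Fin.cons_zero, ← hl, Fin.sum_univ_succ]
    simp [pt]
  · rw [Fin.cons_succ]
    rfl

/-- The ties give critical points of the potential. -/
theorem tie_crit (g : MvPolynomial (Fin n ⊕ Fin m) ℝ) (x : Fin n → ℝ)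
    (w : Fin (k + 1) → Fin m → ℝ) (l : Fin (k + 1) → ℝ) (h : Tie g x w l) (v : Zk n m k) :
    MvPolynomial.eval (pt x w fun j => l j.succ) (MvPolynomial.pderiv v (pot k g)) = 0 := by
  rcases v with j | ⟨i, r⟩ | j
  · rw [pderiv_pot_inl]
    unfold pot
    simp only [map_sum, map_mul, eval_mu, muv_pt x w l h.sum, eval_cp, pt_cp]
    exact h.dx j
  · rw [pderiv_pot_inm, map_mul, eval_cp, pt_cp]
    have := h.dw i r
    unfold gv at this
    rw [this, mul_zero]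
  · rw [pderiv_pot_inr, map_sub, eval_cp, eval_cp, pt_cp, pt_cp]
    have := h.val j.succ
    unfold gv at this
    rw [this, sub_self]

theorem isolated_of_nondeg {Q J : ℕ} (g : MvPolynomial (Fin n ⊕ Fin m) ℝ) (ε : ℝ)
    (c : Par n Q J → ℝ) (hc : Nondeg k g ε c) (x : Fin n → ℝ)
    (w : Fin (k + 1) → Fin m → ℝ) (l : Fin (k + 1) → ℝ) (h : Tie (gp g ε c) x w l)
    (hw : Function.Injective w) (hl : ∀ i, 0 < l i) :
    ∃ δ > 0, ∀ (x' : Fin n → ℝ) (w' : Fin (k + 1) → Fin m → ℝ) (l' : Fin (k + 1) → ℝ),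
      Tie (gp g ε c) x' w' l' → (∀ i, |x' i - x i| < δ) → (∀ i r, |w' i r - w i r| < δ) →
      (∀ i, |l' i - l i| < δ) → x' = x ∧ w' = w ∧ l' = l := by
  classical
  obtain ⟨z, hz⟩ : ∃ z : Zk n m k → ℝ, z = pt x w fun j => l j.succ := ⟨_, rfl⟩
  obtain ⟨Φ, hΦ⟩ : ∃ Φ : (Zk n m k → ℝ) → Zk n m k → ℝ, ∀ z v, Φ z v =
      MvPolynomial.eval z (MvPolynomial.pderiv v (pot k (gp g ε c))) := ⟨fun z v => _, fun _ _ => rfl⟩
  obtain ⟨Φ', hΦ'⟩ : ∃ Φ' : (Zk n m k → ℝ) →L[ℝ] (Zk n m k → ℝ), Φ' =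
      ContinuousLinearMap.pi fun v => ∑ u, MvPolynomial.eval z
        (MvPolynomial.pderiv u (MvPolynomial.pderiv v (pot k (gp g ε c)))) •
          (ContinuousLinearMap.proj u : (Zk n m k → ℝ) →L[ℝ] ℝ) := ⟨_, rfl⟩
  have hd : HasFDerivAt Φ Φ' z := by
    rw [hΦ', hasFDerivAt_pi]
    intro v
    simp only [hΦ]
    exact hasFDerivAt_eval _ z
  have hμ : ∀ i, muv z i ≠ 0 := fun i => by
    rw [hz, muv_pt x w l h.sum]
    exact (hl i).ne'
  have hwz : wz z = w := by rw [hz]; rfl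
  have hΦz : Φ z = 0 := by
    funext v
    rw [hΦ, hz]
    exact tie_crit _ x w l h v
  have hker : LinearMap.ker (Φ' : (Zk n m k → ℝ) →ₗ[ℝ] (Zk n m k → ℝ)) = ⊥ := by
    rw [LinearMap.ker_eq_bot']
    intro y hy
    refine hc z hμ (by rw [hwz]; exact hw) (fun v => ?_) y fun v => ?_
    · rw [← hΦ, hΦz]; rfl
    · have h1 := congrFun hy v
      rw [hΦ'] at h1
      simp only [ContinuousLinearMap.coe_coe, ContinuousLinearMap.coe_pi', _root_.sum_apply,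
        smul_apply, ContinuousLinearMap.proj_apply, smul_eq_mul,
        Pi.zero_apply] at h1
      rw [← h1]
      exact Finset.sum_congr rfl fun u _ => mul_comm _ _
  obtain ⟨K, -, hK⟩ := LinearMap.exists_antilipschitzWith _ hker
  have hev := hd.eventually_ne (c := 0) ⟨K, hK⟩
  rw [eventually_nhdsWithin_iff, Metric.eventually_nhds_iff] at hev
  obtain ⟨δ, hδ, hball⟩ := hev
  refine ⟨δ, hδ, fun x' w' l' h' hx' hw' hl' => ?_⟩
  obtain ⟨z', hz'⟩ : ∃ z' : Zk n m k → ℝ, z' = pt x' w' fun j => l' j.succ := ⟨_, rfl⟩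
  have hdist : dist z' z < δ := by
    rw [dist_pi_lt_iff hδ]
    intro v
    rw [hz, hz', Real.dist_eq]
    rcases v with j | ⟨i, r⟩ | j
    · exact hx' j
    · exact hw' i r
    · exact hl' j.succ
  have hΦz' : Φ z' = 0 := by
    funext v
    rw [hΦ, hz']
    exact tie_crit _ x' w' l' h' v
  have heq : z' = z := by
    by_contra hne
    exact hball hdist hne hΦz'
  rw [hz, hz'] at heq
  have e1 : x' = x := by
    funext j
    exact congrFun heq (Sum.inl j)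
  have e2 : w' = w := by
    funext i r
    exact congrFun heq (Sum.inr (Sum.inl (i, r)))
  have e3 : ∀ j : Fin k, l' j.succ = l j.succ := fun j => congrFun heq (Sum.inr (Sum.inr j))
  refine ⟨e1, e2, ?_⟩
  funext i
  refine Fin.cases ?_ (fun j => e3 j) i
  have h1 := h.sum
  have h2 := h'.sum
  rw [Fin.sum_univ_succ] at h1 h2
  have h3 : ∑ i : Fin k, l' i.succ = ∑ i : Fin k, l i.succ := Finset.sum_congr rfl fun j _ => e3 j
  linarith

variable {Q J T : ℕ}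

/-- **Sampling.** -/
theorem sample (hT : 1 ≤ T) (hn : n + 1 ≤ T) (hm : m ≤ T) (hQ : Q ≤ T)
    (hJ : J ≤ T) (hm0 : 0 < m) (hkJ : 2 * n + 1 ≤ J) (hkQ : m + (n + 1) * (n + 1) * m ≤ Q)
    (g : MvPolynomial (Fin n ⊕ Fin m) ℝ) (ε : ℝ) (hε : ε ≠ 0) {a : ℕ}
    (hg : (gm _).ν g ≤ 2 ^ 2 ^ a) (x0 : Fin n → ℝ) (hx0 : ∀ i, |x0 i| ≤ 2) (L : ℝ)
    (hL : ∀ c : Par n Q J → ℕ, (∀ i, c i ≤ 2 ^ kE n m a T) →
      ∀ w ∈ cube m, L ≤ gv (gp g ε fun i => (c i : ℝ)) x0 w)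
    (C1 : ∀ c : Par n Q J → ℕ, (∀ i, c i ≤ 2 ^ kE n m a T) →
      ∀ x : Fin n → ℝ, (∀ i, |x i| ≤ 2) → ∀ w ∈ cube m, (∃ r, |w r| = 1) →
      gv (gp g ε fun i => (c i : ℝ)) x 0 < gv (gp g ε fun i => (c i : ℝ)) x w)
    (C2 : ∀ c : Par n Q J → ℕ, (∀ i, c i ≤ 2 ^ kE n m a T) →
      ∀ x : Fin n → ℝ, (∀ i, |x i| ≤ 2) → (∃ i, |x i| = 2) →
      gv (gp g ε fun i => (c i : ℝ)) x 0 < L) :
    ∃ c : Par n Q J → ℕ, (∀ i, c i ≤ 2 ^ kE n m a T) ∧ ∃ x : Fin n → ℝ, (∀ i, |x i| < 2) ∧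
      (∀ w ∈ cube m, L ≤ gv (gp g ε fun i => (c i : ℝ)) x w) ∧
      ∃ k ≤ n, ∃ (w : Fin (k + 1) → Fin m → ℝ) (l : Fin (k + 1) → ℝ),
        Tie (gp g ε fun i => (c i : ℝ)) x w l ∧
        ∃ δ > 0, ∀ (x' : Fin n → ℝ) (w' : Fin (k + 1) → Fin m → ℝ) (l' : Fin (k + 1) → ℝ),
          Tie (gp g ε fun i => (c i : ℝ)) x' w' l' → (∀ i, |x' i - x i| < δ) →
          (∀ i r, |w' i r - w i r| < δ) → (∀ i, |l' i - l i| < δ) → x' = x ∧ w' = w ∧ l' = l := by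
  obtain ⟨c, hc, hN⟩ := exists_grid hT hn hm hQ hJ hm0 hkJ hkQ g ε hε hg
  obtain ⟨x, hx, hxL, k, hk, w, l, hw, hl, htie⟩ := kkt (gp g ε fun i => (c i : ℝ)) x0 hx0 L
    (hL c hc) (C1 c hc) (C2 c hc)
  obtain ⟨δ, hδ, hiso⟩ := isolated_of_nondeg g ε _ (hN k hk) x w l htie hw hl
  exact ⟨c, hc, x, hx, hxL, k, hk, w, l, htie, δ, hδ, hiso⟩

end Pool.Agent.R537.IP
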