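import Pool.Agent.R537.IP.Sep

/-!
# The degenerate parameters lie in a hypersurface of bounded degree
-/

set_option autoImplicit false

namespace Pool.Agent.R537.IP

open Finset Filter Topology MeasureTheory Pool.Agent.H612 Pool.Agent.R537.RN

/-! ### Bounds by powers of two -/

theorem b_add {x y a b : ℕ} (hx : x ≤ 2 ^ a) (hy : y ≤ 2 ^ b) : x + y ≤ 2 ^ (a + b + 1) := by
  have h1 : 2 ^ a ≤ 2 ^ (a + b) := Nat.pow_le_pow_right (by norm_num) (by omega)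
  have h2 : 2 ^ b ≤ 2 ^ (a + b) := Nat.pow_le_pow_right (by norm_num) (by omega)
  rw [pow_succ]
  omega

theorem b_mul {x y a b : ℕ} (hx : x ≤ 2 ^ a) (hy : y ≤ 2 ^ b) : x * y ≤ 2 ^ (a + b) := by
  rw [pow_add]
  exact Nat.mul_le_mul hx hy

theorem b_pow {x a : ℕ} (hx : x ≤ 2 ^ a) (k : ℕ) : x ^ k ≤ 2 ^ (a * k) := by
  rw [pow_mul]
  exact Nat.pow_le_pow_left hx k

theorem b_self (x : ℕ) : x ≤ 2 ^ x := Nat.lt_two_pow_self.le

variable {n m k Q J : ℕ}

/-- The indices of all the unknowns. -/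
abbrev Vx (n m k : ℕ) : Type := Zk n m k ⊕ (Unit ⊕ Zk n m k)

/-- The embedding. -/
noncomputable def emb (A : MvPolynomial (Zk n m k) ℝ) : MvPolynomial (Vx n m k ⊕ Par n Q J) ℝ :=
  MvPolynomial.rename (fun u => Sum.inl (Sum.inl u)) A

/-- Affine functions of the parameters. -/
noncomputable def aff (ε : ℝ) (A : MvPolynomial (Zk n m k) ℝ)
    (B : Par n Q J → MvPolynomial (Zk n m k) ℝ) : MvPolynomial (Vx n m k ⊕ Par n Q J) ℝ :=
  emb A + MvPolynomial.C ε * ∑ θ, MvPolynomial.X (Sum.inr θ) * emb (B θ)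

/-- The product of the quantities which must not vanish. -/
noncomputable def dst : MvPolynomial (Zk n m k) ℝ :=
  (∏ i : Fin (k + 1), mu i ^ 2) * ∏ p : Fin (k + 1) × Fin (k + 1),
    if p.1 = p.2 then 1 else ∑ r : Fin m, (MvPolynomial.X (Sum.inr (Sum.inl (p.1, r))) -
      MvPolynomial.X (Sum.inr (Sum.inl (p.2, r)))) ^ 2

/-- The main polynomial. -/
noncomputable def Lam (Q J : ℕ) (g : MvPolynomial (Fin n ⊕ Fin m) ℝ) (ε : ℝ) :
    MvPolynomial (Vx n m k ⊕ Par n Q J) ℝ :=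
  ((∑ v, aff ε (MvPolynomial.pderiv v (pot k g))
      (fun θ => MvPolynomial.pderiv v (pot k (pm m θ))) ^ 2) +
    (MvPolynomial.X (Sum.inl (Sum.inr (Sum.inl ()))) * emb dst - 1) ^ 2) +
  ((∑ v, (∑ u, MvPolynomial.X (Sum.inl (Sum.inr (Sum.inr u))) *
      aff ε (MvPolynomial.pderiv u (MvPolynomial.pderiv v (pot k g)))
      (fun θ => MvPolynomial.pderiv u (MvPolynomial.pderiv v (pot k (pm m θ))))) ^ 2) +
    ((∑ u : Zk n m k, MvPolynomial.X (Sum.inl (Sum.inr (Sum.inr u))) ^ 2) - 1) ^ 2)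

theorem eval_emb (z : Zk n m k → ℝ) (s : ℝ) (y : Zk n m k → ℝ) (c : Par n Q J → ℝ)
    (A : MvPolynomial (Zk n m k) ℝ) :
    MvPolynomial.eval (Sum.elim (Sum.elim z (Sum.elim (fun _ => s) y)) c) (emb A) =
      MvPolynomial.eval z A := by
  rw [emb, MvPolynomial.eval_rename]
  rfl

theorem eval_aff (ε : ℝ) (z : Zk n m k → ℝ) (s : ℝ) (y : Zk n m k → ℝ) (c : Par n Q J → ℝ)
    (A : MvPolynomial (Zk n m k) ℝ) (B : Par n Q J → MvPolynomial (Zk n m k) ℝ) :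
    MvPolynomial.eval (Sum.elim (Sum.elim z (Sum.elim (fun _ => s) y)) c) (aff ε A B) =
      MvPolynomial.eval z A + ε * ∑ θ, c θ * MvPolynomial.eval z (B θ) := by
  simp only [aff, map_add, map_mul, map_sum, eval_emb, MvPolynomial.eval_C, MvPolynomial.eval_X,
    Sum.elim_inr]

theorem eval_dst (z : Zk n m k → ℝ) : MvPolynomial.eval z dst =
    (∏ i : Fin (k + 1), muv z i ^ 2) * ∏ p : Fin (k + 1) × Fin (k + 1),
      if p.1 = p.2 then 1 else ∑ r : Fin m, (wz z p.1 r - wz z p.2 r) ^ 2 := by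
  simp only [dst, map_mul, map_prod, map_pow, eval_mu]
  congr 1
  refine Finset.prod_congr rfl fun p _ => ?_
  split_ifs
  · simp
  · simp [wz]

theorem dst_ne (z : Zk n m k → ℝ) : MvPolynomial.eval z dst ≠ 0 ↔
    (∀ i, muv z i ≠ 0) ∧ Function.Injective (wz z) := by
  classical
  rw [eval_dst, mul_ne_zero_iff, Finset.prod_ne_zero_iff, Finset.prod_ne_zero_iff]
  constructor
  · rintro ⟨h1, h2⟩
    refine ⟨fun i h => h1 i (Finset.mem_univ _) (by rw [h]; norm_num), fun i i' h => ?_⟩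
    by_contra hne
    apply h2 (i, i') (Finset.mem_univ _)
    rw [if_neg hne]
    refine Finset.sum_eq_zero fun r _ => ?_
    rw [congrFun h r]
    ring
  · rintro ⟨h1, h2⟩
    refine ⟨fun i _ => pow_ne_zero _ (h1 i), fun p _ => ?_⟩
    split_ifs with h
    · exact one_ne_zero
    · intro h0
      apply h
      apply h2
      funext r
      have h3 := (Finset.sum_eq_zero_iff_of_nonneg (fun r _ => sq_nonneg _)).1 h0 r
        (Finset.mem_univ _)
      have h4 := pow_eq_zero_iff (two_ne_zero) |>.1 h3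
      linarith

theorem eval_Lam (g : MvPolynomial (Fin n ⊕ Fin m) ℝ) (ε : ℝ) (z : Zk n m k → ℝ) (s : ℝ)
    (y : Zk n m k → ℝ) (c : Par n Q J → ℝ) :
    MvPolynomial.eval (Sum.elim (Sum.elim z (Sum.elim (fun _ => s) y)) c) (Lam Q J g ε) =
    ((∑ v, (MvPolynomial.eval z (MvPolynomial.pderiv v (pot k (gp g ε c)))) ^ 2) +
      (s * MvPolynomial.eval z dst - 1) ^ 2) +
    ((∑ v, (∑ u, y u * MvPolynomial.eval z (MvPolynomial.pderiv u
      (MvPolynomial.pderiv v (pot k (gp g ε c))))) ^ 2) + ((∑ u, y u ^ 2) - 1) ^ 2) := by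
  simp only [Lam, map_add, map_sub, map_mul, map_pow, map_sum, eval_aff, eval_emb,
    MvPolynomial.eval_X, Sum.elim_inl, Sum.elim_inr, map_one, grad_gp, hess_gp]

theorem elim_surj (ζ : Vx n m k → ℝ) : ∃ (z : Zk n m k → ℝ) (s : ℝ) (y : Zk n m k → ℝ),
    ζ = Sum.elim z (Sum.elim (fun _ => s) y) := by
  refine ⟨fun u => ζ (Sum.inl u), ζ (Sum.inr (Sum.inl ())), fun u => ζ (Sum.inr (Sum.inr u)), ?_⟩
  funext i
  rcases i with i | i | i <;> rfl

theorem Lam_nonneg (g : MvPolynomial (Fin n ⊕ Fin m) ℝ) (ε : ℝ) (ζ : Vx n m k → ℝ)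
    (c : Par n Q J → ℝ) : 0 ≤ MvPolynomial.eval (Sum.elim ζ c) (Lam Q J g ε) := by
  obtain ⟨z, s, y, rfl⟩ := elim_surj ζ
  rw [eval_Lam]
  positivity

theorem Lam_zero (g : MvPolynomial (Fin n ⊕ Fin m) ℝ) (ε : ℝ) (ζ : Vx n m k → ℝ)
    (c : Par n Q J → ℝ) (h : MvPolynomial.eval (Sum.elim ζ c) (Lam Q J g ε) = 0) :
    ¬ Nondeg k g ε c := by
  obtain ⟨z, s, y, rfl⟩ := elim_surj ζ
  rw [eval_Lam] at h
  have h1 : 0 ≤ ∑ v : Zk n m k,
      (MvPolynomial.eval z (MvPolynomial.pderiv v (pot k (gp g ε c)))) ^ 2 := by positivity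
  have h2 : 0 ≤ (s * MvPolynomial.eval z dst - 1) ^ 2 := sq_nonneg _
  have h3 : 0 ≤ ∑ v : Zk n m k, (∑ u, y u * MvPolynomial.eval z (MvPolynomial.pderiv u
      (MvPolynomial.pderiv v (pot k (gp g ε c))))) ^ 2 := by positivity
  have h4 : 0 ≤ ((∑ u, y u ^ 2) - 1) ^ 2 := sq_nonneg _
  have e1 : ∑ v : Zk n m k,
      (MvPolynomial.eval z (MvPolynomial.pderiv v (pot k (gp g ε c)))) ^ 2 = 0 := by linarith
  have e2 : (s * MvPolynomial.eval z dst - 1) ^ 2 = 0 := by linarith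
  have e3 : ∑ v : Zk n m k, (∑ u, y u * MvPolynomial.eval z (MvPolynomial.pderiv u
      (MvPolynomial.pderiv v (pot k (gp g ε c))))) ^ 2 = 0 := by linarith
  have e4 : ((∑ u, y u ^ 2) - 1) ^ 2 = 0 := by linarith
  rw [Finset.sum_eq_zero_iff_of_nonneg (fun v _ => sq_nonneg _)] at e1 e3
  have e2' := pow_eq_zero_iff (two_ne_zero) |>.1 e2
  have e4' := pow_eq_zero_iff (two_ne_zero) |>.1 e4
  have hd : MvPolynomial.eval z dst ≠ 0 := by
    intro h0
    rw [h0] at e2'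
    norm_num at e2'
  obtain ⟨hμ, hinj⟩ := (dst_ne z).1 hd
  intro hN
  have h5 := hN z hμ hinj (fun v => pow_eq_zero_iff (two_ne_zero) |>.1 (e1 v (Finset.mem_univ _)))
    y (fun v => pow_eq_zero_iff (two_ne_zero) |>.1 (e3 v (Finset.mem_univ _)))
  rw [h5] at e4'
  norm_num at e4'

theorem Lam_of_not (g : MvPolynomial (Fin n ⊕ Fin m) ℝ) (ε : ℝ)
    (c : Par n Q J → ℝ) (h : ¬ Nondeg k g ε c) :
    ∃ ζ : Vx n m k → ℝ, MvPolynomial.eval (Sum.elim ζ c) (Lam Q J g ε) = 0 := by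
  unfold Nondeg at h
  push Not at h
  obtain ⟨z, hμ, hinj, hgrad, y, hy, hy0⟩ := h
  have hd := (dst_ne z).2 ⟨hμ, hinj⟩
  obtain ⟨N, hN⟩ : ∃ N, N = ∑ u, y u ^ 2 := ⟨_, rfl⟩
  have hNpos : 0 < N := by
    obtain ⟨u, hu⟩ : ∃ u, y u ≠ 0 := by
      by_contra hcon
      push Not at hcon
      exact hy0 (funext hcon)
    rw [hN]
    exact Finset.sum_pos' (fun _ _ => sq_nonneg _) ⟨u, Finset.mem_univ _, by positivity⟩
  refine ⟨Sum.elim z (Sum.elim (fun _ => (MvPolynomial.eval z dst)⁻¹)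
    (fun u => (Real.sqrt N)⁻¹ * y u)), ?_⟩
  rw [eval_Lam]
  have e1 : ∑ v : Zk n m k,
      (MvPolynomial.eval z (MvPolynomial.pderiv v (pot k (gp g ε c)))) ^ 2 = 0 :=
    Finset.sum_eq_zero fun v _ => by rw [hgrad]; ring
  have e3 : ∑ v : Zk n m k, (∑ u, (Real.sqrt N)⁻¹ * y u * MvPolynomial.eval z
      (MvPolynomial.pderiv u (MvPolynomial.pderiv v (pot k (gp g ε c))))) ^ 2 = 0 := by
    refine Finset.sum_eq_zero fun v _ => ?_
    have : ∑ u, (Real.sqrt N)⁻¹ * y u * MvPolynomial.eval z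
        (MvPolynomial.pderiv u (MvPolynomial.pderiv v (pot k (gp g ε c)))) =
        (Real.sqrt N)⁻¹ * ∑ u, y u * MvPolynomial.eval z
        (MvPolynomial.pderiv u (MvPolynomial.pderiv v (pot k (gp g ε c)))) := by
      rw [Finset.mul_sum]
      exact Finset.sum_congr rfl fun u _ => by ring
    rw [this, hy]
    ring
  have e4 : ∑ u, ((Real.sqrt N)⁻¹ * y u) ^ 2 = 1 := by
    simp only [mul_pow]
    rw [← Finset.mul_sum, ← hN, inv_pow, Real.sq_sqrt hNpos.le]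
    field_simp
  rw [e1, e3, e4, inv_mul_cancel₀ hd]
  ring

end Pool.Agent.R537.IP
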