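import Pool.Agent.R537.IP.Lam

/-!
# The bound of the degree
-/

set_option autoImplicit false

namespace Pool.Agent.R537.IP

open Finset Filter Topology MeasureTheory Pool.Agent.H612 Pool.Agent.R537.RN

variable {n m k Q J T : ℕ}

theorem ν_sum_le {R : Type} [CommRing R] (nr : RNorm R) {ι : Type*} (s : Finset ι) (f : ι → R)
    (B : ℕ) (h : ∀ i ∈ s, nr.ν (f i) ≤ B) : nr.ν (∑ i ∈ s, f i) ≤ s.card * B := by
  refine (nr.sum s f).trans ?_
  refine (Finset.sum_le_card_nsmul s _ B h).trans ?_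
  rw [smul_eq_mul]

theorem ν_prod_le {R : Type} [CommRing R] (nr : RNorm R) {ι : Type*} (s : Finset ι) (f : ι → R)
    (B : ℕ) (h : ∀ i ∈ s, nr.ν (f i) ≤ B) : nr.ν (∏ i ∈ s, f i) ≤ B ^ s.card := by
  refine (nr.prod s f).trans ?_
  exact Finset.prod_le_pow_card s _ B h

theorem ν_C_mul {σ : Type} (c : ℝ) (P : MvPolynomial σ ℝ) :
    (gm σ).ν (MvPolynomial.C c * P) ≤ (gm σ).ν P := by
  refine ((gm σ).mul _ _).trans ?_
  calc _ ≤ 1 * (gm σ).ν P := Nat.mul_le_mul_right _ (gm_C c)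
    _ = _ := one_mul _

theorem ν_mu (hk : k + 1 ≤ T) (i : Fin (k + 1)) :
    (gm (Zk n m k)).ν (mu i) ≤ 2 ^ (T + 1) := by
  have h0 : 2 * T ≤ 2 ^ (T + 1) := by
    rw [pow_succ]
    have := b_self T
    omega
  unfold mu
  refine Fin.cases ?_ (fun j => ?_) i
  · rw [Fin.cons_zero]
    refine ((gm _).sub _ _).trans ?_
    have h1 := (gm (Zk n m k)).one
    have h2 := ν_sum_le (gm (Zk n m k)) (Finset.univ : Finset (Fin k))
      (fun j => MvPolynomial.X (Sum.inr (Sum.inr j))) 2 (fun j _ => gm_X _)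
    rw [Finset.card_univ, Fintype.card_fin] at h2
    omega
  · rw [Fin.cons_succ]
    refine (gm_X _).trans ?_
    omega

theorem ν_pot (hk : k + 1 ≤ T) (f : MvPolynomial (Fin n ⊕ Fin m) ℝ) {F : ℕ}
    (hf : (gm _).ν f ≤ 2 ^ F) : (gm (Zk n m k)).ν (pot k f) ≤ 2 ^ (2 * T + 1 + F) := by
  unfold pot
  refine (ν_sum_le _ _ _ (2 ^ (T + 1 + F)) fun i _ => ?_).trans ?_
  · refine ((gm _).mul _ _).trans ?_
    exact b_mul (ν_mu hk i) ((gm_rename _ _).trans hf)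
  · rw [Finset.card_univ, Fintype.card_fin]
    refine (b_mul (hk.trans (b_self T)) (le_refl _)).trans ?_
    exact Nat.pow_le_pow_right (by norm_num) (by omega)

theorem ν_pm (hT : 1 ≤ T) (hm : m ≤ T) (hJ : J ≤ T) (θ : Par n Q J) :
    (gm (Fin n ⊕ Fin m)).ν (pm m θ) ≤ 2 ^ ((T + 1) * T) := by
  rcases θ with j | p
  · simp only [pm, Sum.elim_inl]
    refine (gm_X _).trans ?_
    have h1 : 1 ≤ (T + 1) * T := by nlinarith
    calc 2 = 2 ^ 1 := rfl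
      _ ≤ _ := Nat.pow_le_pow_right (by norm_num) h1
  · simp only [pm, Sum.elim_inr]
    have h1 : (gm (Fin n ⊕ Fin m)).ν (lf n m p.1) ≤ 2 ^ (T + 1) := by
      unfold lf
      refine (ν_sum_le _ _ _ 2 fun r _ => (ν_C_mul _ _).trans (gm_X _)).trans ?_
      rw [Finset.card_univ, Fintype.card_fin, pow_succ]
      exact Nat.mul_le_mul_right _ (hm.trans (b_self T))
    refine (ν_pow (gm _) _ _ _ h1).trans ?_
    rw [← pow_mul]
    refine Nat.pow_le_pow_right (by norm_num) (Nat.mul_le_mul_left _ ?_)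
    have := p.2.2
    omega

theorem card_Par (hn : n ≤ T) (hQ : Q ≤ T) (hJ : J ≤ T) :
    Fintype.card (Par n Q J) ≤ 2 ^ (3 * T + 1) := by
  rw [Fintype.card_sum, Fintype.card_prod, Fintype.card_fin, Fintype.card_fin, Fintype.card_fin]
  have h1 := b_self T
  have h2 := b_add (hn.trans h1) (b_mul (hQ.trans h1) (hJ.trans h1))
  refine h2.trans (Nat.pow_le_pow_right (by norm_num) (by omega))

theorem card_Zk (hn : n ≤ T) (hm : m ≤ T) (hk : k + 1 ≤ T) :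
    Fintype.card (Zk n m k) ≤ 2 ^ (4 * T + 2) := by
  rw [Fintype.card_sum, Fintype.card_sum, Fintype.card_prod, Fintype.card_fin, Fintype.card_fin,
    Fintype.card_fin, Fintype.card_fin]
  have h1 := b_self T
  have hk' : k ≤ T := by omega
  have h2 := b_add (hn.trans h1) (b_add (b_mul (hk.trans h1) (hm.trans h1)) (hk'.trans h1))
  refine h2.trans (Nat.pow_le_pow_right (by norm_num) (by omega))

theorem ν_aff (hn : n ≤ T) (hQ : Q ≤ T) (hJ : J ≤ T) (ε : ℝ)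
    (A : MvPolynomial (Zk n m k) ℝ) (B : Par n Q J → MvPolynomial (Zk n m k) ℝ) {a b : ℕ}
    (hA : (gm _).ν A ≤ 2 ^ a) (hB : ∀ θ, (gm _).ν (B θ) ≤ 2 ^ b) :
    (gm _).ν (aff ε A B) ≤ 2 ^ (a + b + 3 * T + 3) := by
  unfold aff
  refine ((gm _).add _ _).trans ?_
  have h1 : (gm (Vx n m k ⊕ Par n Q J)).ν (emb A) ≤ 2 ^ a := (gm_rename _ _).trans hA
  have h2 : (gm (Vx n m k ⊕ Par n Q J)).ν (MvPolynomial.C ε * ∑ θ,
      MvPolynomial.X (Sum.inr θ) * emb (B θ)) ≤ 2 ^ (3 * T + 1 + (1 + b)) := by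
    refine (ν_C_mul _ _).trans ?_
    refine (ν_sum_le _ _ _ (2 ^ (1 + b)) fun θ _ => ?_).trans ?_
    · refine ((gm _).mul _ _).trans ?_
      exact b_mul (gm_X _) ((gm_rename _ _).trans (hB θ))
    · rw [Finset.card_univ]
      exact b_mul (card_Par hn hQ hJ) (le_refl _)
  refine (b_add h1 h2).trans (Nat.pow_le_pow_right (by norm_num) (by omega))

theorem ν_dst (hm : m ≤ T) (hk : k + 1 ≤ T) :
    (gm (Zk n m k)).ν dst ≤ 2 ^ (2 * (T + 1) * T + (T + 5) * (T * T)) := by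
  unfold dst
  refine ((gm _).mul _ _).trans (b_mul ?_ ?_)
  · refine (ν_prod_le _ _ _ (2 ^ ((T + 1) * 2)) fun i _ => ?_).trans ?_
    · rw [pow_mul]
      exact ν_pow _ _ _ _ (ν_mu hk i)
    · rw [← pow_mul, Finset.card_univ, Fintype.card_fin]
      refine Nat.pow_le_pow_right (by norm_num) ?_
      calc (T + 1) * 2 * (k + 1) ≤ (T + 1) * 2 * T := Nat.mul_le_mul_left _ hk
        _ = _ := by ring
  · refine (ν_prod_le _ _ _ (2 ^ (T + 5)) fun p _ => ?_).trans ?_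
    · split_ifs
      · exact (gm _).one.trans Nat.one_le_two_pow
      · refine (ν_sum_le _ _ _ 16 fun r _ => ?_).trans ?_
        · refine (ν_pow _ _ 4 2 ?_).trans (by norm_num)
          refine ((gm _).sub _ _).trans ?_
          exact Nat.add_le_add (gm_X _) (gm_X _)
        · rw [Finset.card_univ, Fintype.card_fin, pow_add]
          exact Nat.mul_le_mul (hm.trans (b_self T)) (by norm_num)
    · rw [← pow_mul, Finset.card_univ, Fintype.card_prod, Fintype.card_fin]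
      refine Nat.pow_le_pow_right (by norm_num) (Nat.mul_le_mul_left _ ?_)
      exact Nat.mul_le_mul hk hk

theorem ν_Lam (hT : 1 ≤ T) (hn : n ≤ T) (hm : m ≤ T) (hk : k + 1 ≤ T) (hQ : Q ≤ T) (hJ : J ≤ T)
    (g : MvPolynomial (Fin n ⊕ Fin m) ℝ) (ε : ℝ) {a : ℕ} (hg : (gm _).ν g ≤ 2 ^ 2 ^ a) :
    1 + (gm _).ν (Lam (k := k) Q J g ε) ≤ 2 ^ 2 ^ (a + 5 * T + 8) := by
  have hpg : (gm (Zk n m k)).ν (pot k g) ≤ 2 ^ (2 * T + 1 + 2 ^ a) := ν_pot hk g hg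
  have hpp : ∀ θ : Par n Q J, (gm (Zk n m k)).ν (pot k (pm m θ)) ≤
      2 ^ (2 * T + 1 + (T + 1) * T) := fun θ => ν_pot hk _ (ν_pm hT hm hJ θ)
  obtain ⟨E, hE⟩ : ∃ E, E = 2 * T + 1 + 2 ^ a + (2 * T + 1 + (T + 1) * T) + 3 * T + 3 := ⟨_, rfl⟩
  have h1 : ∀ v : Zk n m k, (gm _).ν (aff ε (MvPolynomial.pderiv v (pot k g))
      (fun θ : Par n Q J => MvPolynomial.pderiv v (pot k (pm m θ)))) ≤ 2 ^ E := by
    intro v
    rw [hE]
    exact ν_aff hn hQ hJ ε _ _ ((gm_pderiv v _).trans hpg)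
      (fun θ => (gm_pderiv v _).trans (hpp θ))
  have h2 : ∀ u v : Zk n m k, (gm _).ν (aff ε
      (MvPolynomial.pderiv u (MvPolynomial.pderiv v (pot k g)))
      (fun θ : Par n Q J => MvPolynomial.pderiv u (MvPolynomial.pderiv v (pot k (pm m θ))))) ≤
      2 ^ E := by
    intro u v
    rw [hE]
    exact ν_aff hn hQ hJ ε _ _ ((gm_pderiv u _).trans ((gm_pderiv v _).trans hpg))
      (fun θ => (gm_pderiv u _).trans ((gm_pderiv v _).trans (hpp θ)))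
  have hcZ := card_Zk hn hm hk
  obtain ⟨D, hD⟩ : ∃ D, D = 2 * (T + 1) * T + (T + 5) * (T * T) := ⟨_, rfl⟩
  have hd : (gm (Vx n m k ⊕ Par n Q J)).ν (emb dst) ≤ 2 ^ D := by
    rw [hD]
    exact (gm_rename _ _).trans (ν_dst hm hk)
  have hone : ∀ {σ : Type}, (gm σ).ν 1 ≤ 2 ^ 0 := fun {σ} => (gm σ).one
  have k1 : (gm _).ν (∑ v : Zk n m k, aff ε (MvPolynomial.pderiv v (pot k g))
      (fun θ : Par n Q J => MvPolynomial.pderiv v (pot k (pm m θ))) ^ 2) ≤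
      2 ^ (4 * T + 2 + E * 2) := by
    refine (ν_sum_le _ _ _ (2 ^ (E * 2)) fun v _ => ?_).trans ?_
    · rw [pow_mul]
      exact ν_pow _ _ _ _ (h1 v)
    · rw [Finset.card_univ]
      exact b_mul hcZ (le_refl _)
  have k2 : (gm (Vx n m k ⊕ Par n Q J)).ν ((MvPolynomial.X (Sum.inl (Sum.inr (Sum.inl ()))) *
      emb dst - 1) ^ 2) ≤ 2 ^ ((1 + D + 0 + 1) * 2) := by
    rw [pow_mul]
    refine ν_pow _ _ _ _ ?_
    refine ((gm _).sub _ _).trans (b_add (a := 1 + D) (b := 0) ?_ hone)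
    exact ((gm _).mul _ _).trans (b_mul (gm_X _) hd)
  have k3 : (gm _).ν (∑ v : Zk n m k, (∑ u : Zk n m k,
      MvPolynomial.X (Sum.inl (Sum.inr (Sum.inr u))) *
      aff ε (MvPolynomial.pderiv u (MvPolynomial.pderiv v (pot k g)))
      (fun θ : Par n Q J => MvPolynomial.pderiv u (MvPolynomial.pderiv v (pot k (pm m θ))))) ^ 2) ≤
      2 ^ (4 * T + 2 + (4 * T + 2 + (1 + E)) * 2) := by
    refine (ν_sum_le _ _ _ (2 ^ ((4 * T + 2 + (1 + E)) * 2)) fun v _ => ?_).trans ?_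
    · rw [pow_mul]
      refine ν_pow _ _ _ _ ?_
      refine (ν_sum_le _ _ _ (2 ^ (1 + E)) fun u _ => ?_).trans ?_
      · exact ((gm _).mul _ _).trans (b_mul (gm_X _) (h2 u v))
      · rw [Finset.card_univ]
        exact b_mul hcZ (le_refl _)
    · rw [Finset.card_univ]
      exact b_mul hcZ (le_refl _)
  have k4 : (gm (Vx n m k ⊕ Par n Q J)).ν (((∑ u : Zk n m k,
      MvPolynomial.X (Sum.inl (Sum.inr (Sum.inr u))) ^ 2) - 1) ^ 2) ≤
      2 ^ ((4 * T + 2 + 2 + 0 + 1) * 2) := by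
    rw [pow_mul]
    refine ν_pow _ _ _ _ ?_
    refine ((gm _).sub _ _).trans (b_add (a := 4 * T + 2 + 2) (b := 0) ?_ hone)
    refine (ν_sum_le _ _ _ (2 ^ 2) fun u _ => ν_pow _ _ _ _ (gm_X _)).trans ?_
    rw [Finset.card_univ]
    exact b_mul hcZ (le_refl _)
  have k5 : 1 + (gm _).ν (Lam (k := k) Q J g ε) ≤ 2 ^ (0 + (4 * T + 2 + E * 2 +
      (1 + D + 0 + 1) * 2 + 1 + (4 * T + 2 + (4 * T + 2 + (1 + E)) * 2 +
      (4 * T + 2 + 2 + 0 + 1) * 2 + 1) + 1) + 1) := by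
    refine b_add (by norm_num) ?_
    unfold Lam
    exact ((gm _).add _ _).trans (b_add (((gm _).add _ _).trans (b_add k1 k2))
      (((gm _).add _ _).trans (b_add k3 k4)))
  refine k5.trans (Nat.pow_le_pow_right (by norm_num) ?_)
  -- the exponents
  have hA1 : 1 ≤ 2 ^ a := Nat.one_le_two_pow
  have hT1 : T ≤ 2 ^ T := b_self T
  obtain ⟨U, hU⟩ : ∃ U, U = 2 ^ T := ⟨_, rfl⟩
  obtain ⟨A, hA⟩ : ∃ A, A = 2 ^ a := ⟨_, rfl⟩
  have hfin : 2 ^ (a + 5 * T + 8) = 256 * (A * U ^ 5) := by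
    rw [hU, hA, ← pow_mul, pow_add, pow_add]
    rw [show T * 5 = 5 * T by ring]
    ring
  rw [hfin, hE, hD, ← hA]
  rw [← hU] at hT1
  rw [← hA] at hA1
  have hU1 : 1 ≤ U := by rw [hU]; exact Nat.one_le_two_pow
  have m1 : T * T * T ≤ U ^ 3 := by
    calc T * T * T ≤ U * U * U := Nat.mul_le_mul (Nat.mul_le_mul hT1 hT1) hT1
      _ = U ^ 3 := by ring
  have m2 : T * T ≤ U ^ 3 := by
    calc T * T ≤ U * U := Nat.mul_le_mul hT1 hT1
      _ ≤ U * U * U := Nat.le_mul_of_pos_right _ hU1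
      _ = U ^ 3 := by ring
  have m3 : T ≤ U ^ 3 := by
    calc T ≤ U := hT1
      _ ≤ U * (U * U) := Nat.le_mul_of_pos_right _ (by positivity)
      _ = U ^ 3 := by ring
  have m4 : U ^ 3 ≤ A * U ^ 5 := by
    calc U ^ 3 ≤ U ^ 5 := Nat.pow_le_pow_right hU1 (by norm_num)
      _ ≤ A * U ^ 5 := Nat.le_mul_of_pos_left _ hA1
  have m5 : A ≤ A * U ^ 5 := Nat.le_mul_of_pos_right _ (by positivity)
  have m6 : 1 ≤ U ^ 3 := Nat.one_le_pow _ _ hU1
  nlinarith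

/-- The degenerate parameters lie in a hypersurface of bounded degree. -/
theorem nondeg_poly (hT : 1 ≤ T) (hn : n ≤ T) (hm : m ≤ T) (hk : k + 1 ≤ T) (hQ : Q ≤ T)
    (hJ : J ≤ T) (hm0 : 0 < m) (hkJ : 2 * k + 1 ≤ J) (hkQ : m + (k + 1) * (k + 1) * m ≤ Q)
    (g : MvPolynomial (Fin n ⊕ Fin m) ℝ) (ε : ℝ) (hε : ε ≠ 0) {a : ℕ}
    (hg : (gm _).ν g ≤ 2 ^ 2 ^ a) :
    ∃ P : MvPolynomial (Par n Q J) ℝ, P ≠ 0 ∧
      (∀ d ∈ P.support, ∀ i, d i ≤ 2 ^ Gx (Fintype.card (Vx n m k)) (a + 5 * T + 8)) ∧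
      ∀ c, MvPolynomial.eval c P ≠ 0 → Nondeg k g ε c := by
  obtain ⟨P, hP0, hPd, hP⟩ := badPoly (Lam (k := k) Q J g ε) (a + 5 * T + 8)
    (ν_Lam hT hn hm hk hQ hJ g ε hg) (Lam_nonneg g ε)
    ((dense_nondeg hm0 hkJ hkQ g ε hε).mono fun c hc ζ h => Lam_zero g ε ζ c h hc)
  refine ⟨P, hP0, hPd, fun c hc => ?_⟩
  by_contra h
  obtain ⟨ζ, hζ⟩ := Lam_of_not g ε c h
  exact hc (hP ζ c hζ)

end Pool.Agent.R537.IP
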