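import Pool.Agent.R537.IP.PolyF
import Pool.Agent.R537.HD.Mem

/-!
# The isolated point existence problem belongs to `∃∀ℝ`
-/

set_option autoImplicit false

namespace Pool.Agent.NPC.R537IP

open Pool.Agent.NPC Pool.Agent.NPC.ER Pool.Agent.NPC.H612 Pool.Agent.NPC.R537HD

/-- The square of the distance of two points. -/
def dst2 (n : ℕ) : Tm := sumT ((List.range n).map fun i =>
  sqT (subT (Tm.var (6 * i + 1)) (Tm.var (6 * i + 0))))

theorem eval_dst2 (n : ℕ) (v : ℕ → ℝ) : (dst2 n).eval v =
    dist (pnt n 1 v) (pnt n 0 v) ^ 2 := by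
  rw [dist_eq_norm, EuclideanSpace.norm_sq_eq, dst2, eval_sumT, List.map_map, sum_map_range]
  refine Finset.sum_congr rfl fun j _ => ?_
  rw [Real.norm_eq_abs, sq_abs, Function.comp_apply, eval_sqT, eval_subT]
  rfl

/-- The two points are equal. -/
def eqF (n : ℕ) : Fm := conj ((List.range n).map fun i =>
  Fm.eq (Tm.var (6 * i + 1)) (Tm.var (6 * i + 0)))

theorem holds_eqF (n : ℕ) (v : ℕ → ℝ) : (eqF n).Holds v ↔ pnt n 1 v = pnt n 0 v := by
  unfold eqF
  rw [holds_conj]
  simp only [List.mem_map, List.mem_range, forall_exists_index, and_imp,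
    forall_apply_eq_imp_iff₂, Fm.Holds, Tm.eval]
  constructor
  · intro h
    ext j
    exact h j j.2
  · intro h j hj
    have := congrArg (fun q : EuclideanSpace ℝ (Fin n) => q ⟨j, hj⟩) h
    exact this

/-- The formula of an instance. -/
def memF' (I : List Unit × Fm) : Fm :=
  Fm.and (renF I.1.length 0 I.2) (Fm.and (Fm.lt Tm.zero (Tm.var 5))
    (impF (Fm.and (renF I.1.length 1 I.2) (Fm.lt (dst2 I.1.length) (sqT (Tm.var 5))))
      (eqF I.1.length)))

theorem holds_memF' (I : List Unit × Fm) (v : ℕ → ℝ) : (memF' I).Holds v ↔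
    pnt I.1.length 0 v ∈ semi I.1.length I.2 ∧ 0 < v 5 ∧
      (pnt I.1.length 1 v ∈ semi I.1.length I.2 →
        dist (pnt I.1.length 1 v) (pnt I.1.length 0 v) < v 5 →
        pnt I.1.length 1 v = pnt I.1.length 0 v) := by
  unfold memF'
  simp only [Fm.Holds, holds_impF, holds_renF, Tm.eval, eval_dst2, eval_sqT, holds_eqF]
  refine and_congr_right fun _ => and_congr_right fun h5 => ?_
  rw [sq_lt_sq₀ dist_nonneg h5.le]
  tauto

/-- The sentence of an instance. -/
def memI (I : List Unit × Fm) : List ℕ × Fm :=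
  (5 :: (List.range I.1.length).map (fun i => 6 * i), memF' I)

theorem mem_E' {n c j : ℕ} (hc : c < 5) :
    6 * j + c ∈ 5 :: (List.range n).map (fun i => 6 * i) ↔ j < n ∧ c = 0 := by
  simp only [List.mem_cons, List.mem_map, List.mem_range]
  constructor
  · rintro (h | ⟨i, hi, h⟩) <;> omega
  · rintro ⟨h1, h2⟩; exact Or.inr ⟨j, h1, by omega⟩

theorem isolated_iff_ear (I : List Unit × Fm) : IsolatedPointExistence I ↔ EAR (memI I) := by
  obtain ⟨u, φ⟩ := I
  unfold IsolatedPointExistence EAR memI IsoPt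
  simp only [holds_memF']
  generalize u.length = n
  set E := 5 :: (List.range n).map (fun i => 6 * i) with hE
  have v0 : ∀ x y : ℕ → ℝ, pnt n 0 (mixv E x y) = pnt n 0 x := by
    intro x y
    refine pnt_congr fun j hj => ?_
    unfold mixv
    rw [if_pos ((mem_E' (by norm_num)).2 ⟨hj, rfl⟩)]
  have v1 : ∀ x y : ℕ → ℝ, pnt n 1 (mixv E x y) = pnt n 1 y := by
    intro x y
    refine pnt_congr fun j hj => ?_
    unfold mixv
    rw [if_neg (fun h => by have := ((mem_E' (by norm_num)).1 h).2; omega)]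
  have v5 : ∀ x y : ℕ → ℝ, mixv E x y 5 = x 5 := by
    intro x y
    unfold mixv
    rw [if_pos (by rw [hE]; exact List.mem_cons_self)]
  simp only [v0, v1, v5]
  have hpnt : ∀ (a : EuclideanSpace ℝ (Fin n)) (c : ℕ) (ε : ℝ), c < 5 →
      pnt n c (fun k => if k = 5 then ε else asg a (k / 6)) = a := by
    intro a c ε hc
    ext j
    have e : (6 * (j : ℕ) + c) / 6 = j := by omega
    change (if 6 * (j : ℕ) + c = 5 then ε else asg a ((6 * (j : ℕ) + c) / 6)) = a j
    rw [if_neg (by omega), e, asg, dif_pos j.2]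
  constructor
  · rintro ⟨x, hx, ε, hε, h⟩
    refine ⟨fun k => if k = 5 then ε else asg x (k / 6), fun y => ?_⟩
    rw [hpnt x 0 ε (by norm_num)]
    exact ⟨hx, hε, fun h1 h2 => h _ h1 h2⟩
  · rintro ⟨x, hx⟩
    refine ⟨pnt n 0 x, (hx 0).1, x 5, (hx 0).2.1, fun y hy hd => ?_⟩
    have h1 := (hx fun k => if k = 5 then 0 else asg y (k / 6)).2.2
    rw [hpnt y 1 0 (by norm_num)] at h1
    exact h1 hy hd

theorem poly_memI : Poly memI := by
  have hI : Poly (fun I : List Unit × Fm => I) := Poly.id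
  have hn : UPoly (fun I : List Unit × Fm => I.1.length) := UPoly.length (Poly.fst hI)
  have hφ : Poly (fun I : List Unit × Fm => I.2) := Poly.snd hI
  have hi : Poly (fun q : (List Unit × Fm) × ℕ => 6 * q.2) :=
    Poly.mul (Poly.const 6) (Poly.snd Poly.id)
  have h1 : Poly (fun q : (List Unit × Fm) × ℕ => Tm.var (6 * q.2 + 1)) :=
    poly_tvar (Poly.add hi (Poly.const 1))
  have h0 : Poly (fun q : (List Unit × Fm) × ℕ => Tm.var (6 * q.2 + 0)) :=
    poly_tvar (Poly.add hi (Poly.const 0))
  have hd : Poly (fun I : List Unit × Fm => dst2 I.1.length) :=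
    poly_sumT (Poly.map (F := fun _ i => sqT (subT (Tm.var (6 * i + 1)) (Tm.var (6 * i + 0))))
      hn.range (poly_sqT (poly_subT h1 h0)))
  have he : Poly (fun I : List Unit × Fm => eqF I.1.length) :=
    poly_conj (Poly.map (F := fun _ i => Fm.eq (Tm.var (6 * i + 1)) (Tm.var (6 * i + 0)))
      hn.range (poly_feq h1 h0))
  exact Poly.pair (Poly.cons (Poly.const 5) (Poly.map (F := fun _ i => 6 * i) hn.range hi))
    (poly_fand (poly_renF 0 hn.toPoly hφ) (poly_fand (Poly.const _)
      (poly_impF (poly_fand (poly_renF 1 hn.toPoly hφ) (poly_flt hd (Poly.const _))) he)))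

/-- The isolated point existence problem belongs to `∃∀ℝ`. -/
theorem isolated_mem : InEAR (lang IsolatedPointExistence) :=
  InEAR.of_poly poly_memI isolated_iff_ear

/-- **The isolated point existence problem is `∃∀ℝ`-complete.** -/
theorem isolated_complete : EARComplete (lang IsolatedPointExistence) :=
  ⟨isolated_mem, isolated_hard⟩

end Pool.Agent.NPC.R537IP
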