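import Pool.Agent.R537.IP.PolyT

/-!
# The reduction is computable in polynomial time, continued
-/

set_option autoImplicit false

namespace Pool.Agent.NPC.R537IP

open Pool.Agent.NPC Pool.Agent.NPC.ER Pool.Agent.NPC.H612 Pool.Agent.NPC.R537HD

section

variable {α : Type} [TEnc α]

theorem poly_shF {c : α → ℕ} {φ : α → Fm} (hc : Poly c) (hφ : Poly φ) :
    Poly (fun a => shF (c a) (φ a)) := by
  refine fm_of_toks (Poly.congr (f := fun a => (φ a).toks.flatMap (tokS (c a))) ?_
    fun a => (toks_shF _ _).symm)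
  refine Poly.flatMap (F := fun a t => tokS (c a) t) (fm_toks hφ) ?_
  have h0 : Poly (fun q : α × Tok => q.2.code) := poly_tok_code (Poly.snd Poly.id)
  exact Poly.ite (Poly.decide_eq (Poly.fst h0) (Poly.const 0))
    (Poly.cons (poly_tok_var' (Poly.add (hc.comp (Poly.fst Poly.id)) (Poly.snd h0)))
      (Poly.const _)) (Poly.cons (Poly.snd Poly.id) (Poly.const _))

variable {p : α → Sp} (hp : Poly p)

include hp

theorem poly_tV0 (f : ℕ) {i j l : α → ℕ} (hi : Poly i) (hj : Poly j)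
    (hl : Poly l) : Poly (fun a => tV (p a) 0 f (i a) (j a) (l a)) :=
  poly_tV hp (Poly.const 0) (Poly.const f) hi hj hl

theorem poly_tVC (f : ℕ) {i j l : α → ℕ} (hi : Poly i) (hj : Poly j)
    (hl : Poly l) : Poly (fun a => tV (p a) (nC (p a)) f (i a) (j a) (l a)) :=
  poly_tV hp (upoly_nC hp).toPoly (Poly.const f) hi hj hl

theorem poly_fS {i j l : α → ℕ} (hi : Poly i) (hj : Poly j) (hl : Poly l) :
    Poly (fun a => fS (p a) (i a) (j a) (l a)) := by
  have h := poly_tV0 hp 0 hi hj hl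
  exact Poly.ite (Poly.decide_eq hl (Poly.const 0)) (poly_feq (poly_tadd h h) (Poly.const _))
    (poly_feq h (poly_sqT (poly_tV0 hp 0 hi hj (Poly.sub hl (Poly.const 1)))))

theorem poly_fX {i j l : α → ℕ} (hi : Poly i) (hj : Poly j) (hl : Poly l) :
    Poly (fun a => fX (p a) (i a) (j a) (l a)) := by
  have h := poly_tV0 hp 1 hi hj hl
  exact Poly.ite (Poly.decide_and (Poly.decide_and (Poly.decide_eq hj (Poly.const 0))
    (Poly.decide_eq hl (Poly.const 0))) (Poly.decide_lt hi (upoly_m2 hp).toPoly))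
    (poly_fle (poly_sqT h) (Poly.const _)) (poly_feq h (Poly.const _))

theorem poly_fCX {i j l : α → ℕ} (hi : Poly i) (hj : Poly j) (hl : Poly l) :
    Poly (fun a => fCX (p a) (i a) (j a) (l a)) := by
  have h := poly_tV0 hp 2 hi hj hl
  exact Poly.ite (Poly.decide_eq hl (Poly.const 0)) (poly_feq h (Poly.const _))
    (poly_feq h (poly_tmul (poly_sqT (poly_tV0 hp 2 hi hj (Poly.sub hl (Poly.const 1))))
      (poly_sqT (poly_tV0 hp 1 hi (Poly.const 0) (Poly.const 0)))))

theorem poly_fW {i j l : α → ℕ} (hi : Poly i) (hj : Poly j) (hl : Poly l) :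
    Poly (fun a => fW (p a) (i a) (j a) (l a)) := by
  have h := poly_feq (poly_tV0 hp 3 hi hj hl) (Poly.const Tm.zero)
  exact Poly.ite (Poly.decide_and (Poly.decide_eq hl (Poly.const 0))
    (Poly.decide_lt hj (upoly_l1 hp).toPoly)) (poly_for (poly_feq
      (poly_tV0 hp 6 hi (Poly.const 0) (Poly.const 0)) (Poly.const _)) h) h

theorem poly_fCW {i j l : α → ℕ} (hi : Poly i) (hj : Poly j) (hl : Poly l) :
    Poly (fun a => fCW (p a) (i a) (j a) (l a)) := by
  have h := poly_tV0 hp 4 hi hj hl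
  exact Poly.ite (Poly.decide_eq hl (Poly.const 0)) (poly_feq h (Poly.const _))
    (poly_feq h (poly_tmul (poly_sqT (poly_tV0 hp 4 hi hj (Poly.sub hl (Poly.const 1))))
      (poly_sqT (poly_tmul (Poly.const _) (poly_tV0 hp 3 hi hj (Poly.const 0))))))

theorem poly_fB {i j l : α → ℕ} (hi : Poly i) (hj : Poly j) (hl : Poly l) :
    Poly (fun a => fB (p a) (i a) (j a) (l a)) := by
  have h := poly_tV0 hp 5 hi hj hl
  exact poly_feq (poly_sqT h) h

theorem poly_fA' {i j l : α → ℕ} (hi : Poly i) (hj : Poly j) (hl : Poly l) :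
    Poly (fun a => R537IP.fA (p a) (i a) (j a) (l a)) := by
  have h := poly_tV0 hp 6 hi hj hl
  exact poly_feq (poly_sqT h) h

theorem poly_fL {i j l : α → ℕ} (hi : Poly i) (hj : Poly j) (hl : Poly l) :
    Poly (fun a => fL (p a) (i a) (j a) (l a)) := by
  have h := poly_feq (poly_tV0 hp 7 hi hj hl) (Poly.const Tm.zero)
  exact Poly.ite (Poly.decide_and (Poly.decide_eq hj (Poly.const 0))
    (Poly.decide_eq hl (Poly.const 0))) (poly_for (poly_feq
      (poly_tV0 hp 6 hi (Poly.const 0) (Poly.const 0)) (Poly.const _)) h) h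

theorem poly_fdw {i j : α → ℕ} (hi : Poly i) (hj : Poly j) :
    Poly (fun a => fdw (p a) (i a) (j a)) :=
  Poly.ite (Poly.decide_lt hj (upoly_l1 hp).toPoly) (poly_for (poly_feq
    (poly_tV0 hp 6 hi (Poly.const 0) (Poly.const 0)) (Poly.const _)) (poly_feq
      (Poly.snd (poly_gD hp hi (Poly.add (upoly_m2 hp).toPoly hj))) (Poly.const _)))
    (Poly.const _)

theorem poly_fval {i : α → ℕ} (hi : Poly i) : Poly (fun a => fval (p a) (i a)) :=
  poly_for (poly_feq (poly_tV0 hp 6 hi (Poly.const 0) (Poly.const 0)) (Poly.const _))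
    (poly_feq (Poly.fst (poly_gD hp hi (Poly.const 0)))
      (Poly.fst (poly_gD hp (Poly.const 0) (Poly.const 0))))

theorem poly_fdx {j : α → ℕ} (hj : Poly j) : Poly (fun a => fdx (p a) (j a)) := by
  have f1 : Poly (fun q : α × ℕ => q.1) := Poly.fst Poly.id
  have f2 : Poly (fun q : α × ℕ => q.2) := Poly.snd Poly.id
  refine Poly.ite (Poly.decide_lt hj (upoly_m2 hp).toPoly) (poly_feq (poly_sumT
    (Poly.map (F := fun a i => Tm.mul (tV (p a) 0 7 i 0 0) (gD (p a) i (j a)).2)
      (upoly_MM hp).range ?_)) (Poly.const _)) (Poly.const _)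
  exact poly_tmul (poly_tV0 (hp.comp f1) 7 f2 (Poly.const 0) (Poly.const 0))
    (Poly.snd (poly_gD (hp.comp f1) f2 (hj.comp f1)))

theorem poly_fsum : Poly (fun a => fsum (p a)) := by
  have f1 : Poly (fun q : α × ℕ => q.1) := Poly.fst Poly.id
  have f2 : Poly (fun q : α × ℕ => q.2) := Poly.snd Poly.id
  refine poly_fand (poly_feq (poly_sumT (Poly.map (F := fun a i => tV (p a) 0 7 i 0 0)
    (upoly_MM hp).range ?_)) (Poly.const _)) (poly_feq
      (poly_tV0 hp 6 (Poly.const 0) (Poly.const 0) (Poly.const 0)) (Poly.const _))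
  exact poly_tV0 (hp.comp f1) 7 f2 (Poly.const 0) (Poly.const 0)

theorem poly_fAll {i j l : α → ℕ} (hi : Poly i) (hj : Poly j) (hl : Poly l) :
    Poly (fun a => fAll (p a) (i a) (j a) (l a)) :=
  Poly.cons (poly_fS hp hi hj hl) (Poly.cons (poly_fX hp hi hj hl) (Poly.cons
    (poly_fCX hp hi hj hl) (Poly.cons (poly_fW hp hi hj hl) (Poly.cons (poly_fCW hp hi hj hl)
      (Poly.cons (poly_fB hp hi hj hl) (Poly.cons (poly_fA' hp hi hj hl) (Poly.cons
        (poly_fL hp hi hj hl) (Poly.cons (poly_fdw hp hi hj) (Poly.cons (poly_fval hp hi)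
          (Poly.cons (poly_fdx hp hi) (Poly.cons (poly_fsum hp) (Poly.const [])))))))))))) 

theorem poly_Zf : Poly (fun a => Zf (p a)) := by
  have f1 : Poly (fun q : α × ℕ => q.1) := Poly.fst Poly.id
  have g1 : Poly (fun q : (α × ℕ) × ℕ => q.1.1) := Poly.fst (Poly.fst Poly.id)
  have h1 : Poly (fun q : ((α × ℕ) × ℕ) × ℕ => q.1.1.1) :=
    Poly.fst (Poly.fst (Poly.fst Poly.id))
  refine poly_conj (Poly.flatMap (F := fun a i => (List.range (MM (p a))).flatMap fun j =>
    (List.range (MM (p a))).flatMap fun l => fAll (p a) i j l) (upoly_MM hp).range ?_)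
  refine Poly.flatMap (F := fun (q : α × ℕ) j => (List.range (MM (p q.1))).flatMap fun l =>
    fAll (p q.1) q.2 j l) (upoly_MM (hp.comp f1)).range ?_
  refine Poly.flatMap (F := fun (q : (α × ℕ) × ℕ) l => fAll (p q.1.1) q.1.2 q.2 l)
    (upoly_MM (hp.comp g1)).range ?_
  exact poly_fAll (hp.comp h1) (Poly.snd (Poly.fst (Poly.fst Poly.id)))
    (Poly.snd (Poly.fst Poly.id)) (Poly.snd Poly.id)

theorem poly_cPhi : Poly (fun a => cPhi (p a)) := by
  have f1 : Poly (fun q : α × ℕ => q.1) := Poly.fst Poly.id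
  have f2 : Poly (fun q : α × ℕ => q.2) := Poly.snd Poly.id
  have c0 : Poly (fun _ : α => 0) := Poly.const 0
  have c1 : Poly (fun _ : α => 1) := Poly.const 1
  have s0 := poly_dcon (poly_tVC hp 0 c0 c0 c0)
  have x0 := poly_tVC hp 1 c0 c0 c0
  refine poly_dPhi hp (y := fun a j => dmul (dcon (tV (p a) (nC (p a)) 0 0 0 0))
    (dcon (tV (p a) (nC (p a)) 1 (j + 2) 0 0)))
    (z := fun _ j => dcon (Tm.mul (Tm.mul twoT (Tm.var 0)) (Tm.var (1 + (j + 1)))))
    (poly_dcon (poly_tVC hp 0 c0 c0 (upoly_a3 hp).toPoly)) (poly_dsq (poly_dmul s0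
      (poly_dcon x0))) (poly_dmul s0 (poly_dcon (poly_tVC hp 1 c1 c0 c0))) (Poly.const _)
    (poly_dcon (poly_tmul (Poly.const _) (poly_tvar (Poly.add (Poly.add c1
      (upoly_l1 hp).toPoly) (upoly_a1 hp).toPoly)))) ?_ ?_ ?_
  · exact poly_dcon (poly_tmul (Poly.const _) (poly_tmul (poly_tVC hp 0 c0 c0
      (Poly.add (upoly_a2 hp).toPoly c1)) (poly_tmul (poly_tVC hp 2 c0 c0
        (upoly_a2 hp).toPoly) (poly_sqT x0))))
  · exact poly_dmul (poly_dcon (poly_tVC (hp.comp f1) 0 (Poly.const 0) (Poly.const 0)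
      (Poly.const 0))) (poly_dcon (poly_tVC (hp.comp f1) 1 (Poly.add f2 (Poly.const 2))
        (Poly.const 0) (Poly.const 0)))
  · exact poly_dcon (poly_tmul (Poly.const _) (poly_tvar (Poly.add (Poly.const 1)
      (Poly.add f2 (Poly.const 1)))))

theorem poly_fCone : Poly (fun a => fCone (p a)) := by
  have f1 : Poly (fun q : α × ℕ => q.1) := Poly.fst Poly.id
  have f2 : Poly (fun q : α × ℕ => q.2) := Poly.snd Poly.id
  have hl : Poly (fun a => 1 + (ll (p a) + 1)) := Poly.add (Poly.const 1) (upoly_l1 hp).toPoly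
  have hl' : Poly (fun q : α × ℕ => 1 + (ll (p q.1) + 1)) := hl.comp f1
  refine poly_conj (Poly.cons (Poly.const _) (Poly.append (Poly.map
    (F := fun _ r => Fm.le (Tm.mul fourT (sqT (Tm.var (1 + r)))) (sqT (Tm.var 0)))
    (upoly_l1 hp).range ?_) (Poly.cons ?_ (Poly.append (Poly.map
      (F := fun a j => Fm.eq (Tm.mul (Tm.var 0) (Tm.var (1 + (ll (p a) + 1) + (j + 1))))
        (sqT (Tm.var (1 + (ll (p a) + 1) + j)))) (upoly_a1 hp).range ?_)
        (Poly.cons (poly_fle (Poly.fst (poly_cPhi hp)) (Poly.const _)) (Poly.const []))))))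
  · exact poly_fle (poly_tmul (Poly.const _) (poly_sqT (poly_tvar (Poly.add (Poly.const 1)
      f2)))) (Poly.const _)
  · exact poly_feq (poly_tmul (Poly.const _) (poly_tvar hl)) (Poly.const _)
  · exact poly_feq (poly_tmul (Poly.const _) (poly_tvar (Poly.add hl' (Poly.add f2
      (Poly.const 1))))) (poly_sqT (poly_tvar (Poly.add hl' f2)))

theorem poly_instI : Poly (fun a => instI (p a)) :=
  Poly.pair (upoly_dI hp) (poly_fand (poly_shF (upoly_nC hp).toPoly (poly_Zf hp))
    (poly_for (poly_zer (Poly.const 0) (upoly_nC hp)) (poly_fCone hp)))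

end

/-- **The isolated point existence problem is `∃∀ℝ`-hard.** -/
theorem isolated_hard : EARHard (lang IsolatedPointExistence) :=
  EARHard.of_poly (F := instI) (poly_instI Poly.id) correct

end Pool.Agent.NPC.R537IP
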