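import Pool.Agent.R537.IP.Corr

/-!
# The reduction is computable in polynomial time
-/

set_option autoImplicit false

namespace Pool.Agent.NPC.R537IP

open Pool.Agent.NPC Pool.Agent.NPC.ER Pool.Agent.NPC.H612 Pool.Agent.NPC.R537HD
open Pool.Agent.R537.RN (Gx kap kap' kap'')
open Pool.Agent.R537.IP (kE kB kD kA k5 k6 k7 nQ nJ nT)

section

variable {α : Type} [TEnc α]

theorem poly_min {m n : α → ℕ} (hm : Poly m) (hn : Poly n) : Poly (fun a => min (m a) (n a)) := by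
  refine (Poly.sub hm (Poly.sub hm hn)).congr fun a => ?_
  omega

theorem upoly_min {m n : α → ℕ} (hm : Poly m) (hn : UPoly n) :
    UPoly (fun a => min (m a) (n a)) :=
  UPoly.of_le (poly_min hm hn.toPoly) hn fun a => min_le_right _ _

theorem upoly_pred {n : α → ℕ} (hn : UPoly n) : UPoly (fun a => n a - 1) :=
  UPoly.of_le (Poly.sub hn.toPoly (Poly.const 1)) hn fun a => Nat.sub_le _ _

theorem poly_dpow {t : α → DT} (ht : Poly t) {n : α → ℕ} (hn : UPoly n) :
    Poly (fun a => dpow (t a) (n a)) :=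
  Poly.pair (poly_powT (Poly.fst ht) hn) (poly_tmul (poly_tmul (poly_numT hn.toPoly)
    (poly_powT (Poly.fst ht) (upoly_pred hn))) (Poly.snd ht))

theorem poly_p2T {n : α → ℕ} (hn : UPoly n) : Poly (fun a => p2T (n a)) :=
  poly_natT (Poly.append (poly_rep hn (Poly.const false)) (Poly.const [true]))

theorem poly_dch {C : α → Tm} (hC : Poly C) {k : α → ℕ} (hk : UPoly k) {a : α → DT}
    (ha : Poly a) : Poly (fun x => dch (C x) (k x) (a x)) :=
  Poly.pair (poly_tmul hC (Poly.fst ha)) (poly_tmul (poly_tmul (poly_p2T hk) hC) (Poly.snd ha))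

theorem poly_ix {M f i j l : α → ℕ} (hM : Poly M) (hf : Poly f) (hi : Poly i) (hj : Poly j)
    (hl : Poly l) : Poly (fun a => ix (M a) (f a) (i a) (j a) (l a)) :=
  Poly.add (Poly.mul (Poly.add (Poly.mul (Poly.add (Poly.mul hf hM) hi) hM) hj) hM) hl

variable {p : α → Sp} (hp : Poly p)

include hp

theorem poly_qq : Poly (fun a => qq (p a)) :=
  Poly.pair (Poly.const []) (Poly.pair (Poly.fst hp) (poly_fnot (Poly.snd hp)))

theorem upoly_mm : UPoly (fun a => mm (p a)) := upoly_dm (poly_qq hp)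
theorem upoly_ll : UPoly (fun a => ll (p a)) := upoly_dl (poly_qq hp)
theorem poly_SS : Poly (fun a => SS (p a)) := poly_nS (poly_qq hp)
theorem upoly_s : UPoly (fun a => (SS (p a)).length) := UPoly.length (poly_SS hp)

theorem upoly_a1 : UPoly (fun a => a1 (p a)) :=
  upoly_Gx (upoly_ll hp) (UPoly.add (upoly_s hp) (UPoly.const 4))

theorem upoly_a2 : UPoly (fun a => a2 (p a)) :=
  upoly_Gx (UPoly.add (upoly_mm hp) (UPoly.const 1))
    (upoly_Gx (UPoly.add (upoly_ll hp) (UPoly.const 1))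
      (UPoly.add (UPoly.add (upoly_a1 hp) (upoly_s hp)) (UPoly.const 6)))

omit hp in
theorem upoly_kap'' {n m l s : α → ℕ} (hn : UPoly n) (hm : UPoly m) (hl : UPoly l)
    (hs : UPoly s) : UPoly (fun a => kap'' (n a) (m a) (l a) (s a)) := by
  have h1 : UPoly (fun a => kap (l a) (s a)) := upoly_Gx hl (UPoly.add hs (UPoly.const 4))
  have h2 : UPoly (fun a => kap' (m a) (l a) (s a)) :=
    upoly_Gx (UPoly.add hm (UPoly.const 1)) (upoly_Gx (UPoly.add hl (UPoly.const 1))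
      (UPoly.add (UPoly.add h1 hs) (UPoly.const 6)))
  exact upoly_Gx hn (upoly_Gx (UPoly.add hm (UPoly.const 2)) (upoly_Gx
    (UPoly.add hl (UPoly.const 1)) (UPoly.add (UPoly.add (UPoly.add h1 h2) hs)
      (UPoly.const 6))))

theorem upoly_a3 : UPoly (fun a => a3 (p a)) :=
  upoly_kap'' (n := fun _ => 0) (UPoly.const 0) (upoly_mm hp) (upoly_ll hp) (upoly_s hp)

theorem upoly_kB : UPoly (fun a => kB (mm (p a)) (ll (p a)) (SS (p a)).length) :=
  upoly_Gx (UPoly.add (upoly_mm hp) (UPoly.const 2))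
    (upoly_Gx (UPoly.add (upoly_ll hp) (UPoly.const 1))
      (UPoly.add (UPoly.add (UPoly.add (UPoly.add (upoly_a1 hp) (upoly_a2 hp)) (upoly_a3 hp))
        (upoly_s hp)) (UPoly.const 7)))

theorem upoly_kD : UPoly (fun a => kD (mm (p a)) (ll (p a)) (SS (p a)).length) :=
  UPoly.add (UPoly.add (UPoly.add (upoly_kB hp) (upoly_a2 hp)) (upoly_a3 hp)) (UPoly.const 5)

theorem upoly_m2 : UPoly (fun a => mm (p a) + 2) := UPoly.add (upoly_mm hp) (UPoly.const 2)
theorem upoly_l1 : UPoly (fun a => ll (p a) + 1) := UPoly.add (upoly_ll hp) (UPoly.const 1)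

theorem upoly_a5 : UPoly (fun a => a5 (p a)) :=
  UPoly.add (UPoly.add (UPoly.add (UPoly.add (upoly_kD hp) (upoly_a1 hp)) (upoly_m2 hp))
    (upoly_l1 hp)) (UPoly.const 3)

theorem upoly_nq : UPoly (fun a => nq (p a)) :=
  UPoly.add (upoly_l1 hp) (UPoly.mul (UPoly.mul (UPoly.add (upoly_mm hp) (UPoly.const 3))
    (UPoly.add (upoly_mm hp) (UPoly.const 3))) (upoly_l1 hp))

theorem upoly_nj : UPoly (fun a => nj (p a)) :=
  UPoly.add (UPoly.mul (UPoly.const 2) (upoly_m2 hp)) (UPoly.const 1)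

theorem upoly_nT : UPoly (fun a => nT (mm (p a)) (ll (p a))) :=
  UPoly.add (upoly_nq hp) (upoly_nj hp)

theorem upoly_kA : UPoly (fun a => kA (mm (p a)) (ll (p a)) (SS (p a)).length) :=
  UPoly.add (UPoly.add (UPoly.add (UPoly.add (UPoly.add (UPoly.add (upoly_a1 hp) (upoly_a2 hp))
    (upoly_s hp)) (upoly_a5 hp)) (upoly_m2 hp)) (upoly_l1 hp)) (UPoly.const 8)

theorem upoly_a6 : UPoly (fun a => a6 (p a)) := by
  have hn := upoly_m2 hp
  have hn1 : UPoly (fun a => mm (p a) + 2 + 1) := UPoly.add hn (UPoly.const 1)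
  exact UPoly.add (upoly_Gx (UPoly.add (UPoly.mul (UPoly.const 2) (UPoly.add (UPoly.add hn
    (UPoly.mul hn1 (upoly_l1 hp))) hn)) (UPoly.const 1))
    (UPoly.add (UPoly.add (upoly_kA hp) (UPoly.mul (UPoly.const 5) (upoly_nT hp)))
      (UPoly.const 8))) hn1

theorem upoly_a7 : UPoly (fun a => a7 (p a)) :=
  UPoly.add (UPoly.add (UPoly.add (upoly_kD hp) (upoly_a6 hp))
    (UPoly.mul (UPoly.const 3) (upoly_nT hp))) (UPoly.const 4)

theorem upoly_MM : UPoly (fun a => MM (p a)) :=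
  UPoly.add (UPoly.add (UPoly.add (UPoly.add (UPoly.add (UPoly.add (UPoly.add (UPoly.add
    (UPoly.add (UPoly.add (upoly_a1 hp) (upoly_a2 hp)) (upoly_a3 hp)) (upoly_a5 hp))
    (upoly_a6 hp)) (upoly_a7 hp)) (upoly_nq hp)) (upoly_nj hp)) (upoly_mm hp)) (upoly_ll hp))
    (UPoly.const 10)

theorem upoly_nC : UPoly (fun a => nC (p a)) :=
  UPoly.add (UPoly.add (UPoly.const 1) (upoly_l1 hp)) (UPoly.add (upoly_a1 hp) (UPoly.const 1))

theorem upoly_dI : UPoly (fun a => dI (p a)) :=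
  UPoly.add (upoly_nC hp) (UPoly.mul (UPoly.const 8) (UPoly.mul (UPoly.mul (upoly_MM hp)
    (upoly_MM hp)) (upoly_MM hp)))

theorem poly_tV {o f i j l : α → ℕ} (ho : Poly o) (hf : Poly f) (hi : Poly i) (hj : Poly j)
    (hl : Poly l) : Poly (fun a => tV (p a) (o a) (f a) (i a) (j a) (l a)) :=
  poly_tvar (Poly.add ho (poly_ix (upoly_MM hp).toPoly hf hi hj hl))

theorem poly_dPick {σ r t : α → DT} (hσ : Poly σ) (hr : Poly r) (ht : Poly t)
    {y z : α → ℕ → DT} (hy : Poly (fun q : α × ℕ => y q.1 q.2))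
    (hz : Poly (fun q : α × ℕ => z q.1 q.2)) {i : α → ℕ} (hi : Poly i) :
    Poly (fun a => dPick (p a) (σ a) (r a) (t a) (y a) (z a) (i a)) := by
  have hi2 : Poly (fun a => i a / 2) := Poly.div hi (Poly.const 2)
  have h1 : Poly (fun a => decide (i a % 2 = 0)) :=
    Poly.decide_eq (Poly.mod hi (Poly.const 2)) (Poly.const 0)
  have h3 : Poly (fun a => decide (i a / 2 ∈ (p a).1)) := Poly.decide_mem hi2 (Poly.fst hp)
  have e1 : Poly (fun a => y a ((p a).1.idxOf (i a / 2))) :=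
    Poly.comp (g := fun q : α × ℕ => y q.1 q.2) hy
      (Poly.pair Poly.id (poly_idxOf (Poly.fst hp) hi2))
  have e2 : Poly (fun a => z a ((vS (qq (p a))).idxOf (i a))) :=
    Poly.comp (g := fun q : α × ℕ => z q.1 q.2) hz
      (Poly.pair Poly.id (poly_idxOf (poly_vS (poly_qq hp)) hi))
  exact Poly.ite (Poly.decide_and h1 h3) (poly_dmul (poly_dmul hσ ht) e1)
    (poly_dmul (poly_dmul hσ hr) e2)

omit hp in
theorem poly_dCerr {w : α → DT} (hw : Poly w) {V : α → ℕ → DT}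
    (hV : Poly (fun q : α × ℕ => V q.1 q.2)) {c : α → ER.Con} (hc : Poly c) :
    Poly (fun a => dCerr (w a) (V a) (c a)) := by
  have h0 : Poly (fun a => (c a).code) := poly_con_code hc
  have d0 : Poly (fun a => decide ((c a).code.1 = 0)) :=
    Poly.decide_eq (Poly.fst h0) (Poly.const 0)
  have d1 : Poly (fun a => decide ((c a).code.1 = 1)) :=
    Poly.decide_eq (Poly.fst h0) (Poly.const 1)
  have hV' : ∀ {i : α → ℕ}, Poly i → Poly (fun a => V a (i a)) := fun hi =>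
    Poly.comp (g := fun q : α × ℕ => V q.1 q.2) hV (Poly.pair Poly.id hi)
  have e1 := hV' (Poly.fst (Poly.snd h0))
  have e2 := hV' (Poly.fst (Poly.snd (Poly.snd h0)))
  have e3 := hV' (Poly.snd (Poly.snd (Poly.snd h0)))
  exact Poly.ite d0 (poly_dmul hw (poly_dsub e1 hw)) (Poly.ite d1
    (poly_dmul hw (poly_dsub (poly_dadd e1 e2) e3)) (poly_dsub (poly_dmul e1 e2)
      (poly_dmul hw e3)))

theorem poly_dPhi {σ r γ t tK rK : α → DT} (hσ : Poly σ) (hr : Poly r) (hγ : Poly γ)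
    (ht : Poly t) (htK : Poly tK) (hrK : Poly rK) {y z : α → ℕ → DT}
    (hy : Poly (fun q : α × ℕ => y q.1 q.2)) (hz : Poly (fun q : α × ℕ => z q.1 q.2)) :
    Poly (fun a => dPhi (p a) (σ a) (r a) (γ a) (t a) (tK a) (rK a) (y a) (z a)) := by
  have f1 : Poly (fun q : α × ER.Con => q.1) := Poly.fst Poly.id
  have g1 : Poly (fun q : (α × ER.Con) × ℕ => q.1.1) := Poly.fst (Poly.fst Poly.id)
  have y1 : Poly (fun q : ((α × ER.Con) × ℕ) × ℕ => y q.1.1.1 q.2) :=
    Poly.comp (g := fun q : α × ℕ => y q.1 q.2) hy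
      (Poly.pair (Poly.fst (Poly.fst (Poly.fst Poly.id))) (Poly.snd Poly.id))
  have z1 : Poly (fun q : ((α × ER.Con) × ℕ) × ℕ => z q.1.1.1 q.2) :=
    Poly.comp (g := fun q : α × ℕ => z q.1 q.2) hz
      (Poly.pair (Poly.fst (Poly.fst (Poly.fst Poly.id))) (Poly.snd Poly.id))
  have hV : Poly (fun q : (α × ER.Con) × ℕ => dPick (p q.1.1) (σ q.1.1) (r q.1.1) (t q.1.1)
      (y q.1.1) (z q.1.1) q.2) :=
    poly_dPick (hp.comp g1) (hσ.comp g1) (hr.comp g1) (ht.comp g1) y1 z1 (Poly.snd Poly.id)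
  have hc : Poly (fun q : α × ER.Con => dsq (dCerr (dmul (dmul (σ q.1) (r q.1)) (t q.1))
      (dPick (p q.1) (σ q.1) (r q.1) (t q.1) (y q.1) (z q.1)) q.2)) :=
    poly_dsq (poly_dCerr (poly_dmul (poly_dmul (hσ.comp f1) (hr.comp f1)) (ht.comp f1)) hV
      (Poly.snd Poly.id))
  have h4 := poly_dsq (poly_dsq hσ)
  exact poly_dadd (poly_dsub (poly_dmul (poly_dadd (poly_dsq hr) (poly_dsq hγ))
    (poly_dsum (Poly.map (F := fun a c => dsq (dCerr (dmul (dmul (σ a) (r a)) (t a))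
      (dPick (p a) (σ a) (r a) (t a) (y a) (z a)) c)) (poly_SS hp) hc)))
    (poly_dmul (poly_dmul h4 (poly_dmul (poly_dsq (poly_dsq hr)) (poly_dsq hr))) htK))
    (poly_dmul (poly_dmul h4 hσ) hrK)

theorem poly_dX {d j : α → ℕ} (hd : Poly d) (hj : Poly j) :
    Poly (fun a => dX (p a) (d a) (j a)) :=
  Poly.pair (poly_tV hp (Poly.const 0) (Poly.const 1) hj (Poly.const 0) (Poly.const 0))
    (Poly.ite (Poly.decide_eq hj hd) (Poly.const _) (Poly.const _))

theorem poly_dW {i d r : α → ℕ} (hi : Poly i) (hd : Poly d) (hr : Poly r) :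
    Poly (fun a => dW (p a) (i a) (d a) (r a)) :=
  Poly.pair (poly_tV hp (Poly.const 0) (Poly.const 3) hi hr (Poly.const 0))
    (Poly.ite (Poly.decide_eq (Poly.add (Poly.add (upoly_mm hp).toPoly (Poly.const 2)) hr) hd)
      (Poly.const _) (Poly.const _))

theorem poly_dS {l : α → ℕ} (hl : Poly l) : Poly (fun a => dS (p a) (l a)) :=
  poly_dcon (poly_tV hp (Poly.const 0) (Poly.const 0) (Poly.const 0) (Poly.const 0) hl)

theorem poly_cX {j k : α → ℕ} (hj : Poly j) (hk : Poly k) :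
    Poly (fun a => cX (p a) (j a) (k a)) :=
  poly_tV hp (Poly.const 0) (Poly.const 2) hj (Poly.const 0) hk

theorem poly_cW {i r k : α → ℕ} (hi : Poly i) (hr : Poly r) (hk : Poly k) :
    Poly (fun a => cW (p a) (i a) (r a) (k a)) :=
  poly_tV hp (Poly.const 0) (Poly.const 4) hi hr hk

theorem poly_gPhi {i d : α → ℕ} (hi : Poly i) (hd : Poly d) :
    Poly (fun a => gPhi (p a) (i a) (d a)) := by
  have f1 : Poly (fun q : α × ℕ => q.1) := Poly.fst Poly.id
  have f2 : Poly (fun q : α × ℕ => q.2) := Poly.snd Poly.id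
  have ht := poly_dmul (Poly.const (dcon twoT)) (poly_dW hp hi hd (Poly.const 0))
  have hx := poly_dX hp hd (Poly.const 0)
  have h0 := poly_dS hp (Poly.const 0)
  have h1 := upoly_a1 hp
  have h2 := upoly_a2 hp
  have h3 := upoly_a3 hp
  exact poly_dPhi hp (y := fun a j => dmul (dS (p a) 0) (dX (p a) (d a) (j + 2)))
    (z := fun a j => dmul (dcon twoT) (dW (p a) (i a) (d a) (j + 1)))
    (poly_dS hp h3.toPoly) (poly_dsq (poly_dmul h0 hx))
    (poly_dmul h0 (poly_dX hp hd (Poly.const 1))) (poly_dsq ht)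
    (poly_dch (poly_cW hp hi (Poly.const 0) h1.toPoly) h1 (poly_dsq ht))
    (poly_dmul (poly_dS hp (Poly.add h2.toPoly (Poly.const 1)))
      (poly_dch (poly_cX hp (Poly.const 0) h2.toPoly) h2 (poly_dsq hx)))
    (poly_dmul (poly_dS (hp.comp f1) (Poly.const 0)) (poly_dX (hp.comp f1) (hd.comp f1)
      (Poly.add f2 (Poly.const 2))))
    (poly_dmul (Poly.const _) (poly_dW (hp.comp f1) (hi.comp f1) (hd.comp f1)
      (Poly.add f2 (Poly.const 1))))

theorem poly_gB1 {d : α → ℕ} (hd : Poly d) : Poly (fun a => gB1 (p a) (d a)) := by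
  have f1 : Poly (fun q : α × ℕ => q.1) := Poly.fst Poly.id
  have f2 : Poly (fun q : α × ℕ => q.2) := Poly.snd Poly.id
  have h5 := upoly_a5 (hp.comp f1)
  refine poly_dsum (Poly.map (F := fun a j => dmul (dS (p a) (a5 (p a)))
    (dch (cX (p a) j (a5 (p a))) (a5 (p a)) (dsq (dX (p a) (d a) j)))) (upoly_m2 hp).range ?_)
  exact poly_dmul (poly_dS (hp.comp f1) h5.toPoly) (poly_dch (poly_cX (hp.comp f1) f2 h5.toPoly)
    h5 (poly_dsq (poly_dX (hp.comp f1) (hd.comp f1) f2)))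

theorem poly_gB2 {i d : α → ℕ} (hi : Poly i) (hd : Poly d) :
    Poly (fun a => gB2 (p a) (i a) (d a)) := by
  have f1 : Poly (fun q : α × ℕ => q.1) := Poly.fst Poly.id
  have f2 : Poly (fun q : α × ℕ => q.2) := Poly.snd Poly.id
  have h5 := upoly_a5 (hp.comp f1)
  refine poly_dsum (Poly.map (F := fun a r => dmul (dS (p a) (a5 (p a)))
    (dch (cW (p a) (i a) r (a5 (p a))) (a5 (p a))
      (dsq (dmul (dcon twoT) (dW (p a) (i a) (d a) r))))) (upoly_l1 hp).range ?_)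
  exact poly_dmul (poly_dS (hp.comp f1) h5.toPoly) (poly_dch (poly_cW (hp.comp f1)
    (hi.comp f1) f2 h5.toPoly) h5 (poly_dsq (poly_dmul (Poly.const _)
      (poly_dW (hp.comp f1) (hi.comp f1) (hd.comp f1) f2))))

theorem poly_cT {q j : α → ℕ} (hq : Poly q) (hj : Poly j) :
    Poly (fun a => cT (p a) (q a) (j a)) := by
  have f1 : Poly (fun q : α × ℕ => q.1) := Poly.fst Poly.id
  have f2 : Poly (fun q : α × ℕ => q.2) := Poly.snd Poly.id
  have h6 := upoly_a6 (hp.comp f1)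
  refine poly_sumT (Poly.map (F := fun a b => Tm.mul (p2T (min b (a6 (p a))))
    (tV (p a) 0 5 (q a) (j a) b)) (UPoly.add (upoly_a6 hp) (UPoly.const 1)).range ?_)
  exact poly_tmul (poly_p2T (upoly_min f2 h6)) (poly_tV (hp.comp f1) (Poly.const 0)
    (Poly.const 5) (hq.comp f1) (hj.comp f1) f2)

theorem poly_dlv {i d q : α → ℕ} (hi : Poly i) (hd : Poly d) (hq : Poly q) :
    Poly (fun a => dlv (p a) (i a) (d a) (q a)) := by
  have f1 : Poly (fun q : α × ℕ => q.1) := Poly.fst Poly.id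
  have f2 : Poly (fun q : α × ℕ => q.2) := Poly.snd Poly.id
  refine poly_dsum (Poly.map (F := fun a r => dmul (dcon (powT (numT (q a)) (min r (ll (p a)))))
    (dW (p a) (i a) (d a) r)) (upoly_l1 hp).range ?_)
  exact poly_dmul (poly_dcon (poly_powT (poly_numT (hq.comp f1))
    (upoly_min f2 (upoly_ll (hp.comp f1))))) (poly_dW (hp.comp f1) (hi.comp f1) (hd.comp f1) f2)

theorem poly_gPt {i d : α → ℕ} (hi : Poly i) (hd : Poly d) :
    Poly (fun a => gPt (p a) (i a) (d a)) := by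
  have f1 : Poly (fun q : α × ℕ => q.1) := Poly.fst Poly.id
  have f2 : Poly (fun q : α × ℕ => q.2) := Poly.snd Poly.id
  have g0 : Poly (fun q : (α × ℕ) × ℕ => q.1.1) := Poly.fst (Poly.fst Poly.id)
  have g1 : Poly (fun q : (α × ℕ) × ℕ => q.1.2) := Poly.snd (Poly.fst Poly.id)
  have g2 : Poly (fun q : (α × ℕ) × ℕ => q.2) := Poly.snd Poly.id
  refine poly_dmul (poly_dS hp (upoly_a7 hp).toPoly) (poly_dadd ?_ ?_)
  · refine poly_dsum (Poly.map (F := fun a j => dmul (dcon (cT (p a) (nq (p a)) j))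
      (dX (p a) (d a) j)) (upoly_m2 hp).range ?_)
    exact poly_dmul (poly_dcon (poly_cT (hp.comp f1) (upoly_nq (hp.comp f1)).toPoly f2))
      (poly_dX (hp.comp f1) (hd.comp f1) f2)
  · refine poly_dsum (Poly.map (F := fun a q => dsum ((List.range (nj (p a))).map fun j =>
      dmul (dcon (cT (p a) q j)) (dpow (dlv (p a) (i a) (d a) q) (min (j + 1) (nj (p a))))))
      (upoly_nq hp).range ?_)
    refine poly_dsum (Poly.map (F := fun (a : α × ℕ) j =>
      dmul (dcon (cT (p a.1) a.2 j)) (dpow (dlv (p a.1) (i a.1) (d a.1) a.2)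
        (min (j + 1) (nj (p a.1))))) (upoly_nj (hp.comp f1)).range ?_)
    exact poly_dmul (poly_dcon (poly_cT (hp.comp g0) g1 g2)) (poly_dpow
      (poly_dlv (hp.comp g0) (hi.comp g0) (hd.comp g0) g1)
      (upoly_min (Poly.add g2 (Poly.const 1)) (upoly_nj (hp.comp g0))))

theorem poly_gD {i d : α → ℕ} (hi : Poly i) (hd : Poly d) :
    Poly (fun a => gD (p a) (i a) (d a)) :=
  poly_dadd (poly_dadd (poly_dsub (poly_gPhi hp hi hd) (poly_gB1 hp hd)) (poly_gB2 hp hi hd))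
    (poly_gPt hp hi hd)

end

end Pool.Agent.NPC.R537IP
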