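import Pool.Agent.R537.IP.Herm

/-!
# The degenerate parameters form a null set
-/

set_option autoImplicit false

namespace Pool.Agent.R537.IP

open Finset Filter Topology MeasureTheory Pool.Agent.H612 Pool.Agent.R537.RN

section det

variable {E : Type*} [NormedAddCommGroup E] [NormedSpace ℝ E] {ι : Type*} [Fintype ι]
  [DecidableEq ι]

theorem diff_det {M : E → Matrix ι ι ℝ} {x : E}
    (h : ∀ i j, DifferentiableAt ℝ (fun e => M e i j) x) :
    DifferentiableAt ℝ (fun e => (M e).det) x := by
  simp only [Matrix.det_apply']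
  refine DifferentiableAt.fun_sum fun σ _ => ?_
  refine DifferentiableAt.const_mul ?_ _
  exact (HasFDerivAt.finsetProd fun i _ => (h (σ i) i).hasFDerivAt).differentiableAt

theorem diff_inv {M : E → Matrix ι ι ℝ} {x : E}
    (h : ∀ i j, DifferentiableAt ℝ (fun e => M e i j) x) (hx : (M x).det ≠ 0) (i j : ι) :
    DifferentiableAt ℝ (fun e => (M e)⁻¹ i j) x := by
  have h1 : (fun e => (M e)⁻¹ i j) = fun e => ((M e).det)⁻¹ * (M e).adjugate i j := by
    funext e
    rw [Matrix.inv_def, Matrix.smul_apply, smul_eq_mul, Ring.inverse_eq_inv']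
  rw [h1]
  refine ((diff_det h).fun_inv hx).fun_mul ?_
  simp only [Matrix.adjugate_apply]
  refine diff_det fun i' j' => ?_
  by_cases hi : i' = j
  · subst hi
    simp only [Matrix.updateRow_self]
    exact differentiableAt_const _
  · simp only [Matrix.updateRow_ne hi]
    exact h _ _

end det

variable {Z P : Type} [Fintype Z] [Fintype P]

/-- A parametric Sard theorem. -/
theorem sard_par (ι : Z → P) (hι : Function.Injective ι) (a : Z → MvPolynomial Z ℝ)
    (b : Z → P → MvPolynomial Z ℝ) (ε : ℝ) (hε : ε ≠ 0) :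
    volume {c : P → ℝ | ∃ z : Z → ℝ,
      (∀ d : Z → ℝ, (∀ v, ∑ v', d v' * MvPolynomial.eval z (b v (ι v')) = 0) → d = 0) ∧
      (∀ v, MvPolynomial.eval z (a v) + ε * ∑ θ, c θ * MvPolynomial.eval z (b v θ) = 0) ∧
      ∃ y : Z → ℝ, y ≠ 0 ∧ ∀ v, ∑ u, y u * (MvPolynomial.eval z (MvPolynomial.pderiv u (a v)) +
        ε * ∑ θ, c θ * MvPolynomial.eval z (MvPolynomial.pderiv u (b v θ))) = 0} = 0 := by
  classical
  -- the matrix
  obtain ⟨B, hB⟩ : ∃ B : (Z → ℝ) → Matrix Z Z ℝ, ∀ z v v', B z v v' =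
      MvPolynomial.eval z (b v (ι v')) := ⟨fun z v v' => _, fun _ _ _ => rfl⟩
  obtain ⟨c0, hc0⟩ : ∃ c0 : (P → ℝ) → P → ℝ, ∀ u θ, c0 u θ =
      if θ ∈ Set.range ι then 0 else u θ := ⟨fun u θ => _, fun _ _ => rfl⟩
  obtain ⟨A, hA⟩ : ∃ A : (P → ℝ) → Z → ℝ, ∀ u v, A u v = MvPolynomial.eval (fun v => u (ι v)) (a v)
      + ε * ∑ θ, c0 u θ * MvPolynomial.eval (fun v => u (ι v)) (b v θ) :=
    ⟨fun u v => _, fun _ _ => rfl⟩
  obtain ⟨c1, hc1⟩ : ∃ c1 : (P → ℝ) → Z → ℝ, ∀ u v, c1 u v =
      -ε⁻¹ * ∑ v', (B (fun v => u (ι v)))⁻¹ v v' * A u v' := ⟨fun u v => _, fun _ _ => rfl⟩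
  obtain ⟨F, hF⟩ : ∃ F : (P → ℝ) → P → ℝ, ∀ u θ, F u θ =
      c0 u θ + ∑ v, if ι v = θ then c1 u v else 0 := ⟨fun u θ => _, fun _ _ => rfl⟩
  have hFr : ∀ u v, F u (ι v) = c1 u v := by
    intro u v
    rw [hF, hc0, if_pos ⟨v, rfl⟩, zero_add, Finset.sum_eq_single v]
    · rw [if_pos rfl]
    · intro v' _ hv'
      rw [if_neg fun h => hv' (hι h)]
    · intro h; exact absurd (Finset.mem_univ _) h
  have hFn : ∀ u θ, θ ∉ Set.range ι → F u θ = u θ := by
    intro u θ hθ
    rw [hF, hc0, if_neg hθ, Finset.sum_eq_zero, add_zero]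
    intro v _
    rw [if_neg fun h => hθ ⟨v, h⟩]
  have hev : ∀ (Q : MvPolynomial Z ℝ) (u : P → ℝ),
      DifferentiableAt ℝ (fun u : P → ℝ => MvPolynomial.eval (fun v => u (ι v)) Q) u := by
    intro Q u
    have h1 : DifferentiableAt ℝ (fun u : P → ℝ => fun v => u (ι v)) u := by fun_prop
    have h2 : DifferentiableAt ℝ (fun z : Z → ℝ => MvPolynomial.eval z Q) (fun v => u (ι v)) :=
      (hasFDerivAt_eval Q (fun v => u (ι v))).differentiableAt
    exact DifferentiableAt.comp (g := fun z : Z → ℝ => MvPolynomial.eval z Q) u h2 h1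
  have hBd : ∀ u i j, DifferentiableAt ℝ (fun u : P → ℝ => B (fun v => u (ι v)) i j) u := by
    intro u i j
    simp only [hB]
    exact hev _ u
  have hc0d : ∀ u θ, DifferentiableAt ℝ (fun u : P → ℝ => c0 u θ) u := by
    intro u θ
    simp only [hc0]
    split_ifs
    · exact differentiableAt_const _
    · fun_prop
  have hAd : ∀ u v, DifferentiableAt ℝ (fun u : P → ℝ => A u v) u := by
    intro u v
    simp only [hA]
    refine (hev _ u).fun_add (DifferentiableAt.const_mul ?_ _)
    refine DifferentiableAt.fun_sum fun θ _ => ?_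
    exact (hc0d u θ).fun_mul (hev _ u)
  have hFd : ∀ u, (B (fun v => u (ι v))).det ≠ 0 → DifferentiableAt ℝ F u := by
    intro u hu
    rw [differentiableAt_pi]
    intro θ
    simp only [hF]
    refine (hc0d u θ).fun_add (DifferentiableAt.fun_sum fun v _ => ?_)
    split_ifs
    · simp only [hc1]
      refine DifferentiableAt.const_mul ?_ _
      refine DifferentiableAt.fun_sum fun v' _ => ?_
      exact (diff_inv (hBd u) hu v v').fun_mul (hAd u v')
    · exact differentiableAt_const _
  -- the equations hold along the map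
  have hzero : ∀ u, (B (fun v => u (ι v))).det ≠ 0 → ∀ v,
      MvPolynomial.eval (fun v => u (ι v)) (a v) +
        ε * ∑ θ, F u θ * MvPolynomial.eval (fun v => u (ι v)) (b v θ) = 0 := by
    intro u hu v
    have h1 : ∑ θ, F u θ * MvPolynomial.eval (fun v => u (ι v)) (b v θ) =
        ∑ θ, c0 u θ * MvPolynomial.eval (fun v => u (ι v)) (b v θ) +
        ∑ v', B (fun v => u (ι v)) v v' * c1 u v' := by
      simp only [hF, add_mul, Finset.sum_add_distrib]
      congr 1
      simp only [Finset.sum_mul]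
      rw [Finset.sum_comm]
      refine Finset.sum_congr rfl fun v' _ => ?_
      simp only [ite_mul, zero_mul, Finset.sum_ite_eq, Finset.mem_univ, if_true]
      rw [hB]; ring
    have h2 : ∑ v', B (fun v => u (ι v)) v v' * c1 u v' = -ε⁻¹ * A u v := by
      have h3 : (B (fun v => u (ι v))) * (B (fun v => u (ι v)))⁻¹ = 1 :=
        Matrix.mul_nonsing_inv _ (isUnit_iff_ne_zero.2 hu)
      have h4 : ∀ v'', ∑ v', B (fun v => u (ι v)) v v' * (B (fun v => u (ι v)))⁻¹ v' v'' =
          (1 : Matrix Z Z ℝ) v v'' := by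
        intro v''
        rw [← h3, Matrix.mul_apply]
      simp only [hc1]
      have h5 : ∑ v', B (fun v => u (ι v)) v v' *
          (-ε⁻¹ * ∑ v'', (B (fun v => u (ι v)))⁻¹ v' v'' * A u v'') =
          -ε⁻¹ * ∑ v'', (∑ v', B (fun v => u (ι v)) v v' *
            (B (fun v => u (ι v)))⁻¹ v' v'') * A u v'' := by
        simp only [Finset.mul_sum, Finset.sum_mul]
        rw [Finset.sum_comm]
        refine Finset.sum_congr rfl fun i _ => Finset.sum_congr rfl fun j _ => ?_
        ring
      rw [h5]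
      simp only [h4, Matrix.one_apply, ite_mul, one_mul, zero_mul, Finset.sum_ite_eq,
        Finset.mem_univ, if_true]
    rw [h1, h2, mul_add]
    have h6 := hA u v
    have h7 : ε * (-ε⁻¹ * A u v) = -A u v := by field_simp
    rw [h7, h6]; ring
  -- the set is contained in the image of the critical points
  refine measure_mono_null (t := F '' {u | (B (fun v => u (ι v))).det ≠ 0 ∧
    (fderiv ℝ F u).det = 0}) ?_ ?_
  swap
  · exact addHaar_image_eq_zero_of_det_fderivWithin_eq_zero volume (f' := fderiv ℝ F)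
      (fun u hu => (hFd u hu.1).hasFDerivAt.hasFDerivWithinAt) (fun u hu => hu.2)
  rintro c ⟨z, hker, hΨ, y, hy0, hy⟩
  obtain ⟨u, hu⟩ : ∃ u : P → ℝ, ∀ θ, u θ = c0 c θ + ∑ v, if ι v = θ then z v else 0 :=
    ⟨fun θ => _, fun _ => rfl⟩
  have hur : ∀ v, u (ι v) = z v := by
    intro v
    rw [hu, hc0, if_pos ⟨v, rfl⟩, zero_add, Finset.sum_eq_single v]
    · rw [if_pos rfl]
    · intro v' _ hv'
      rw [if_neg fun h => hv' (hι h)]
    · intro h; exact absurd (Finset.mem_univ _) h
  have hun : ∀ θ, θ ∉ Set.range ι → u θ = c θ := by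
    intro θ hθ
    rw [hu, hc0, if_neg hθ, Finset.sum_eq_zero, add_zero]
    intro v _
    rw [if_neg fun h => hθ ⟨v, h⟩]
  have huz : (fun v => u (ι v)) = z := funext hur
  have hdet : (B (fun v => u (ι v))).det ≠ 0 := by
    rw [huz]
    intro h0
    obtain ⟨d, hd0, hd⟩ := Matrix.exists_mulVec_eq_zero_iff.2 h0
    apply hd0
    apply hker
    intro v
    have := congrFun hd v
    simp only [Matrix.mulVec, dotProduct, Pi.zero_apply, hB] at this
    rw [← this]
    refine Finset.sum_congr rfl fun v' _ => ?_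
    ring
  have hFu : F u = c := by
    have h1 : ∀ v, ∑ v', (F u (ι v') - c (ι v')) * MvPolynomial.eval z (b v (ι v')) = 0 := by
      intro v
      have h2 := hzero u hdet v
      rw [huz] at h2
      have h3 := hΨ v
      have h4 : ε * ∑ θ, (F u θ - c θ) * MvPolynomial.eval z (b v θ) = 0 := by
        simp only [sub_mul, Finset.sum_sub_distrib, mul_sub]
        linarith
      have h5 := (mul_eq_zero.1 h4).resolve_left hε
      rw [← h5]
      have h6 : ∑ v', (F u (ι v') - c (ι v')) * MvPolynomial.eval z (b v (ι v')) =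
          ∑ θ ∈ Finset.univ.image ι, (F u θ - c θ) * MvPolynomial.eval z (b v θ) := by
        rw [Finset.sum_image fun x _ y _ h => hι h]
      rw [h6]
      refine Finset.sum_subset (Finset.subset_univ _) fun θ _ hθ => ?_
      have h7 : θ ∉ Set.range ι := by
        rintro ⟨v, rfl⟩
        exact hθ (Finset.mem_image.2 ⟨v, Finset.mem_univ _, rfl⟩)
      rw [hFn u θ h7, hun θ h7, sub_self, zero_mul]
    have h8 := hker _ h1
    funext θ
    by_cases hθ : θ ∈ Set.range ι
    · obtain ⟨v, rfl⟩ := hθ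
      have := congrFun h8 v
      simp only [Pi.zero_apply] at this
      linarith
    · rw [hFn u θ hθ, hun θ hθ]
  refine ⟨u, ⟨hdet, ?_⟩, hFu⟩
  -- the kernel of the derivative
  obtain ⟨e, he⟩ : ∃ e : P → ℝ, ∀ θ, e θ = ∑ v, if ι v = θ then y v else 0 :=
    ⟨fun θ => _, fun _ => rfl⟩
  have her : ∀ v, e (ι v) = y v := by
    intro v
    rw [he, Finset.sum_eq_single v]
    · rw [if_pos rfl]
    · intro v' _ hv'
      rw [if_neg fun h => hv' (hι h)]
    · intro h; exact absurd (Finset.mem_univ _) h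
  have hen : ∀ θ, θ ∉ Set.range ι → e θ = 0 := by
    intro θ hθ
    rw [he, Finset.sum_eq_zero]
    intro v _
    rw [if_neg fun h => hθ ⟨v, h⟩]
  have he0 : e ≠ 0 := by
    intro h
    apply hy0
    funext v
    rw [← her, h]; rfl
  obtain ⟨δ, hδ⟩ : ∃ δ : P → ℝ, δ = fderiv ℝ F u e := ⟨_, rfl⟩
  have hline : HasDerivAt (fun t : ℝ => u + t • e) e 0 := by
    have h1 : HasDerivAt (fun t : ℝ => t • e) e 0 := by
      simpa using (hasDerivAt_id (0:ℝ)).smul_const e
    simpa using h1.const_add u
  have hFl : HasDerivAt (fun t : ℝ => F (u + t • e)) δ 0 := by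
    have h1 := (hFd u hdet).hasFDerivAt
    have h2 : HasFDerivAt F (fderiv ℝ F u) (u + (0:ℝ) • e) := by
      rw [zero_smul, add_zero]; exact h1
    have h3 := h2.comp_hasDerivAt (0:ℝ) hline
    rw [hδ]
    exact h3
  have hFlθ : ∀ θ, HasDerivAt (fun t : ℝ => F (u + t • e) θ) (δ θ) 0 :=
    fun θ => (hasDerivAt_pi.1 hFl) θ
  have hδn : ∀ θ, θ ∉ Set.range ι → δ θ = 0 := by
    intro θ hθ
    have h1 : (fun t : ℝ => F (u + t • e) θ) = fun _ => u θ := by
      funext t
      rw [hFn _ θ hθ]
      simp [hen θ hθ]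
    have h2 := hFlθ θ
    rw [h1] at h2
    exact h2.unique (hasDerivAt_const _ _)
  have hδ0 : δ = 0 := by
    have h1 : ∀ v, ∑ v', δ (ι v') * MvPolynomial.eval z (b v (ι v')) = 0 := by
      intro v
      -- differentiate the identity
      have hev' : ∀ Q : MvPolynomial Z ℝ, HasDerivAt
          (fun t : ℝ => MvPolynomial.eval (fun v => (u + t • e) (ι v)) Q)
          (∑ i, y i * MvPolynomial.eval z (MvPolynomial.pderiv i Q)) 0 := by
        intro Q
        have h2 := hasDerivAt_eval_line Q z y 0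
        have h3 : (fun t : ℝ => MvPolynomial.eval (fun v => (u + t • e) (ι v)) Q) =
            fun t : ℝ => MvPolynomial.eval (fun i => z i + t * y i) Q := by
          funext t
          congr 2
          funext v
          simp only [Pi.add_apply, Pi.smul_apply, smul_eq_mul, hur, her]
        rw [h3]
        have h4 : (fun i => z i + 0 * y i) = z := by funext i; ring
        rw [h4] at h2
        simpa only [mul_comm] using h2
      have hid : HasDerivAt (fun t : ℝ => MvPolynomial.eval (fun v => (u + t • e) (ι v)) (a v) +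
          ε * ∑ θ, F (u + t • e) θ * MvPolynomial.eval (fun v => (u + t • e) (ι v)) (b v θ))
          (∑ i, y i * MvPolynomial.eval z (MvPolynomial.pderiv i (a v)) +
            ε * ∑ θ, (δ θ * MvPolynomial.eval z (b v θ) +
              c θ * ∑ i, y i * MvPolynomial.eval z (MvPolynomial.pderiv i (b v θ)))) 0 := by
        refine (hev' (a v)).add (HasDerivAt.const_mul ε ?_)
        refine HasDerivAt.fun_sum fun θ _ => ?_
        have h2 := (hFlθ θ).mul (hev' (b v θ))
        have h3 : (u + (0:ℝ) • e) = u := by rw [zero_smul, add_zero]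
        rw [h3, hFu, huz] at h2
        exact h2
      have hev0 : (fun t : ℝ => MvPolynomial.eval (fun v => (u + t • e) (ι v)) (a v) +
          ε * ∑ θ, F (u + t • e) θ * MvPolynomial.eval (fun v => (u + t • e) (ι v)) (b v θ)) =ᶠ[𝓝 0]
          fun _ => (0:ℝ) := by
        have h2 : ∀ᶠ t in 𝓝 (0:ℝ), (B (fun v => (u + t • e) (ι v))).det ≠ 0 := by
          have h3 : ContinuousAt (fun t : ℝ => (B (fun v => (u + t • e) (ι v))).det) 0 := by
            have h4 : DifferentiableAt ℝ (fun u : P → ℝ => (B (fun v => u (ι v))).det)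
                (u + (0:ℝ) • e) := diff_det (hBd _)
            exact h4.continuousAt.comp (f := fun t : ℝ => u + t • e) hline.continuousAt
          refine h3.eventually_ne ?_
          rw [zero_smul, add_zero]
          exact hdet
        filter_upwards [h2] with t ht
        exact hzero _ ht v
      have h2 := (hid.congr_of_eventuallyEq hev0.symm).unique (hasDerivAt_const (0:ℝ) (0:ℝ))
      have h3 := hy v
      have h4 : ∑ i, y i * MvPolynomial.eval z (MvPolynomial.pderiv i (a v)) +
          ε * ∑ θ, c θ * ∑ i, y i * MvPolynomial.eval z (MvPolynomial.pderiv i (b v θ)) = 0 := by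
        rw [← h3]
        simp only [mul_add, Finset.sum_add_distrib]
        congr 1
        simp only [Finset.mul_sum]
        rw [Finset.sum_comm]
        refine Finset.sum_congr rfl fun i _ => Finset.sum_congr rfl fun j _ => ?_
        ring
      have h5 : ε * ∑ θ, δ θ * MvPolynomial.eval z (b v θ) = 0 := by
        rw [Finset.sum_add_distrib, mul_add] at h2
        linarith
      have h6 := (mul_eq_zero.1 h5).resolve_left hε
      rw [← h6]
      have h7 : ∑ v', δ (ι v') * MvPolynomial.eval z (b v (ι v')) =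
          ∑ θ ∈ Finset.univ.image ι, δ θ * MvPolynomial.eval z (b v θ) := by
        rw [Finset.sum_image fun x _ y _ h => hι h]
      rw [h7]
      refine Finset.sum_subset (Finset.subset_univ _) fun θ _ hθ => ?_
      have h8 : θ ∉ Set.range ι := by
        rintro ⟨v, rfl⟩
        exact hθ (Finset.mem_image.2 ⟨v, Finset.mem_univ _, rfl⟩)
      rw [hδn θ h8, zero_mul]
    have h9 := hker _ h1
    funext θ
    by_cases hθ : θ ∈ Set.range ι
    · obtain ⟨v, rfl⟩ := hθ
      exact congrFun h9 v
    · exact hδn θ hθ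
  by_contra hne
  apply he0
  have h1 : LinearMap.det (fderiv ℝ F u : (P → ℝ) →ₗ[ℝ] (P → ℝ)) ≠ 0 := hne
  have h2 : (LinearMap.equivOfDetNeZero _ h1) e = 0 := by
    change fderiv ℝ F u e = 0
    rw [← hδ, hδ0]
  exact (LinearMap.equivOfDetNeZero _ h1).map_eq_zero_iff.1 h2

end Pool.Agent.R537.IP
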