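import Pool.Agent.R537.IP.Sard

/-!
# The nondegenerate parameters are dense
-/

set_option autoImplicit false

namespace Pool.Agent.R537.IP

open Finset Filter Topology MeasureTheory Pool.Agent.H612 Pool.Agent.R537.RN

variable {n m k Q J : ℕ}

/-- Two distinct points are separated by all but few of the linear forms. -/
theorem card_nonsep (w w' : Fin m → ℝ) (hw : w ≠ w') :
    (Finset.univ.filter fun q : Fin Q => lv (q : ℕ) w = lv (q : ℕ) w').card ≤ m := by
  classical
  obtain ⟨P, hP⟩ : ∃ P : Polynomial ℝ, P = ∑ r : Fin m, Polynomial.C (w r - w' r) *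
      Polynomial.X ^ (r : ℕ) := ⟨_, rfl⟩
  have hev : ∀ q : ℕ, P.eval (q : ℝ) = lv q w - lv q w' := by
    intro q
    rw [hP, Polynomial.eval_finsetSum, lv, lv, ← Finset.sum_sub_distrib]
    refine Finset.sum_congr rfl fun r _ => ?_
    simp
    ring
  have hP0 : P ≠ 0 := by
    intro h0
    apply hw
    funext r
    have h1 := congrArg (fun p => Polynomial.coeff p (r : ℕ)) h0
    simp only [hP, Polynomial.finsetSum_coeff, Polynomial.coeff_C_mul, Polynomial.coeff_X_pow,
      mul_ite, mul_one, mul_zero, Polynomial.coeff_zero] at h1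
    rw [Finset.sum_eq_single r] at h1
    · rw [if_pos rfl] at h1
      linarith
    · intro r' _ hr'
      rw [if_neg]
      intro h
      exact hr' (Fin.ext h.symm)
    · intro h; exact absurd (Finset.mem_univ _) h
  have hdeg : P.natDegree ≤ m := by
    rw [hP]
    refine Polynomial.natDegree_sum_le_of_forall_le _ _ fun r _ => ?_
    exact (Polynomial.natDegree_C_mul_X_pow_le _ _).trans r.2.le
  have h1 : (Finset.univ.filter fun q : Fin Q => lv (q : ℕ) w = lv (q : ℕ) w').image
      (fun q : Fin Q => ((q : ℕ) : ℝ)) ⊆ P.roots.toFinset := by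
    intro x hx
    rw [Finset.mem_image] at hx
    obtain ⟨q, hq, rfl⟩ := hx
    rw [Finset.mem_filter] at hq
    rw [Multiset.mem_toFinset, Polynomial.mem_roots hP0, Polynomial.IsRoot, hev, hq.2, sub_self]
  have h2 := Finset.card_le_card h1
  rw [Finset.card_image_of_injective _ (fun a b h => Fin.ext (by exact_mod_cast h))] at h2
  exact h2.trans ((Multiset.toFinset_card_le _).trans ((Polynomial.card_roots' P).trans hdeg))

/-- The choice of the separating forms. -/
theorem exists_sep (hQ : m + (k + 1) * (k + 1) * m ≤ Q) (w : Fin (k + 1) → Fin m → ℝ)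
    (hw : Function.Injective w) : ∃ qv : Fin m → Fin Q, Function.Injective qv ∧
      ∀ r, Function.Injective fun i => lv (qv r : ℕ) (w i) := by
  classical
  obtain ⟨bad, hbad⟩ : ∃ bad : Finset (Fin Q), bad =
      (Finset.univ.filter fun p : Fin (k + 1) × Fin (k + 1) => p.1 ≠ p.2).biUnion
        fun p => Finset.univ.filter fun q : Fin Q => lv (q : ℕ) (w p.1) = lv (q : ℕ) (w p.2) :=
    ⟨_, rfl⟩
  have h1 : bad.card ≤ (k + 1) * (k + 1) * m := by
    rw [hbad]
    refine (Finset.card_biUnion_le).trans ?_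
    refine (Finset.sum_le_card_nsmul _ _ m fun p hp => ?_).trans ?_
    · rw [Finset.mem_filter] at hp
      exact card_nonsep _ _ fun h => hp.2 (hw h)
    · rw [smul_eq_mul]
      refine Nat.mul_le_mul_right _ ?_
      refine (Finset.card_filter_le _ _).trans ?_
      rw [Finset.card_univ, Fintype.card_prod, Fintype.card_fin]
  have h2 : m ≤ badᶜ.card := by
    rw [Finset.card_compl, Fintype.card_fin]
    omega
  obtain ⟨t, ht, htc⟩ := Finset.exists_subset_card_eq h2
  refine ⟨fun r => (t.equivFinOfCardEq htc).symm r, ?_, ?_⟩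
  · intro a b h
    exact (t.equivFinOfCardEq htc).symm.injective (Subtype.ext h)
  · intro r i i' h
    by_contra hne
    have h3 := ht ((t.equivFinOfCardEq htc).symm r).2
    rw [Finset.mem_compl] at h3
    apply h3
    rw [hbad, Finset.mem_biUnion]
    exact ⟨(i, i'), Finset.mem_filter.2 ⟨Finset.mem_univ _, hne⟩,
      Finset.mem_filter.2 ⟨Finset.mem_univ _, h⟩⟩

/-- The nondegenerate parameters. -/
def Nondeg (k : ℕ) (g : MvPolynomial (Fin n ⊕ Fin m) ℝ) (ε : ℝ) (c : Par n Q J → ℝ) : Prop :=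
  ∀ z : Zk n m k → ℝ, (∀ i, muv z i ≠ 0) → Function.Injective (wz z) →
    (∀ v, MvPolynomial.eval z (MvPolynomial.pderiv v (pot k (gp g ε c))) = 0) →
    ∀ y : Zk n m k → ℝ, (∀ v, ∑ u, y u * MvPolynomial.eval z
      (MvPolynomial.pderiv u (MvPolynomial.pderiv v (pot k (gp g ε c)))) = 0) → y = 0

/-- The nondegenerate parameters are dense. -/
theorem dense_nondeg (hm : 0 < m) (hJ : 2 * k + 1 ≤ J) (hQ : m + (k + 1) * (k + 1) * m ≤ Q)
    (g : MvPolynomial (Fin n ⊕ Fin m) ℝ) (ε : ℝ) (hε : ε ≠ 0) :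
    Dense {c : Par n Q J → ℝ | Nondeg k g ε c} := by
  classical
  have h1 : volume (⋃ qv : {qv : Fin m → Fin Q // Function.Injective qv},
      {c : Par n Q J → ℝ | ∃ z : Zk n m k → ℝ,
      (∀ d : Zk n m k → ℝ, (∀ v, ∑ v', d v' * MvPolynomial.eval z
        (MvPolynomial.pderiv v (pot k (pm m (sel hm hJ qv.1 v')))) = 0) → d = 0) ∧
      (∀ v, MvPolynomial.eval z (MvPolynomial.pderiv v (pot k g)) + ε * ∑ θ, c θ *
        MvPolynomial.eval z (MvPolynomial.pderiv v (pot k (pm m θ))) = 0) ∧
      ∃ y : Zk n m k → ℝ, y ≠ 0 ∧ ∀ v, ∑ u, y u * (MvPolynomial.eval z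
        (MvPolynomial.pderiv u (MvPolynomial.pderiv v (pot k g))) +
        ε * ∑ θ, c θ * MvPolynomial.eval z
          (MvPolynomial.pderiv u (MvPolynomial.pderiv v (pot k (pm m θ))))) = 0}) = 0 := by
    rw [measure_iUnion_null_iff]
    intro qv
    exact sard_par (sel hm hJ qv.1) (sel_inj hm hJ qv.1 qv.2)
      (fun v => MvPolynomial.pderiv v (pot k g))
      (fun v θ => MvPolynomial.pderiv v (pot k (pm m θ))) ε hε
  refine Dense.mono ?_ (Measure.dense_of_ae (μ := (volume : Measure (Par n Q J → ℝ)))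
    (measure_eq_zero_iff_ae_notMem.1 h1))
  intro c hc z hμ hinj hgrad y hy
  by_contra hy0
  apply hc
  obtain ⟨qv, hqv, hsep⟩ := exists_sep (k := k) hQ (wz z) hinj
  rw [Set.mem_iUnion]
  refine ⟨⟨qv, hqv⟩, z, ?_, ?_, y, hy0, ?_⟩
  · intro d hd
    exact kernel_zero hm hJ qv hqv z hμ hsep d hd
  · intro v
    have := hgrad v
    rwa [grad_gp] at this
  · intro v
    have := hy v
    simp only [hess_gp] at this
    exact this

end Pool.Agent.R537.IP
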