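import Pool.Agent.R537.RN.Forms

/-!
# The size of a real polynomial, and its derivative
-/

set_option autoImplicit false

namespace Pool.Agent.R537.IP

open Finset Filter Topology Pool.Agent.H612 Pool.Agent.R537.RN

variable {σ τ : Type}

/-- The weighted number of the monomials. -/
noncomputable def sz (P : MvPolynomial σ ℝ) : ℕ := ∑ d ∈ P.support, 2 ^ d.degree

theorem sz_le_of_subset {P : MvPolynomial σ ℝ} {s : Finset (σ →₀ ℕ)} (h : P.support ⊆ s) :
    sz P ≤ ∑ d ∈ s, 2 ^ d.degree :=
  Finset.sum_le_sum_of_subset h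

theorem sz_zero : sz (0 : MvPolynomial σ ℝ) = 0 := by simp [sz]

theorem sz_monomial (d : σ →₀ ℕ) (a : ℝ) : sz (MvPolynomial.monomial d a) ≤ 2 ^ d.degree := by
  classical
  have h : (MvPolynomial.monomial d a).support ⊆ {d} := MvPolynomial.support_monomial_subset
  refine (sz_le_of_subset h).trans ?_
  simp

theorem sz_add (P Q : MvPolynomial σ ℝ) : sz (P + Q) ≤ sz P + sz Q := by
  classical
  refine (sz_le_of_subset MvPolynomial.support_add).trans ?_
  have h := Finset.sum_union_inter (s₁ := P.support) (s₂ := Q.support)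
    (f := fun d : σ →₀ ℕ => 2 ^ d.degree)
  unfold sz
  omega

theorem sz_sum {ι : Type*} (s : Finset ι) (f : ι → MvPolynomial σ ℝ) :
    sz (∑ i ∈ s, f i) ≤ ∑ i ∈ s, sz (f i) := by
  classical
  induction s using Finset.induction_on with
  | empty => simp [sz_zero]
  | insert a s ha ih =>
    rw [Finset.sum_insert ha, Finset.sum_insert ha]
    exact (sz_add _ _).trans (Nat.add_le_add_left ih _)

theorem sz_mul (P Q : MvPolynomial σ ℝ) : sz (P * Q) ≤ sz P * sz Q := by
  classical
  have h0 : P * Q = ∑ d ∈ P.support, ∑ e ∈ Q.support,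
      MvPolynomial.monomial (d + e) (P.coeff d * Q.coeff e) := by
    conv_lhs => rw [P.as_sum, Q.as_sum]
    rw [Finset.sum_mul_sum]
    refine Finset.sum_congr rfl fun d _ => Finset.sum_congr rfl fun e _ => ?_
    rw [MvPolynomial.monomial_mul]
  rw [h0]
  refine (sz_sum _ _).trans ?_
  unfold sz
  rw [Finset.sum_mul_sum]
  refine Finset.sum_le_sum fun d _ => ?_
  refine (sz_sum _ _).trans ?_
  refine Finset.sum_le_sum fun e _ => ?_
  refine (sz_monomial _ _).trans ?_
  rw [map_add, pow_add]

/-- The size as a norm. -/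
noncomputable def gm (σ : Type) : RNorm (MvPolynomial σ ℝ) where
  ν := sz
  zero := sz_zero
  one := by
    have h : (1 : MvPolynomial σ ℝ) = MvPolynomial.monomial 0 1 := rfl
    rw [h]
    exact (sz_monomial _ _).trans (by simp)
  neg := fun P => by
    unfold sz
    rw [MvPolynomial.support_neg]
  add := sz_add
  mul := sz_mul

theorem gm_C (c : ℝ) : (gm σ).ν (MvPolynomial.C c) ≤ 1 := by
  have h : (MvPolynomial.C c : MvPolynomial σ ℝ) = MvPolynomial.monomial 0 c := rfl
  change sz _ ≤ 1
  rw [h]
  exact (sz_monomial _ _).trans (by simp)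

theorem gm_X (i : σ) : (gm σ).ν (MvPolynomial.X i) ≤ 2 := by
  change sz (MvPolynomial.monomial (Finsupp.single i 1) 1) ≤ 2
  exact (sz_monomial _ _).trans (by rw [Finsupp.degree_single]; norm_num)

theorem gm_pderiv (i : σ) (P : MvPolynomial σ ℝ) :
    (gm σ).ν (MvPolynomial.pderiv i P) ≤ (gm σ).ν P := by
  classical
  change sz _ ≤ sz P
  conv_lhs => rw [P.as_sum]
  rw [map_sum]
  refine (sz_sum _ _).trans ?_
  unfold sz
  refine Finset.sum_le_sum fun d _ => ?_
  rw [MvPolynomial.pderiv_monomial]
  refine (sz_monomial _ _).trans ?_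
  apply Nat.pow_le_pow_right (by norm_num)
  have h1 : d - Finsupp.single i 1 ≤ d := tsub_le_self
  have h2 : (d - Finsupp.single i 1) + (d - (d - Finsupp.single i 1)) = d :=
    add_tsub_cancel_of_le h1
  have h3 := congrArg Finsupp.degree h2
  rw [map_add] at h3
  omega

/-- The norm of a substitution. -/
theorem ν_eval₂ {R : Type} [CommRing R] (nr : RNorm R) (f : ℝ →+* R) (φ : σ → R)
    (hf : ∀ c, nr.ν (f c) ≤ 1) (hφ : ∀ i, nr.ν (φ i) ≤ 2) (P : MvPolynomial σ ℝ) :
    nr.ν (P.eval₂ f φ) ≤ (gm σ).ν P := by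
  classical
  rw [MvPolynomial.eval₂_eq]
  refine (nr.sum _ _).trans ?_
  change _ ≤ sz P
  unfold sz
  refine Finset.sum_le_sum fun d _ => ?_
  refine (nr.mul _ _).trans ?_
  have h1 : nr.ν (∏ i ∈ d.support, φ i ^ d i) ≤ 2 ^ d.degree := by
    refine (nr.prod _ _).trans ?_
    rw [Finsupp.degree_apply, ← Finset.prod_pow_eq_pow_sum]
    exact Finset.prod_le_prod' fun i _ => ν_pow nr _ 2 _ (hφ i)
  calc _ ≤ 1 * 2 ^ d.degree := Nat.mul_le_mul (hf _) h1
    _ = _ := one_mul _

theorem gm_rename (f : σ → τ) (P : MvPolynomial σ ℝ) :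
    (gm τ).ν (MvPolynomial.rename f P) ≤ (gm σ).ν P := by
  have h : MvPolynomial.rename f P = P.eval₂ MvPolynomial.C (fun i => MvPolynomial.X (f i)) := by
    rw [MvPolynomial.rename_eq_aeval, MvPolynomial.aeval_def]
    rfl
  rw [h]
  exact ν_eval₂ _ _ _ gm_C (fun i => gm_X _) P

/-- The derivative of a polynomial function. -/
theorem hasFDerivAt_eval [Fintype σ] (P : MvPolynomial σ ℝ) (z : σ → ℝ) :
    HasFDerivAt (fun z : σ → ℝ => MvPolynomial.eval z P)
      (∑ i, MvPolynomial.eval z (MvPolynomial.pderiv i P) •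
        (ContinuousLinearMap.proj i : (σ → ℝ) →L[ℝ] ℝ)) z := by
  classical
  induction P using MvPolynomial.induction_on with
  | C a =>
    simp only [MvPolynomial.eval_C, MvPolynomial.pderiv_C, map_zero, zero_smul,
      Finset.sum_const_zero]
    exact hasFDerivAt_const a z
  | add p q hp hq =>
    have h := hp.add hq
    simp only [map_add, add_smul, Finset.sum_add_distrib]
    exact h
  | mul_X p j hp =>
    have h1 : HasFDerivAt (fun z : σ → ℝ => z j)
        (ContinuousLinearMap.proj j : (σ → ℝ) →L[ℝ] ℝ) z := hasFDerivAt_apply j z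
    have h := hp.mul h1
    simp only [map_mul, MvPolynomial.eval_X]
    refine h.congr_fderiv (ContinuousLinearMap.ext fun v => ?_)
    simp only [MvPolynomial.pderiv_mul, MvPolynomial.pderiv_X, map_add, map_mul,
      MvPolynomial.eval_X, add_apply, smul_apply,
      _root_.sum_apply, ContinuousLinearMap.proj_apply, smul_eq_mul]
    have e1 : ∀ i, MvPolynomial.eval z (Pi.single (M := fun _ => MvPolynomial σ ℝ) i 1 j) =
        if i = j then 1 else 0 := by
      intro i
      by_cases hij : i = j
      · subst hij; simp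
      · rw [if_neg hij, Pi.single_eq_of_ne (Ne.symm hij)]; simp
    simp only [e1, add_mul, Finset.sum_add_distrib, mul_ite, mul_one, mul_zero, ite_mul,
      zero_mul, Finset.sum_ite_eq', Finset.mem_univ, if_true]
    rw [Finset.mul_sum, add_comm]
    congr 1
    refine Finset.sum_congr rfl fun i _ => ?_
    ring

theorem hasDerivAt_eval_line [Fintype σ] (P : MvPolynomial σ ℝ) (z v : σ → ℝ) (t : ℝ) :
    HasDerivAt (fun t : ℝ => MvPolynomial.eval (fun i => z i + t * v i) P)
      (∑ i, MvPolynomial.eval (fun i => z i + t * v i) (MvPolynomial.pderiv i P) * v i) t := by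
  have h1 : HasDerivAt (fun t : ℝ => (fun i => z i + t * v i : σ → ℝ)) v t := by
    rw [hasDerivAt_pi]
    intro i
    have := ((hasDerivAt_id t).mul_const (v i)).const_add (z i)
    simpa using this
  have h2 := (hasFDerivAt_eval P (fun i => z i + t * v i)).comp_hasDerivAt t h1
  simpa [Function.comp_def] using h2

theorem continuous_evalz [Fintype σ] (P : MvPolynomial σ ℝ) :
    Continuous (fun z : σ → ℝ => MvPolynomial.eval z P) :=
  continuous_iff_continuousAt.2 fun z => (hasFDerivAt_eval P z).continuousAt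

end Pool.Agent.R537.IP
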