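import Pool.Agent.R537.IP.BadPoly

/-!
# The systems of equations of the ties
-/

set_option autoImplicit false

namespace Pool.Agent.R537.IP

open Finset Filter Topology Pool.Agent.H612 Pool.Agent.R537.RN

variable {n m k : ℕ}

/-- The indices of the unknowns. -/
abbrev Zk (n m k : ℕ) : Type := Fin n ⊕ ((Fin (k + 1) × Fin m) ⊕ Fin k)

/-- The variables of the `i`-th copy. -/
def cp (i : Fin (k + 1)) : Fin n ⊕ Fin m → Zk n m k :=
  Sum.elim Sum.inl (fun r => Sum.inr (Sum.inl (i, r)))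

theorem cp_inj (i : Fin (k + 1)) : Function.Injective (cp i : Fin n ⊕ Fin m → Zk n m k) := by
  rintro (a | a) (b | b) h <;> simp_all [cp]

/-- The multipliers. -/
noncomputable def mu (i : Fin (k + 1)) : MvPolynomial (Zk n m k) ℝ :=
  (Fin.cons (1 - ∑ j : Fin k, MvPolynomial.X (Sum.inr (Sum.inr j)))
    (fun j : Fin k => MvPolynomial.X (Sum.inr (Sum.inr j))) : Fin (k + 1) → _) i

/-- The potential. -/
noncomputable def pot (k : ℕ) (f : MvPolynomial (Fin n ⊕ Fin m) ℝ) :
    MvPolynomial (Zk n m k) ℝ := ∑ i, mu i * MvPolynomial.rename (cp i) f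

/-- A point. -/
def pt (x : Fin n → ℝ) (w : Fin (k + 1) → Fin m → ℝ) (l : Fin k → ℝ) : Zk n m k → ℝ :=
  Sum.elim x (Sum.elim (fun p => w p.1 p.2) l)

/-- The value of the multipliers. -/
def muv (z : Zk n m k → ℝ) (i : Fin (k + 1)) : ℝ :=
  (Fin.cons (1 - ∑ j : Fin k, z (Sum.inr (Sum.inr j)))
    (fun j : Fin k => z (Sum.inr (Sum.inr j))) : Fin (k + 1) → ℝ) i

theorem muv_sum (z : Zk n m k → ℝ) : ∑ i, muv z i = 1 := by
  rw [Fin.sum_univ_succ]
  simp [muv]

theorem eval_mu (z : Zk n m k → ℝ) (i : Fin (k + 1)) : MvPolynomial.eval z (mu i) = muv z i := by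
  unfold mu muv
  refine Fin.cases ?_ (fun j => ?_) i <;> simp

theorem eval_cp (z : Zk n m k → ℝ) (i : Fin (k + 1)) (f : MvPolynomial (Fin n ⊕ Fin m) ℝ) :
    MvPolynomial.eval z (MvPolynomial.rename (cp i) f) = MvPolynomial.eval (z ∘ cp i) f := by
  rw [MvPolynomial.eval_rename]

theorem pderiv_mu_inl (j : Fin n) (i : Fin (k + 1)) :
    MvPolynomial.pderiv (Sum.inl j : Zk n m k) (mu i) = 0 := by
  classical
  unfold mu
  refine Fin.cases ?_ (fun j' => ?_) i
  · simp [MvPolynomial.pderiv_X]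
  · simp [MvPolynomial.pderiv_X]

theorem pderiv_mu_inm (p : Fin (k + 1) × Fin m) (i : Fin (k + 1)) :
    MvPolynomial.pderiv (Sum.inr (Sum.inl p) : Zk n m k) (mu i) = 0 := by
  classical
  unfold mu
  refine Fin.cases ?_ (fun j' => ?_) i
  · simp [MvPolynomial.pderiv_X]
  · simp [MvPolynomial.pderiv_X]

theorem pderiv_mu_inr (j : Fin k) (i : Fin (k + 1)) :
    MvPolynomial.pderiv (Sum.inr (Sum.inr j) : Zk n m k) (mu i) =
      if i = j.succ then 1 else if i = 0 then -1 else 0 := by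
  classical
  unfold mu
  refine Fin.cases ?_ (fun j' => ?_) i
  · rw [if_neg (Fin.succ_ne_zero j).symm, if_pos rfl]
    simp [MvPolynomial.pderiv_X, Pi.single_apply]
  · simp only [Fin.cons_succ, MvPolynomial.pderiv_X, Pi.single_apply, Sum.inr.injEq,
      Fin.succ_inj, Fin.succ_ne_zero, if_false, eq_comm]

theorem pderiv_cp_notMem (i : Fin (k + 1)) (v : Zk n m k) (hv : v ∉ Set.range (cp i))
    (f : MvPolynomial (Fin n ⊕ Fin m) ℝ) :
    MvPolynomial.pderiv v (MvPolynomial.rename (cp i) f) = 0 := by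
  classical
  apply MvPolynomial.pderiv_eq_zero_of_notMem_vars
  intro h
  have h1 := MvPolynomial.vars_rename (cp i) f h
  rw [Finset.mem_image] at h1
  obtain ⟨a, -, ha⟩ := h1
  exact hv ⟨a, ha⟩

theorem pderiv_pot_inl (f : MvPolynomial (Fin n ⊕ Fin m) ℝ) (j : Fin n) :
    MvPolynomial.pderiv (Sum.inl j) (pot k f) = pot k (MvPolynomial.pderiv (Sum.inl j) f) := by
  unfold pot
  rw [map_sum]
  refine Finset.sum_congr rfl fun i _ => ?_
  rw [MvPolynomial.pderiv_mul, pderiv_mu_inl, zero_mul, zero_add]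
  congr 1
  exact MvPolynomial.pderiv_rename (cp_inj i) (Sum.inl j) f

theorem pderiv_pot_inm (f : MvPolynomial (Fin n ⊕ Fin m) ℝ) (i : Fin (k + 1)) (r : Fin m) :
    MvPolynomial.pderiv (Sum.inr (Sum.inl (i, r))) (pot k f) =
      mu i * MvPolynomial.rename (cp i) (MvPolynomial.pderiv (Sum.inr r) f) := by
  unfold pot
  rw [map_sum, Finset.sum_eq_single i]
  · rw [MvPolynomial.pderiv_mul, pderiv_mu_inm, zero_mul, zero_add]
    congr 1
    exact MvPolynomial.pderiv_rename (cp_inj i) (Sum.inr r) f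
  · intro i' _ hi
    rw [MvPolynomial.pderiv_mul, pderiv_mu_inm, zero_mul, zero_add, pderiv_cp_notMem, mul_zero]
    rintro ⟨a, ha⟩
    rcases a with a | a
    · simp [cp] at ha
    · simp only [cp, Sum.elim_inr, Sum.inr.injEq, Sum.inl.injEq, Prod.mk.injEq] at ha
      exact hi ha.1
  · intro h
    exact absurd (Finset.mem_univ i) h

theorem pderiv_pot_inr (f : MvPolynomial (Fin n ⊕ Fin m) ℝ) (j : Fin k) :
    MvPolynomial.pderiv (Sum.inr (Sum.inr j)) (pot k f) =
      MvPolynomial.rename (cp j.succ) f - MvPolynomial.rename (cp 0) f := by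
  unfold pot
  rw [map_sum]
  have h : ∀ i : Fin (k + 1), MvPolynomial.pderiv (Sum.inr (Sum.inr j) : Zk n m k)
      (mu i * MvPolynomial.rename (cp i) f) =
      (if i = j.succ then MvPolynomial.rename (cp i) f else 0) +
      (if i = 0 then -MvPolynomial.rename (cp i) f else 0) := by
    intro i
    rw [MvPolynomial.pderiv_mul, pderiv_mu_inr, pderiv_cp_notMem, mul_zero, add_zero]
    · by_cases h1 : i = j.succ
      · rw [if_pos h1, if_pos h1, if_neg (by rw [h1]; exact Fin.succ_ne_zero j)]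
        simp
      · rw [if_neg h1, if_neg h1]
        by_cases h2 : i = 0
        · rw [if_pos h2, if_pos h2]; simp
        · rw [if_neg h2, if_neg h2]; simp
    · rintro ⟨a, ha⟩
      rcases a with a | a <;> simp [cp] at ha
  rw [Finset.sum_congr rfl fun i _ => h i, Finset.sum_add_distrib]
  simp only [Finset.sum_ite_eq', Finset.mem_univ, if_true]
  rw [sub_eq_add_neg]

theorem pot_add (f g : MvPolynomial (Fin n ⊕ Fin m) ℝ) : pot k (f + g) = pot k f + pot k g := by
  unfold pot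
  rw [← Finset.sum_add_distrib]
  refine Finset.sum_congr rfl fun i _ => ?_
  rw [map_add, mul_add]

theorem pot_C_mul (a : ℝ) (f : MvPolynomial (Fin n ⊕ Fin m) ℝ) :
    pot k (MvPolynomial.C a * f) = MvPolynomial.C a * pot k f := by
  unfold pot
  rw [Finset.mul_sum]
  refine Finset.sum_congr rfl fun i _ => ?_
  rw [map_mul, MvPolynomial.rename_C]
  ring

theorem pot_sum {ι : Type*} (s : Finset ι) (f : ι → MvPolynomial (Fin n ⊕ Fin m) ℝ) :
    pot k (∑ i ∈ s, f i) = ∑ i ∈ s, pot k (f i) := by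
  classical
  induction s using Finset.induction_on with
  | empty => simp [pot]
  | insert a s ha ih => rw [Finset.sum_insert ha, Finset.sum_insert ha, pot_add, ih]

/-! ### The perturbations -/

/-- The indices of the parameters. -/
abbrev Par (n Q J : ℕ) : Type := Fin n ⊕ (Fin Q × Fin J)

variable {Q J : ℕ}

/-- The linear forms. -/
noncomputable def lf (n m : ℕ) (q : ℕ) : MvPolynomial (Fin n ⊕ Fin m) ℝ :=
  ∑ r : Fin m, MvPolynomial.C ((q : ℝ) ^ (r : ℕ)) * MvPolynomial.X (Sum.inr r)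

/-- The monomials of the perturbation. -/
noncomputable def pm (m : ℕ) : Par n Q J → MvPolynomial (Fin n ⊕ Fin m) ℝ :=
  Sum.elim (fun j => MvPolynomial.X (Sum.inl j)) (fun p => lf n m p.1 ^ ((p.2 : ℕ) + 1))

/-- The perturbed polynomial. -/
noncomputable def gp (g : MvPolynomial (Fin n ⊕ Fin m) ℝ) (ε : ℝ) (c : Par n Q J → ℝ) :
    MvPolynomial (Fin n ⊕ Fin m) ℝ := g + MvPolynomial.C ε * ∑ θ, MvPolynomial.C (c θ) * pm m θ

theorem pot_gp (g : MvPolynomial (Fin n ⊕ Fin m) ℝ) (ε : ℝ) (c : Par n Q J → ℝ) :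
    pot k (gp g ε c) = pot k g + MvPolynomial.C ε * ∑ θ, MvPolynomial.C (c θ) * pot k (pm m θ) := by
  unfold gp
  rw [pot_add, pot_C_mul, pot_sum]
  congr 2
  exact Finset.sum_congr rfl fun θ _ => pot_C_mul _ _

/-- The gradient. -/
theorem grad_gp (g : MvPolynomial (Fin n ⊕ Fin m) ℝ) (ε : ℝ) (c : Par n Q J → ℝ)
    (v : Zk n m k) (z : Zk n m k → ℝ) :
    MvPolynomial.eval z (MvPolynomial.pderiv v (pot k (gp g ε c))) =
      MvPolynomial.eval z (MvPolynomial.pderiv v (pot k g)) +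
      ε * ∑ θ, c θ * MvPolynomial.eval z (MvPolynomial.pderiv v (pot k (pm m θ))) := by
  rw [pot_gp]
  simp only [map_add, map_mul, map_sum, MvPolynomial.pderiv_C_mul, MvPolynomial.eval_C]

/-- The second derivatives. -/
theorem hess_gp (g : MvPolynomial (Fin n ⊕ Fin m) ℝ) (ε : ℝ) (c : Par n Q J → ℝ)
    (u v : Zk n m k) (z : Zk n m k → ℝ) :
    MvPolynomial.eval z (MvPolynomial.pderiv u (MvPolynomial.pderiv v (pot k (gp g ε c)))) =
      MvPolynomial.eval z (MvPolynomial.pderiv u (MvPolynomial.pderiv v (pot k g))) +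
      ε * ∑ θ, c θ * MvPolynomial.eval z
        (MvPolynomial.pderiv u (MvPolynomial.pderiv v (pot k (pm m θ)))) := by
  rw [pot_gp]
  simp only [map_add, map_mul, map_sum, MvPolynomial.pderiv_C_mul, MvPolynomial.eval_C]

end Pool.Agent.R537.IP
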